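import Pool.Agent.Lib_MP_033923_lc.Defs
import Pool.Agent.Lib_MP_42fe4d_lc.TM.Lite

set_option autoImplicit false

/-!
# From satisfiability to exact cover
-/

namespace Pool.Agent.JIT

open Pool.Agent.PartSep Pool.Agent.PartSep.TM Finset

/-- Exact covers, in terms of lists of descriptions of the sets and the elements. -/
theorem exactCover_list {α β : Type} [DecidableEq α] (A : List α) (B : List β) (hA : A.Nodup)
    (mem : α → β → Bool) :
    HasExactCover (fun i : Fin A.length =>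
      univ.filter (fun j : Fin B.length => mem (A.get i) (B.get j) = true)) ↔
    ∃ P : α → Prop, ∀ y ∈ B, ∃! x, (x ∈ A ∧ P x) ∧ mem x y = true := by
  classical
  have hinj : ∀ i i' : Fin A.length, A.get i = A.get i' → i = i' := fun i i' h =>
    List.nodup_iff_injective_get.1 hA h
  constructor
  · rintro ⟨T, hT⟩
    refine ⟨fun x => ∃ i ∈ T, A.get i = x, fun y hy => ?_⟩
    obtain ⟨j, rfl⟩ := List.mem_iff_get.1 hy
    obtain ⟨i, ⟨hi, hij⟩, huniq⟩ := hT j
    rw [mem_filter] at hij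
    refine ⟨A.get i, ⟨⟨List.get_mem _ _, i, hi, rfl⟩, hij.2⟩, ?_⟩
    rintro x ⟨⟨-, i', hi', rfl⟩, h⟩
    rw [huniq i' ⟨hi', mem_filter.2 ⟨mem_univ _, h⟩⟩]
  · rintro ⟨P, hP⟩
    refine ⟨univ.filter (fun i => P (A.get i)), fun j => ?_⟩
    obtain ⟨x, ⟨⟨hx, hPx⟩, hxy⟩, huniq⟩ := hP (B.get j) (List.get_mem _ _)
    obtain ⟨i, rfl⟩ := List.mem_iff_get.1 hx
    refine ⟨i, ⟨mem_filter.2 ⟨mem_univ _, hPx⟩, mem_filter.2 ⟨mem_univ _, hxy⟩⟩, ?_⟩
    rintro i' ⟨h1, h2⟩
    rw [mem_filter] at h1 h2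
    exact hinj _ _ (huniq _ ⟨⟨List.get_mem _ _, h1.2⟩, h2.2⟩)

/-- the occurrences of literals, each with the number of its clause -/
def occs (φ : CNF Name) : List (ℕ × (Name × Bool)) :=
  (List.range φ.length).flatMap (fun c => (φ[c]?.getD []).map (fun l => (c, l)))

theorem mem_occs {φ : CNF Name} {c : ℕ} {l : Name × Bool} :
    (c, l) ∈ occs φ ↔ ∃ h : c < φ.length, l ∈ φ[c] := by
  unfold occs
  rw [List.mem_flatMap]
  constructor
  · rintro ⟨c', hc', h⟩
    rw [List.mem_range] at hc'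
    rw [List.mem_map] at h
    obtain ⟨l', hl', h⟩ := h
    cases h
    rw [List.getElem?_eq_getElem hc', Option.getD_some] at hl'
    exact ⟨hc', hl'⟩
  · rintro ⟨h, hl⟩
    refine ⟨c, List.mem_range.2 h, List.mem_map.2 ⟨l, ?_, rfl⟩⟩
    rw [List.getElem?_eq_getElem h, Option.getD_some]
    exact hl

/-- the occurrence number `r` -/
def oc (O : List (ℕ × (Name × Bool))) (r : ℕ) : ℕ × (Name × Bool) := O[r]?.getD (0, ([], false))

/-- the first occurrence of its variable -/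
def isFst (O : List (ℕ × (Name × Bool))) (r : ℕ) : Bool :=
  (List.range r).all (fun r' => !decide ((oc O r').2.1 = (oc O r).2.1))

/-- the descriptions of the sets -/
def setD (N : ℕ) : List (ℕ × ℕ) :=
  (List.range 4).flatMap (fun k => (List.range N).map (fun o => (k, o))) ++ [(4, 0), (5, 0)]

/-- the descriptions of the elements -/
def elD (N M : ℕ) : List (ℕ × ℕ) :=
  (List.range 2).flatMap (fun k => (List.range N).map (fun o => (k, o))) ++
    ((List.range M).map (fun c => (2, c)) ++ [(3, 0), (4, 0)])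

/-- membership. The sets: `(0, o)`, `(1, o)` variable true or false, `(2, o)` the occurrence `o` is
chosen in its clause, `(3, o)` the occurrence `o` is true and not chosen, `(4, 0)`, `(5, 0)` two
auxiliary sets. The elements: `(0, o)` variable, `(1, o)` occurrence, `(2, c)` clause, `(3, 0)`,
`(4, 0)` auxiliary. -/
def memD (O : List (ℕ × (Name × Bool))) (s t : ℕ × ℕ) : Bool :=
  (decide (s.1 < 2) && ((decide (t.1 = 0) && decide (t.2 = s.2)) ||
    (decide (t.1 = 1) && (decide ((oc O t.2).2.1 = (oc O s.2).2.1) && (isFst O s.2 &&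
      !((oc O t.2).2.2 != decide (s.1 = 1))))))) ||
  ((decide (s.1 = 2) && ((decide (t.1 = 1) && decide (t.2 = s.2)) ||
    (decide (t.1 = 2) && decide (t.2 = (oc O s.2).1)))) ||
  ((decide (s.1 = 3) && (decide (t.1 = 1) && decide (t.2 = s.2))) ||
  ((decide (s.1 = 4) && (decide (t.1 = 3) || decide (t.1 = 4))) ||
  (decide (s.1 = 5) && (decide (t.1 = 3) || decide (t.1 = 2))))))

section correct

variable {O : List (ℕ × (Name × Bool))}

theorem memD_iff (s t : ℕ × ℕ) : memD O s t = true ↔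
    (s.1 < 2 ∧ ((t.1 = 0 ∧ t.2 = s.2) ∨ (t.1 = 1 ∧ (oc O t.2).2.1 = (oc O s.2).2.1 ∧
      isFst O s.2 = true ∧ (oc O t.2).2.2 = decide (s.1 = 1)))) ∨
    (s.1 = 2 ∧ ((t.1 = 1 ∧ t.2 = s.2) ∨ (t.1 = 2 ∧ t.2 = (oc O s.2).1))) ∨
    (s.1 = 3 ∧ t.1 = 1 ∧ t.2 = s.2) ∨
    (s.1 = 4 ∧ (t.1 = 3 ∨ t.1 = 4)) ∨
    (s.1 = 5 ∧ (t.1 = 3 ∨ t.1 = 2)) := by
  unfold memD
  simp only [Bool.or_eq_true, Bool.and_eq_true, decide_eq_true_eq, Bool.not_eq_true',
    bne_eq_false_iff_eq]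

theorem mem_setD {N : ℕ} {x : ℕ × ℕ} : x ∈ setD N ↔
    (x.1 < 4 ∧ x.2 < N) ∨ x = (4, 0) ∨ x = (5, 0) := by
  obtain ⟨k, o⟩ := x
  simp only [setD, List.mem_append, List.mem_flatMap, List.mem_map, List.mem_range,
    Prod.mk.injEq, List.mem_cons, List.not_mem_nil, or_false]
  constructor
  · rintro (⟨k', hk', o', ho', rfl, rfl⟩ | h)
    · exact Or.inl ⟨hk', ho'⟩
    · exact Or.inr h
  · rintro (⟨h1, h2⟩ | h)
    · exact Or.inl ⟨k, h1, o, h2, rfl, rfl⟩
    · exact Or.inr h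

theorem mem_elD {N M : ℕ} {x : ℕ × ℕ} : x ∈ elD N M ↔
    (x.1 < 2 ∧ x.2 < N) ∨ (x.1 = 2 ∧ x.2 < M) ∨ x = (3, 0) ∨ x = (4, 0) := by
  obtain ⟨k, o⟩ := x
  simp only [elD, List.mem_append, List.mem_flatMap, List.mem_map, List.mem_range,
    Prod.mk.injEq, List.mem_cons, List.not_mem_nil, or_false]
  constructor
  · rintro (⟨k', hk', o', ho', rfl, rfl⟩ | ⟨c, hc, rfl, rfl⟩ | h)
    · exact Or.inl ⟨hk', ho'⟩
    · exact Or.inr (Or.inl ⟨rfl, hc⟩)
    · exact Or.inr (Or.inr h)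
  · rintro (⟨h1, h2⟩ | ⟨h1, h2⟩ | h)
    · exact Or.inl ⟨k, h1, o, h2, rfl, rfl⟩
    · exact Or.inr (Or.inl ⟨o, h2, h1.symm, rfl⟩)
    · exact Or.inr (Or.inr h)

theorem nodup_setD (N : ℕ) : (setD N).Nodup := by
  unfold setD
  rw [List.nodup_append]
  refine ⟨?_, by decide, ?_⟩
  · rw [List.nodup_flatMap]
    refine ⟨fun k _ => List.Nodup.map (fun a b h => (Prod.mk.inj h).2) List.nodup_range, ?_⟩
    refine List.Pairwise.imp_of_mem ?_ List.nodup_range
    intro a b _ _ hab x hx hy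
    obtain ⟨o, -, rfl⟩ := List.mem_map.1 hx
    obtain ⟨o', -, h⟩ := List.mem_map.1 hy
    exact hab (Prod.mk.inj h).1.symm
  · rintro ⟨k, o⟩ hx b hb rfl
    simp only [List.mem_flatMap, List.mem_map, List.mem_range, Prod.mk.injEq] at hx
    obtain ⟨k', hk', o', ho', rfl, rfl⟩ := hx
    simp only [List.mem_cons, Prod.mk.injEq, List.not_mem_nil, or_false] at hb
    omega

/-- the first occurrence of the variable of the occurrence `r` -/
theorem exists_first (r : ℕ) : ∃ r' ≤ r, (oc O r').2.1 = (oc O r).2.1 ∧ isFst O r' = true := by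
  classical
  have hex : ∃ r', (oc O r').2.1 = (oc O r).2.1 := ⟨r, rfl⟩
  refine ⟨Nat.find hex, Nat.find_min' hex rfl, Nat.find_spec hex, ?_⟩
  unfold isFst
  rw [List.all_eq_true]
  intro q hq
  rw [List.mem_range] at hq
  have h1 := Nat.find_min hex hq
  rw [Nat.find_spec hex]
  simpa using h1

theorem first_unique {r r' : ℕ} (h : (oc O r).2.1 = (oc O r').2.1) (h1 : isFst O r = true)
    (h2 : isFst O r' = true) : r = r' := by
  unfold isFst at h1 h2
  rw [List.all_eq_true] at h1 h2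
  rcases lt_trichotomy r r' with hlt | heq | hgt
  · have := h2 r (List.mem_range.2 hlt)
    simp [h] at this
  · exact heq
  · have := h1 r' (List.mem_range.2 hgt)
    simp [h] at this

end correct

theorem oc_mem {O : List (ℕ × (Name × Bool))} {r : ℕ} (hr : r < O.length) : oc O r ∈ O := by
  unfold oc
  rw [List.getElem?_eq_getElem hr, Option.getD_some]
  exact List.getElem_mem hr

theorem exists_oc {O : List (ℕ × (Name × Bool))} {p : ℕ × (Name × Bool)} (hp : p ∈ O) :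
    ∃ r < O.length, oc O r = p := by
  obtain ⟨r, hr, rfl⟩ := List.mem_iff_getElem.1 hp
  exact ⟨r, hr, by unfold oc; rw [List.getElem?_eq_getElem hr, Option.getD_some]⟩

/-- every element belongs to a set -/
theorem cover_exists (O : List (ℕ × (Name × Bool))) (M : ℕ) : ∀ y ∈ elD O.length M,
    ∃ x ∈ setD O.length, memD O x y = true := by
  rintro ⟨k, o⟩ hy
  rw [mem_elD] at hy
  simp only at hy
  rcases hy with ⟨h1, h2⟩ | ⟨h1, h2⟩ | h | h
  · rcases (by omega : k = 0 ∨ k = 1) with rfl | rfl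
    · exact ⟨(0, o), mem_setD.2 (Or.inl ⟨by norm_num, h2⟩), (memD_iff _ _).2
        (Or.inl ⟨by norm_num, Or.inl ⟨rfl, rfl⟩⟩)⟩
    · exact ⟨(3, o), mem_setD.2 (Or.inl ⟨by norm_num, h2⟩), (memD_iff _ _).2
        (Or.inr (Or.inr (Or.inl ⟨rfl, rfl, rfl⟩)))⟩
  · subst h1
    exact ⟨(5, 0), mem_setD.2 (Or.inr (Or.inr rfl)), (memD_iff _ _).2
      (Or.inr (Or.inr (Or.inr (Or.inr ⟨rfl, Or.inr rfl⟩))))⟩
  · cases h
    exact ⟨(4, 0), mem_setD.2 (Or.inr (Or.inl rfl)), (memD_iff _ _).2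
      (Or.inr (Or.inr (Or.inr (Or.inl ⟨rfl, Or.inl rfl⟩))))⟩
  · cases h
    exact ⟨(4, 0), mem_setD.2 (Or.inr (Or.inl rfl)), (memD_iff _ _).2
      (Or.inr (Or.inr (Or.inr (Or.inl ⟨rfl, Or.inr rfl⟩))))⟩

/-- from an exact cover to an assignment -/
theorem sat_of_cover {φ : CNF Name} (P : ℕ × ℕ → Prop)
    (hP : ∀ y ∈ elD (occs φ).length φ.length,
      ∃! x, (x ∈ setD (occs φ).length ∧ P x) ∧ memD (occs φ) x y = true) :
    φ.Satisfiable := by
  classical
  set O := occs φ with hO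
  -- the auxiliary set `(5, 0)` is not chosen
  have h40 : P (4, 0) := by
    obtain ⟨x, ⟨⟨hx, hPx⟩, hm⟩, -⟩ := hP (4, 0) (mem_elD.2 (Or.inr (Or.inr (Or.inr rfl))))
    rw [memD_iff] at hm
    simp only at hm
    rw [mem_setD] at hx
    rcases hx with ⟨h1, h2⟩ | rfl | rfl
    · omega
    · exact hPx
    · norm_num at hm
  have h50 : ¬ P (5, 0) := by
    intro h5
    obtain ⟨x, -, hu⟩ := hP (3, 0) (mem_elD.2 (Or.inr (Or.inr (Or.inl rfl))))
    have e1 := hu (4, 0) ⟨⟨mem_setD.2 (Or.inr (Or.inl rfl)), h40⟩, (memD_iff _ _).2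
      (Or.inr (Or.inr (Or.inr (Or.inl ⟨rfl, Or.inl rfl⟩))))⟩
    have e2 := hu (5, 0) ⟨⟨mem_setD.2 (Or.inr (Or.inr rfl)), h5⟩, (memD_iff _ _).2
      (Or.inr (Or.inr (Or.inr (Or.inr ⟨rfl, Or.inl rfl⟩))))⟩
    rw [← e1] at e2
    cases e2
  -- the assignment
  let τ : Name → Bool := fun v => decide (∃ r < O.length, (oc O r).2.1 = v ∧ isFst O r = true ∧
    P (0, r))
  refine ⟨τ, fun c hc => ?_⟩
  obtain ⟨ci, hci, rfl⟩ := List.mem_iff_getElem.1 hc
  obtain ⟨x, ⟨⟨hx, hPx⟩, hm⟩, -⟩ := hP (2, ci) (mem_elD.2 (Or.inr (Or.inl ⟨rfl, hci⟩)))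
  rw [memD_iff] at hm
  rw [mem_setD] at hx
  obtain ⟨k, o⟩ := x
  simp only [Prod.mk.injEq] at hm hx
  have hk2 : k = 2 ∧ ci = (oc O o).1 := by
    rcases hm with ⟨-, ⟨h, -⟩ | ⟨h, -⟩⟩ | ⟨h, ⟨h', -⟩ | ⟨-, h'⟩⟩ | ⟨-, h, -⟩ | ⟨-, h | h⟩ |
      ⟨h, -⟩
    · omega
    · omega
    · omega
    · exact ⟨h, h'⟩
    · omega
    · omega
    · omega
    · subst h
      rcases hx with ⟨h1, -⟩ | ⟨h1, -⟩ | ⟨-, h2⟩
      · omega
      · omega
      · subst h2; exact absurd hPx h50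
  obtain ⟨rfl, hcl⟩ := hk2
  have ho : o < O.length := by
    rcases hx with ⟨-, h2⟩ | ⟨h1, -⟩ | ⟨h1, -⟩
    · exact h2
    · omega
    · omega
  have hmem : (ci, (oc O o).2) ∈ occs φ := by
    have h1 := oc_mem ho
    have h2 : oc O o = (ci, (oc O o).2) := by rw [hcl]
    rw [h2] at h1
    exact h1
  obtain ⟨hh, hl⟩ := mem_occs.1 hmem
  refine ⟨(oc O o).2, hl, ?_⟩
  -- the variable
  obtain ⟨r, hr, hnm, hfst⟩ := exists_first (O := O) o
  have hr' : r < O.length := lt_of_le_of_lt hr ho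
  -- neither variable set covering the occurrence is chosen
  obtain ⟨z, -, hu⟩ := hP (1, o) (mem_elD.2 (Or.inl ⟨by norm_num, ho⟩))
  have e1 := hu (2, o) ⟨⟨mem_setD.2 (Or.inl ⟨by norm_num, ho⟩), hPx⟩, (memD_iff _ _).2
    (Or.inr (Or.inl ⟨rfl, Or.inl ⟨rfl, rfl⟩⟩))⟩
  have hτ : τ (oc O o).2.1 = true ↔ P (0, r) := by
    simp only [τ, decide_eq_true_eq]
    constructor
    · rintro ⟨q, -, h1, h2, h3⟩
      have : q = r := first_unique (h1.trans hnm.symm) h2 hfst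
      rwa [this] at h3
    · intro h
      exact ⟨r, hr', hnm, hfst, h⟩
  cases hs : (oc O o).2.2 with
  | true =>
    -- `(1, r)` is not chosen, hence `(0, r)` is
    have hn1 : ¬ P (1, r) := by
      intro h
      have e2 := hu (1, r) ⟨⟨mem_setD.2 (Or.inl ⟨by norm_num, hr'⟩), h⟩, (memD_iff _ _).2
        (Or.inl ⟨by norm_num, Or.inr ⟨rfl, hnm.symm, hfst, by simp [hs]⟩⟩)⟩
      rw [← e1] at e2
      cases e2
    rw [hτ]
    obtain ⟨x', ⟨⟨hx', hPx'⟩, hm'⟩, -⟩ := hP (0, r) (mem_elD.2 (Or.inl ⟨by norm_num, hr'⟩))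
    rw [memD_iff] at hm'
    obtain ⟨k', o'⟩ := x'
    simp only at hm'
    rcases hm' with ⟨h1, ⟨-, h2⟩ | ⟨h, -⟩⟩ | ⟨-, ⟨h, -⟩ | ⟨h, -⟩⟩ | ⟨-, h, -⟩ | ⟨-, h | h⟩ |
      ⟨-, h | h⟩
    · subst h2
      rcases (by omega : k' = 0 ∨ k' = 1) with rfl | rfl
      · exact hPx'
      · exact absurd hPx' hn1
    all_goals omega
  | false =>
    have hn0 : ¬ P (0, r) := by
      intro h
      have e2 := hu (0, r) ⟨⟨mem_setD.2 (Or.inl ⟨by norm_num, hr'⟩), h⟩, (memD_iff _ _).2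
        (Or.inl ⟨by norm_num, Or.inr ⟨rfl, hnm.symm, hfst, by simp [hs]⟩⟩)⟩
      rw [← e1] at e2
      cases e2
    rw [← hτ, Bool.not_eq_true] at hn0
    exact hn0

/-- from an assignment to an exact cover -/
theorem cover_of_sat {φ : CNF Name} (h : φ.Satisfiable) :
    ∃ P : ℕ × ℕ → Prop, ∀ y ∈ elD (occs φ).length φ.length,
      ∃! x, (x ∈ setD (occs φ).length ∧ P x) ∧ memD (occs φ) x y = true := by
  classical
  obtain ⟨τ, hτ⟩ := h
  set O := occs φ with hO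
  -- the chosen occurrences
  have hch : ∀ c, ∃ o, c < φ.length → o < O.length ∧ (oc O o).1 = c ∧
      τ (oc O o).2.1 = (oc O o).2.2 := by
    intro c
    by_cases hc : c < φ.length
    · obtain ⟨l, hl, hlt⟩ := hτ _ (List.getElem_mem hc)
      obtain ⟨o, ho, ho'⟩ := exists_oc (mem_occs.2 ⟨hc, hl⟩)
      exact ⟨o, fun _ => ⟨ho, by rw [ho'], by rw [ho']; exact hlt⟩⟩
    · exact ⟨0, fun h => absurd h hc⟩
  choose ch hch using hch
  have hcl : ∀ o < O.length, (oc O o).1 < φ.length := by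
    intro o ho
    have h1 := oc_mem ho
    obtain ⟨h2, -⟩ := mem_occs.1 (show ((oc O o).1, (oc O o).2) ∈ occs φ from h1)
    exact h2
  refine ⟨fun x => (x.1 = 0 ∧ τ (oc O x.2).2.1 = true) ∨ (x.1 = 1 ∧ τ (oc O x.2).2.1 = false) ∨
    (x.1 = 2 ∧ x.2 = ch (oc O x.2).1) ∨
    (x.1 = 3 ∧ τ (oc O x.2).2.1 = (oc O x.2).2.2 ∧ x.2 ≠ ch (oc O x.2).1) ∨ x.1 = 4, ?_⟩
  rintro ⟨k, o⟩ hy
  rw [mem_elD] at hy
  simp only [Prod.mk.injEq] at hy
  rcases hy with ⟨h1, h2⟩ | ⟨rfl, h2⟩ | ⟨rfl, rfl⟩ | ⟨rfl, rfl⟩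
  · rcases (by omega : k = 0 ∨ k = 1) with rfl | rfl
    · -- a variable
      have huniq : ∀ x : ℕ × ℕ, memD O x (0, o) = true → x.1 < 2 ∧ x.2 = o := by
        intro x hm
        rw [memD_iff] at hm
        simp only at hm
        rcases hm with ⟨h1, ⟨-, h2⟩ | ⟨h, -⟩⟩ | ⟨-, ⟨h, -⟩ | ⟨h, -⟩⟩ | ⟨-, h, -⟩ | ⟨-, h | h⟩ |
          ⟨-, h | h⟩
        · exact ⟨h1, h2.symm⟩
        all_goals omega
      cases hv : τ (oc O o).2.1 with
      | true =>
        refine ⟨(0, o), ⟨⟨mem_setD.2 (Or.inl ⟨by norm_num, h2⟩), Or.inl ⟨rfl, hv⟩⟩,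
          (memD_iff _ _).2 (Or.inl ⟨by norm_num, Or.inl ⟨rfl, rfl⟩⟩)⟩, ?_⟩
        rintro ⟨a, b⟩ ⟨⟨-, hp⟩, hm⟩
        obtain ⟨h3, h4⟩ := huniq _ hm
        simp only at h3 h4 hp
        subst h4
        rw [hv] at hp
        rcases hp with ⟨rfl, -⟩ | ⟨-, h⟩ | ⟨h, -⟩ | ⟨h, -⟩ | h
        · rfl
        · cases h
        · omega
        · omega
        · omega
      | false =>
        refine ⟨(1, o), ⟨⟨mem_setD.2 (Or.inl ⟨by norm_num, h2⟩), Or.inr (Or.inl ⟨rfl, hv⟩)⟩,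
          (memD_iff _ _).2 (Or.inl ⟨by norm_num, Or.inl ⟨rfl, rfl⟩⟩)⟩, ?_⟩
        rintro ⟨a, b⟩ ⟨⟨-, hp⟩, hm⟩
        obtain ⟨h3, h4⟩ := huniq _ hm
        simp only at h3 h4 hp
        subst h4
        rw [hv] at hp
        rcases hp with ⟨-, h⟩ | ⟨rfl, -⟩ | ⟨h, -⟩ | ⟨h, -⟩ | h
        · cases h
        · rfl
        · omega
        · omega
        · omega
    · -- an occurrence
      have huniq : ∀ x : ℕ × ℕ, memD O x (1, o) = true →
          (x.1 < 2 ∧ (oc O o).2.1 = (oc O x.2).2.1 ∧ isFst O x.2 = true ∧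
            (oc O o).2.2 = decide (x.1 = 1)) ∨ (x.1 = 2 ∧ x.2 = o) ∨ (x.1 = 3 ∧ x.2 = o) := by
        intro x hm
        rw [memD_iff] at hm
        simp only at hm
        rcases hm with ⟨h1, ⟨h, -⟩ | ⟨-, h⟩⟩ | ⟨h1, ⟨-, h⟩ | ⟨h, -⟩⟩ | ⟨h1, -, h⟩ |
          ⟨-, h | h⟩ | ⟨-, h | h⟩
        · omega
        · exact Or.inl ⟨h1, h⟩
        · exact Or.inr (Or.inl ⟨h1, h.symm⟩)
        · omega
        · exact Or.inr (Or.inr ⟨h1, h.symm⟩)
        all_goals omega
      by_cases htrue : τ (oc O o).2.1 = (oc O o).2.2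
      · -- a true occurrence
        have hno : ∀ x : ℕ × ℕ, ((x.1 = 0 ∧ τ (oc O x.2).2.1 = true) ∨
            (x.1 = 1 ∧ τ (oc O x.2).2.1 = false)) →
            ¬ ((oc O o).2.1 = (oc O x.2).2.1 ∧ (oc O o).2.2 = decide (x.1 = 1)) := by
          rintro x (⟨h3, h4⟩ | ⟨h3, h4⟩) ⟨h5, h6⟩
          · rw [← h5, htrue, h6, h3] at h4
            simp at h4
          · rw [← h5, htrue, h6, h3] at h4
            simp at h4
        by_cases hc : o = ch (oc O o).1
        · refine ⟨(2, o), ⟨⟨mem_setD.2 (Or.inl ⟨by norm_num, h2⟩),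
            Or.inr (Or.inr (Or.inl ⟨rfl, hc⟩))⟩, (memD_iff _ _).2
              (Or.inr (Or.inl ⟨rfl, Or.inl ⟨rfl, rfl⟩⟩))⟩, ?_⟩
          rintro ⟨a, b⟩ ⟨⟨-, hp⟩, hm⟩
          have hu := huniq _ hm
          simp only at hu hp
          rcases hu with ⟨h3, h4, -, h5⟩ | ⟨rfl, rfl⟩ | ⟨rfl, rfl⟩
          · exfalso
            refine hno (a, b) ?_ ⟨h4, h5⟩
            rcases hp with hp | hp | ⟨h, -⟩ | ⟨h, -⟩ | h
            · exact Or.inl hp
            · exact Or.inr hp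
            · omega
            · omega
            · omega
          · rfl
          · exfalso
            rcases hp with ⟨h, -⟩ | ⟨h, -⟩ | ⟨h, -⟩ | ⟨-, -, h⟩ | h
            · omega
            · omega
            · omega
            · exact h hc
            · omega
        · refine ⟨(3, o), ⟨⟨mem_setD.2 (Or.inl ⟨by norm_num, h2⟩),
            Or.inr (Or.inr (Or.inr (Or.inl ⟨rfl, htrue, hc⟩)))⟩, (memD_iff _ _).2
              (Or.inr (Or.inr (Or.inl ⟨rfl, rfl, rfl⟩)))⟩, ?_⟩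
          rintro ⟨a, b⟩ ⟨⟨-, hp⟩, hm⟩
          have hu := huniq _ hm
          simp only at hu hp
          rcases hu with ⟨h3, h4, -, h5⟩ | ⟨rfl, rfl⟩ | ⟨rfl, rfl⟩
          · exfalso
            refine hno (a, b) ?_ ⟨h4, h5⟩
            rcases hp with hp | hp | ⟨h, -⟩ | ⟨h, -⟩ | h
            · exact Or.inl hp
            · exact Or.inr hp
            · omega
            · omega
            · omega
          · exfalso
            rcases hp with ⟨h, -⟩ | ⟨h, -⟩ | ⟨-, h⟩ | ⟨h, -⟩ | h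
            · omega
            · omega
            · exact hc h
            · omega
            · omega
          · rfl
      · -- a false occurrence
        obtain ⟨r, hr, hnm, hfst⟩ := exists_first (O := O) o
        have hr' : r < O.length := lt_of_le_of_lt hr h2
        have hfalse : ∀ x : ℕ × ℕ, ¬ ((x.1 = 2 ∧ x.2 = ch (oc O x.2).1) ∧ x.2 = o) := by
          rintro x ⟨⟨-, h⟩, h'⟩
          rw [h'] at h
          have h3 := (hch _ (hcl o h2)).2.2
          rw [← h] at h3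
          exact htrue h3
        cases hs : (oc O o).2.2 with
        | true =>
          have hv : τ (oc O r).2.1 = false := by
            rw [hnm]
            rw [hs] at htrue
            simpa using htrue
          refine ⟨(1, r), ⟨⟨mem_setD.2 (Or.inl ⟨by norm_num, hr'⟩), Or.inr (Or.inl ⟨rfl, hv⟩)⟩,
            (memD_iff _ _).2 (Or.inl ⟨by norm_num, Or.inr ⟨rfl, hnm.symm, hfst,
              by simp [hs]⟩⟩)⟩, ?_⟩
          rintro ⟨a, b⟩ ⟨⟨-, hp⟩, hm⟩
          have hu := huniq _ hm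
          simp only at hu hp
          rcases hu with ⟨h3, h4, h5, h6⟩ | ⟨rfl, rfl⟩ | ⟨rfl, rfl⟩
          · rw [hs] at h6
            have ha : a = 1 := by
              have := h6.symm
              simpa using this
            have hb : b = r := first_unique (h4.symm.trans hnm.symm) h5 hfst
            rw [ha, hb]
          · exfalso
            rcases hp with ⟨h, -⟩ | ⟨h, -⟩ | ⟨-, h⟩ | ⟨h, -⟩ | h
            · omega
            · omega
            · exact hfalse (2, b) ⟨⟨rfl, h⟩, rfl⟩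
            · omega
            · omega
          · exfalso
            rcases hp with ⟨h, -⟩ | ⟨h, -⟩ | ⟨h, -⟩ | ⟨-, h, -⟩ | h
            · omega
            · omega
            · omega
            · exact htrue h
            · omega
        | false =>
          have hv : τ (oc O r).2.1 = true := by
            rw [hnm]
            rw [hs] at htrue
            simpa using htrue
          refine ⟨(0, r), ⟨⟨mem_setD.2 (Or.inl ⟨by norm_num, hr'⟩), Or.inl ⟨rfl, hv⟩⟩,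
            (memD_iff _ _).2 (Or.inl ⟨by norm_num, Or.inr ⟨rfl, hnm.symm, hfst,
              by simp [hs]⟩⟩)⟩, ?_⟩
          rintro ⟨a, b⟩ ⟨⟨-, hp⟩, hm⟩
          have hu := huniq _ hm
          simp only at hu hp
          rcases hu with ⟨h3, h4, h5, h6⟩ | ⟨rfl, rfl⟩ | ⟨rfl, rfl⟩
          · rw [hs] at h6
            have ha : a = 0 := by
              have : ¬ a = 1 := by
                have := h6.symm
                simpa using this
              omega
            have hb : b = r := first_unique (h4.symm.trans hnm.symm) h5 hfst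
            rw [ha, hb]
          · exfalso
            rcases hp with ⟨h, -⟩ | ⟨h, -⟩ | ⟨-, h⟩ | ⟨h, -⟩ | h
            · omega
            · omega
            · exact hfalse (2, b) ⟨⟨rfl, h⟩, rfl⟩
            · omega
            · omega
          · exfalso
            rcases hp with ⟨h, -⟩ | ⟨h, -⟩ | ⟨h, -⟩ | ⟨-, h, -⟩ | h
            · omega
            · omega
            · omega
            · exact htrue h
            · omega
  · -- a clause
    obtain ⟨h3, h4, h5⟩ := hch o h2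
    refine ⟨(2, ch o), ⟨⟨mem_setD.2 (Or.inl ⟨by norm_num, h3⟩),
      Or.inr (Or.inr (Or.inl ⟨rfl, by simp only; rw [h4]⟩))⟩, (memD_iff _ _).2
        (Or.inr (Or.inl ⟨rfl, Or.inr ⟨rfl, h4.symm⟩⟩))⟩, ?_⟩
    rintro ⟨a, b⟩ ⟨⟨-, hp⟩, hm⟩
    rw [memD_iff] at hm
    simp only at hm hp
    rcases hm with ⟨-, ⟨h, -⟩ | ⟨h, -⟩⟩ | ⟨h6, ⟨h, -⟩ | ⟨-, h7⟩⟩ | ⟨-, h, -⟩ | ⟨-, h | h⟩ |
      ⟨h6, h | h⟩
    · omega
    · omega
    · omega
    · subst h6
      rcases hp with ⟨h, -⟩ | ⟨h, -⟩ | ⟨-, h⟩ | ⟨h, -⟩ | h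
      · omega
      · omega
      · rw [← h7] at h
        rw [h]
      · omega
      · omega
    · omega
    · omega
    · omega
    · omega
    · exfalso
      subst h6
      rcases hp with ⟨h, -⟩ | ⟨h, -⟩ | ⟨h, -⟩ | ⟨h, -⟩ | h <;> omega
  · refine ⟨(4, 0), ⟨⟨mem_setD.2 (Or.inr (Or.inl rfl)),
      Or.inr (Or.inr (Or.inr (Or.inr rfl)))⟩, (memD_iff _ _).2
        (Or.inr (Or.inr (Or.inr (Or.inl ⟨rfl, Or.inl rfl⟩))))⟩, ?_⟩
    rintro ⟨a, b⟩ ⟨⟨hx, hp⟩, hm⟩
    rw [memD_iff] at hm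
    rw [mem_setD] at hx
    simp only [Prod.mk.injEq] at hm hp hx ⊢
    omega
  · refine ⟨(4, 0), ⟨⟨mem_setD.2 (Or.inr (Or.inl rfl)),
      Or.inr (Or.inr (Or.inr (Or.inr rfl)))⟩, (memD_iff _ _).2
        (Or.inr (Or.inr (Or.inr (Or.inl ⟨rfl, Or.inr rfl⟩))))⟩, ?_⟩
    rintro ⟨a, b⟩ ⟨⟨hx, hp⟩, hm⟩
    rw [memD_iff] at hm
    rw [mem_setD] at hx
    simp only [Prod.mk.injEq] at hm hp hx ⊢
    omega

/-- the family of sets -/
def famC (φ : CNF Name) (i : Fin (setD (occs φ).length).length) :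
    Finset (Fin (elD (occs φ).length φ.length).length) :=
  univ.filter (fun j => memD (occs φ) ((setD (occs φ).length).get i)
    ((elD (occs φ).length φ.length).get j) = true)

theorem famC_cover (φ : CNF Name) : ∀ y, ∃ x, y ∈ famC φ x := by
  intro y
  obtain ⟨x, hx, hm⟩ := cover_exists (occs φ) φ.length
    ((elD (occs φ).length φ.length).get y) (List.get_mem _ _)
  obtain ⟨i, rfl⟩ := List.mem_iff_get.1 hx
  exact ⟨i, mem_filter.2 ⟨mem_univ _, hm⟩⟩

theorem famC_iff (φ : CNF Name) : HasExactCover (famC φ) ↔ φ.Satisfiable := by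
  have h := exactCover_list (setD (occs φ).length) (elD (occs φ).length φ.length)
    (nodup_setD _) (memD (occs φ))
  refine h.trans ⟨fun ⟨P, hP⟩ => sat_of_cover P hP, cover_of_sat⟩

end Pool.Agent.JIT
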