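import Pool.Agent.Lib_MP_033923_np.Code
import Pool.Agent.Lib_MP_033923_np.CoverSat

set_option autoImplicit false

/-!
# The instance of a formula is computed in polynomial time
-/

namespace Pool.Agent.JIT

open Pool.Agent.PartSep Pool.Agent.PartSep.TM Pool.Agent.PartSep.TM.Rep
  Pool.Agent.Lib_MP_8cd8c6_lc N487b59b3

set_option synthInstance.maxSize 2000

variable {E F G : Type} [Rep E] [Rep F] [Rep G]

/-! ### The descriptions of the sets and elements -/

theorem fp_occs {φ : E → CNF Name} (hφ : FP φ) : FP (fun x => occs (φ x)) := by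
  unfold occs
  refine FP.flatMapE (FP.range (FP.lengthE hφ))
    (g := fun y : E × ℕ => ((φ y.1)[y.2]?.getD []).map (fun l => (y.2, l))) ?_
  exact FP.mapE (FP.getE (FP.comp hφ FP.fst) FP.snd [])
    (g := fun z : (E × ℕ) × (Name × Bool) => (z.1.2, z.2))
    (FP.pair (FP.comp FP.snd FP.fst) FP.snd)

theorem fp_oc {O : E → List (ℕ × (Name × Bool))} (hO : FP O) {r : E → ℕ} (hr : FP r) :
    FP (fun x => oc (O x) (r x)) := FP.getE hO hr _

theorem fp_isFst {O : E → List (ℕ × (Name × Bool))} (hO : FP O) {r : E → ℕ} (hr : FP r) :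
    FP (fun x => isFst (O x) (r x)) := by
  unfold isFst
  refine fp_allE (FP.range hr) (p := fun y : E × ℕ =>
    !decide ((oc (O y.1) y.2).2.1 = (oc (O y.1) (r y.1)).2.1)) ?_
  exact FP.not (FP.eqS
    (FP.comp FP.fst (FP.comp FP.snd (fp_oc (FP.comp hO FP.fst) FP.snd)))
    (FP.comp FP.fst (FP.comp FP.snd (fp_oc (FP.comp hO FP.fst) (FP.comp hr FP.fst)))))

theorem fp_setD {N : E → ℕ} (hN : FP N) : FP (fun x => setD (N x)) := by
  unfold setD
  refine FP.appendE ?_ (FP.const _)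
  refine FP.flatMapE (FP.const _)
    (g := fun y : E × ℕ => (List.range (N y.1)).map (fun o => (y.2, o))) ?_
  exact FP.mapE (FP.range (FP.comp hN FP.fst)) (g := fun z : (E × ℕ) × ℕ => (z.1.2, z.2))
    (FP.pair (FP.comp FP.snd FP.fst) FP.snd)

theorem fp_elD {N M : E → ℕ} (hN : FP N) (hM : FP M) : FP (fun x => elD (N x) (M x)) := by
  unfold elD
  refine FP.appendE ?_ (FP.appendE ?_ (FP.const _))
  · refine FP.flatMapE (FP.const _)
      (g := fun y : E × ℕ => (List.range (N y.1)).map (fun o => (y.2, o))) ?_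
    exact FP.mapE (FP.range (FP.comp hN FP.fst)) (g := fun z : (E × ℕ) × ℕ => (z.1.2, z.2))
      (FP.pair (FP.comp FP.snd FP.fst) FP.snd)
  · exact FP.mapE (FP.range hM) (g := fun z : E × ℕ => (2, z.2)) (FP.pair (FP.const 2) FP.snd)

theorem fp_memD {O : E → List (ℕ × (Name × Bool))} (hO : FP O) {s t : E → ℕ × ℕ} (hs : FP s)
    (ht : FP t) : FP (fun x => memD (O x) (s x) (t x)) := by
  have s1 := FP.comp FP.fst hs
  have s2 := FP.comp FP.snd hs
  have t1 := FP.comp FP.fst ht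
  have t2 := FP.comp FP.snd ht
  have os := fp_oc hO s2
  have ot := fp_oc hO t2
  have eqk : ∀ {f : E → ℕ}, FP f → ∀ k : ℕ, FP (fun x => decide (f x = k)) :=
    fun hf k => FP.natEq hf (FP.const k)
  unfold memD
  refine FP.or (FP.and (FP.natLt s1 (FP.const 2)) (FP.or (FP.and (eqk t1 0) (FP.natEq t2 s2))
    (FP.and (eqk t1 1) (FP.and (FP.eqS (FP.comp FP.fst (FP.comp FP.snd ot))
      (FP.comp FP.fst (FP.comp FP.snd os))) (FP.and (fp_isFst hO s2)
        (FP.not (FP.bne (FP.comp FP.snd (FP.comp FP.snd ot)) (eqk s1 1))))))))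
    (FP.or (FP.and (eqk s1 2) (FP.or (FP.and (eqk t1 1) (FP.natEq t2 s2))
      (FP.and (eqk t1 2) (FP.natEq t2 (FP.comp FP.fst os)))))
    (FP.or (FP.and (eqk s1 3) (FP.and (eqk t1 1) (FP.natEq t2 s2)))
    (FP.or (FP.and (eqk s1 4) (FP.or (eqk t1 3) (eqk t1 4)))
      (FP.and (eqk s1 5) (FP.or (eqk t1 3) (eqk t1 2))))))

/-! ### The numbers -/

/-- evaluation of a linear polynomial with natural coefficients, as a binary number -/
theorem fp_mulB {f g : E → ℕ} (hf : FP (fun x => (⟨f x⟩ : Bi))) (hg : FP (fun x => (⟨g x⟩ : Bi))) :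
    FP (fun x => (⟨f x * g x⟩ : Bi)) := fp_mul hf hg

theorem fp_addB {f g : E → ℕ} (hf : FP (fun x => (⟨f x⟩ : Bi))) (hg : FP (fun x => (⟨g x⟩ : Bi))) :
    FP (fun x => (⟨f x + g x⟩ : Bi)) := fp_add hf hg

theorem fp_subB {f g : E → ℕ} (hf : FP (fun x => (⟨f x⟩ : Bi))) (hg : FP (fun x => (⟨g x⟩ : Bi))) :
    FP (fun x => (⟨f x - g x⟩ : Bi)) := fp_sub hf hg

theorem fp_divB {f g : E → ℕ} (hf : FP (fun x => (⟨f x⟩ : Bi))) (hg : FP (fun x => (⟨g x⟩ : Bi))) :
    FP (fun x => (⟨f x / g x⟩ : Bi)) := fp_div hf hg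

/-- binary from binary -/
abbrev FPB (f : E → ℕ) : Prop := FP (fun x => (⟨f x⟩ : Bi))

theorem fpb_const (n : ℕ) : FPB (fun _ : E => n) := FP.const _

theorem fpb_comp {f : F → ℕ} (hf : FPB f) {g : E → F} (hg : FP g) : FPB (fun x => f (g x)) :=
  FP.comp (g := fun y => (⟨f y⟩ : Bi)) hf hg

theorem fpb_ite {p : E → Prop} [∀ x, Decidable (p x)] (hp : FP (fun x => decide (p x)))
    {f g : E → ℕ} (hf : FPB f) (hg : FPB g) : FPB (fun x => if p x then f x else g x) :=
  (fp_ifB hp hf hg).congr (fun x => by by_cases h : p x <;> simp [h])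

section numbers

variable {m e : E → ℕ}

theorem fp_modN (hm : FP m) (he : FP e) {j : E → ℕ} (hj : FP j) :
    FPB (fun x => modN (m x) (e x) (j x)) := by
  unfold modN
  exact fp_addB (fpb_const 1) (fp_mulB (fp_ofNat (FP.add (FP.add hm he) (FP.const 2)))
    (fp_mulB (fp_ofNat (FP.add hj (FP.const 1))) (fp_factorial hm)))

theorem fp_LN (hm : FP m) (he : FP e) : FPB (fun x => LN (m x) (e x)) := by
  unfold LN
  exact fp_prodRange hm (g := fun y : E × ℕ => (⟨modN (m y.1) (e y.1) y.2⟩ : Bi))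
    (fp_modN (FP.comp hm FP.fst) (FP.comp he FP.fst) FP.snd)

theorem fp_uN (hm : FP m) (he : FP e) {inc : E → ℕ → ℕ → Bool}
    (hinc : FP (fun y : E × (ℕ × ℕ) => inc y.1 y.2.1 y.2.2)) {j : E → ℕ} (hj : FP j) :
    FPB (fun x => uN (m x) (e x) (inc x) (j x)) := by
  unfold uN
  refine fpb_ite (FP.natLt hj hm) (fp_divB (fp_LN hm he) (fp_modN hm he hj)) ?_
  refine fp_sumRange hm (g := fun y : E × ℕ => (⟨(inc y.1 y.2 (j y.1 - m y.1)).toNat *
    (((y.2 + 1) * (m y.1).factorial) * (LN (m y.1) (e y.1) / modN (m y.1) (e y.1) y.2))⟩ : Bi)) ?_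
  have hm' : FP (fun y : E × ℕ => m y.1) := FP.comp hm FP.fst
  have he' : FP (fun y : E × ℕ => e y.1) := FP.comp he FP.fst
  have hj' : FP (fun y : E × ℕ => j y.1) := FP.comp hj FP.fst
  refine fp_mulB (fp_natToBool ?_) (fp_mulB (fp_mulB (fp_ofNat (FP.add FP.snd (FP.const 1)))
    (fp_factorial hm')) (fp_divB (fp_LN hm' he') (fp_modN hm' he' FP.snd)))
  exact FP.comp (g := fun y : E × (ℕ × ℕ) => inc y.1 y.2.1 y.2.2)
    (f := fun y : E × ℕ => (y.1, (y.2, j y.1 - m y.1))) hinc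
    (FP.pair FP.fst (FP.pair FP.snd (FP.sub hj' hm')))

theorem fp_DN (hm : FP m) (he : FP e) : FPB (fun x => DN (m x) (e x)) := by
  unfold DN
  exact fp_mulB (fp_ofNat (FP.mul (FP.add (FP.add hm he) (FP.const 1))
    (FP.add (FP.add hm he) (FP.const 2)))) (fp_LN hm he)

theorem fpb_pow2 {f : E → ℕ} (hf : FPB f) : FPB (fun x => f x ^ 2) :=
  (fp_mulB hf hf).congr (fun x => by
    change (⟨f x * f x⟩ : Bi) = ⟨f x ^ 2⟩
    rw [sq])

theorem fp_penS (hm : FP m) (he : FP e) :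
    FPB (fun x => penS (2 * (m x + e x) + 2) (DN (m x) (e x))) := by
  unfold penS
  exact fp_mulB (fp_DN hm he) (fp_addB (fp_mulB (fp_ofNat (FP.add (FP.mul (FP.const 2)
    (FP.add hm he)) (FP.const 2))) (fpb_pow2 (fp_DN hm he))) (fpb_const 1))

theorem fp_penO (hm : FP m) (he : FP e) :
    FPB (fun x => penO (2 * (m x + e x) + 2) (DN (m x) (e x))) := by
  unfold penO
  exact fp_mulB (fp_DN hm he) (fp_addB (fp_addB (fp_mulB (fp_ofNat (FP.add (FP.mul (FP.const 2)
    (FP.add hm he)) (FP.const 2))) (fpb_pow2 (fp_DN hm he)))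
      (fp_mulB (fp_DN hm he) (fp_penS hm he))) (fpb_const 1))

theorem fp_instN (hm : FP m) (he : FP e) {inc : E → ℕ → ℕ → Bool}
    (hinc : FP (fun y : E × (ℕ × ℕ) => inc y.1 y.2.1 y.2.2)) :
    FP (fun x => (instN (m x) (e x) (inc x)).map toTB) := by
  have hk : FP (fun x => m x + e x) := FP.add hm he
  have hm' : FP (fun y : E × ℕ => m y.1) := FP.comp hm FP.fst
  have he' : FP (fun y : E × ℕ => e y.1) := FP.comp he FP.fst
  have hinc' : FP (fun y : (E × ℕ) × (ℕ × ℕ) => inc y.1.1 y.2.1 y.2.2) :=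
    FP.comp (g := fun y : E × (ℕ × ℕ) => inc y.1 y.2.1 y.2.2)
      (f := fun y : (E × ℕ) × (ℕ × ℕ) => (y.1.1, y.2)) hinc
      (FP.pair (FP.comp FP.fst FP.fst) FP.snd)
  have hu : FPB (fun y : E × ℕ => uN (m y.1) (e y.1) (inc y.1) y.2) :=
    fp_uN hm' he' (inc := fun y : E × ℕ => inc y.1) hinc' FP.snd
  have hk2 : FPB (fun y : E × ℕ => m y.1 + e y.1 + 2) :=
    fp_ofNat (FP.add (FP.add hm' he') (FP.const 2))
  have hk12 : FPB (fun y : E × ℕ => (m y.1 + e y.1 + 1) * (m y.1 + e y.1 + 2)) :=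
    fp_ofNat (FP.mul (FP.add (FP.add hm' he') (FP.const 1)) (FP.add (FP.add hm' he') (FP.const 2)))
  have hlow : FP (fun y : E × ℕ => toTB (lowN (m y.1) (e y.1) (inc y.1) y.2)) := by
    unfold lowN toTB
    refine FP.pair (fp_mulB hk2 hu) (FP.pair (fp_subB (fp_addB (fp_DN hm' he') (fp_mulB hk12 ?_))
      (fpb_const 1)) (fp_penO hm' he'))
    unfold loN
    exact fpb_ite (FP.natLt FP.snd hm') (fpb_const 0) (fpb_const 1)
  have hupp : FP (fun y : E × ℕ => toTB (uppN (m y.1) (e y.1) (inc y.1) y.2)) := by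
    unfold uppN toTB
    refine FP.pair (fp_mulB hk2 (fp_subB (fp_LN hm' he') hu)) (FP.pair (fp_subB (fp_subB
      (fp_DN hm' he') (fp_mulB hk12 ?_)) (fpb_const 1)) (fp_penO hm' he'))
    unfold hiN
    exact fpb_ite (FP.natLt FP.snd hm') (fp_divB (fp_LN hm' he') (fp_modN hm' he' FP.snd))
      (fp_divB (fp_LN hm' he') hk2)
  have hsp : FP (fun x => toTB (spN (m x) (e x))) := by
    unfold spN toTB
    exact FP.pair (FP.const _) (FP.pair (FP.const _) (fp_penS hm he))
  have hfi : FP (fun x => toTB (fiN (m x) (e x))) := by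
    unfold fiN toTB
    refine FP.pair (fp_subB (fp_mulB (fp_ofNat (FP.add hk (FP.const 2))) (fp_LN hm he))
      (fpb_const 1)) (FP.pair (fp_mulB (fp_ofNat (FP.mul hk (FP.add hk (FP.const 2))))
        (fp_LN hm he)) (fp_penO hm he))
  refine (FP.consE hsp (FP.consE hfi (FP.appendE (FP.mapE (FP.range hk) hlow)
    (FP.mapE (FP.range hk) hupp)))).congr (fun x => ?_)
  unfold instN
  rw [List.map_cons, List.map_cons, List.map_append, List.map_map, List.map_map]
  rfl

end numbers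

/-! ### The instance of a formula -/

/-- the incidences of the family of sets of a formula -/
def incF (φ : CNF Name) (i j : ℕ) : Bool :=
  memD (occs φ) ((setD (occs φ).length)[i]?.getD (0, 0))
    ((elD (occs φ).length φ.length)[j]?.getD (0, 0))

def mF (φ : CNF Name) : ℕ := (setD (occs φ).length).length

def eF (φ : CNF Name) : ℕ := (elD (occs φ).length φ.length).length

/-- the instance of a formula -/
def instF (φ : CNF Name) : List (ℕ × ℕ × ℕ) := instN (mF φ) (eF φ) (incF φ)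

theorem incC_incF (φ : CNF Name) : incC (mF φ) (eF φ) (incF φ) = famC φ := by
  funext i
  apply Finset.filter_congr
  intro j _
  unfold incF
  have h1 : (setD (occs φ).length)[(i : ℕ)]? = some ((setD (occs φ).length).get i) :=
    List.getElem?_eq_getElem i.isLt
  have h2 : (elD (occs φ).length φ.length)[(j : ℕ)]? =
      some ((elD (occs φ).length φ.length).get j) := List.getElem?_eq_getElem j.isLt
  rw [h1, h2, Option.getD_some, Option.getD_some]

theorem fp_instF {φ : E → CNF Name} (hφ : FP φ) : FP (fun x => (instF (φ x)).map toTB) := by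
  unfold instF
  have hN : FP (fun x => (occs (φ x)).length) := FP.lengthE (fp_occs hφ)
  have hM : FP (fun x => (φ x).length) := FP.lengthE hφ
  refine fp_instN (FP.lengthE (fp_setD hN)) (FP.lengthE (fp_elD hN hM))
    (inc := fun x => incF (φ x)) ?_
  have hφ' : FP (fun y : E × (ℕ × ℕ) => φ y.1) := FP.comp hφ FP.fst
  have hN' : FP (fun y : E × (ℕ × ℕ) => (occs (φ y.1)).length) := FP.lengthE (fp_occs hφ')
  have hM' : FP (fun y : E × (ℕ × ℕ) => (φ y.1).length) := FP.lengthE hφ'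
  exact fp_memD (fp_occs hφ') (FP.getE (fp_setD hN') (FP.comp FP.fst FP.snd) _)
    (FP.getE (fp_elD hN' hM') (FP.comp FP.snd FP.snd) _)

end Pool.Agent.JIT
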