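import Pool.Agent.Lib_MP_033923_np.Win

set_option autoImplicit false

/-!
# The sequence of the queue is optimal for the maximum deviation problem
-/

namespace Pool.Agent.JIT

open Finset

theorem DI_pos {I : Inst} (hv : Valid I) : 0 < DI I := by
  obtain ⟨h1, h2⟩ := hv
  have hn : 0 < I.length := List.length_pos_iff.2 h1
  rw [← total_dem]
  exact Finset.sum_pos (fun i _ => h2 i) ⟨⟨0, hn⟩, mem_univ _⟩

/-- the deviations as multiples of `1 / D` -/
theorem dev_eq {I : Inst} (hv : Valid I) (S : ℕ → Fin I.length) (i : Fin I.length) (k : ℕ) :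
    dev (dem I) (devF I) S i k =
      (devN (DI I) (ent I i).1 (ent I i).2.1 (ent I i).2.2 (produced S i k) k : ℝ) / DI I := by
  unfold dev devF
  rw [total_dem, ← hinge_eq _ _ _ _ _ _ (DI_pos hv), ent_eq]
  rfl

theorem dev_le_iff {I : Inst} (hv : Valid I) (S : ℕ → Fin I.length) (i : Fin I.length)
    (k b : ℕ) : dev (dem I) (devF I) S i k ≤ (b : ℝ) / DI I ↔
      devN (DI I) (ent I i).1 (ent I i).2.1 (ent I i).2.2 (produced S i k) k ≤ b := by
  have hD : (0 : ℝ) < DI I := by exact_mod_cast DI_pos hv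
  rw [dev_eq hv, div_le_div_iff_of_pos_right hD, Nat.cast_le]

theorem maxDev_le {I : Inst} (hv : Valid I) (S : ℕ → Fin I.length) {b : ℕ}
    (h : ∀ i : Fin I.length, ∀ k, 1 ≤ k → k ≤ DI I →
      devN (DI I) (ent I i).1 (ent I i).2.1 (ent I i).2.2 (produced S i k) k ≤ b) :
    maxDeviation (dem I) (devF I) S ≤ (b : ℝ) / DI I := by
  have hn : 0 < I.length := List.length_pos_iff.2 hv.1
  unfold maxDeviation
  refine csSup_le ⟨_, ⟨0, hn⟩, 1, ?_, rfl⟩ ?_
  · rw [total_dem]
    exact mem_Icc.2 ⟨le_rfl, DI_pos hv⟩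
  · rintro y ⟨i, k, hk, rfl⟩
    rw [total_dem, mem_Icc] at hk
    exact (dev_le_iff hv S i k b).2 (h i k hk.1 hk.2)

theorem dev_le_maxDev {I : Inst} (S : ℕ → Fin I.length) (i : Fin I.length) {k : ℕ}
    (hk : k ∈ Icc 1 (total (dem I))) :
    dev (dem I) (devF I) S i k ≤ maxDeviation (dem I) (devF I) S := by
  unfold maxDeviation
  apply le_csSup
  · have : {y : ℝ | ∃ i, ∃ k ∈ Icc 1 (total (dem I)), y = dev (dem I) (devF I) S i k} =
        (fun p : Fin I.length × ℕ => dev (dem I) (devF I) S p.1 p.2) ''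
          ((univ ×ˢ Icc 1 (total (dem I)) : Finset (Fin I.length × ℕ)) : Set _) := by
      ext y
      constructor
      · rintro ⟨i, k, hk, rfl⟩
        exact ⟨(i, k), by simpa using hk, rfl⟩
      · rintro ⟨⟨i, k⟩, hk, rfl⟩
        exact ⟨i, k, by simpa using hk, rfl⟩
    rw [this]
    exact ((Finset.finite_toSet _).image _).bddAbove
  · exact ⟨i, k, hk, rfl⟩

theorem sum_produced {n : ℕ} (S : ℕ → Fin n) (t : ℕ) : ∑ i, produced S i t = t := by
  unfold produced
  rw [← Finset.card_eq_sum_card_fiberwise (f := S) (t := univ) (fun _ _ => mem_coe.2 (mem_univ _))]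
  simp

/-- every sequence with deviations at most `b / D` gives Hall's condition -/
theorem hall_of_seq {I : Inst} (hv : Valid I) {S : ℕ → Fin I.length} (hS : IsSeq (dem I) S)
    {b : ℕ} (h : ∀ i : Fin I.length, ∀ k, 1 ≤ k → k ≤ DI I →
      devN (DI I) (ent I i).1 (ent I i).2.1 (ent I i).2.2 (produced S i k) k ≤ b) :
    Hall I b := by
  have hD := DI_pos hv
  refine hall_of hD (x := fun i t => if hi : i < I.length then produced S ⟨i, hi⟩ t else 0)
    (fun i hi => ?_) (fun i hi => ?_) (fun i hi => ?_) (fun t ht => ?_) (fun i hi k hk1 hk => ?_)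
  · simp only [hi, dif_pos]
    simp [produced]
  · simp only [hi, dif_pos]
    have h1 := hS ⟨i, hi⟩
    rw [total_dem] at h1
    have h2 : ent I i = I.get ⟨i, hi⟩ := ent_eq I ⟨i, hi⟩
    rw [h2]
    exact h1
  · intro s t hst
    simp only [hi, dif_pos]
    unfold produced
    exact card_le_card (filter_subset_filter _ (Icc_subset_Icc le_rfl hst))
  · rw [Finset.sum_range]
    have h1 := sum_produced S t
    refine Eq.trans (Finset.sum_congr rfl (fun i _ => ?_)) h1
    simp only [i.isLt, dif_pos]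
  · simp only [hi, dif_pos]
    exact h ⟨i, hi⟩ k hk1 hk

/-- counting positions of a model -/
theorem produced_eq {n : ℕ} {S : ℕ → Fin n} {c : ℕ → ℕ} {D : ℕ}
    (hS : ∀ k, 1 ≤ k → k ≤ D → (S k : ℕ) = c (k - 1) % n) (i : Fin n) {t : ℕ} (ht : t ≤ D) :
    produced S i t = ((range t).filter (fun k => c k % n = i)).card := by
  unfold produced
  refine Finset.card_bij' (fun k _ => k - 1) (fun k _ => k + 1) ?_ ?_ ?_ ?_
  · intro k hk
    rw [mem_filter, mem_Icc] at hk
    rw [mem_filter, mem_range]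
    refine ⟨by omega, ?_⟩
    rw [← hS k hk.1.1 (by omega), hk.2]
  · intro k hk
    rw [mem_filter, mem_range] at hk
    rw [mem_filter, mem_Icc]
    refine ⟨⟨by omega, by omega⟩, Fin.ext ?_⟩
    rw [hS (k + 1) (by omega) (by omega), Nat.add_sub_cancel, hk.2]
  · intro k hk
    rw [mem_filter, mem_Icc] at hk
    omega
  · intro k _
    omega

/-- the sequence of the queue for the least feasible bound is optimal -/
theorem queue_optimal {I : Inst} (hv : Valid I) {b : ℕ} (hH : ∀ b', Hall I b' ↔ b ≤ b')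
    {S : ℕ → Fin I.length} (hS : ∀ k, 1 ≤ k → k ≤ DI I →
      (S k : ℕ) = cls (arr I.length (LI I b) (UI I b)) (k - 1) % I.length) :
    IsOptimalMax (dem I) (devF I) S := by
  have hD := DI_pos hv
  have hn : 0 < I.length := List.length_pos_iff.2 hv.1
  have W := windows hD hn ((hH b).2 le_rfl)
  have hb : ∀ i : Fin I.length, ∀ t ≤ DI I,
      LI I b i t ≤ produced S i t ∧ produced S i t ≤ UI I b i t := by
    intro i t ht
    rw [produced_eq hS i ht]
    exact window_bounds W i i.isLt ht
  have hdev : ∀ i : Fin I.length, ∀ k, 1 ≤ k → k ≤ DI I →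
      devN (DI I) (ent I i).1 (ent I i).2.1 (ent I i).2.2 (produced S i k) k ≤ b :=
    fun i k hk1 hk => devN_le_of_bounds hD hk1 hk (hb i k hk).1 (hb i k hk).2
  refine ⟨fun i => ?_, fun S' hS' => ?_⟩
  · rw [total_dem]
    have h1 := hb i (DI I) le_rfl
    have h2 : LI I b i (DI I) = (ent I i).1 := by
      unfold LI
      rw [if_neg (lt_irrefl _)]
    have h3 : UI I b i (DI I) ≤ (ent I i).1 := by
      unfold UI
      rw [if_neg (by omega)]
      exact min_le_left _ _
    have h4 : dem I i = (ent I i).1 := by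
      rw [ent_eq]
      rfl
    rw [h4]
    change produced S i (DI I) = _
    omega
  · refine (maxDev_le hv S hdev).trans ?_
    -- some deviation of `S'` is at least `b / D`
    have hD' : (0 : ℝ) < DI I := by exact_mod_cast hD
    by_contra hcon
    push Not at hcon
    have h1 : ∀ i : Fin I.length, ∀ k, 1 ≤ k → k ≤ DI I →
        devN (DI I) (ent I i).1 (ent I i).2.1 (ent I i).2.2 (produced S' i k) k < b := by
      intro i k hk1 hk
      have h2 := dev_le_maxDev S' i (k := k) (by rw [total_dem]; exact mem_Icc.2 ⟨hk1, hk⟩)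
      have h3 := lt_of_le_of_lt h2 hcon
      rw [dev_eq hv, div_lt_div_iff_of_pos_right hD', Nat.cast_lt] at h3
      exact h3
    have hb0 : 0 < b := by
      have := h1 ⟨0, hn⟩ 1 le_rfl hD
      omega
    have h2 : Hall I (b - 1) := hall_of_seq hv hS' (fun i k hk1 hk => by
      have := h1 i k hk1 hk
      omega)
    have := (hH (b - 1)).1 h2
    omega

end Pool.Agent.JIT
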