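import Pool.Agent.Lib_MP_42fe4d_lc.CL.Hard
import Pool.Agent.Lib_MP_8cd8c6_lc.FPExtra

set_option autoImplicit false

/-!
# Binary natural numbers as polynomial time data
-/

namespace Pool.Agent.JIT

open Pool.Agent.PartSep Pool.Agent.PartSep.TM Pool.Agent.PartSep.TM.Rep
  Pool.Agent.Lib_MP_8cd8c6_lc

set_option synthInstance.maxSize 2000

variable {E F G : Type} [Rep E] [Rep F] [Rep G]

/-- natural numbers, represented in binary -/
@[ext] structure Bi where
  v : ℕ
  deriving DecidableEq, Inhabited

/-- the binary digits, lowest first -/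
def digs (n : ℕ) : List Sym := (Nat.bits n).map bs

instance : Rep Bi where
  ix := Unit
  rep b _ := digs b.v

theorem FP.ofDigs {f : E → Bi} (h : FP (fun x => digs (f x).v)) : FP f := FP.pi (fun _ => h)

theorem FP.digs {f : E → Bi} (hf : FP f) : FP (fun x => digs (f x).v) := hf.comp_rep ()

theorem length_digs (n : ℕ) : (digs n).length = Nat.size n := by
  rw [digs, List.length_map, Nat.size_eq_bits_len]

theorem size_bi (b : Bi) : size b = Nat.size b.v := by
  change ∑ _i : Unit, (digs b.v).length = _
  simp [length_digs]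

theorem digs_zero : digs 0 = [] := rfl

theorem digs_bit1 (n : ℕ) : digs (2 * n + 1) = Sym.i :: digs n := by
  have h : Nat.bits (Nat.bit true n) = true :: Nat.bits n :=
    Nat.bits_append_bit n true (fun _ => rfl)
  rw [Nat.bit_true] at h
  unfold digs
  rw [h]
  rfl

theorem digs_bit0 {n : ℕ} (hn : n ≠ 0) : digs (2 * n) = Sym.o :: digs n := by
  have h : Nat.bits (Nat.bit false n) = false :: Nat.bits n :=
    Nat.bits_append_bit n false (fun h => absurd h hn)
  rw [Nat.bit_false] at h
  unfold digs
  rw [h]
  rfl

theorem digs_tail (n : ℕ) : (digs n).tail = digs (n / 2) := by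
  rcases Nat.even_or_odd' n with ⟨k, rfl | rfl⟩
  · rcases Nat.eq_zero_or_pos k with rfl | hk
    · rfl
    · rw [digs_bit0 (by omega), List.tail_cons, Nat.mul_div_cancel_left _ (by norm_num)]
  · rw [digs_bit1, List.tail_cons]
    congr 1
    omega

theorem digs_head (n : ℕ) : decide ((digs n).head? = some Sym.i) = decide (n % 2 = 1) := by
  rcases Nat.even_or_odd' n with ⟨k, rfl | rfl⟩
  · rcases Nat.eq_zero_or_pos k with rfl | hk
    · rfl
    · rw [digs_bit0 (by omega)]
      simp
  · rw [digs_bit1]
    simp

theorem digs_injective : Function.Injective digs := by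
  intro a b h
  have h1 : Nat.bits a = Nat.bits b := List.map_injective_iff.2 bs_injective h
  have h2 := congrArg (fun l => l.foldr (fun b n => Nat.bit b n) 0) h1
  have h3 : ∀ n : ℕ, (Nat.bits n).foldr (fun b n => Nat.bit b n) 0 = n := by
    intro n
    induction n using Nat.binaryRec' with
    | zero => rfl
    | bit b n h ih => rw [Nat.bits_append_bit n b h, List.foldr_cons, ih]
  simpa [h3] using h2

instance : RepInj Bi := ⟨fun x y h => by
  have := digs_injective (h ())
  exact Bi.ext this⟩

/-! ### Elementary functions -/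

theorem fp_div2 {f : E → Bi} (hf : FP f) : FP (fun x => (⟨(f x).v / 2⟩ : Bi)) := by
  apply FP.ofDigs
  exact (FP.tail (FP.digs hf)).congr (fun _ => digs_tail _)

theorem fp_odd {f : E → Bi} (hf : FP f) : FP (fun x => decide ((f x).v % 2 = 1)) :=
  (FP.headIs (FP.digs hf) Sym.i).congr (fun _ => digs_head _)

theorem fp_isZero {f : E → Bi} (hf : FP f) : FP (fun x => decide ((f x).v = 0)) := by
  refine (FP.isEmpty (FP.digs hf)).congr (fun x => ?_)
  by_cases h : (f x).v = 0
  · rw [h]; rfl
  · rw [Bool.eq_iff_iff]
    simp only [List.isEmpty_iff, decide_eq_true_eq, h, iff_false]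
    intro h1
    exact h (digs_injective (h1.trans digs_zero.symm))

/-- `2 x + b` -/
theorem fp_bit {c : E → Bool} (hc : FP c) {f : E → Bi} (hf : FP f) :
    FP (fun x => (⟨2 * (f x).v + (c x).toNat⟩ : Bi)) := by
  apply FP.ofDigs
  refine (FP.ite hc (FP.cons Sym.i (FP.digs hf)) (FP.ite (fp_isZero hf)
    (FP.const []) (FP.cons Sym.o (FP.digs hf)))).congr (fun x => ?_)
  cases hcx : c x with
  | true => simp [digs_bit1]
  | false =>
    by_cases h : (f x).v = 0
    · simp [h, digs_zero]
    · simp [h, digs_bit0 h]

theorem fp_constB (n : ℕ) : FP (fun _ : E => (⟨n⟩ : Bi)) := FP.const _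

theorem size_bit_le (n : ℕ) (b : Bool) : Nat.size (2 * n + b.toNat) ≤ Nat.size n + 1 := by
  rw [Nat.size_le]
  have h := Nat.lt_size_self n
  have hb := Bool.toNat_lt b
  rw [pow_succ]
  omega

/-- the value of a list of digits, highest first -/
def ofMSB (l : List Bool) : ℕ := l.foldl (fun n b => 2 * n + b.toNat) 0

/-- the value of a list of digits, lowest first -/
def ofLSB : List Bool → ℕ
  | [] => 0
  | b :: l => b.toNat + 2 * ofLSB l

theorem ofMSB_append (l : List Bool) (b : Bool) : ofMSB (l ++ [b]) = 2 * ofMSB l + b.toNat := by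
  simp [ofMSB]

theorem ofMSB_reverse (l : List Bool) : ofMSB l.reverse = ofLSB l := by
  induction l with
  | nil => rfl
  | cons b l ih => rw [List.reverse_cons, ofMSB_append, ih, ofLSB]; ring

theorem ofMSB_lt (l : List Bool) : ofMSB l < 2 ^ l.length := by
  rw [← List.reverse_reverse l, ofMSB_reverse, List.length_reverse]
  generalize l.reverse = m
  induction m with
  | nil => simp [ofLSB]
  | cons b m ih =>
    have hb := Bool.toNat_lt b
    rw [ofLSB, List.length_cons, pow_succ]
    omega

theorem ofLSB_bits (n : ℕ) : ofLSB (Nat.bits n) = n := by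
  induction n using Nat.binaryRec' with
  | zero => rfl
  | bit b n h ih =>
    rw [Nat.bits_append_bit n b h, ofLSB, ih]
    cases b
    · simp [Nat.bit]
    · simp [Nat.bit]; ring

theorem fp_ofMSB {l : E → List Bool} (hl : FP l) : FP (fun x => (⟨ofMSB (l x)⟩ : Bi)) := by
  have := FP.foldlE_growth hl (init := fun _ => (⟨0⟩ : Bi)) (FP.const _)
    (step := fun y : E × Bi × Bool => (⟨2 * y.2.1.v + y.2.2.toNat⟩ : Bi))
    (fp_bit (FP.comp FP.snd FP.snd) (FP.comp FP.fst FP.snd)) 1 (by
      intro x s a _
      rw [size_bi, size_bi, Polynomial.eval_one]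
      exact size_bit_le _ _)
  refine this.congr (fun x => ?_)
  unfold ofMSB
  have key : ∀ (m : List Bool) (n : ℕ), List.foldl (fun (s : Bi) (a : Bool) =>
      (⟨2 * s.v + a.toNat⟩ : Bi)) ⟨n⟩ m = ⟨List.foldl (fun n b => 2 * n + b.toNat) n m⟩ := by
    intro m
    induction m with
    | nil => intro n; rfl
    | cons a m ih => intro n; rw [List.foldl_cons, List.foldl_cons, ih]
  exact key _ _

/-- the list of the digits, lowest first -/
theorem fp_bitsB {f : E → Bi} (hf : FP f) : FP (fun x => Nat.bits (f x).v) := by
  have h1 : FP (fun x => (digs (f x).v).foldl (fun (s : List Bool) (a : Sym) =>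
      decide (a = Sym.i) :: s) []) := by
    refine FP.foldl_growth (FP.digs hf) (init := fun _ => ([] : List Bool)) (FP.const _)
      (step := fun a y => decide (a = Sym.i) :: y.2) (fun a => FP.consE (FP.const _) FP.snd) 4 ?_
    intro a x s
    change size (decide (a = Sym.i) :: s) ≤ _
    rw [size_cons]
    have := size_bool (decide (a = Sym.i))
    have hc : Fintype.card (ix Bool) = 1 := rfl
    rw [hc]
    have : (4 : Polynomial ℕ).eval (size x) = 4 := by
      exact Polynomial.eval_ofNat (n := 4) (size x)
    omega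
  refine (FP.reverseE h1).congr (fun x => ?_)
  have key : ∀ (l : List Bool) (s : List Bool), (List.foldl (fun (s : List Bool) (a : Sym) =>
      decide (a = Sym.i) :: s) s (l.map bs)).reverse = s.reverse ++ l := by
    intro l
    induction l with
    | nil => intro s; simp
    | cons a l ih =>
      intro s
      rw [List.map_cons, List.foldl_cons, ih]
      cases a <;> simp [bs]
  exact (key (Nat.bits (f x).v) []).trans (by simp)

end Pool.Agent.JIT
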