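import Pool.Agent.Lib_MP_033923_np.Bi

set_option autoImplicit false

/-!
# Arithmetic of binary numbers in polynomial time
-/

namespace Pool.Agent.JIT

open Pool.Agent.PartSep Pool.Agent.PartSep.TM Pool.Agent.PartSep.TM.Rep
  Pool.Agent.Lib_MP_8cd8c6_lc

set_option synthInstance.maxSize 2000

variable {E F G : Type} [Rep E] [Rep F] [Rep G]

theorem size_div2_le (n : ℕ) : Nat.size (n / 2) ≤ Nat.size n := Nat.size_le_size (Nat.div_le_self _ _)

/-- the state of the serial adder: carry, the two numbers, the digits (highest first) -/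
abbrev SerSt := Bool × (Bi × (Bi × List Bool))

theorem fp_ser1 : FP (fun y : E × SerSt => decide (y.2.2.1.v % 2 = 1)) :=
  fp_odd (FP.comp FP.fst (FP.comp FP.snd FP.snd))

theorem fp_ser2 : FP (fun y : E × SerSt => decide (y.2.2.2.1.v % 2 = 1)) :=
  fp_odd (FP.comp FP.fst (FP.comp FP.snd (FP.comp FP.snd FP.snd)))

theorem fp_ser3 : FP (fun y : E × SerSt => y.2.1) := FP.comp FP.fst FP.snd

/-- A serial procedure. `cr c a b` is the next carry and `dg c a b` the digit. -/
def serStep (cr dg : Bool → Bool → Bool → Bool) (s : SerSt) : SerSt :=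
  (cr s.1 (decide (s.2.1.v % 2 = 1)) (decide (s.2.2.1.v % 2 = 1)),
    (⟨s.2.1.v / 2⟩, (⟨s.2.2.1.v / 2⟩,
      dg s.1 (decide (s.2.1.v % 2 = 1)) (decide (s.2.2.1.v % 2 = 1)) :: s.2.2.2)))

theorem size_serStep (cr dg : Bool → Bool → Bool → Bool) (s : SerSt) :
    size (serStep cr dg s) ≤ size s + 5 := by
  obtain ⟨c, a, b, out⟩ := s
  simp only [serStep, size_pair, size_bi, size_cons]
  have h1 := size_bool (cr c (decide (a.v % 2 = 1)) (decide (b.v % 2 = 1)))
  have h2 := size_bool (dg c (decide (a.v % 2 = 1)) (decide (b.v % 2 = 1)))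
  have h3 := size_div2_le a.v
  have h4 := size_div2_le b.v
  have hc : Fintype.card (ix Bool) = 1 := rfl
  rw [hc]
  omega

/-- every Boolean function of three bits -/
theorem fp_bool3 (t : Bool → Bool → Bool → Bool) {p q r : E → Bool} (hp : FP p) (hq : FP q)
    (hr : FP r) : FP (fun x => t (p x) (q x) (r x)) := by
  have h1 : ∀ b c : Bool, FP (fun x => t (p x) b c) := fun b c =>
    (FP.ite hp (FP.const (t true b c)) (FP.const (t false b c))).congr (fun x => by
      cases p x <;> rfl)
  have h2 : ∀ c : Bool, FP (fun x => t (p x) (q x) c) := fun c =>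
    (FP.ite hq (h1 true c) (h1 false c)).congr (fun x => by cases q x <;> rfl)
  exact (FP.ite hr (h2 true) (h2 false)).congr (fun x => by cases r x <;> rfl)

theorem fp_serStep (cr dg : Bool → Bool → Bool → Bool) :
    FP (fun y : E × SerSt => serStep cr dg y.2) := by
  unfold serStep
  refine FP.pair (fp_bool3 cr fp_ser3 fp_ser1 fp_ser2) (FP.pair (fp_div2 ?_) (FP.pair (fp_div2 ?_)
    (FP.consE (fp_bool3 dg fp_ser3 fp_ser1 fp_ser2) ?_)))
  · exact FP.comp FP.fst (FP.comp FP.snd FP.snd)
  · exact FP.comp FP.fst (FP.comp FP.snd (FP.comp FP.snd FP.snd))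
  · exact FP.comp FP.snd (FP.comp FP.snd (FP.comp FP.snd FP.snd))

/-- the digits produced by a serial procedure, lowest first -/
def serL (cr dg : Bool → Bool → Bool → Bool) : ℕ → Bool → ℕ → ℕ → List Bool
  | 0, _, _, _ => []
  | k + 1, c, a, b => dg c (decide (a % 2 = 1)) (decide (b % 2 = 1)) ::
      serL cr dg k (cr c (decide (a % 2 = 1)) (decide (b % 2 = 1))) (a / 2) (b / 2)

/-- the last carry of a serial procedure -/
def serC (cr : Bool → Bool → Bool → Bool) : ℕ → Bool → ℕ → ℕ → Bool
  | 0, c, _, _ => c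
  | k + 1, c, a, b => serC cr k (cr c (decide (a % 2 = 1)) (decide (b % 2 = 1))) (a / 2) (b / 2)

theorem iter_serStep (cr dg : Bool → Bool → Bool → Bool) (k : ℕ) :
    ∀ (c : Bool) (a b : ℕ) (out : List Bool),
      ((serStep cr dg)^[k] (c, ⟨a⟩, ⟨b⟩, out)).2.2.2 = (serL cr dg k c a b).reverse ++ out ∧
      ((serStep cr dg)^[k] (c, ⟨a⟩, ⟨b⟩, out)).1 = serC cr k c a b := by
  induction k with
  | zero => intro c a b out; exact ⟨rfl, rfl⟩
  | succ k ih =>
    intro c a b out
    rw [Function.iterate_succ_apply]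
    obtain ⟨h1, h2⟩ := ih (cr c (decide (a % 2 = 1)) (decide (b % 2 = 1))) (a / 2) (b / 2)
      (dg c (decide (a % 2 = 1)) (decide (b % 2 = 1)) :: out)
    refine ⟨?_, ?_⟩
    · refine h1.trans ?_
      simp [serL]
    · exact h2

theorem fp_ser (cr dg : Bool → Bool → Bool → Bool) (c : Bool) {f g : E → Bi} (hf : FP f)
    (hg : FP g) {k : E → ℕ} (hk : FP k) :
    FP (fun x => (serStep cr dg)^[k x] (c, f x, g x, [])) := by
  exact FP.natRec_growth hk (init := fun x => (c, f x, g x, ([] : List Bool)))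
    (FP.pair (FP.const c) (FP.pair hf (FP.pair hg (FP.const _))))
    (step := fun y => serStep cr dg y.2) (fp_serStep cr dg) 5 (by
      intro x s
      have h := size_serStep cr dg s
      have h5 : (5 : Polynomial ℕ).eval (size x) = 5 := Polynomial.eval_ofNat (n := 5) (size x)
      rw [h5]
      exact h)

theorem fp_serL (cr dg : Bool → Bool → Bool → Bool) (c : Bool) {f g : E → Bi} (hf : FP f)
    (hg : FP g) {k : E → ℕ} (hk : FP k) :
    FP (fun x => (⟨ofLSB (serL cr dg (k x) c (f x).v (g x).v)⟩ : Bi)) := by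
  refine (fp_ofMSB (FP.comp FP.snd (FP.comp FP.snd (FP.comp FP.snd
    (fp_ser cr dg c hf hg hk))))).congr (fun x => ?_)
  have := (iter_serStep cr dg (k x) c (f x).v (g x).v []).1
  rw [this, List.append_nil, ofMSB_reverse]

theorem fp_serC (cr : Bool → Bool → Bool → Bool) (c : Bool) {f g : E → Bi} (hf : FP f)
    (hg : FP g) {k : E → ℕ} (hk : FP k) : FP (fun x => serC cr (k x) c (f x).v (g x).v) := by
  refine (FP.comp FP.fst (fp_ser cr (fun _ _ _ => false) c hf hg hk)).congr (fun x => ?_)
  exact (iter_serStep cr (fun _ _ _ => false) (k x) c (f x).v (g x).v []).2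

/-- the number of digits in unary -/
theorem fp_size {f : E → Bi} (hf : FP f) : FP (fun x => Nat.size (f x).v) :=
  (FP.length (FP.digs hf)).congr (fun _ => length_digs _)

/-! ### Addition -/

def addC (c a b : Bool) : Bool := (a && b) || (c && (a || b))

def addD (c a b : Bool) : Bool := (a != b) != c

theorem serL_add (k : ℕ) : ∀ (c : Bool) (a b : ℕ),
    ofLSB (serL addC addD k c a b) = (a + b + c.toNat) % 2 ^ k := by
  induction k with
  | zero => intro c a b; simp [serL, ofLSB, Nat.mod_one]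
  | succ k ih =>
    intro c a b
    rw [serL, ofLSB, ih, pow_succ', Nat.mod_mul]
    have h1 : (addD c (decide (a % 2 = 1)) (decide (b % 2 = 1))).toNat = (a + b + c.toNat) % 2 := by
      rcases Nat.mod_two_eq_zero_or_one a with ha | ha <;>
        rcases Nat.mod_two_eq_zero_or_one b with hb | hb <;> cases c <;>
          simp [addD, ha, hb, Nat.add_mod]
    have h2 : a / 2 + b / 2 + (addC c (decide (a % 2 = 1)) (decide (b % 2 = 1))).toNat =
        (a + b + c.toNat) / 2 := by
      rcases Nat.mod_two_eq_zero_or_one a with ha | ha <;>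
        rcases Nat.mod_two_eq_zero_or_one b with hb | hb <;> cases c <;>
          simp [addC, ha, hb] <;> omega
    rw [h1, h2]

theorem fp_add {f g : E → Bi} (hf : FP f) (hg : FP g) :
    FP (fun x => (⟨(f x).v + (g x).v⟩ : Bi)) := by
  refine (fp_serL addC addD false hf hg
    (FP.add (FP.add (fp_size hf) (fp_size hg)) (FP.const 1))).congr (fun x => ?_)
  rw [serL_add]
  congr 1
  have h1 := Nat.lt_size_self (f x).v
  have h2 := Nat.lt_size_self (g x).v
  have h3 : 2 ^ (f x).v.size ≤ 2 ^ ((f x).v.size + (g x).v.size) :=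
    Nat.pow_le_pow_right (by norm_num) (by omega)
  have h4 : 2 ^ (g x).v.size ≤ 2 ^ ((f x).v.size + (g x).v.size) :=
    Nat.pow_le_pow_right (by norm_num) (by omega)
  rw [Bool.toNat_false, Nat.add_zero]
  apply Nat.mod_eq_of_lt
  rw [pow_succ]
  omega

/-! ### Comparison -/

def leC (c a b : Bool) : Bool := if a = b then c else b

theorem serC_le (k : ℕ) : ∀ (c : Bool) (a b : ℕ), a < 2 ^ k → b < 2 ^ k →
    serC leC k c a b = (decide (a < b) || (decide (a = b) && c)) := by
  induction k with
  | zero =>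
    intro c a b ha hb
    have : a = 0 := by simpa using ha
    have : b = 0 := by simpa using hb
    subst a b
    simp [serC]
  | succ k ih =>
    intro c a b ha hb
    rw [pow_succ] at ha hb
    rw [serC, ih _ _ _ (by omega) (by omega), Bool.eq_iff_iff]
    simp only [leC, Bool.or_eq_true, decide_eq_true_eq, Bool.and_eq_true]
    rcases Nat.mod_two_eq_zero_or_one a with ha | ha <;>
      rcases Nat.mod_two_eq_zero_or_one b with hb | hb <;> simp [ha, hb]
    · constructor
      · rintro (h | ⟨h, h'⟩)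
        · left; omega
        · right; exact ⟨by omega, h'⟩
      · rintro (h | ⟨h, h'⟩)
        · left; omega
        · right; exact ⟨by omega, h'⟩
    · constructor
      · rintro (h | h)
        · left; omega
        · left; omega
      · rintro (h | ⟨h, h'⟩)
        · omega
        · omega
    · constructor
      · intro h; left; omega
      · rintro (h | ⟨h, h'⟩)
        · omega
        · omega
    · constructor
      · rintro (h | ⟨h, h'⟩)
        · left; omega
        · right; exact ⟨by omega, h'⟩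
      · rintro (h | ⟨h, h'⟩)
        · left; omega
        · right; exact ⟨by omega, h'⟩

theorem fp_le {f g : E → Bi} (hf : FP f) (hg : FP g) :
    FP (fun x => decide ((f x).v ≤ (g x).v)) := by
  refine (fp_serC leC true hf hg (FP.add (fp_size hf) (fp_size hg))).congr (fun x => ?_)
  have h1 := Nat.lt_size_self (f x).v
  have h2 := Nat.lt_size_self (g x).v
  have h3 : 2 ^ (f x).v.size ≤ 2 ^ ((f x).v.size + (g x).v.size) :=
    Nat.pow_le_pow_right (by norm_num) (by omega)
  have h4 : 2 ^ (g x).v.size ≤ 2 ^ ((f x).v.size + (g x).v.size) :=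
    Nat.pow_le_pow_right (by norm_num) (by omega)
  rw [serC_le _ _ _ _ (by omega) (by omega), Bool.eq_iff_iff]
  simp only [Bool.and_true, Bool.or_eq_true, decide_eq_true_eq]
  omega

theorem fp_lt {f g : E → Bi} (hf : FP f) (hg : FP g) :
    FP (fun x => decide ((f x).v < (g x).v)) :=
  (FP.not (fp_le hg hf)).congr (fun x => by
    rw [Bool.eq_iff_iff]
    simp)

theorem fp_eqB {f g : E → Bi} (hf : FP f) (hg : FP g) :
    FP (fun x => decide ((f x).v = (g x).v)) :=
  (FP.and (fp_le hf hg) (fp_le hg hf)).congr (fun x => by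
    rw [Bool.eq_iff_iff]
    simp only [Bool.and_eq_true, decide_eq_true_eq]
    omega)

/-! ### Subtraction -/

def subC (c a b : Bool) : Bool := (!a && (b || c)) || (b && c)

theorem serL_sub (k : ℕ) : ∀ (c : Bool) (a b : ℕ), b + c.toNat ≤ a →
    ofLSB (serL subC addD k c a b) = (a - b - c.toNat) % 2 ^ k := by
  induction k with
  | zero => intro c a b _; simp [serL, ofLSB, Nat.mod_one]
  | succ k ih =>
    intro c a b hab
    have h2 : b / 2 + (subC c (decide (a % 2 = 1)) (decide (b % 2 = 1))).toNat ≤ a / 2 ∧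
        a / 2 - b / 2 - (subC c (decide (a % 2 = 1)) (decide (b % 2 = 1))).toNat =
        (a - b - c.toNat) / 2 := by
      rcases Nat.mod_two_eq_zero_or_one a with ha | ha <;>
        rcases Nat.mod_two_eq_zero_or_one b with hb | hb <;> cases c <;>
          simp [subC, ha, hb] at hab ⊢ <;> omega
    have h1 : (addD c (decide (a % 2 = 1)) (decide (b % 2 = 1))).toNat =
        (a - b - c.toNat) % 2 := by
      rcases Nat.mod_two_eq_zero_or_one a with ha | ha <;>
        rcases Nat.mod_two_eq_zero_or_one b with hb | hb <;> cases c <;>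
          simp [addD, ha, hb] at hab ⊢ <;> omega
    rw [serL, ofLSB, ih _ _ _ h2.1, pow_succ', Nat.mod_mul, h1, h2.2]

theorem fp_sub {f g : E → Bi} (hf : FP f) (hg : FP g) :
    FP (fun x => (⟨(f x).v - (g x).v⟩ : Bi)) := by
  refine (FP.ite (fp_le hg hf) (fp_serL subC addD false hf hg (fp_size hf))
    (fp_constB 0)).congr (fun x => ?_)
  by_cases h : (g x).v ≤ (f x).v
  · have h1 := Nat.lt_size_self (f x).v
    simp only [h, decide_true, if_true]
    rw [serL_sub _ _ _ _ (by simpa using h)]
    congr 1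
    rw [Bool.toNat_false, Nat.sub_zero]
    exact Nat.mod_eq_of_lt (by omega)
  · simp only [h, decide_false, Bool.false_eq_true, if_false]
    congr 1
    omega

/-! ### Multiplication -/

theorem size_add_le (a b : ℕ) : Nat.size (a + b) ≤ Nat.size a + Nat.size b + 1 := by
  rw [Nat.size_le, pow_succ, pow_add]
  have h1 := Nat.lt_size_self a
  have h2 := Nat.lt_size_self b
  nlinarith [Nat.one_le_two_pow (n := a.size), Nat.one_le_two_pow (n := b.size)]

theorem size_mul_le (a b : ℕ) : Nat.size (a * b) ≤ Nat.size a + Nat.size b := by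
  rw [Nat.size_le, pow_add]
  exact Nat.mul_lt_mul'' (Nat.lt_size_self a) (Nat.lt_size_self b)

theorem fp_mul {f g : E → Bi} (hf : FP f) (hg : FP g) :
    FP (fun x => (⟨(f x).v * (g x).v⟩ : Bi)) := by
  obtain ⟨pf, hpf⟩ := hf.size_le
  obtain ⟨pg, hpg⟩ := hg.size_le
  have key : ∀ (c : ℕ) (l : List Bool) (n : ℕ), List.foldl (fun (s : Bi) (a : Bool) =>
      (⟨2 * s.v + (if a = true then c else 0)⟩ : Bi)) ⟨n * c⟩ l =
      ⟨List.foldl (fun n b => 2 * n + b.toNat) n l * c⟩ := by
    intro c l
    induction l with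
    | nil => intro n; rfl
    | cons a l ih =>
      intro n
      rw [List.foldl_cons, List.foldl_cons, ← ih]
      congr 2
      cases a
      · simp; ring
      · simp; ring
  have key0 : ∀ (c : ℕ) (l : List Bool), List.foldl (fun (s : Bi) (a : Bool) =>
      (⟨2 * s.v + (if a = true then c else 0)⟩ : Bi)) ⟨0⟩ l = ⟨ofMSB l * c⟩ := by
    intro c l
    have := key c l 0
    rwa [Nat.zero_mul] at this
  have := FP.foldlE (FP.reverseE (fp_bitsB hf)) (init := fun _ => (⟨0⟩ : Bi)) (FP.const _)
    (step := fun y : E × Bi × Bool => (⟨2 * y.2.1.v + (if y.2.2 = true then (g y.1).v else 0)⟩ : Bi))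
    ?_ ?_
  · refine this.congr (fun x => ?_)
    have h := key0 (g x).v (f x).v.bits.reverse
    rw [ofMSB_reverse, ofLSB_bits] at h
    exact h
  · have h1 : FP (fun y : E × Bi × Bool => (⟨2 * y.2.1.v⟩ : Bi)) :=
      (fp_bit (FP.const false) (FP.comp FP.fst FP.snd)).congr (fun y => by simp)
    have h2 : FP (fun y : E × Bi × Bool => (⟨if y.2.2 = true then (g y.1).v else 0⟩ : Bi)) := by
      refine (FP.ite (FP.comp FP.snd FP.snd) (FP.comp hg FP.fst) (fp_constB 0)).congr (fun y => ?_)
      cases y.2.2 <;> rfl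
    exact fp_add h1 h2
  · refine ⟨pf + pg, fun x l' hl' => ?_⟩
    have h3 := key0 (g x).v l'
    have h4 : List.foldl (fun (s : Bi) (a : Bool) =>
      (fun y : E × Bi × Bool => (⟨2 * y.2.1.v + (if y.2.2 = true then (g y.1).v else 0)⟩ : Bi))
        (x, s, a)) (⟨0⟩ : Bi) l' = ⟨ofMSB l' * (g x).v⟩ := h3
    rw [h4, size_bi]
    have h5 := size_mul_le (ofMSB l') (g x).v
    have h6 : Nat.size (ofMSB l') ≤ l'.length := by
      rw [Nat.size_le]
      exact ofMSB_lt l'
    have h7 : l'.length ≤ Nat.size (f x).v := by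
      have := hl'.length_le
      rwa [List.length_reverse, Nat.size_eq_bits_len] at this
    have h8 := hpf x
    have h9 := hpg x
    rw [size_bi] at h8 h9
    simp only [Polynomial.eval_add]
    omega

/-! ### Division -/

/-- one step of the long division by `c` -/
def divStep (c : ℕ) (s : Bi × Bi) (a : Bool) : Bi × Bi :=
  if c ≤ 2 * s.2.v + a.toNat then (⟨2 * s.1.v + 1⟩, ⟨2 * s.2.v + a.toNat - c⟩)
  else (⟨2 * s.1.v⟩, ⟨2 * s.2.v + a.toNat⟩)

theorem foldl_divStep {c : ℕ} (hc : 0 < c) (l : List Bool) : ∀ n : ℕ,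
    List.foldl (divStep c) (⟨n / c⟩, ⟨n % c⟩) l =
      (⟨List.foldl (fun n b => 2 * n + b.toNat) n l / c⟩,
        ⟨List.foldl (fun n b => 2 * n + b.toNat) n l % c⟩) := by
  induction l with
  | nil => intro n; rfl
  | cons a l ih =>
    intro n
    rw [List.foldl_cons, List.foldl_cons, ← ih]
    congr 1
    have h1 : 2 * n + a.toNat = c * (2 * (n / c)) + (2 * (n % c) + a.toNat) := by
      have := Nat.div_add_mod n c
      calc 2 * n + a.toNat = 2 * (c * (n / c) + n % c) + a.toNat := by rw [this]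
        _ = _ := by ring
    have hlt := Nat.mod_lt n hc
    have ha := Bool.toNat_lt a
    have hq : (2 * n + a.toNat) / c = 2 * (n / c) + (2 * (n % c) + a.toNat) / c := by
      rw [h1]; exact Nat.mul_add_div hc _ _
    have hm : (2 * n + a.toNat) % c = (2 * (n % c) + a.toNat) % c := by
      rw [h1]; exact Nat.mul_add_mod _ _ _
    rw [hq, hm]
    clear hq hm h1
    generalize n / c = q at *
    generalize n % c = r at *
    unfold divStep
    simp only
    split_ifs with h
    · have h2 : (2 * r + a.toNat) / c = 1 := by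
        apply Nat.div_eq_of_lt_le <;> omega
      rw [h2, Nat.mod_eq_sub_mod h, Nat.mod_eq_of_lt (by omega)]
    · rw [Nat.div_eq_of_lt (by omega), Nat.mod_eq_of_lt (by omega), Nat.add_zero]

theorem fp_divMod {f g : E → Bi} (hf : FP f) (hg : FP g) :
    FP (fun x => ((⟨(f x).v / (g x).v⟩, ⟨(f x).v % (g x).v⟩) : Bi × Bi)) := by
  obtain ⟨pf, hpf⟩ := hf.size_le
  obtain ⟨pg, hpg⟩ := hg.size_le
  -- division by the positive number `g x + [g x = 0]`
  let h : E → Bi := fun x => if decide ((g x).v = 0) then ⟨1⟩ else g x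
  have hh : FP h := FP.ite (fp_isZero hg) (fp_constB 1) hg
  have hpos : ∀ x, 0 < (h x).v := by
    intro x
    by_cases h0 : (g x).v = 0
    · simp [h, h0]
    · simp only [h, h0, decide_false, Bool.false_eq_true, if_false]
      omega
  have hsz : ∀ x, Nat.size (h x).v ≤ size (g x) + 1 := by
    intro x
    rw [size_bi]
    by_cases h0 : (g x).v = 0
    · simp only [h, h0, decide_true, if_true]
      simp
    · simp only [h, h0, decide_false, Bool.false_eq_true, if_false]
      omega
  have key0 : ∀ x (l : List Bool), List.foldl (divStep (h x).v) (⟨0⟩, ⟨0⟩) l =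
      (⟨ofMSB l / (h x).v⟩, ⟨ofMSB l % (h x).v⟩) := by
    intro x l
    have := foldl_divStep (hpos x) l 0
    rwa [Nat.zero_div, Nat.zero_mod] at this
  have hmain := FP.foldlE (FP.reverseE (fp_bitsB hf)) (init := fun _ => ((⟨0⟩, ⟨0⟩) : Bi × Bi))
    (FP.const _) (step := fun y : E × (Bi × Bi) × Bool => divStep (h y.1).v y.2.1 y.2.2) ?_ ?_
  · have hmain2 : FP (fun x => ((⟨(f x).v / (h x).v⟩, ⟨(f x).v % (h x).v⟩) : Bi × Bi)) := by
      refine hmain.congr (fun x => ?_)
      refine (key0 x _).trans ?_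
      rw [ofMSB_reverse, ofLSB_bits]
    refine (FP.ite (fp_isZero hg) (FP.pair (fp_constB 0) hf) hmain2).congr (fun x => ?_)
    by_cases h0 : (g x).v = 0
    · simp [h0]
    · simp [h, h0]
  · have e1 : FP (fun y : E × (Bi × Bi) × Bool => y.2.1.1) :=
      FP.comp FP.fst (FP.comp FP.fst FP.snd)
    have e2 : FP (fun y : E × (Bi × Bi) × Bool => y.2.1.2) :=
      FP.comp FP.snd (FP.comp FP.fst FP.snd)
    have e3 : FP (fun y : E × (Bi × Bi) × Bool => (⟨2 * y.2.1.2.v + y.2.2.toNat⟩ : Bi)) :=
      fp_bit (FP.comp FP.snd FP.snd) e2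
    have e4 : FP (fun y : E × (Bi × Bi) × Bool => h y.1) := FP.comp hh FP.fst
    have e5 : FP (fun y : E × (Bi × Bi) × Bool => (⟨2 * y.2.1.1.v + 1⟩ : Bi)) :=
      (fp_bit (FP.const true) e1).congr (fun y => by simp)
    have e6 : FP (fun y : E × (Bi × Bi) × Bool => (⟨2 * y.2.1.1.v⟩ : Bi)) :=
      (fp_bit (FP.const false) e1).congr (fun y => by simp)
    refine (FP.ite (fp_le e4 e3) (FP.pair e5 (fp_sub e3 e4)) (FP.pair e6 e3)).congr (fun y => ?_)
    unfold divStep
    by_cases h0 : (h y.1).v ≤ 2 * y.2.1.2.v + y.2.2.toNat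
    · simp [h0]
    · simp [h0]
  · refine ⟨pf + pg + 1, fun x l' hl' => ?_⟩
    have h4 : List.foldl (fun (s : Bi × Bi) (a : Bool) =>
      (fun y : E × (Bi × Bi) × Bool => divStep (h y.1).v y.2.1 y.2.2)
        (x, s, a)) ((⟨0⟩, ⟨0⟩) : Bi × Bi) l' = (⟨ofMSB l' / (h x).v⟩, ⟨ofMSB l' % (h x).v⟩) :=
      key0 x l'
    rw [h4, size_pair, size_bi, size_bi]
    have h6 : Nat.size (ofMSB l' / (h x).v) ≤ l'.length := by
      rw [Nat.size_le]
      exact (Nat.div_le_self _ _).trans_lt (ofMSB_lt l')
    have h5 : Nat.size (ofMSB l' % (h x).v) ≤ Nat.size (h x).v :=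
      Nat.size_le_size (Nat.mod_lt _ (hpos x)).le
    have h7 : l'.length ≤ Nat.size (f x).v := by
      have := hl'.length_le
      rwa [List.length_reverse, Nat.size_eq_bits_len] at this
    have h8 := hpf x
    have h9 := hpg x
    have h10 := hsz x
    rw [size_bi] at h8
    simp only [Polynomial.eval_add, Polynomial.eval_one]
    omega

theorem fp_div {f g : E → Bi} (hf : FP f) (hg : FP g) :
    FP (fun x => (⟨(f x).v / (g x).v⟩ : Bi)) :=
  FP.comp (g := (Prod.fst : Bi × Bi → Bi)) FP.fst (fp_divMod hf hg)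

theorem fp_mod {f g : E → Bi} (hf : FP f) (hg : FP g) :
    FP (fun x => (⟨(f x).v % (g x).v⟩ : Bi)) :=
  FP.comp (g := (Prod.snd : Bi × Bi → Bi)) FP.snd (fp_divMod hf hg)

end Pool.Agent.JIT
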