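import Pool.Agent.Lib_MP_033923_np.BiArith

set_option autoImplicit false

/-!
# Sums, products and other functions of binary numbers
-/

namespace Pool.Agent.JIT

open Pool.Agent.PartSep Pool.Agent.PartSep.TM Pool.Agent.PartSep.TM.Rep
  Pool.Agent.Lib_MP_8cd8c6_lc

set_option synthInstance.maxSize 2000

variable {E F G : Type} [Rep E] [Rep F] [Rep G]

/-- from unary to binary -/
theorem fp_ofNat {n : E → ℕ} (hn : FP n) : FP (fun x => (⟨n x⟩ : Bi)) := by
  have := FP.natRec_growth hn (init := fun _ => (⟨0⟩ : Bi)) (FP.const _)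
    (step := fun y : E × Bi => (⟨y.2.v + 1⟩ : Bi)) (fp_add FP.snd (fp_constB 1)) 2 (by
      intro x s
      rw [size_bi, size_bi]
      have h := size_add_le s.v 1
      have h2 : (2 : Polynomial ℕ).eval (size x) = 2 := Polynomial.eval_ofNat (n := 2) (size x)
      rw [h2]
      simpa using h)
  refine this.congr (fun x => ?_)
  have key : ∀ (k n : ℕ), (fun s : Bi => (⟨s.v + 1⟩ : Bi))^[k] ⟨n⟩ = ⟨n + k⟩ := by
    intro k
    induction k with
    | zero => intro n; rfl
    | succ k ih => intro n; rw [Function.iterate_succ_apply, ih]; congr 1; ring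
  exact (key (n x) 0).trans (by rw [Nat.zero_add])

theorem fp_succ {f : E → Bi} (hf : FP f) : FP (fun x => (⟨(f x).v + 1⟩ : Bi)) :=
  fp_add hf (fp_constB 1)

theorem fp_pred {f : E → Bi} (hf : FP f) : FP (fun x => (⟨(f x).v - 1⟩ : Bi)) :=
  fp_sub hf (fp_constB 1)

theorem fp_min {f g : E → Bi} (hf : FP f) (hg : FP g) :
    FP (fun x => (⟨min (f x).v (g x).v⟩ : Bi)) :=
  (FP.ite (fp_le hf hg) hf hg).congr (fun x => by
    by_cases h : (f x).v ≤ (g x).v
    · simp [h]
    · simp only [h, decide_false, Bool.false_eq_true, if_false]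
      rw [min_eq_right (by omega)])

theorem fp_max {f g : E → Bi} (hf : FP f) (hg : FP g) :
    FP (fun x => (⟨max (f x).v (g x).v⟩ : Bi)) :=
  (FP.ite (fp_le hf hg) hg hf).congr (fun x => by
    by_cases h : (f x).v ≤ (g x).v
    · simp [h]
    · simp only [h, decide_false, Bool.false_eq_true, if_false]
      rw [max_eq_left (by omega)])

theorem size_pow_two (n : ℕ) : Nat.size (2 ^ n) = n + 1 := Nat.size_pow

/-- powers of two with a unary exponent -/
theorem fp_pow2 {n : E → ℕ} (hn : FP n) : FP (fun x => (⟨2 ^ (n x)⟩ : Bi)) := by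
  have := FP.natRec_growth hn (init := fun _ => (⟨1⟩ : Bi)) (FP.const _)
    (step := fun y : E × Bi => (⟨2 * y.2.v⟩ : Bi))
    ((fp_bit (FP.const false) FP.snd).congr (fun y => by simp)) 1 (by
      intro x s
      rw [size_bi, size_bi, Polynomial.eval_one]
      exact size_bit_le s.v false)
  refine this.congr (fun x => ?_)
  have key : ∀ (k n : ℕ), (fun s : Bi => (⟨2 * s.v⟩ : Bi))^[k] ⟨n⟩ = ⟨n * 2 ^ k⟩ := by
    intro k
    induction k with
    | zero => intro n; simp
    | succ k ih => intro n; rw [Function.iterate_succ_apply, ih]; congr 1; ring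
  exact (key (n x) 1).trans (by rw [Nat.one_mul])

/-- sums of lists -/
theorem fp_sum {l : E → List Bi} (hl : FP l) : FP (fun x => (⟨((l x).map Bi.v).sum⟩ : Bi)) := by
  obtain ⟨p, hp⟩ := hl.size_le
  have := FP.foldlE_growth hl (init := fun _ => (⟨0⟩ : Bi)) (FP.const _)
    (step := fun y : E × Bi × Bi => (⟨y.2.1.v + y.2.2.v⟩ : Bi))
    (fp_add (FP.comp FP.fst FP.snd) (FP.comp FP.snd FP.snd)) (p + 1) (by
      intro x s a ha
      have h1 := (size_le_of_mem ha).trans (hp x)
      rw [size_bi] at h1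
      rw [size_bi, size_bi, Polynomial.eval_add, Polynomial.eval_one]
      have h2 := size_add_le s.v a.v
      exact h2.trans (by omega))
  refine this.congr (fun x => ?_)
  have key : ∀ (l : List Bi) (n : ℕ), List.foldl (fun (s a : Bi) => (⟨s.v + a.v⟩ : Bi)) ⟨n⟩ l =
      ⟨n + (l.map Bi.v).sum⟩ := by
    intro l
    induction l with
    | nil => intro n; simp
    | cons a l ih => intro n; rw [List.foldl_cons, ih]; simp [add_assoc]
  exact (key (l x) 0).trans (by rw [Nat.zero_add])

/-- products of lists -/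
theorem fp_prod {l : E → List Bi} (hl : FP l) : FP (fun x => (⟨((l x).map Bi.v).prod⟩ : Bi)) := by
  obtain ⟨p, hp⟩ := hl.size_le
  have := FP.foldlE_growth hl (init := fun _ => (⟨1⟩ : Bi)) (FP.const _)
    (step := fun y : E × Bi × Bi => (⟨y.2.1.v * y.2.2.v⟩ : Bi))
    (fp_mul (FP.comp FP.fst FP.snd) (FP.comp FP.snd FP.snd)) p (by
      intro x s a ha
      have h1 := (size_le_of_mem ha).trans (hp x)
      rw [size_bi] at h1
      rw [size_bi, size_bi]
      have h2 := size_mul_le s.v a.v
      exact h2.trans (by omega))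
  refine this.congr (fun x => ?_)
  have key : ∀ (l : List Bi) (n : ℕ), List.foldl (fun (s a : Bi) => (⟨s.v * a.v⟩ : Bi)) ⟨n⟩ l =
      ⟨n * (l.map Bi.v).prod⟩ := by
    intro l
    induction l with
    | nil => intro n; simp
    | cons a l ih => intro n; rw [List.foldl_cons, ih]; simp [mul_assoc]
  exact (key (l x) 1).trans (by rw [Nat.one_mul])

/-- sums over a range -/
theorem fp_sumRange {n : E → ℕ} (hn : FP n) {g : E × ℕ → Bi} (hg : FP g) :
    FP (fun x => (⟨∑ i ∈ Finset.range (n x), (g (x, i)).v⟩ : Bi)) := by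
  refine (fp_sum (FP.mapE (FP.range hn) hg)).congr (fun x => ?_)
  rw [List.map_map, Finset.sum_range, ← List.sum_ofFn]
  congr 2
  apply List.ext_getElem
  · simp
  · intro i h1 h2
    simp

/-- products over a range -/
theorem fp_prodRange {n : E → ℕ} (hn : FP n) {g : E × ℕ → Bi} (hg : FP g) :
    FP (fun x => (⟨∏ i ∈ Finset.range (n x), (g (x, i)).v⟩ : Bi)) := by
  refine (fp_prod (FP.mapE (FP.range hn) hg)).congr (fun x => ?_)
  rw [List.map_map, Finset.prod_range, ← List.prod_ofFn]
  congr 2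
  apply List.ext_getElem
  · simp
  · intro i h1 h2
    simp

theorem fp_factorial {n : E → ℕ} (hn : FP n) : FP (fun x => (⟨(n x).factorial⟩ : Bi)) := by
  refine (fp_prodRange hn (g := fun y : E × ℕ => (⟨y.2 + 1⟩ : Bi))
    (fp_succ (fp_ofNat FP.snd))).congr (fun x => ?_)
  congr 1
  exact Finset.prod_range_add_one_eq_factorial _

theorem fp_natToBool {p : E → Bool} (hp : FP p) : FP (fun x => (⟨(p x).toNat⟩ : Bi)) :=
  (FP.ite hp (fp_constB 1) (fp_constB 0)).congr (fun x => by cases p x <;> rfl)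

theorem fp_ifB {p : E → Prop} [∀ x, Decidable (p x)] (hp : FP (fun x => decide (p x)))
    {f g : E → F} (hf : FP f) (hg : FP g) : FP (fun x => if p x then f x else g x) :=
  (FP.ite hp hf hg).congr (fun x => by
    by_cases h : p x <;> simp [h])

end Pool.Agent.JIT
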