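import Pool.Agent.Lib_MP_033923_lc.Defs

set_option autoImplicit false

/-!
# The instance attached to a family of sets, as a list of triples
-/

namespace Pool.Agent.JIT

open Finset

/-- `L` -/
def LN (m e : ℕ) : ℕ := ∏ x ∈ range m, (1 + (m + e + 2) * ((x + 1) * m.factorial))

/-- the modulus -/
def modN (m e x : ℕ) : ℕ := 1 + (m + e + 2) * ((x + 1) * m.factorial)

/-- the multiplier of condition `j` -/
def uN (m e : ℕ) (inc : ℕ → ℕ → Bool) (j : ℕ) : ℕ :=
  if j < m then LN m e / modN m e j
  else ∑ x ∈ range m, (inc x (j - m)).toNat * (((x + 1) * m.factorial) * (LN m e / modN m e x))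

def loN (m j : ℕ) : ℕ := if j < m then 0 else 1

def hiN (m e j : ℕ) : ℕ := if j < m then LN m e / modN m e j else LN m e / (m + e + 2)

/-- total demand -/
def DN (m e : ℕ) : ℕ := (m + e + 1) * (m + e + 2) * LN m e

def spN (m e : ℕ) : ℕ × ℕ × ℕ := (1, 0, penS (2 * (m + e) + 2) (DN m e))

def fiN (m e : ℕ) : ℕ × ℕ × ℕ :=
  ((m + e + 2) * LN m e - 1, (m + e) * (m + e + 2) * LN m e, penO (2 * (m + e) + 2) (DN m e))

def lowN (m e : ℕ) (inc : ℕ → ℕ → Bool) (j : ℕ) : ℕ × ℕ × ℕ :=
  ((m + e + 2) * uN m e inc j, DN m e + (m + e + 1) * (m + e + 2) * loN m j - 1,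
    penO (2 * (m + e) + 2) (DN m e))

def uppN (m e : ℕ) (inc : ℕ → ℕ → Bool) (j : ℕ) : ℕ × ℕ × ℕ :=
  ((m + e + 2) * (LN m e - uN m e inc j), DN m e - (m + e + 1) * (m + e + 2) * hiN m e j - 1,
    penO (2 * (m + e) + 2) (DN m e))

/-- the instance -/
def instN (m e : ℕ) (inc : ℕ → ℕ → Bool) : List (ℕ × ℕ × ℕ) :=
  spN m e :: fiN m e ::
    ((List.range (m + e)).map (lowN m e inc) ++ (List.range (m + e)).map (uppN m e inc))

section compare

variable {m e : ℕ}

/-- the models in the order of the list -/
def modL (m e : ℕ) : List (Model (Fin m ⊕ Fin e)) :=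
  none :: some none ::
    ((List.finRange (m + e)).map (fun j => some (some (Sum.inl (finSumFinEquiv.symm j)))) ++
      (List.finRange (m + e)).map (fun j => some (some (Sum.inr (finSumFinEquiv.symm j)))))

theorem modL_nodup : (modL m e).Nodup := by
  unfold modL
  rw [List.nodup_cons, List.nodup_cons, List.nodup_append]
  refine ⟨by simp, by simp, ?_, ?_, ?_⟩
  · refine List.Nodup.map (fun a b h => ?_) (List.nodup_finRange _)
    simpa using h
  · refine List.Nodup.map (fun a b h => ?_) (List.nodup_finRange _)
    simpa using h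
  · intro a ha b hb hab
    simp only [List.mem_map] at ha hb
    obtain ⟨j, -, rfl⟩ := ha
    obtain ⟨j', -, rfl⟩ := hb
    simp at hab

theorem mem_modL (x : Model (Fin m ⊕ Fin e)) : x ∈ modL m e := by
  unfold modL
  rcases x with _ | _ | (j | j)
  · simp
  · simp
  · refine List.mem_cons_of_mem _ (List.mem_cons_of_mem _ (List.mem_append_left _ ?_))
    exact List.mem_map.2 ⟨finSumFinEquiv j, List.mem_finRange _, by simp⟩
  · refine List.mem_cons_of_mem _ (List.mem_cons_of_mem _ (List.mem_append_right _ ?_))
    exact List.mem_map.2 ⟨finSumFinEquiv j, List.mem_finRange _, by simp⟩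

theorem LN_eq (m e : ℕ) : LN m e = bigL m e := by
  unfold LN bigL modulus mult
  rw [Finset.prod_range]

theorem modN_eq (x : Fin m) : modN m e x = modulus m e x := rfl

variable (inc : ℕ → ℕ → Bool)

/-- the family of sets with the given incidences -/
def incC (m e : ℕ) (inc : ℕ → ℕ → Bool) (x : Fin m) : Finset (Fin e) :=
  univ.filter (fun y => inc x y = true)

theorem uN_eq (j : Fin m ⊕ Fin e) : uN m e inc (finSumFinEquiv j) = cu (incC m e inc) j := by
  rcases j with x | y
  · simp only [finSumFinEquiv_apply_left, Fin.val_castAdd, uN, x.isLt, if_true, cu, LN_eq,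
      modN_eq]
  · simp only [finSumFinEquiv_apply_right, Fin.val_natAdd, uN, cu]
    rw [if_neg (by omega), Finset.sum_range, Finset.sum_filter]
    refine Finset.sum_congr rfl (fun x _ => ?_)
    simp only [incC, mem_filter, mem_univ, true_and, Nat.add_sub_cancel_left, LN_eq, modN_eq]
    cases h : inc x y with
    | true => simp [mult]
    | false => simp

theorem loN_eq (j : Fin m ⊕ Fin e) : loN m (finSumFinEquiv j) = clo j := by
  rcases j with x | y
  · simp [loN, clo]
  · simp [loN, clo]

theorem hiN_eq (j : Fin m ⊕ Fin e) : hiN m e (finSumFinEquiv j) = chi j := by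
  rcases j with x | y
  · simp [hiN, chi, LN_eq, modN_eq]
  · simp [hiN, chi, LN_eq]

theorem card_sum : Fintype.card (Fin m ⊕ Fin e) = m + e := by simp

theorem instN_eq : instN m e inc = (modL m e).map (fun i =>
    (demand (incC m e inc) i, tolerance m e i, penalty m e i)) := by
  unfold instN modL
  rw [List.map_cons, List.map_cons, List.map_append, List.map_map, List.map_map]
  congr 1
  · simp only [spN, demand, wdem, tolerance, wtol, penalty, wpen, DN, LN_eq]
  congr 1
  · simp only [fiN, demand, wdem, tolerance, wtol, penalty, wpen, DN, LN_eq, card_sum]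
  congr 1
  · apply List.ext_getElem
    · simp
    · intro i h1 h2
      simp only [List.getElem_map, List.getElem_range, List.getElem_finRange, Function.comp_apply]
      have hi : i < m + e := by simpa using h1
      obtain ⟨j, hj⟩ := (finSumFinEquiv (m := m) (n := e)).surjective ⟨i, hi⟩
      have hj' : ((finSumFinEquiv j : Fin (m + e)) : ℕ) = i := by rw [hj]
      have e0 : Fin.cast List.length_finRange ⟨i, by simpa using hi⟩ =
        (finSumFinEquiv j : Fin (m + e)) := by
        rw [hj]; rfl
      have e1 : (finSumFinEquiv.symm (⟨i, hi⟩ : Fin (m + e))) = j := by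
        rw [← hj, Equiv.symm_apply_apply]
      simp only [lowN, demand, wdem, tolerance, wtol, penalty, wpen, DN, bigD, LN_eq, card_sum,
        Fin.cast_mk, e1]
      rw [← uN_eq, ← loN_eq, hj']
  · apply List.ext_getElem
    · simp
    · intro i h1 h2
      simp only [List.getElem_map, List.getElem_range, List.getElem_finRange, Function.comp_apply]
      have hi : i < m + e := by simpa using h1
      obtain ⟨j, hj⟩ := (finSumFinEquiv (m := m) (n := e)).surjective ⟨i, hi⟩
      have hj' : ((finSumFinEquiv j : Fin (m + e)) : ℕ) = i := by rw [hj]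
      have e1 : (finSumFinEquiv.symm (⟨i, hi⟩ : Fin (m + e))) = j := by
        rw [← hj, Equiv.symm_apply_apply]
      simp only [uppN, demand, wdem, tolerance, wtol, penalty, wpen, DN, bigD, LN_eq, card_sum,
        Fin.cast_mk, e1]
      rw [← uN_eq, ← hiN_eq, hj']

end compare

end Pool.Agent.JIT
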