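import Pool.Agent.Lib_MP_033923_np.BiList
import Pool.Agent.Lib_MP_033923_np.Inst

set_option autoImplicit false

/-!
# Codes of instances
-/

namespace Pool.Agent.JIT

open Pool.Agent.PartSep Pool.Agent.PartSep.TM Pool.Agent.PartSep.TM.Rep
  Pool.Agent.Lib_MP_8cd8c6_lc N487b59b3

set_option synthInstance.maxSize 2000

variable {E F G : Type} [Rep E] [Rep F] [Rep G]

theorem encodeNat_bit (b : Bool) (n : ℕ) (h : n = 0 → b = true) :
    Computability.encodeNat (Nat.bit b n) = b :: Computability.encodeNat n := by
  have h1 : ((Nat.bit b n : ℕ) : Num) = cond b Num.bit1 Num.bit0 (n : Num) := by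
    rw [← Num.ofNat'_eq, Num.ofNat'_bit, Num.ofNat'_eq]
  have h0 : ((n : Num) : ℕ) = n := Num.to_of_nat n
  unfold Computability.encodeNat
  rw [h1]
  generalize (n : Num) = m at h0
  subst h0
  cases m with
  | zero =>
    have : b = true := h rfl
    subst this
    rfl
  | pos p => cases b <;> rfl

theorem encodeNat_eq (n : ℕ) : Computability.encodeNat n = Nat.bits n := by
  induction n using Nat.binaryRec' with
  | zero =>
    have : ((0 : ℕ) : Num) = Num.zero := by rw [Nat.cast_zero]; rfl
    unfold Computability.encodeNat
    rw [this]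
    rfl
  | bit b n h ih => rw [encodeNat_bit b n h, Nat.bits_append_bit n b h, ih]

theorem encode_nat (n : ℕ) : (bitEncode n).map bs = digs n := by
  change (Computability.encodeNat n).map bs = _
  rw [encodeNat_eq]
  rfl

/-- triples of binary numbers -/
abbrev TB := Bi × (Bi × Bi)

def toTB (t : ℕ × ℕ × ℕ) : TB := (⟨t.1⟩, (⟨t.2.1⟩, ⟨t.2.2⟩))

def ofTB (t : TB) : ℕ × ℕ × ℕ := (t.1.v, t.2.1.v, t.2.2.v)

theorem ofTB_toTB (t : ℕ × ℕ × ℕ) : ofTB (toTB t) = t := rfl

theorem toTB_ofTB (t : TB) : toTB (ofTB t) = t := rfl

/-- the code of a triple -/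
def codT (t : TB) : List Sym := del (digs t.1.v) ++ (del (digs t.2.1.v) ++ digs t.2.2.v)

theorem fp_codT {f : E → TB} (hf : FP f) : FP (fun x => codT (f x)) :=
  FP.append (FP.del (FP.digs (FP.comp FP.fst hf)))
    (FP.append (FP.del (FP.digs (FP.comp FP.fst (FP.comp FP.snd hf))))
      (FP.digs (FP.comp FP.snd (FP.comp FP.snd hf))))

/-- the code of a list of triples -/
def codL (l : List TB) : List Sym := l.flatMap (fun t => del (codT t))

theorem fp_codL {f : E → List TB} (hf : FP f) : FP (fun x => codL (f x)) :=
  FP.flatMapS hf (g := fun y : E × TB => del (codT y.2)) (FP.del (fp_codT FP.snd))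

theorem encode_triple (t : ℕ × ℕ × ℕ) : (bitEncode t).map bs = codT (toTB t) := by
  rw [bitEncode_prod, bitEncode_prod, encode_nat, encode_nat, encode_nat]
  rfl

theorem encode_inst (I : List (ℕ × ℕ × ℕ)) : (bitEncode I).map bs = codL (I.map toTB) := by
  rw [bitEncode_list]
  unfold codL
  rw [List.flatMap_map]
  congr 1
  funext t
  rw [encode_triple]

/-! ### Parsing -/

/-- one step of decoding -/
def undelStep (a : Sym) (s : (Bool × Bool) × (List Sym × List Sym)) :
    (Bool × Bool) × (List Sym × List Sym) :=
  if s.1.1 then (s.1, (s.2.1, a :: s.2.2))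
  else if s.1.2 then ((false, false), (a :: s.2.1, s.2.2))
  else if a = Sym.i then ((false, true), s.2) else ((true, false), s.2)

/-- decoding of `del`: the first block and the rest -/
def undel (l : List Sym) : List Sym × List Sym :=
  let r := l.foldl (fun s a => undelStep a s) ((false, false), ([], []))
  (r.2.1.reverse, r.2.2.reverse)

theorem undel_del (w r : List Sym) : undel (del w ++ r) = (w, r) := by
  have h1 : ∀ (w u : List Sym), (w.flatMap (fun b => [Sym.i, b])).foldl
      (fun s a => undelStep a s) ((false, false), (u, [])) =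
      ((false, false), (w.reverse ++ u, [])) := by
    intro w
    induction w with
    | nil => intro u; rfl
    | cons a w ih =>
      intro u
      rw [List.flatMap_cons, List.foldl_append]
      have : List.foldl (fun s a => undelStep a s) ((false, false), (u, [])) [Sym.i, a] =
          ((false, false), (a :: u, [])) := by
        simp [undelStep]
      rw [this, ih]
      simp
  have h2 : ∀ (r u v : List Sym), r.foldl (fun s a => undelStep a s) ((true, false), (u, v)) =
      ((true, false), (u, r.reverse ++ v)) := by
    intro r
    induction r with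
    | nil => intro u v; rfl
    | cons a r ih =>
      intro u v
      rw [List.foldl_cons]
      have : undelStep a ((true, false), (u, v)) = ((true, false), (u, a :: v)) := by
        simp [undelStep]
      rw [this, ih]
      simp
  unfold undel del
  rw [List.append_assoc, List.foldl_append, h1]
  have h3 : undelStep Sym.o ((false, false), (w.reverse ++ ([] : List Sym), ([] : List Sym))) =
      ((true, false), (w.reverse ++ [], [])) := by
    simp [undelStep]
  rw [List.singleton_append, List.foldl_cons, h3, h2]
  simp

theorem fp_undel {l : E → List Sym} (hl : FP l) : FP (fun x => undel (l x)) := by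
  have hs : FP (fun x => (l x).foldl (fun s a => undelStep a s)
      ((false, false), (([] : List Sym), ([] : List Sym)))) := by
    refine FP.foldl_growth hl
      (init := fun _ => ((false, false), (([] : List Sym), ([] : List Sym))))
      (FP.const _) (step := fun a y => undelStep a y.2) (fun a => ?_) 3 ?_
    · unfold undelStep
      have e1 : FP (fun y : E × ((Bool × Bool) × (List Sym × List Sym)) => y.2.1) :=
        FP.comp FP.fst FP.snd
      have e2 : FP (fun y : E × ((Bool × Bool) × (List Sym × List Sym)) => y.2.2) :=
        FP.comp FP.snd FP.snd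
      refine FP.ite (FP.comp FP.fst e1) ?_ (FP.ite (FP.comp FP.snd e1) ?_ ?_)
      · exact FP.pair e1 (FP.pair (FP.comp FP.fst e2) (FP.cons a (FP.comp FP.snd e2)))
      · exact FP.pair (FP.const _) (FP.pair (FP.cons a (FP.comp FP.fst e2)) (FP.comp FP.snd e2))
      · by_cases h : a = Sym.i
        · simp only [h, if_true]
          exact FP.pair (FP.const _) e2
        · simp only [h, if_false]
          exact FP.pair (FP.const _) e2
    · rintro a x ⟨⟨b, c⟩, u, v⟩
      have h3 : (3 : Polynomial ℕ).eval (size x) = 3 := Polynomial.eval_ofNat (n := 3) (size x)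
      rw [h3]
      simp only [undelStep, size_pair, size_list]
      have hb := size_bool b
      have hc := size_bool c
      have h0 := size_bool false
      have h1 := size_bool true
      split_ifs <;> simp only [List.length_cons] <;> omega
  exact FP.pair (FP.reverse (FP.comp FP.fst (FP.comp FP.snd hs)))
    (FP.reverse (FP.comp FP.snd (FP.comp FP.snd hs)))

/-- the number with given digits (lowest first) -/
def valS (l : List Sym) : ℕ := ofLSB (l.map sb)

theorem valS_digs (n : ℕ) : valS (digs n) = n := by
  unfold valS digs
  rw [List.map_map]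
  have : sb ∘ bs = id := by
    funext b
    exact sb_bs b
  rw [this, List.map_id, ofLSB_bits]

theorem fp_valS {l : E → List Sym} (hl : FP l) : FP (fun x => (⟨valS (l x)⟩ : Bi)) := by
  have := FP.foldl_growth (FP.reverse hl) (init := fun _ => (⟨0⟩ : Bi)) (FP.const _)
    (step := fun a (y : E × Bi) => (⟨2 * y.2.v + (sb a).toNat⟩ : Bi))
    (fun a => fp_bit (FP.const _) FP.snd) 1 (by
      intro a x s
      rw [size_bi, size_bi, Polynomial.eval_one]
      exact size_bit_le _ _)
  refine this.congr (fun x => ?_)
  have key : ∀ (m : List Sym) (n : ℕ), List.foldl (fun (s : Bi) (a : Sym) =>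
      (⟨2 * s.v + (sb a).toNat⟩ : Bi)) ⟨n⟩ m =
      ⟨List.foldl (fun n b => 2 * n + b.toNat) n (m.map sb)⟩ := by
    intro m
    induction m with
    | nil => intro n; rfl
    | cons a m ih => intro n; rw [List.foldl_cons, List.map_cons, List.foldl_cons, ih]
  refine (key _ _).trans ?_
  unfold valS
  rw [← ofMSB_reverse, List.map_reverse]
  rfl

/-- parsing a triple -/
def prsT (w : List Sym) : TB :=
  (⟨valS (undel w).1⟩, (⟨valS (undel (undel w).2).1⟩, ⟨valS (undel (undel w).2).2⟩))

theorem prsT_codT (t : TB) : prsT (codT t) = t := by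
  unfold prsT codT
  rw [undel_del]
  simp only
  rw [undel_del]
  simp only [valS_digs]

theorem fp_prsT {w : E → List Sym} (hw : FP w) : FP (fun x => prsT (w x)) := by
  have h1 := fp_undel hw
  have h2 := fp_undel (FP.comp FP.snd h1)
  exact FP.pair (fp_valS (FP.comp FP.fst h1)) (FP.pair (fp_valS (FP.comp FP.fst h2))
    (fp_valS (FP.comp FP.snd h2)))

/-- parsing a list of triples -/
def prsL (w : List Sym) : List TB := (splitB w).map prsT

theorem prsL_codL (l : List TB) : prsL (codL l) = l := by
  unfold prsL codL
  have : l.flatMap (fun t => del (codT t)) = (l.map codT).flatMap del := by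
    rw [List.flatMap_map]
  rw [this, splitB_flatMap, List.map_map]
  have h : (prsT ∘ codT) = id := by
    funext t
    exact prsT_codT t
  rw [h, List.map_id]

theorem fp_prsL {w : E → List Sym} (hw : FP w) : FP (fun x => prsL (w x)) :=
  FP.mapE (FP.splitB hw) (g := fun y : E × List Sym => prsT y.2) (fp_prsT FP.snd)

end Pool.Agent.JIT
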