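import Pool.Agent.Lib_MP_033923_lc.Cover

set_option autoImplicit false

/-!
# Exact cover as a system of window conditions, with a free factor in the moduli
-/

namespace Pool.Agent.JIT

open Finset

/-- the modulus of the set with index `x` -/
def modQ (Q m : ℕ) (x : Fin m) : ℕ := 1 + Q * mult m x

/-- the product of the moduli -/
def bigLQ (Q m : ℕ) : ℕ := ∏ x : Fin m, modQ Q m x

section cover

variable {m e : ℕ}

/-- the multipliers of the window conditions -/
def cuQ (Q : ℕ) (C : Fin m → Finset (Fin e)) : Fin m ⊕ Fin e → ℕ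
  | Sum.inl x => bigLQ Q m / modQ Q m x
  | Sum.inr y => ∑ x ∈ univ.filter (fun x => y ∈ C x), mult m x * (bigLQ Q m / modQ Q m x)

/-- the upper ends of the windows -/
def chiQ (Q : ℕ) : Fin m ⊕ Fin e → ℕ
  | Sum.inl x => bigLQ Q m / modQ Q m x
  | Sum.inr _ => bigLQ Q m / Q

variable (Q : ℕ) (C : Fin m → Finset (Fin e))

theorem modQ_ge (x : Fin m) : Q + 1 ≤ modQ Q m x := by
  unfold modQ
  have := Nat.mul_le_mul_left Q (mult_pos x)
  omega

theorem bigLQ_pos : 1 ≤ bigLQ Q m := by
  have h : ∀ x ∈ (Finset.univ : Finset (Fin m)), 0 < modQ Q m x := by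
    intro x _
    have := modQ_ge Q x
    omega
  exact Finset.prod_pos h

theorem modQ_mul (x : Fin m) : bigLQ Q m / modQ Q m x * modQ Q m x = bigLQ Q m :=
  Nat.div_mul_cancel (Finset.dvd_prod_of_mem _ (Finset.mem_univ x))

theorem quotQ_pos (x : Fin m) : 1 ≤ bigLQ Q m / modQ Q m x := by
  have h1 := modQ_mul Q x
  have h2 := bigLQ_pos (m := m) Q
  rcases Nat.eq_zero_or_pos (bigLQ Q m / modQ Q m x) with h | h
  · rw [h, Nat.zero_mul] at h1
    omega
  · exact h

/-- `Q b_x (L / p_x) + L / p_x = L` -/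
theorem weightQ_eq (x : Fin m) :
    Q * (mult m x * (bigLQ Q m / modQ Q m x)) + bigLQ Q m / modQ Q m x = bigLQ Q m := by
  have h1 := modQ_mul Q x
  obtain ⟨g, hg⟩ : ∃ g, bigLQ Q m / modQ Q m x = g := ⟨_, rfl⟩
  rw [hg] at h1 ⊢
  unfold modQ at h1
  calc Q * (mult m x * g) + g = g * (1 + Q * mult m x) := by ring
    _ = bigLQ Q m := h1

theorem bigLQ_odd (hQ : Even Q) : Odd (bigLQ Q m) := by
  unfold bigLQ
  have h : ∀ s : Finset (Fin m), Odd (∏ x ∈ s, modQ Q m x) := by
    intro s
    induction s using Finset.induction_on with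
    | empty => exact odd_one
    | insert x s hx ih =>
      rw [Finset.prod_insert hx]
      refine Odd.mul ?_ ih
      unfold modQ
      exact Even.one_add (hQ.mul_right _)
  exact h _

theorem pairwise_coprimeQ : Pairwise (Function.onFun Nat.Coprime (modQ Q m)) := by
  have key : ∀ x y : Fin m, x < y → Nat.Coprime (modQ Q m x) (modQ Q m y) := by
    intro x y hxy
    have hxy' : (x : ℕ) < y := hxy
    have hy := y.2
    have e1 : modQ Q m y = modQ Q m x + Q * (((y : ℕ) - x) * Nat.factorial m) := by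
      unfold modQ mult
      obtain ⟨k, hk⟩ : ∃ k, (y : ℕ) = x + k := ⟨y - x, by omega⟩
      rw [hk, Nat.add_sub_cancel_left]
      ring
    rw [e1, Nat.coprime_self_add_right]
    have h1 : Nat.Coprime (modQ Q m x) Q := by
      unfold modQ
      rw [Nat.coprime_add_mul_left_left]
      exact Nat.coprime_one_left _
    have h2 : Nat.Coprime (modQ Q m x) (Nat.factorial m) := by
      have e2 : modQ Q m x = 1 + (Q * ((x : ℕ) + 1)) * Nat.factorial m := by
        unfold modQ mult
        ring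
      rw [e2, Nat.coprime_add_mul_right_left]
      exact Nat.coprime_one_left _
    have h3 : Nat.Coprime (modQ Q m x) ((y : ℕ) - x) :=
      Nat.Coprime.coprime_dvd_right (Nat.dvd_factorial (by omega) (by omega)) h2
    exact h1.mul_right (h3.mul_right h2)
  intro x y hxy
  rcases lt_or_gt_of_ne hxy with h | h
  · exact key x y h
  · exact (key y x h).symm

/-- the sum of an element condition times `Q` -/
theorem cuQ_sum_le (y : Fin e) : Q * cuQ Q C (Sum.inr y) ≤ m * bigLQ Q m := by
  simp only [cuQ]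
  rw [Finset.mul_sum]
  calc ∑ x ∈ univ.filter (fun x => y ∈ C x), Q * (mult m x * (bigLQ Q m / modQ Q m x))
      ≤ ∑ x ∈ univ.filter (fun x => y ∈ C x), bigLQ Q m := by
        refine Finset.sum_le_sum (fun x _ => ?_)
        exact (Nat.le_add_right _ _).trans (weightQ_eq Q x).le
    _ ≤ ∑ _x : Fin m, bigLQ Q m :=
        Finset.sum_le_sum_of_subset (Finset.filter_subset _ _)
    _ = m * bigLQ Q m := by
        rw [Finset.sum_const, smul_eq_mul, Finset.card_univ, Fintype.card_fin]

theorem cuQ_lt (hQ : m + e + 2 ≤ Q) (y : Fin e) : cuQ Q C (Sum.inr y) < bigLQ Q m := by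
  have h1 := cuQ_sum_le Q C y
  have h2 := bigLQ_pos (m := m) Q
  have h3 : m * bigLQ Q m < Q * bigLQ Q m := Nat.mul_lt_mul_of_pos_right (by omega) h2
  exact Nat.lt_of_mul_lt_mul_left (h1.trans_lt h3)

/-- the residues of the element conditions -/
theorem cuQ_mod (q : ℕ) (y : Fin e) :
    (cuQ Q C (Sum.inr y) * q) % bigLQ Q m =
      (∑ x ∈ univ.filter (fun x => y ∈ C x),
        mult m x * (bigLQ Q m / modQ Q m x) * (q % modQ Q m x)) % bigLQ Q m := by
  simp only [cuQ]
  rw [Finset.sum_mul]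
  have : ∀ s : Finset (Fin m),
      (∑ x ∈ s, mult m x * (bigLQ Q m / modQ Q m x) * q) ≡
        (∑ x ∈ s, mult m x * (bigLQ Q m / modQ Q m x) * (q % modQ Q m x)) [MOD bigLQ Q m] := by
    intro s
    induction s using Finset.induction_on with
    | empty => rfl
    | insert x s hx ih =>
      rw [Finset.sum_insert hx, Finset.sum_insert hx]
      refine Nat.ModEq.add ?_ ih
      rw [Nat.mul_assoc, Nat.mul_assoc]
      refine Nat.ModEq.mul_left _ ?_
      have h1 : (q % modQ Q m x) ≡ q [MOD modQ Q m x] := Nat.mod_modEq _ _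
      have h2 := (h1.mul_left' (bigLQ Q m / modQ Q m x))
      rw [modQ_mul] at h2
      exact h2.symm
  exact this _

theorem cuQ_mod_var (q : ℕ) (x : Fin m) :
    (cuQ Q C (Sum.inl x) * q) % bigLQ Q m = bigLQ Q m / modQ Q m x * (q % modQ Q m x) := by
  simp only [cuQ]
  calc bigLQ Q m / modQ Q m x * q % bigLQ Q m
      = bigLQ Q m / modQ Q m x * q % (bigLQ Q m / modQ Q m x * modQ Q m x) := by
        rw [modQ_mul]
    _ = _ := Nat.mul_mod_mul_left _ _ _

/-- For residues zero and one the element condition reads off the chosen sets. -/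
theorem cuQ_mod' (hQ : m + e + 2 ≤ Q) (q : ℕ) (y : Fin e) (hq : ∀ x : Fin m, q % modQ Q m x ≤ 1) :
    (cuQ Q C (Sum.inr y) * q) % bigLQ Q m =
      ∑ x ∈ univ.filter (fun x => y ∈ C x ∧ q % modQ Q m x = 1),
        mult m x * (bigLQ Q m / modQ Q m x) := by
  rw [cuQ_mod]
  have h1 : (∑ x ∈ univ.filter (fun x => y ∈ C x),
        mult m x * (bigLQ Q m / modQ Q m x) * (q % modQ Q m x)) =
      ∑ x ∈ univ.filter (fun x => y ∈ C x ∧ q % modQ Q m x = 1),
        mult m x * (bigLQ Q m / modQ Q m x) := by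
    rw [← Finset.filter_filter, Finset.sum_filter (fun x => q % modQ Q m x = 1)]
    refine Finset.sum_congr rfl (fun x _ => ?_)
    have := hq x
    split_ifs with h
    · rw [h, Nat.mul_one]
    · have : q % modQ Q m x = 0 := by omega
      rw [this, Nat.mul_zero]
  rw [h1]
  refine Nat.mod_eq_of_lt (lt_of_le_of_lt ?_ (cuQ_lt Q C hQ y))
  simp only [cuQ]
  refine Finset.sum_le_sum_of_subset (fun x hx => ?_)
  rw [Finset.mem_filter] at hx ⊢
  exact ⟨hx.1, hx.2.1⟩

/-- The window conditions are solvable exactly if there is an exact cover. -/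
theorem sol_iffQ (hQ : m + e + 2 ≤ Q) :
    (∃ q, Sol (bigLQ Q m) (cuQ Q C) clo (chiQ Q) q) ↔ HasExactCover C := by
  unfold HasExactCover
  constructor
  · rintro ⟨q, hq⟩
    have hc : ∀ x : Fin m, q % modQ Q m x ≤ 1 := by
      intro x
      have h1 := (hq (Sum.inl x)).2
      rw [cuQ_mod_var] at h1
      simp only [chiQ] at h1
      have h2 := quotQ_pos Q x
      refine Nat.le_of_mul_le_mul_left (c := bigLQ Q m / modQ Q m x) ?_ h2
      omega
    refine ⟨univ.filter (fun x => q % modQ Q m x = 1), fun y => ?_⟩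
    obtain ⟨h1, h2⟩ := hq (Sum.inr y)
    rw [cuQ_mod' Q C hQ q y hc] at h1 h2
    simp only [clo, chiQ] at h1 h2
    have hne : (univ.filter (fun x => y ∈ C x ∧ q % modQ Q m x = 1)).Nonempty := by
      rw [Finset.nonempty_iff_ne_empty]
      intro h
      rw [h, Finset.sum_empty] at h1
      omega
    obtain ⟨x, hx⟩ := hne
    have hx' := Finset.mem_filter.1 hx
    refine ⟨x, ⟨Finset.mem_filter.2 ⟨Finset.mem_univ _, hx'.2.2⟩, hx'.2.1⟩, ?_⟩
    rintro z ⟨hz1, hz2⟩
    by_contra hne
    have hz : z ∈ univ.filter (fun x => y ∈ C x ∧ q % modQ Q m x = 1) :=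
      Finset.mem_filter.2 ⟨Finset.mem_univ _, hz2, (Finset.mem_filter.1 hz1).2⟩
    have hpair : ∑ w ∈ ({z, x} : Finset (Fin m)), mult m w * (bigLQ Q m / modQ Q m w) ≤
        ∑ w ∈ univ.filter (fun x => y ∈ C x ∧ q % modQ Q m x = 1),
          mult m w * (bigLQ Q m / modQ Q m w) := by
      refine Finset.sum_le_sum_of_subset (fun w hw => ?_)
      rw [Finset.mem_insert, Finset.mem_singleton] at hw
      rcases hw with rfl | rfl
      · exact hz
      · exact hx
    rw [Finset.sum_pair hne] at hpair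
    have h3 : Q * (bigLQ Q m / Q) ≤ bigLQ Q m := Nat.mul_div_le _ _
    have h4 := Nat.mul_le_mul_left Q (hpair.trans h2)
    rw [Nat.mul_add] at h4
    have h5 := weightQ_eq Q x
    have h6 := weightQ_eq Q z
    have h7 := modQ_mul Q x
    have h8 := modQ_mul Q z
    have h9 := Nat.mul_le_mul_left (bigLQ Q m / modQ Q m x) (modQ_ge Q x)
    have h10 := Nat.mul_le_mul_left (bigLQ Q m / modQ Q m z) (modQ_ge Q z)
    have h11 := quotQ_pos Q x
    have h12 : bigLQ Q m / modQ Q m x * 3 ≤ bigLQ Q m / modQ Q m x * (Q + 1) :=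
      Nat.mul_le_mul_left _ (by omega)
    have h13 : bigLQ Q m / modQ Q m z * 3 ≤ bigLQ Q m / modQ Q m z * (Q + 1) :=
      Nat.mul_le_mul_left _ (by omega)
    omega
  · rintro ⟨T, hT⟩
    have hs : ∀ x ∈ (Finset.univ : Finset (Fin m)), modQ Q m x ≠ 0 := by
      intro x _
      have := modQ_ge Q x
      omega
    obtain ⟨q, hq⟩ := Nat.chineseRemainderOfFinset (fun x : Fin m => if x ∈ T then 1 else 0)
      (modQ Q m) Finset.univ hs (fun x _ y _ hxy => pairwise_coprimeQ Q hxy)
    have hqx : ∀ x : Fin m, q % modQ Q m x = if x ∈ T then 1 else 0 := by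
      intro x
      have h1 := hq x (Finset.mem_univ x)
      have h2 := modQ_ge Q x
      have h3 : (if x ∈ T then 1 else 0) < modQ Q m x := by
        split_ifs <;> omega
      exact Eq.trans h1 (Nat.mod_eq_of_lt h3)
    have hc : ∀ x : Fin m, q % modQ Q m x ≤ 1 := by
      intro x
      rw [hqx x]
      split_ifs <;> omega
    refine ⟨q, ?_⟩
    rintro (x | y)
    · rw [cuQ_mod_var]
      simp only [clo, chiQ]
      refine ⟨Nat.zero_le _, ?_⟩
      calc bigLQ Q m / modQ Q m x * (q % modQ Q m x)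
          ≤ bigLQ Q m / modQ Q m x * 1 := Nat.mul_le_mul_left _ (hc x)
        _ = _ := Nat.mul_one _
    · rw [cuQ_mod' Q C hQ q y hc]
      simp only [clo, chiQ]
      obtain ⟨x, ⟨hx1, hx2⟩, hx3⟩ := hT y
      have h1 : univ.filter (fun x => y ∈ C x ∧ q % modQ Q m x = 1) = {x} := by
        ext z
        rw [Finset.mem_filter, Finset.mem_singleton]
        constructor
        · rintro ⟨-, h2, h3⟩
          refine hx3 z ⟨?_, h2⟩
          rw [hqx z] at h3
          by_contra h4
          rw [if_neg h4] at h3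
          omega
        · rintro rfl
          refine ⟨Finset.mem_univ _, hx2, ?_⟩
          rw [hqx z, if_pos hx1]
      rw [h1, Finset.sum_singleton]
      refine ⟨Nat.mul_pos (mult_pos x) (quotQ_pos Q x), ?_⟩
      rw [Nat.le_div_iff_mul_le (by omega), Nat.mul_comm]
      exact (Nat.le_add_right _ _).trans (weightQ_eq Q x).le

theorem coprime_bigLQ {R : ℕ} (h : R ∣ Q) : Nat.Coprime R (bigLQ Q m) := by
  unfold bigLQ
  refine Nat.Coprime.prod_right fun x _ => ?_
  obtain ⟨c, rfl⟩ := h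
  unfold modQ
  rw [Nat.mul_assoc, Nat.coprime_add_mul_left_right]
  exact Nat.coprime_one_right R

/-- multiplication of all multipliers by a unit -/
theorem sol_scale {P : Type} {L R : ℕ} (u lo hi : P → ℕ) (hL : 1 ≤ L) (h : Nat.Coprime R L) :
    (∃ q, Sol L (fun j => R * u j) lo hi q) ↔ ∃ q, Sol L u lo hi q := by
  constructor
  · rintro ⟨q, hq⟩
    refine ⟨R * q, fun j => ?_⟩
    have h1 := hq j
    have h2 : R * u j * q = u j * (R * q) := by ring
    simp only [h2] at h1
    exact h1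
  · rintro ⟨q, hq⟩
    obtain ⟨r, hr⟩ : ∃ r, R * r % L = 1 % L := by
      rcases Nat.lt_or_ge 1 L with h1 | h1
      · obtain ⟨r, hr⟩ := Nat.exists_mul_mod_eq_one_of_coprime h h1
        exact ⟨r, by rw [hr.2, Nat.mod_eq_of_lt h1]⟩
      · have : L = 1 := by omega
        subst this
        exact ⟨0, by rw [Nat.mod_one, Nat.mod_one]⟩
    refine ⟨r * q, fun j => ?_⟩
    have h1 := hq j
    have h2 : (R * u j * (r * q)) % L = (u j * q) % L := by
      have e1 : R * u j * (r * q) = (R * r) * (u j * q) := by ring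
      have e2 : (R * r) ≡ 1 [MOD L] := hr
      have e3 := e2.mul_right (u j * q)
      rw [Nat.one_mul] at e3
      rw [e1]
      exact e3
    rw [h2]
    exact h1

section bounds

variable {Q} {R : ℕ} (hR : 2 * (m + e + 1) < R) (hQ : Q = R * (m + e + 2))

include hR hQ

private theorem R_lt_mod (x : Fin m) : R < modQ Q m x := by
  have h1 := modQ_ge Q x
  have h2 : R * 1 ≤ R * (m + e + 2) := Nat.mul_le_mul_left _ (by omega)
  rw [← hQ, Nat.mul_one] at h2
  omega

theorem scale_lt (j : Fin m ⊕ Fin e) : R * cuQ Q C j < bigLQ Q m := by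
  rcases j with x | y
  · simp only [cuQ]
    have h1 := modQ_mul Q x
    have h2 := quotQ_pos Q x
    have h3 := R_lt_mod hR hQ x
    calc R * (bigLQ Q m / modQ Q m x) < modQ Q m x * (bigLQ Q m / modQ Q m x) :=
          Nat.mul_lt_mul_of_pos_right h3 h2
      _ = bigLQ Q m := by rw [Nat.mul_comm, h1]
  · have h1 := cuQ_sum_le Q C y
    have h2 := bigLQ_pos (m := m) Q
    have h3 : Q * (R * cuQ Q C (Sum.inr y)) ≤ R * m * bigLQ Q m := by
      calc Q * (R * cuQ Q C (Sum.inr y)) = R * (Q * cuQ Q C (Sum.inr y)) := by ring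
        _ ≤ R * (m * bigLQ Q m) := Nat.mul_le_mul_left _ h1
        _ = R * m * bigLQ Q m := by ring
    have h4 : R * m < Q := by
      rw [hQ]
      exact Nat.mul_lt_mul_of_pos_left (by omega) (by omega)
    have h5 : R * m * bigLQ Q m < Q * bigLQ Q m := Nat.mul_lt_mul_of_pos_right h4 h2
    exact Nat.lt_of_mul_lt_mul_left (h3.trans_lt h5)

theorem clo_leQ (hcov : ∀ y, ∃ x, y ∈ C x) (j : Fin m ⊕ Fin e) : clo j ≤ R * cuQ Q C j := by
  rcases j with x | y
  · exact Nat.zero_le _
  · simp only [cuQ, clo]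
    obtain ⟨x, hx⟩ := hcov y
    have h1 : 1 ≤ mult m x * (bigLQ Q m / modQ Q m x) :=
      Nat.mul_pos (mult_pos x) (quotQ_pos Q x)
    have h2 := Finset.single_le_sum (s := univ.filter (fun x => y ∈ C x))
      (f := fun x => mult m x * (bigLQ Q m / modQ Q m x))
      (fun _ _ => Nat.zero_le _) (Finset.mem_filter.2 ⟨Finset.mem_univ x, hx⟩)
    exact Nat.mul_pos (by omega) (h1.trans h2)

theorem chi_scale (hcov : ∀ y, ∃ x, y ∈ C x) (j : Fin m ⊕ Fin e) :
    2 * (m + e + 1) * chiQ Q j < R * cuQ Q C j := by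
  rcases j with x | y
  · simp only [cuQ, chiQ]
    exact Nat.mul_lt_mul_of_pos_right hR (quotQ_pos Q x)
  · obtain ⟨x, hx⟩ := hcov y
    have h2 := Finset.single_le_sum (s := univ.filter (fun x => y ∈ C x))
      (f := fun x => mult m x * (bigLQ Q m / modQ Q m x))
      (fun _ _ => Nat.zero_le _) (Finset.mem_filter.2 ⟨Finset.mem_univ x, hx⟩)
    have h3 : mult m x * (bigLQ Q m / modQ Q m x) ≤ cuQ Q C (Sum.inr y) := h2
    have h4 := weightQ_eq Q x
    have h5 : R * (bigLQ Q m / modQ Q m x) < bigLQ Q m := by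
      have h1 := modQ_mul Q x
      calc R * (bigLQ Q m / modQ Q m x) < modQ Q m x * (bigLQ Q m / modQ Q m x) :=
            Nat.mul_lt_mul_of_pos_right (R_lt_mod hR hQ x) (quotQ_pos Q x)
        _ = bigLQ Q m := by rw [Nat.mul_comm, h1]
    have h6 : R * bigLQ Q m = Q * (R * (mult m x * (bigLQ Q m / modQ Q m x))) +
        R * (bigLQ Q m / modQ Q m x) := by
      have e1 : ∀ a g : ℕ, R * (Q * (a * g) + g) = Q * (R * (a * g)) + R * g := by
        intro a g
        ring
      rw [← e1, h4]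
    have h7 : Q * (R * (mult m x * (bigLQ Q m / modQ Q m x))) ≤ Q * (R * cuQ Q C (Sum.inr y)) :=
      Nat.mul_le_mul_left _ (Nat.mul_le_mul_left _ h3)
    have h8 : Q * (bigLQ Q m / Q) ≤ bigLQ Q m := Nat.mul_div_le _ _
    have h9 : 2 * (m + e + 1) * (Q * (bigLQ Q m / Q)) ≤ 2 * (m + e + 1) * bigLQ Q m :=
      Nat.mul_le_mul_left _ h8
    have h10 : (2 * (m + e + 1) + 1) * bigLQ Q m ≤ R * bigLQ Q m := Nat.mul_le_mul_right _ hR
    have h11 : (2 * (m + e + 1) + 1) * bigLQ Q m = 2 * (m + e + 1) * bigLQ Q m + bigLQ Q m := by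
      ring
    have h12 : Q * (2 * (m + e + 1) * chiQ Q (Sum.inr y : Fin m ⊕ Fin e)) =
        2 * (m + e + 1) * (Q * (bigLQ Q m / Q)) := by
      simp only [chiQ]
      ring
    have h13 : Q * (2 * (m + e + 1) * chiQ Q (Sum.inr y : Fin m ⊕ Fin e)) <
        Q * (R * cuQ Q C (Sum.inr y)) := by
      rw [h12]
      omega
    exact Nat.lt_of_mul_lt_mul_left h13

end bounds

end cover

end Pool.Agent.JIT
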