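import Pool.Agent.Lib_MP_033923_lc.Defs

set_option autoImplicit false

/-!
# Window systems with additional models of demand one
-/

namespace Pool.Agent.JIT

open Finset

section window

variable (P : Type) [Fintype P]

/-- The total demand `D = (K + 1) W L` for `K` windows modulo `L` and a factor `W`. -/
def bigD2 (W L : ℕ) : ℕ := (Fintype.card P + 1) * W * L

variable {P}

/-- The demands: `1` for the `c` additional models and for the special model, `W L - 1 - c` for the
filler, `W u_j` and `W (L - u_j)` for the lower and the upper model of the `j`-th condition. -/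
def wdem2 (c W L : ℕ) (u : P → ℕ) : Fin c ⊕ Model P → ℕ
  | Sum.inl _ => 1
  | Sum.inr none => 1
  | Sum.inr (some none) => W * L - 1 - c
  | Sum.inr (some (some (Sum.inl j))) => W * u j
  | Sum.inr (some (some (Sum.inr j))) => W * (L - u j)

/-- The tolerances, multiplied by `D`. -/
def wtol2 (W L : ℕ) (lo hi : P → ℕ) : Model P → ℕ
  | none => 0
  | some none => Fintype.card P * W * L
  | some (some (Sum.inl j)) => bigD2 P W L + (Fintype.card P + 1) * W * lo j - 1
  | some (some (Sum.inr j)) => bigD2 P W L - (Fintype.card P + 1) * W * hi j - 1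

/-- The deviation functions: `G j` for the additional models, hinges for the others; the penalty of
the special model is `Hs`, that of the others `Ho`. -/
noncomputable def wF2 {c : ℕ} (G : Fin c → ℝ → ℝ) (W L : ℕ) (lo hi : P → ℕ) (Hs Ho : ℕ) :
    Fin c ⊕ Model P → ℝ → ℝ
  | Sum.inl j => G j
  | Sum.inr none => hinge ((wtol2 W L lo hi none : ℝ) / (bigD2 P W L : ℝ)) Hs
  | Sum.inr (some i) => hinge ((wtol2 W L lo hi (some i) : ℝ) / (bigD2 P W L : ℝ)) Ho

end window

end Pool.Agent.JIT
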