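import Pool.Agent.Lib_MP_033923_np.Inst

set_option autoImplicit false

/-!
# A fixed sequence of deviation functions

The functions are arranged in blocks `N = 0, 1, 2, ...`. Block `N` consists of the `4 N + 2`
functions with the indices `2 N ^ 2, ..., 2 (N + 1) ^ 2 - 1`; they are piecewise linear,
`|x| + H max (0, -x - α / D)`.
-/

namespace Pool.Agent.JIT

open Finset

/-- the index of the first function of block `N` -/
def offs (N : ℕ) : ℕ := 2 * N ^ 2

/-- the number of functions up to block `N` -/
def cntF (N : ℕ) : ℕ := 2 * (N + 1) ^ 2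

/-- the factor in the demands of block `N` -/
def WN (N : ℕ) : ℕ := (2 * N + 1) * (offs N + 1) + 1

/-- the total demand `D` of the instances of block `N` -/
def DF (N : ℕ) : ℕ := (2 * N + 1) * WN N * LN N N

/-- `1 + H` for all functions of block `N` is at most `CF N` times the bound for earlier blocks -/
def CF (N : ℕ) : ℕ := cntF N * DF N ^ 3 + DF N ^ 3 * (cntF N * DF N ^ 2 + 1) + DF N + 1

/-- a bound for `1 + H` for the functions of the blocks before `N` -/
def MF (N : ℕ) : ℕ := ∏ j ∈ range N, CF j

/-- the tolerance `α` of the function number `r = 0, ..., 4 N + 1` of block `N` -/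
def tolF (N r : ℕ) : ℕ :=
  if r = 0 then 0
  else if r = 1 then 2 * N * WN N * LN N N
  else if r < 2 * N + 2 then DF N + (2 * N + 1) * WN N * loN N (r - 2) - 1
  else DF N - (2 * N + 1) * WN N * hiN N N (r - 2 - 2 * N) - 1

/-- the penalty `H` of the function number `r` of block `N` -/
def penF (N r : ℕ) : ℕ :=
  if r = 0 then penS (cntF N * MF N) (DF N) else penO (cntF N * MF N) (DF N)

/-- the block of index `i` -/
def blk (i : ℕ) : ℕ := Nat.sqrt (i / 2)

/-- the denominator `D` of the function with index `i` -/
def denI (i : ℕ) : ℕ := DF (blk i)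

/-- the tolerance `α` of the function with index `i` -/
def tolI (i : ℕ) : ℕ := tolF (blk i) (i - offs (blk i))

/-- the penalty `H` of the function with index `i` -/
def penI (i : ℕ) : ℕ := penF (blk i) (i - offs (blk i))

/-- the fixed sequence of deviation functions -/
noncomputable def Fstar (i : ℕ) : ℝ → ℝ := hinge ((tolI i : ℝ) / (denI i : ℝ)) (penI i : ℝ)

end Pool.Agent.JIT
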