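import Pool.Agent.Lib_MP_22d2c8_uni.Bridge
import Pool.Agent.Lib_MP_033923_np.Code

set_option autoImplicit false

/-!
# Binary search and search with an oracle for NP
-/

namespace Pool.Agent.JIT

open Pool.Agent.PartSep Pool.Agent.PartSep.TM Pool.Agent.PartSep.TM.Rep Pool.Agent.PartSep.CL
  Pool.Agent.Lib_MP_8cd8c6_lc N487b59b3

set_option synthInstance.maxSize 2000

variable {E F G : Type} [Rep E] [Rep F] [Rep G]

/-! ### Binary search -/

/-- search for the least `v` in `[r, r + 2 ^ k)` with `Q v` -/
def lsearch (Q : ℕ → Bool) : ℕ → ℕ → ℕ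
  | 0, r => r
  | k + 1, r => if Q (r + 2 ^ k - 1) then lsearch Q k r else lsearch Q k (r + 2 ^ k)

theorem lsearch_eq {Q : ℕ → Bool} {v : ℕ} (h : ∀ w, Q w = true ↔ v ≤ w) (k : ℕ) :
    ∀ r, r ≤ v → v < r + 2 ^ k → lsearch Q k r = v := by
  induction k with
  | zero =>
    intro r h1 h2
    rw [pow_zero] at h2
    rw [lsearch]
    omega
  | succ k ih =>
    intro r h1 h2
    have hp : 0 < 2 ^ k := by positivity
    rw [pow_succ] at h2
    rw [lsearch]
    split_ifs with hq
    · rw [h] at hq
      exact ih r h1 (by omega)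
    · rw [h] at hq
      exact ih _ (by omega) (by omega)

theorem fp_lsearch {Q : E × Bi → Bool} (hQ : FP Q) {K : E → ℕ} (hK : FP K) :
    FP (fun x => (⟨lsearch (fun v => Q (x, ⟨v⟩)) (K x) 0⟩ : Bi)) := by
  obtain ⟨p, hp⟩ := hK.size_le
  have hj : FP (fun y : E × Bi × ℕ => (⟨2 ^ y.2.2⟩ : Bi)) := fp_pow2 (FP.comp FP.snd FP.snd)
  have hr : FP (fun y : E × Bi × ℕ => y.2.1) := FP.comp FP.fst FP.snd
  have hsum : FP (fun y : E × Bi × ℕ => (⟨y.2.1.v + 2 ^ y.2.2⟩ : Bi)) := fp_add hr hj
  have hcond : FP (fun y : E × Bi × ℕ => Q (y.1, ⟨y.2.1.v + 2 ^ y.2.2 - 1⟩)) :=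
    FP.comp hQ (FP.pair FP.fst (fp_pred hsum))
  have := FP.foldlE_growth (FP.reverseE (FP.range hK)) (init := fun _ => (⟨0⟩ : Bi)) (FP.const _)
    (step := fun y : E × Bi × ℕ =>
      if Q (y.1, ⟨y.2.1.v + 2 ^ y.2.2 - 1⟩) then y.2.1 else ⟨y.2.1.v + 2 ^ y.2.2⟩)
    (FP.ite hcond hr hsum) (p + 2) (by
      intro x s a ha
      rw [List.mem_reverse, List.mem_range] at ha
      have h1 := hp x
      rw [size_nat] at h1
      have h2 : (2 : Polynomial ℕ).eval (size x) = 2 := Polynomial.eval_ofNat (n := 2) (size x)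
      rw [Polynomial.eval_add, h2]
      simp only
      split_ifs
      · omega
      · rw [size_bi, size_bi]
        have h3 := size_add_le s.v (2 ^ a)
        rw [size_pow_two] at h3
        simp only
        omega)
  refine this.congr (fun x => ?_)
  have key : ∀ (k r : ℕ), List.foldl (fun (s : Bi) (a : ℕ) =>
      if Q (x, ⟨s.v + 2 ^ a - 1⟩) then s else (⟨s.v + 2 ^ a⟩ : Bi)) ⟨r⟩ (List.range k).reverse =
      ⟨lsearch (fun v => Q (x, ⟨v⟩)) k r⟩ := by
    intro k
    induction k with
    | zero => intro r; rfl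
    | succ k ih =>
      intro r
      rw [List.range_succ, List.reverse_append, List.reverse_singleton, List.singleton_append,
        List.foldl_cons, lsearch]
      by_cases h : Q (x, ⟨r + 2 ^ k - 1⟩) = true
      · rw [if_pos h, if_pos h]
        exact ih r
      · rw [if_neg h, if_neg h]
        exact ih _
  exact key (K x) 0

/-- the least `v ≤ B x` with `Q (x, v)` -/
def least (Q : E × Bi → Bool) (B : E → Bi) (x : E) : ℕ :=
  lsearch (fun v => Q (x, ⟨v⟩)) (Nat.size (B x).v) 0

theorem fp_least {Q : E × Bi → Bool} (hQ : FP Q) {B : E → Bi} (hB : FP B) :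
    FP (fun x => (⟨least Q B x⟩ : Bi)) := fp_lsearch hQ (fp_size hB)

omit [TM.Rep E] in
theorem least_eq {Q : E × Bi → Bool} {B : E → Bi} {x : E} {v : ℕ}
    (h : ∀ w, Q (x, ⟨w⟩) = true ↔ v ≤ w) (hv : v ≤ (B x).v) : least Q B x = v := by
  refine lsearch_eq h _ 0 (Nat.zero_le _) ?_
  have := Nat.lt_size_self (B x).v
  omega

/-! ### Codes by bit strings -/

/-- A type whose elements are coded by bit strings. -/
class Cod (E : Type) [Rep E] where
  enc : E → List Sym
  dec : List Sym → E
  fenc : FP enc
  fdec : FP dec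
  dec_enc : ∀ x, dec (enc x) = x
  bits : ∀ x, ((enc x).map sb).map bs = enc x

theorem bits_digs (n : ℕ) : ((digs n).map sb).map bs = digs n := by
  unfold digs
  rw [List.map_map, List.map_map]
  congr 1
  funext b
  cases b <;> rfl

theorem bits_del {l : List Sym} (h : (l.map sb).map bs = l) :
    ((del l).map sb).map bs = del l := by
  unfold del
  rw [List.map_append, List.map_append]
  congr 1
  induction l with
  | nil => rfl
  | cons a l ih =>
    simp only [List.map_cons, List.cons.injEq] at h
    rw [List.flatMap_cons, List.map_append, List.map_append, ih h.2]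
    simp only [List.map_cons, List.map_nil, h.1]
    rfl

instance : Cod Bi where
  enc b := digs b.v
  dec w := ⟨valS w⟩
  fenc := FP.digs FP.id
  fdec := fp_valS FP.id
  dec_enc x := by rw [valS_digs]
  bits x := bits_digs _

instance [Cod E] [Cod F] : Cod (E × F) where
  enc x := del (Cod.enc x.1) ++ Cod.enc x.2
  dec w := (Cod.dec (undel w).1, Cod.dec (undel w).2)
  fenc := FP.append (FP.del (FP.comp Cod.fenc FP.fst)) (FP.comp Cod.fenc FP.snd)
  fdec := FP.pair (FP.comp Cod.fdec (FP.comp FP.fst (fp_undel FP.id)))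
    (FP.comp Cod.fdec (FP.comp FP.snd (fp_undel FP.id)))
  dec_enc x := by rw [undel_del, Cod.dec_enc, Cod.dec_enc]
  bits x := by
    rw [List.map_append, List.map_append, bits_del (Cod.bits _), Cod.bits]

instance [Inhabited E] [Cod E] : Cod (List E) where
  enc l := l.flatMap (fun a => del (Cod.enc a))
  dec w := (splitB w).map Cod.dec
  fenc := FP.flatMapS FP.id (g := fun y : List E × E => del (Cod.enc y.2))
    (FP.del (FP.comp Cod.fenc FP.snd))
  fdec := FP.mapE (FP.splitB FP.id) (g := fun y : List Sym × List Sym => Cod.dec y.2)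
    (FP.comp Cod.fdec FP.snd)
  dec_enc l := by
    have : l.flatMap (fun a => del (Cod.enc a)) = (l.map Cod.enc).flatMap del := by
      rw [List.flatMap_map]
    rw [this, splitB_flatMap, List.map_map]
    have h : (Cod.dec ∘ Cod.enc : E → E) = id := by
      funext t
      exact Cod.dec_enc t
    rw [h, List.map_id]
  bits l := by
    induction l with
    | nil => rfl
    | cons a l ih =>
      rw [List.flatMap_cons, List.map_append, List.map_append, ih, bits_del (Cod.bits _)]

/-! ### Strings of bits and their codes -/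

/-- removing the code of a list of bits -/
def unb (s : List Sym) : List Sym := (splitB s).flatMap (fun b => b)

theorem fp_unb {l : E → List Sym} (hl : FP l) : FP (fun x => unb (l x)) :=
  FP.flatMapS (FP.splitB hl) (g := fun y : E × List Sym => y.2) FP.snd

theorem splitB_code (x : List Bool) :
    splitB ((bitEncode x).map bs) = x.map (fun b => [bs b]) := by
  rw [bitEncode_list]
  have h : x.flatMap (fun a => del ((bitEncode a).map bs)) =
      (x.map (fun b => [bs b])).flatMap del := by
    rw [List.flatMap_map]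
    rfl
  rw [h, splitB_flatMap]

theorem flatMap_sing (x : List Bool) : (x.map (fun b => [bs b])).flatMap (fun b => b) =
    x.map bs := by
  induction x with
  | nil => rfl
  | cons a x ih => simp [ih]

theorem unb_code (x : List Bool) : unb ((bitEncode x).map bs) = x.map bs := by
  unfold unb
  rw [splitB_code, flatMap_sing]

theorem splitB_pair (x w : List Bool) :
    splitB ((bitEncode (x, w)).map bs) = (bitEncode x).map bs :: w.map (fun b => [bs b]) := by
  have h : (bitEncode (x, w)).map bs =
      ((bitEncode x).map bs :: w.map (fun b => [bs b])).flatMap del := by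
    have hw : (bitEncode w).map bs = w.flatMap (fun a => del [bs a]) := bitEncode_list w
    rw [bitEncode_prod, List.flatMap_cons, List.flatMap_map]
    change del ((bitEncode x).map bs) ++ (bitEncode w).map bs = _
    rw [hw]
  rw [h, splitB_flatMap]

theorem fp_bsB {b : E → Bool} (hb : FP b) : FP (fun x => [bs (b x)]) :=
  (FP.ite hb (FP.const [Sym.i]) (FP.const [Sym.o])).congr (fun x => by cases b x <;> rfl)

/-! ### Existential quantifiers -/

open Classical in
/-- Under `NP ⊆ P` a bounded existential quantifier can be eliminated. -/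
theorem fp_exists (hPNP : N68a2faeb.NP ⊆ N68a2faeb.P) [Cod E] {R : E × Bi → Bool} (hR : FP R)
    {B : E → Bi} (hB : FP B) : FP (fun x => decide (∃ v ≤ (B x).v, R (x, ⟨v⟩) = true)) := by
  -- the language
  let D : List Sym → E := fun s => Cod.dec s
  have hD : FP D := Cod.fdec
  let L : List Bool → Bool := fun y =>
    decide (∃ v ≤ (B (D (y.map bs))).v, R (D (y.map bs), ⟨v⟩) = true)
  obtain ⟨pD, hpD⟩ := hD.size_le
  obtain ⟨pB, hpB⟩ := hB.size_le
  -- the relation
  let R' : List Bool × List Bool → Bool := fun yw =>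
    decide (valS (yw.2.map bs) ≤ (B (D (yw.1.map bs))).v) &&
      R (D (yw.1.map bs), ⟨valS (yw.2.map bs)⟩)
  have hR' : N68a2faeb.IsPolyTime R' := by
    have h1 : FP (fun s : List Sym => D (unb ((splitB s)[0]?.getD []))) :=
      FP.comp hD (fp_unb (FP.getE (FP.splitB FP.id) (FP.const 0) []))
    have h2 : FP (fun s : List Sym => (⟨valS ((splitB s).tail.flatMap (fun b => b))⟩ : Bi)) :=
      fp_valS (FP.flatMapS (FP.tailE (FP.splitB FP.id))
        (g := fun y : List Sym × List Sym => y.2) FP.snd)
    have h3 : FP (fun s : List Sym =>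
        decide (valS ((splitB s).tail.flatMap (fun b => b)) ≤
          (B (D (unb ((splitB s)[0]?.getD [])))).v) &&
        R (D (unb ((splitB s)[0]?.getD [])), ⟨valS ((splitB s).tail.flatMap (fun b => b))⟩)) :=
      FP.and (fp_le h2 (FP.comp hB h1)) (FP.comp hR (FP.pair h1 h2))
    refine FP.toTM2 (αΓ := Bool) (βΓ := Bool) bs sb bs sb_bs (fp_bsB h3) (fun yw => ?_)
    obtain ⟨y, w⟩ := yw
    change [bs _] = [bs (R' (y, w))]
    congr 2
    have e1 : splitB (((N487b59b3.toEncoding (α := List Bool × List Bool)).encode (y, w)).map bs) =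
        (bitEncode y).map bs :: w.map (fun b => [bs b]) := splitB_pair y w
    rw [e1]
    simp only [List.getElem?_cons_zero, Option.getD_some, List.tail_cons, unb_code,
      flatMap_sing, R']
  have hL : L ∈ N68a2faeb.NP := by
    refine ⟨pB.comp pD, R', hR', fun y => ?_⟩

    simp only [L, decide_eq_true_eq]
    constructor
    · rintro ⟨v, hv, hRv⟩
      refine ⟨Nat.bits v, ?_, ?_⟩
      · rw [Nat.size_eq_bits_len, Polynomial.eval_comp]
        have h1 := hpD (y.map bs)
        rw [size_list, List.length_map] at h1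
        have h2 := hpB (D (y.map bs))
        rw [size_bi] at h2
        have h3 := poly_mono pB h1
        have h4 := Nat.size_le_size hv
        omega
      · have e : valS ((Nat.bits v).map bs) = v := valS_digs v
        simp only [R', e, Bool.and_eq_true, decide_eq_true_eq]
        exact ⟨hv, hRv⟩
    · rintro ⟨w, -, hw⟩
      simp only [R', Bool.and_eq_true, decide_eq_true_eq] at hw
      exact ⟨_, hw.1, hw.2⟩
  obtain ⟨gL, hgL, hL2⟩ := FP.ofTM2 (hPNP hL)
  have h5 : FP (fun x : E => decide ((gL (bits (Cod.enc x))).head? = some Sym.i)) :=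
    FP.headIs (FP.comp hgL (fp_bits Cod.fenc)) Sym.i
  refine h5.congr (fun x => ?_)
  have e1 : bits (Cod.enc x) = (bitEncode ((Cod.enc x).map sb)).map bs := by
    rw [← bits_map_bs, Cod.bits]
  have e2 : gL ((bitEncode ((Cod.enc x).map sb)).map bs) = [bs (L ((Cod.enc x).map sb))] :=
    hL2 ((Cod.enc x).map sb)
  have e3 : D (((Cod.enc x).map sb).map bs) = x := by
    rw [Cod.bits]
    exact Cod.dec_enc x
  have e4 : L ((Cod.enc x).map sb) = decide (∃ v ≤ (B x).v, R (x, ⟨v⟩) = true) := by
    simp only [L, e3]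
  rw [e1, e2, e4]
  by_cases h : ∃ v ≤ (B x).v, R (x, ⟨v⟩) = true
  · simp only [h, decide_true, bs, if_true, List.head?_cons]
  · simp only [h, decide_false, bs, Bool.false_eq_true, if_false, List.head?_cons]
    simp

end Pool.Agent.JIT
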