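import Pool.Agent.Lib_MP_033923_np.Gcd
import Pool.Agent.Lib_MP_033923_np.Search

set_option autoImplicit false

/-!
# Codes of rational numbers
-/

namespace Pool.Agent.JIT

open Pool.Agent.PartSep Pool.Agent.PartSep.TM Pool.Agent.PartSep.TM.Rep Pool.Agent.PartSep.CL
  Pool.Agent.Lib_MP_8cd8c6_lc N487b59b3

set_option synthInstance.maxSize 2000

variable {E F G : Type} [Rep E] [Rep F] [Rep G]

theorem fpb_val {f : E → Bi} (hf : FP f) : FPB (fun x => (f x).v) := hf

/-- the code of an integer with given absolute value and sign -/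
def codZ (s : Bool) (p : ℕ) : List Sym :=
  if s then del (digs p) ++ digs 0 else del (digs 0) ++ digs p

/-- the code of a fraction -/
def codQ (s : Bool) (p q : ℕ) : List Sym := del (codZ s p) ++ digs q

theorem encode_int (a : ℤ) : (bitEncode a).map bs = del (digs a.toNat) ++ digs (-a).toNat := by
  have h : bitEncode a = bitEncode (a.toNat, (-a).toNat) := rfl
  rw [h, bitEncode_prod, encode_nat, encode_nat]

theorem encode_rat (x : ℚ) : (bitEncode x).map bs =
    del (del (digs x.num.toNat) ++ digs (-x.num).toNat) ++ digs x.den := by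
  have h : bitEncode x = bitEncode (x.num, x.den) := rfl
  rw [h, bitEncode_prod, encode_int, encode_nat]

/-- a rational number with a sign -/
def sgQ (s : Bool) (x : ℚ) : ℚ := if s then x else -x

theorem encode_frac (s : Bool) (p : ℕ) {q : ℕ} (hq : 0 < q) :
    (bitEncode (sgQ s ((p : ℚ) / q))).map bs = codQ s (p / Nat.gcd p q) (q / Nat.gcd p q) := by
  have hg : 0 < Nat.gcd p q := Nat.gcd_pos_of_pos_right _ hq
  obtain ⟨a, ha⟩ : ∃ a, p / Nat.gcd p q = a := ⟨_, rfl⟩
  obtain ⟨b, hb⟩ : ∃ b, q / Nat.gcd p q = b := ⟨_, rfl⟩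
  have hpa : p = Nat.gcd p q * a := by
    rw [← ha]
    exact (Nat.mul_div_cancel' (Nat.gcd_dvd_left p q)).symm
  have hqb : q = Nat.gcd p q * b := by
    rw [← hb]
    exact (Nat.mul_div_cancel' (Nat.gcd_dvd_right p q)).symm
  have hcop : Nat.Coprime a b := by
    rw [← ha, ← hb]
    exact Nat.coprime_div_gcd_div_gcd hg
  have hb0 : 0 < b := by
    rcases Nat.eq_zero_or_pos b with h | h
    · rw [h, Nat.mul_zero] at hqb
      omega
    · exact h
  have e1 : (p : ℚ) / q = (a : ℚ) / b := by
    have h1 : (p : ℚ) = (Nat.gcd p q : ℚ) * a := by exact_mod_cast hpa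
    have h2 : (q : ℚ) = (Nat.gcd p q : ℚ) * b := by exact_mod_cast hqb
    have h3 : (Nat.gcd p q : ℚ) ≠ 0 := by exact_mod_cast hg.ne'
    rw [h1, h2, mul_div_mul_left _ _ h3]
  -- numerator and denominator
  let z : ℤ := if s then (a : ℤ) else -(a : ℤ)
  have hz : z.natAbs = a := by
    simp only [z]
    split_ifs <;> simp
  have e2 : sgQ s ((p : ℚ) / q) = (z : ℚ) / ((b : ℤ) : ℚ) := by
    rw [e1]
    unfold sgQ
    simp only [z]
    split_ifs
    · push_cast
      rfl
    · push_cast
      ring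
  have hcop' : Nat.Coprime z.natAbs (b : ℤ).natAbs := by
    rw [hz, Int.natAbs_natCast]
    exact hcop
  have hb0' : (0 : ℤ) < b := by exact_mod_cast hb0
  have e3 : (sgQ s ((p : ℚ) / q)).num = z := by
    rw [e2]
    exact Rat.num_div_eq_of_coprime hb0' hcop'
  have e4 : (sgQ s ((p : ℚ) / q)).den = b := by
    have := Rat.den_div_eq_of_coprime hb0' hcop'
    rw [← e2] at this
    exact_mod_cast this
  rw [encode_rat, e3, e4, ha, hb]
  unfold codQ codZ
  simp only [z]
  cases s
  · simp
  · simp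

/-- the code of a string of bits, as a function on strings of symbols -/
def codeB (c : List Sym) : List Sym := c.flatMap (fun b => del [b])

theorem codeB_map (c : List Bool) : codeB (c.map bs) = (bitEncode c).map bs := by
  rw [bitEncode_list]
  unfold codeB
  rw [List.flatMap_map]
  rfl

theorem fp_codeB {c : E → List Sym} (hc : FP c) : FP (fun x => codeB (c x)) := by
  have h := FP.subst hc (fun b => del [b])
  exact h

theorem fp_codZ {s : E → Bool} {p : E → ℕ} (hs : FP s) (hp : FPB p) :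
    FP (fun x => codZ (s x) (p x)) := by
  unfold codZ
  exact FP.ite hs (FP.append (FP.del (FP.digs hp)) (FP.const _))
    (FP.append (FP.const _) (FP.digs hp))

theorem fp_codQ {s : E → Bool} {p q : E → ℕ} (hs : FP s) (hp : FPB p) (hq : FPB q) :
    FP (fun x => codQ (s x) (p x) (q x)) :=
  FP.append (FP.del (fp_codZ hs hp)) (FP.digs hq)

/-- the numerator and the denominator of a nonnegative rational number from its code -/
def prsQ (w : List Sym) : Bi × Bi := (⟨valS (undel (undel w).1).1⟩, ⟨valS (undel w).2⟩)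

theorem fp_prsQ {w : E → List Sym} (hw : FP w) : FP (fun x => prsQ (w x)) := by
  have h1 := fp_undel hw
  exact FP.pair (fp_valS (FP.comp FP.fst (fp_undel (FP.comp FP.fst h1))))
    (fp_valS (FP.comp FP.snd h1))

theorem prsQ_code (x : ℚ) : prsQ ((bitEncode x).map bs) = (⟨x.num.toNat⟩, ⟨x.den⟩) := by
  unfold prsQ
  rw [encode_rat, undel_del]
  simp only
  rw [undel_del, valS_digs, valS_digs]

/-- the evaluator attached to a function on codes -/
def evOf (gv : List Sym → List Sym) (y : (List Sym × Bool) × (Bi × Bi)) : Bi × Bi :=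
  prsQ (gv (del (codeB y.1.1) ++ codQ y.1.2 (y.2.1.v / Nat.gcd y.2.1.v y.2.2.v)
    (y.2.2.v / Nat.gcd y.2.1.v y.2.2.v)))

theorem fp_evOf {gv : List Sym → List Sym} (hg : FP gv) : FP (evOf gv) := by
  unfold evOf
  have hp : FPB (fun y : (List Sym × Bool) × (Bi × Bi) => y.2.1.v) :=
    fpb_val (FP.comp FP.fst FP.snd)
  have hq : FPB (fun y : (List Sym × Bool) × (Bi × Bi) => y.2.2.v) :=
    fpb_val (FP.comp FP.snd FP.snd)
  have hgcd := fp_gcd hp hq
  exact fp_prsQ (FP.comp hg (FP.append (FP.del (fp_codeB (FP.comp FP.fst FP.fst)))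
    (fp_codQ (FP.comp FP.snd FP.fst) (fp_divB hp hgcd) (fp_divB hq hgcd))))

theorem evOf_spec {gv : List Sym → List Sym} {val : List Bool × ℚ → ℚ}
    (h : ∀ x, gv ((bitEncode x).map bs) = (bitEncode (val x)).map bs) (c : List Bool) (s : Bool)
    (p : ℕ) {q : ℕ} (hq : 0 < q) : evOf gv ((c.map bs, s), ((⟨p⟩ : Bi), (⟨q⟩ : Bi))) =
      (⟨(val (c, sgQ s ((p : ℚ) / q))).num.toNat⟩, ⟨(val (c, sgQ s ((p : ℚ) / q))).den⟩) := by
  unfold evOf
  simp only
  rw [← encode_frac s p hq, codeB_map, ← bitEncode_prod (c, sgQ s ((p : ℚ) / q)), h, prsQ_code]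

end Pool.Agent.JIT
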