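import Pool.Agent.Lib_MP_033923_lc.Defs
import Pool.Prelude.Def_H_3587d628

set_option autoImplicit false

/-!
# Just-in-time sequencing with binary data: algorithms

The models are numbered `0, 1, ..., n - 1` and the positions `1, ..., D`. Running times are measured
by `N68a2faeb.IsPolyTime`: polynomial time of a machine of Mathlib's model `TM2`, all data (numbers
in binary) coded by bit strings.
-/

namespace Pool.Agent.JIT

open Finset

/-- The functions allowed in the problem: convex, zero at `0` and positive elsewhere. -/
def IsDevFun (f : ℝ → ℝ) : Prop := ConvexOn ℝ Set.univ f ∧ f 0 = 0 ∧ ∀ x, x ≠ 0 → 0 < f x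

/-- Both parts of an algorithm run in polynomial time: `build` makes the data structure from the
instance, `query` answers a query from the data structure and a position. -/
def PolyTimeAlg {I : Type} [N487b59b3 I] (build : I → List Bool)
    (query : List Bool × ℕ → ℕ) : Prop :=
  N68a2faeb.IsPolyTime build ∧ N68a2faeb.IsPolyTime query

/-! ### Fixed functions `F 0, F 1, F 2, ...`, the input is the list of demands -/

/-- `build` and `query` solve the total deviation problem for the functions `F 0, F 1, ...`: for
every nonempty list `d` of positive demands there is one optimal sequence `S` such that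
`query (build d, k)` is the model at position `k` of `S`, for all positions `k`. -/
def SolvesTotalSeq (F : ℕ → ℝ → ℝ) (build : List ℕ → List Bool)
    (query : List Bool × ℕ → ℕ) : Prop :=
  ∀ d : List ℕ, d ≠ [] → (∀ x ∈ d, 0 < x) → ∃ S : ℕ → Fin d.length,
    IsOptimalTotal d.get (fun i => F i) S ∧
    ∀ k ∈ Icc 1 (total d.get), query (build d, k) = (S k : ℕ)

/-- The same for the maximum deviation problem. -/
def SolvesMaxSeq (F : ℕ → ℝ → ℝ) (build : List ℕ → List Bool)
    (query : List Bool × ℕ → ℕ) : Prop :=
  ∀ d : List ℕ, d ≠ [] → (∀ x ∈ d, 0 < x) → ∃ S : ℕ → Fin d.length,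
    IsOptimalMax d.get (fun i => F i) S ∧
    ∀ k ∈ Icc 1 (total d.get), query (build d, k) = (S k : ℕ)

/-! ### Functions given by codes: the input is the list of the codes and the demands -/

/-- The functions `F c` with codes `c` have rational values at rational points, and these are
computed in polynomial time from the code and the point. -/
def PolyEval (F : List Bool → ℝ → ℝ) : Prop :=
  ∃ val : List Bool × ℚ → ℚ, N68a2faeb.IsPolyTime val ∧ ∀ c (x : ℚ), F c (x : ℝ) = (val (c, x) : ℝ)

/-- The same for a sequence of functions: the index `i` is given as any bit string of length `i`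
(an instance with `n` models has at least `n` bits). -/
def PolyEvalSeq (F : ℕ → ℝ → ℝ) : Prop := PolyEval (fun c => F c.length)

/-- `build` and `query` solve the maximum deviation problem for the functions `F c`; an instance is
a nonempty list of pairs of a code and a positive demand, one pair for each model. -/
def SolvesMaxFam (F : List Bool → ℝ → ℝ) (build : List (List Bool × ℕ) → List Bool)
    (query : List Bool × ℕ → ℕ) : Prop :=
  ∀ I : List (List Bool × ℕ), I ≠ [] → (∀ p ∈ I, 0 < p.2) → ∃ S : ℕ → Fin I.length,
    IsOptimalMax (fun i => (I.get i).2) (fun i => F (I.get i).1) S ∧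
    ∀ k ∈ Icc 1 (total (fun i => (I.get i).2)), query (build I, k) = (S k : ℕ)

end Pool.Agent.JIT
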