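import Pool.Agent.Lib_MP_033923_np.Fix
import Pool.Agent.Lib_MP_033923_np.Seqs
import Pool.Agent.Lib_MP_033923_np.RatCode

set_option autoImplicit false

/-!
# The functions of the fixed sequence are computed in polynomial time
-/

namespace Pool.Agent.JIT

open Pool.Agent.PartSep Pool.Agent.PartSep.TM Pool.Agent.PartSep.TM.Rep Pool.Agent.PartSep.CL
  Pool.Agent.Lib_MP_8cd8c6_lc N487b59b3

set_option synthInstance.maxSize 2000

variable {E F G : Type} [Rep E] [Rep F] [Rep G]

theorem fp_offs {N : E → ℕ} (hN : FP N) : FP (fun x => offs (N x)) := by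
  unfold offs
  exact (FP.mul (FP.const 2) (FP.mul hN hN)).congr (fun x => by rw [sq])

theorem fpb_WN {N : E → ℕ} (hN : FP N) : FPB (fun x => WN (N x)) := by
  unfold WN
  exact fp_ofNat (FP.add (FP.mul (FP.add (FP.mul (FP.const 2) hN) (FP.const 1))
    (FP.add (fp_offs hN) (FP.const 1))) (FP.const 1))

theorem fe_odd {N : E → ℕ} (hN : FP N) : FPB (fun x => 2 * N x + 1) :=
  fp_ofNat (FP.add (FP.mul (FP.const 2) hN) (FP.const 1))

theorem fpb_DF {N : E → ℕ} (hN : FP N) : FPB (fun x => DF (N x)) := by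
  unfold DF
  exact fp_mulB (fp_mulB (fe_odd hN) (fpb_WN hN)) (fp_LN hN hN)

theorem fe_cntF {N : E → ℕ} (hN : FP N) : FPB (fun x => cntF (N x)) := by
  unfold cntF
  have h1 : FP (fun x => N x + 1) := FP.add hN (FP.const 1)
  exact fp_ofNat ((FP.mul (FP.const 2) (FP.mul h1 h1)).congr (fun x => by rw [sq]))

theorem fe_pow3 {f : E → ℕ} (hf : FPB f) : FPB (fun x => f x ^ 3) :=
  (fp_mulB (fp_mulB hf hf) hf).congr (fun x => by
    change (⟨f x * f x * f x⟩ : Bi) = ⟨f x ^ 3⟩
    congr 1
    ring)

theorem fe_CF {N : E → ℕ} (hN : FP N) : FPB (fun x => CF (N x)) := by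
  unfold CF
  have hD := fpb_DF hN
  exact fp_addB (fp_addB (fp_addB (fp_mulB (fe_cntF hN) (fe_pow3 hD)) (fp_mulB (fe_pow3 hD)
    (fp_addB (fp_mulB (fe_cntF hN) (fpb_pow2 hD)) (fpb_const 1)))) hD) (fpb_const 1)

theorem fe_MF {N : E → ℕ} (hN : FP N) : FPB (fun x => MF (N x)) := by
  unfold MF
  exact fp_prodRange hN (g := fun y : E × ℕ => (⟨CF y.2⟩ : Bi)) (fe_CF FP.snd)

theorem fe_tolF {N r : E → ℕ} (hN : FP N) (hr : FP r) : FPB (fun x => tolF (N x) (r x)) := by
  unfold tolF
  have hW := fpb_WN hN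
  have hD := fpb_DF hN
  have hL : FPB (fun x => LN (N x) (N x)) := fp_LN hN hN
  have h2N : FPB (fun x => 2 * N x) := fp_ofNat (FP.mul (FP.const 2) hN)
  have h2N2 : FP (fun x => 2 * N x + 2) := FP.add (FP.mul (FP.const 2) hN) (FP.const 2)
  have hr2 : FP (fun x => r x - 2) := FP.sub hr (FP.const 2)
  have hlo : FPB (fun x => loN (N x) (r x - 2)) := by
    unfold loN
    exact fpb_ite (FP.natLt hr2 hN) (fpb_const 0) (fpb_const 1)
  have hj : FP (fun x => r x - 2 - 2 * N x) := FP.sub hr2 (FP.mul (FP.const 2) hN)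
  have hhi : FPB (fun x => hiN (N x) (N x) (r x - 2 - 2 * N x)) := by
    unfold hiN
    exact fpb_ite (FP.natLt hj hN) (fp_divB hL (fp_modN hN hN hj))
      (fp_divB hL (fp_ofNat (FP.add (FP.add hN hN) (FP.const 2))))
  exact fpb_ite (FP.natEq hr (FP.const 0)) (fpb_const 0)
    (fpb_ite (FP.natEq hr (FP.const 1)) (fp_mulB (fp_mulB h2N hW) hL)
      (fpb_ite (FP.natLt hr h2N2)
        (fp_subB (fp_addB hD (fp_mulB (fp_mulB (fe_odd hN) hW) hlo)) (fpb_const 1))
        (fp_subB (fp_subB hD (fp_mulB (fp_mulB (fe_odd hN) hW) hhi)) (fpb_const 1))))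

theorem fe_penF {N r : E → ℕ} (hN : FP N) (hr : FP r) : FPB (fun x => penF (N x) (r x)) := by
  unfold penF
  have hD := fpb_DF hN
  have hn : FPB (fun x => cntF (N x) * MF (N x)) := fp_mulB (fe_cntF hN) (fe_MF hN)
  have hS : FPB (fun x => penS (cntF (N x) * MF (N x)) (DF (N x))) := by
    unfold penS
    exact fp_mulB hD (fp_addB (fp_mulB hn (fpb_pow2 hD)) (fpb_const 1))
  have hO : FPB (fun x => penO (cntF (N x) * MF (N x)) (DF (N x))) := by
    unfold penO
    exact fp_mulB hD (fp_addB (fp_addB (fp_mulB hn (fpb_pow2 hD)) (fp_mulB hD hS)) (fpb_const 1))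
  exact fpb_ite (FP.natEq hr (FP.const 0)) hS hO

theorem fe_blk_iter (i : ℕ) : ∀ k : ℕ,
    (fun s : ℕ => if decide (2 * ((s + 1) * (s + 1)) ≤ i) then s + 1 else s)^[k] 0 =
      min k (Nat.sqrt (i / 2)) := by
  intro k
  induction k with
  | zero => simp
  | succ k ih =>
    rw [Function.iterate_succ_apply', ih]
    have key : ∀ s : ℕ, 2 * ((s + 1) * (s + 1)) ≤ i ↔ s + 1 ≤ Nat.sqrt (i / 2) := by
      intro s
      rw [Nat.le_sqrt, Nat.le_div_iff_mul_le (by norm_num), mul_comm]
    by_cases h : k + 1 ≤ Nat.sqrt (i / 2)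
    · have h1 : min k (Nat.sqrt (i / 2)) = k := min_eq_left (by omega)
      rw [h1, min_eq_left h]
      simp only [(key k).2 h, decide_true, if_true]
    · have h1 : min k (Nat.sqrt (i / 2)) = Nat.sqrt (i / 2) := min_eq_right (by omega)
      have h2 : ¬ 2 * ((Nat.sqrt (i / 2) + 1) * (Nat.sqrt (i / 2) + 1)) ≤ i := by
        rw [key]
        omega
      rw [h1, min_eq_right (by omega)]
      simp only [h2, decide_false, Bool.false_eq_true, if_false]

theorem fe_blk {i : E → ℕ} (hi : FP i) : FP (fun x => blk (i x)) := by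
  have h3 := FP.natRec_growth hi (init := fun _ => (0 : ℕ)) (FP.const _)
    (step := fun y : E × ℕ => if decide (2 * ((y.2 + 1) * (y.2 + 1)) ≤ i y.1) then y.2 + 1
      else y.2)
    (FP.ite (FP.natLe (FP.mul (FP.const 2) (FP.mul (FP.add FP.snd (FP.const 1))
      (FP.add FP.snd (FP.const 1)))) (FP.comp hi FP.fst)) (FP.add FP.snd (FP.const 1)) FP.snd) 1
    (by
      intro x s
      rw [size_nat, size_nat, Polynomial.eval_one]
      simp only
      split <;> omega)
  refine h3.congr (fun x => ?_)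
  unfold blk
  refine (fe_blk_iter (i x) (i x)).trans (min_eq_right ?_)
  exact (Nat.sqrt_le_self _).trans (Nat.div_le_self _ _)

theorem fe_rem {i : E → ℕ} (hi : FP i) : FP (fun x => i x - offs (blk (i x))) :=
  FP.sub hi (fp_offs (fe_blk hi))

theorem fe_denI {i : E → ℕ} (hi : FP i) : FPB (fun x => denI (i x)) := by
  unfold denI
  exact fpb_DF (fe_blk hi)

theorem fpb_tolI {i : E → ℕ} (hi : FP i) : FPB (fun x => tolI (i x)) := by
  unfold tolI
  exact fe_tolF (fe_blk hi) (fe_rem hi)

theorem fpb_penI {i : E → ℕ} (hi : FP i) : FPB (fun x => penI (i x)) := by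
  unfold penI
  exact fe_penF (fe_blk hi) (fe_rem hi)

/-! ### The values -/

theorem fe_denI_pos (i : ℕ) : 0 < denI i := by
  unfold denI DF WN LN
  refine Nat.mul_pos (Nat.mul_pos (by omega) (by omega)) ?_
  exact Finset.prod_pos (fun x _ => by omega)

/-- the numerator of the value -/
def feA (i np nm d : ℕ) : ℕ := (np + nm) * denI i + penI i * (nm * denI i - tolI i * d)

/-- the denominator of the value -/
def feB (i d : ℕ) : ℕ := d * denI i

theorem feB_pos (i : ℕ) {d : ℕ} (hd : 0 < d) : 0 < feB i d := Nat.mul_pos hd (fe_denI_pos i)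

theorem fe_value (i : ℕ) (x : ℚ) : Fstar i (x : ℝ) =
    ((feA i x.num.toNat (-x.num).toNat x.den : ℝ)) / (feB i x.den : ℝ) := by
  have hD : (0 : ℝ) < denI i := by exact_mod_cast fe_denI_pos i
  have hd : (0 : ℝ) < x.den := by exact_mod_cast x.den_pos
  have hx : (x : ℝ) = (x.num : ℝ) / (x.den : ℝ) := by
    exact_mod_cast (Rat.num_div_den x).symm
  unfold Fstar feA feB hinge
  rw [hx]
  obtain ⟨D, hDD⟩ : ∃ D, denI i = D := ⟨_, rfl⟩
  obtain ⟨H, hH⟩ : ∃ H, penI i = H := ⟨_, rfl⟩
  obtain ⟨t, ht⟩ : ∃ t, tolI i = t := ⟨_, rfl⟩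
  obtain ⟨d, hdd⟩ : ∃ d, x.den = d := ⟨_, rfl⟩
  rw [hDD] at hD ⊢
  rw [hH, ht]
  rw [hdd] at hd ⊢
  rcases le_total 0 x.num with h | h
  · obtain ⟨a, ha⟩ : ∃ a : ℕ, x.num = a := ⟨x.num.toNat, (Int.toNat_of_nonneg h).symm⟩
    rw [ha]
    have h1 : ((a : ℤ)).toNat = a := Int.toNat_natCast a
    have h2 : (-(a : ℤ)).toNat = 0 := Int.toNat_of_nonpos (by omega)
    rw [h1, h2, Nat.zero_mul, Nat.zero_sub, Nat.mul_zero, Nat.add_zero, Nat.add_zero]
    push_cast
    have h3 : (0 : ℝ) ≤ (a : ℝ) / d := by positivity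
    have h4 : (0 : ℝ) ≤ (t : ℝ) / D := by positivity
    rw [abs_of_nonneg h3, max_eq_left (by linarith), mul_zero, add_zero]
    field_simp
  · obtain ⟨a, ha⟩ : ∃ a : ℕ, x.num = -(a : ℤ) := ⟨(-x.num).toNat, by omega⟩
    rw [ha]
    have h1 : (-(a : ℤ)).toNat = 0 := Int.toNat_of_nonpos (by omega)
    have h2 : (-(-(a : ℤ))).toNat = a := by rw [neg_neg]; exact Int.toNat_natCast a
    rw [h1, h2, Nat.zero_add]
    have h3 : |((-(a : ℤ) : ℤ) : ℝ) / (d : ℝ)| = (a : ℝ) / d := by
      push_cast
      rw [neg_div, abs_neg, abs_of_nonneg (by positivity)]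
    rw [h3]
    have h5 : -(((-(a : ℤ) : ℤ) : ℝ) / (d : ℝ)) - (t : ℝ) / (D : ℝ) =
        ((a : ℝ) * D - t * d) / (d * D) := by
      push_cast
      field_simp
    rw [h5]
    rcases le_total (a * D) (t * d) with h6 | h6
    · have h7 : (a : ℝ) * D ≤ t * d := by exact_mod_cast h6
      rw [Nat.sub_eq_zero_of_le h6, max_eq_left (div_nonpos_of_nonpos_of_nonneg (by linarith)
        (by positivity))]
      push_cast
      field_simp
      ring
    · have h7 : (t : ℝ) * d ≤ a * D := by exact_mod_cast h6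
      rw [max_eq_right (div_nonneg (by linarith) (by positivity))]
      push_cast
      rw [Nat.cast_sub h6]
      push_cast
      field_simp

/-- the evaluator on strings -/
def feG (w : List Sym) : List Sym :=
  codQ true
    (feA (unb (undel w).1).length (valS (undel (undel (undel w).2).1).1)
        (valS (undel (undel (undel w).2).1).2) (valS (undel (undel w).2).2) /
      Nat.gcd (feA (unb (undel w).1).length (valS (undel (undel (undel w).2).1).1)
        (valS (undel (undel (undel w).2).1).2) (valS (undel (undel w).2).2))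
        (feB (unb (undel w).1).length (valS (undel (undel w).2).2)))
    (feB (unb (undel w).1).length (valS (undel (undel w).2).2) /
      Nat.gcd (feA (unb (undel w).1).length (valS (undel (undel (undel w).2).1).1)
        (valS (undel (undel (undel w).2).1).2) (valS (undel (undel w).2).2))
        (feB (unb (undel w).1).length (valS (undel (undel w).2).2)))

theorem fe_feG : FP feG := by
  have h1 : FP (fun w : List Sym => undel w) := fp_undel FP.id
  have hi : FP (fun w : List Sym => (unb (undel w).1).length) :=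
    FP.length (fp_unb (FP.comp FP.fst h1))
  have h2 : FP (fun w : List Sym => undel (undel w).2) := fp_undel (FP.comp FP.snd h1)
  have h3 : FP (fun w : List Sym => undel (undel (undel w).2).1) :=
    fp_undel (FP.comp FP.fst h2)
  have hp : FPB (fun w : List Sym => valS (undel (undel (undel w).2).1).1) :=
    fp_valS (FP.comp FP.fst h3)
  have hm : FPB (fun w : List Sym => valS (undel (undel (undel w).2).1).2) :=
    fp_valS (FP.comp FP.snd h3)
  have hd : FPB (fun w : List Sym => valS (undel (undel w).2).2) :=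
    fp_valS (FP.comp FP.snd h2)
  have hD : FPB (fun w : List Sym => denI (unb (undel w).1).length) := fe_denI hi
  have hH : FPB (fun w : List Sym => penI (unb (undel w).1).length) := fpb_penI hi
  have hT : FPB (fun w : List Sym => tolI (unb (undel w).1).length) := fpb_tolI hi
  have hA : FPB (fun w : List Sym => feA (unb (undel w).1).length
      (valS (undel (undel (undel w).2).1).1) (valS (undel (undel (undel w).2).1).2)
      (valS (undel (undel w).2).2)) := by
    unfold feA
    exact fp_addB (fp_mulB (fp_addB hp hm) hD) (fp_mulB hH (fp_subB (fp_mulB hm hD)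
      (fp_mulB hT hd)))
  have hB : FPB (fun w : List Sym => feB (unb (undel w).1).length
      (valS (undel (undel w).2).2)) := by
    unfold feB
    exact fp_mulB hd hD
  have hg := fp_gcd hA hB
  unfold feG
  exact fp_codQ (FP.const true) (fp_divB hA hg) (fp_divB hB hg)

/-- the value of the function with index `c.length` at `x` -/
def feV (y : List Bool × ℚ) : ℚ :=
  (feA y.1.length y.2.num.toNat (-y.2.num).toNat y.2.den : ℚ) / (feB y.1.length y.2.den : ℚ)

theorem polyEval_Fstar : PolyEvalSeq Fstar := by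
  refine ⟨feV, ?_, fun c x => ?_⟩
  · refine FP.toTM2 (αΓ := Bool) (βΓ := Bool) bs sb bs sb_bs fe_feG (fun y => ?_)
    obtain ⟨c, x⟩ := y
    have e1 : ((N487b59b3.toEncoding (α := List Bool × ℚ)).encode (c, x)).map bs =
        del ((bitEncode c).map bs) ++ (bitEncode x).map bs := bitEncode_prod (c, x)
    have e2 : ((N487b59b3.toEncoding (α := ℚ)).encode (feV (c, x))).map bs =
        (bitEncode (sgQ true (feV (c, x)))).map bs := rfl
    have e3 := encode_frac true (feA c.length x.num.toNat (-x.num).toNat x.den)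
      (feB_pos c.length x.den_pos)
    rw [e1, e2]
    unfold feV
    simp only
    rw [e3]
    unfold feG
    rw [undel_del]
    simp only
    rw [encode_rat, undel_del]
    simp only
    rw [undel_del]
    simp only
    rw [unb_code, List.length_map, valS_digs, valS_digs, valS_digs]
  · change Fstar c.length (x : ℝ) = _
    rw [fe_value]
    unfold feV
    push_cast
    rfl

end Pool.Agent.JIT
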