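import Pool.Agent.Lib_MP_033923_lc.Defs
import Pool.Prelude.Def_H_3587d628

set_option autoImplicit false

/-!
# Just-in-time sequencing with binary data: algorithms
-/

namespace Pool.Agent.JIT

open Finset

/-- An instance: the list of the triples `(d_i, t_i, H_i)`; `d_i` is the demand of model `i` and
`F_i(x) = |x| + H_i * max (0, -x - t_i / D)` its deviation function. -/
abbrev Inst := List (ℕ × ℕ × ℕ)

/-- the demands of an instance -/
def dem (I : Inst) (i : Fin I.length) : ℕ := (I.get i).1

/-- the deviation functions of an instance -/
noncomputable def devF (I : Inst) (i : Fin I.length) : ℝ → ℝ :=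
  hinge (((I.get i).2.1 : ℝ) / (total (dem I) : ℝ)) ((I.get i).2.2 : ℝ)

/-- at least one model, all demands positive -/
def Valid (I : Inst) : Prop := I ≠ [] ∧ ∀ i, 0 < dem I i

/-- `build` and `query` solve the total deviation problem: for every instance `I` there is one
optimal sequence `S` such that `query (build I, k)` is the (number of the) model at position `k`
of `S`, for all positions `k = 1, ..., D`. -/
def SolvesTotal (build : Inst → List Bool) (query : List Bool × ℕ → ℕ) : Prop :=
  ∀ I : Inst, Valid I → ∃ S : ℕ → Fin I.length, IsOptimalTotal (dem I) (devF I) S ∧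
    ∀ k ∈ Icc 1 (total (dem I)), query (build I, k) = (S k : ℕ)

/-- The same for the maximum deviation problem. -/
def SolvesMax (build : Inst → List Bool) (query : List Bool × ℕ → ℕ) : Prop :=
  ∀ I : Inst, Valid I → ∃ S : ℕ → Fin I.length, IsOptimalMax (dem I) (devF I) S ∧
    ∀ k ∈ Icc 1 (total (dem I)), query (build I, k) = (S k : ℕ)

/-- Polynomial time algorithms: both parts are computed in polynomial time (by a machine of
Mathlib's model `TM2`, numbers in binary), in the length of the code of the instance, and in the length
of the code of the data structure and of the position. -/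
def PolyAlg (build : Inst → List Bool) (query : List Bool × ℕ → ℕ) : Prop :=
  N68a2faeb.IsPolyTime build ∧ N68a2faeb.IsPolyTime query

end Pool.Agent.JIT
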