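import Pool.Agent.Lib_MP_033923_lc.Exist
import Pool.Agent.Lib_MP_033923_np.Problem
import Pool.Agent.Lib_MP_033923_np.Inst

set_option autoImplicit false

/-!
# Renaming the models
-/

namespace Pool.Agent.JIT

open Finset

section transport

variable {ι κ : Type} [Fintype ι] [DecidableEq ι] [Fintype κ] [DecidableEq κ]

theorem total_equiv (σ : ι ≃ κ) {d : ι → ℕ} {d' : κ → ℕ} (hd : ∀ i, d' (σ i) = d i) :
    total d' = total d := by
  unfold total
  rw [← Equiv.sum_comp σ]
  exact Finset.sum_congr rfl (fun i _ => hd i)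

theorem isSeq_equiv (σ : ι ≃ κ) {d : ι → ℕ} {d' : κ → ℕ} (hd : ∀ i, d' (σ i) = d i)
    (S : ℕ → ι) : IsSeq d' (fun k => σ (S k)) ↔ IsSeq d S := by
  unfold IsSeq
  rw [total_equiv σ hd]
  constructor
  · intro h i
    have := h (σ i)
    rw [hd] at this
    rw [← this]
    congr 1
    apply Finset.filter_congr
    intro k _
    simp
  · intro h i
    obtain ⟨i, rfl⟩ := σ.surjective i
    rw [hd, ← h i]
    congr 1
    apply Finset.filter_congr
    intro k _
    simp

theorem produced_equiv (σ : ι ≃ κ) (S : ℕ → ι) (i : ι) (k : ℕ) :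
    produced (fun k => σ (S k)) (σ i) k = produced S i k := by
  unfold produced
  congr 1
  apply Finset.filter_congr
  intro k _
  simp

theorem dev_equiv (σ : ι ≃ κ) {d : ι → ℕ} {d' : κ → ℕ} (hd : ∀ i, d' (σ i) = d i)
    {F : ι → ℝ → ℝ} {F' : κ → ℝ → ℝ} (hF : ∀ i, F' (σ i) = F i) (S : ℕ → ι) (i : ι) (k : ℕ) :
    dev d' F' (fun k => σ (S k)) (σ i) k = dev d F S i k := by
  unfold dev
  rw [total_equiv σ hd, hd, hF, produced_equiv]

theorem totalDeviation_equiv (σ : ι ≃ κ) {d : ι → ℕ} {d' : κ → ℕ} (hd : ∀ i, d' (σ i) = d i)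
    {F : ι → ℝ → ℝ} {F' : κ → ℝ → ℝ} (hF : ∀ i, F' (σ i) = F i) (S : ℕ → ι) :
    totalDeviation d' F' (fun k => σ (S k)) = totalDeviation d F S := by
  unfold totalDeviation
  rw [← Equiv.sum_comp σ, total_equiv σ hd]
  refine Finset.sum_congr rfl (fun i _ => Finset.sum_congr rfl (fun k _ => ?_))
  exact dev_equiv σ hd hF S i k

theorem maxDeviation_equiv (σ : ι ≃ κ) {d : ι → ℕ} {d' : κ → ℕ} (hd : ∀ i, d' (σ i) = d i)
    {F : ι → ℝ → ℝ} {F' : κ → ℝ → ℝ} (hF : ∀ i, F' (σ i) = F i) (S : ℕ → ι) :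
    maxDeviation d' F' (fun k => σ (S k)) = maxDeviation d F S := by
  unfold maxDeviation
  congr 1
  ext y
  simp only [Set.mem_ofPred_eq, total_equiv σ hd]
  constructor
  · rintro ⟨i, k, hk, rfl⟩
    obtain ⟨i, rfl⟩ := σ.surjective i
    exact ⟨i, k, hk, dev_equiv σ hd hF S i k⟩
  · rintro ⟨i, k, hk, rfl⟩
    exact ⟨σ i, k, hk, (dev_equiv σ hd hF S i k).symm⟩

theorem isOptimalTotal_equiv (σ : ι ≃ κ) {d : ι → ℕ} {d' : κ → ℕ} (hd : ∀ i, d' (σ i) = d i)
    {F : ι → ℝ → ℝ} {F' : κ → ℝ → ℝ} (hF : ∀ i, F' (σ i) = F i) (S : ℕ → ι)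
    (h : IsOptimalTotal d F S) : IsOptimalTotal d' F' (fun k => σ (S k)) := by
  refine ⟨(isSeq_equiv σ hd S).2 h.1, fun S' hS' => ?_⟩
  have e : S' = fun k => σ (σ.symm (S' k)) := by funext k; simp
  rw [e] at hS' ⊢
  rw [totalDeviation_equiv σ hd hF, totalDeviation_equiv σ hd hF]
  exact h.2 _ ((isSeq_equiv σ hd _).1 hS')

theorem isOptimalMax_equiv (σ : ι ≃ κ) {d : ι → ℕ} {d' : κ → ℕ} (hd : ∀ i, d' (σ i) = d i)
    {F : ι → ℝ → ℝ} {F' : κ → ℝ → ℝ} (hF : ∀ i, F' (σ i) = F i) (S : ℕ → ι)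
    (h : IsOptimalMax d F S) : IsOptimalMax d' F' (fun k => σ (S k)) := by
  refine ⟨(isSeq_equiv σ hd S).2 h.1, fun S' hS' => ?_⟩
  have e : S' = fun k => σ (σ.symm (S' k)) := by funext k; simp
  rw [e] at hS' ⊢
  rw [maxDeviation_equiv σ hd hF, maxDeviation_equiv σ hd hF]
  exact h.2 _ ((isSeq_equiv σ hd _).1 hS')

end transport

section lists

variable {ι : Type} [Fintype ι] [DecidableEq ι] (L : List ι) (f : ι → ℕ × ℕ × ℕ)

/-- the model with a given number -/
def modelOf (i : Fin (L.map f).length) : ι := L.get (i.cast (List.length_map f))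

theorem get_map (i : Fin (L.map f).length) : (L.map f).get i = f (modelOf L f i) := by
  simp [modelOf]

theorem modelOf_bijective (hnd : L.Nodup) (hc : ∀ x, x ∈ L) :
    Function.Bijective (modelOf L f) := by
  constructor
  · intro i j h
    have h1 := List.nodup_iff_injective_get.1 hnd h
    exact Fin.ext (by simpa [Fin.ext_iff] using h1)
  · intro x
    obtain ⟨i, hi⟩ := List.mem_iff_get.1 (hc x)
    exact ⟨i.cast (List.length_map f).symm, by simpa [modelOf] using hi⟩

/-- the numbering as an equivalence -/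
noncomputable def modelEquiv (hnd : L.Nodup) (hc : ∀ x, x ∈ L) : Fin (L.map f).length ≃ ι :=
  Equiv.ofBijective (modelOf L f) (modelOf_bijective L f hnd hc)

end lists

section instance_

variable {m e : ℕ} (inc : ℕ → ℕ → Bool)

/-- all that is needed of the main theorem on exact covers -/
theorem inst_main (hcov : ∀ y, ∃ x, y ∈ incC m e inc x) :
    Valid (instN m e inc) ∧
    (∀ S : ℕ → Fin (instN m e inc).length,
      IsOptimalTotal (dem (instN m e inc)) (devF (instN m e inc)) S →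
        ((S 1 : ℕ) = 0 ↔ ¬ HasExactCover (incC m e inc))) ∧
    (∀ S : ℕ → Fin (instN m e inc).length,
      IsOptimalMax (dem (instN m e inc)) (devF (instN m e inc)) S →
        ((S 1 : ℕ) = 0 ↔ ¬ HasExactCover (incC m e inc))) ∧
    1 ≤ total (dem (instN m e inc)) := by
  set C := incC m e inc with hC
  have hL := bigL_pos (m := m) (e := e)
  have hu := cu_lt C
  have hlo := clo_le C hcov
  have hhi := chi_lt (m := m) (e := e)
  have hT : total (demand C) = bigD (Fin m ⊕ Fin e) (bigL m e) := total_eq _ _ hL hu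
  have hD := one_le_bigD (P := Fin m ⊕ Fin e) (bigL m e) hL
  rw [instN_eq]
  let f : Model (Fin m ⊕ Fin e) → ℕ × ℕ × ℕ := fun i =>
    (demand C i, tolerance m e i, penalty m e i)
  let σ := modelEquiv (modL m e) f modL_nodup mem_modL
  change Valid ((modL m e).map f) ∧
    (∀ S : ℕ → Fin ((modL m e).map f).length,
      IsOptimalTotal (dem ((modL m e).map f)) (devF ((modL m e).map f)) S →
        ((S 1 : ℕ) = 0 ↔ ¬ HasExactCover C)) ∧
    (∀ S : ℕ → Fin ((modL m e).map f).length,
      IsOptimalMax (dem ((modL m e).map f)) (devF ((modL m e).map f)) S →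
        ((S 1 : ℕ) = 0 ↔ ¬ HasExactCover C)) ∧ 1 ≤ total (dem ((modL m e).map f))
  have hd : ∀ i, demand C (σ i) = dem ((modL m e).map f) i := by
    intro i
    unfold dem
    rw [get_map]
    rfl
  have htot : total (demand C) = total (dem ((modL m e).map f)) := total_equiv σ hd
  have hF : ∀ i, devFun m e (σ i) = devF ((modL m e).map f) i := by
    intro i
    unfold devF devFun wF hinges
    rw [get_map, ← htot, hT]
    simp only [f, tolerance, penalty, bigD, card_sum]
    rfl
  have h0 : ∀ i : Fin ((modL m e).map f).length, (i : ℕ) = 0 ↔ σ i = none := by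
    intro i
    have hz : σ ⟨0, by simp [modL]⟩ = none := rfl
    constructor
    · intro h
      rw [← hz]
      congr 1
      exact Fin.ext h
    · intro h
      have := σ.injective (h.trans hz.symm)
      rw [this]
  refine ⟨⟨by simp [modL], fun i => ?_⟩, fun S hS => ?_, fun S hS => ?_, ?_⟩
  · rw [← hd]
    exact demand_pos C hcov _
  · have h1 := isOptimalTotal_equiv σ hd hF S hS
    have h2 := window_total (bigL m e) (cu C) clo chi hL hu hlo hhi _ h1
    rw [sol_iff C] at h2
    exact (h0 (S 1)).trans h2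
  · have h1 := isOptimalMax_equiv σ hd hF S hS
    have h2 := window_max (bigL m e) (cu C) clo chi hL hu hlo hhi _ h1
    rw [sol_iff C] at h2
    exact (h0 (S 1)).trans h2
  · rw [← htot, hT]
    exact hD

end instance_

end Pool.Agent.JIT
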