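import Pool.Agent.Lib_MP_033923_np.Window2a

set_option autoImplicit false
set_option linter.unusedSectionVars false

/-!
# Sequences respecting the tolerances of window systems with additional models
-/

namespace Pool.Agent.JIT

open Finset

variable {P : Type} [Fintype P] [DecidableEq P]

section window

variable {c : ℕ} (W L : ℕ) (u lo hi : P → ℕ)
variable (hL : 1 ≤ L) (hu : ∀ j, u j < L) (hlo : ∀ j, lo j ≤ u j)
  (hhi : ∀ j, (Fintype.card P + 1) * hi j < L)
  (hW : (Fintype.card P + 1) * (c + 1) < W)

theorem card_model2 : Fintype.card (Fin c ⊕ Model P) = c + 2 * Fintype.card P + 2 := by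
  simp only [Fintype.card_sum, Fintype.card_option, Fintype.card_fin]
  ring

include hL hu hW

theorem total_eq2 : total (wdem2 c W L u) = bigD2 P W L := by
  have h1 : ∑ j : P, W * u j + ∑ j : P, W * (L - u j) = Fintype.card P * (W * L) := by
    rw [← Finset.sum_add_distrib]
    rw [Finset.sum_congr rfl (fun j _ => by
      rw [← Nat.mul_add, Nat.add_sub_cancel' (hu j).le] :
      ∀ j ∈ (Finset.univ : Finset P), W * u j + W * (L - u j) = W * L)]
    rw [Finset.sum_const, smul_eq_mul, Finset.card_univ]
  have h0 := c_lt_W2 (P := P) W L hL hW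
  have h2 : c + 1 < W * L := lt_of_lt_of_le h0 (Nat.le_mul_of_pos_right _ hL)
  unfold total
  rw [Fintype.sum_sum_type, Fintype.sum_option, Fintype.sum_option, Fintype.sum_sum_type]
  simp only [wdem2]
  rw [h1, Finset.sum_const, Finset.card_univ, Fintype.card_fin, smul_eq_mul]
  have h3 : bigD2 P W L = Fintype.card P * (W * L) + W * L := by
    unfold bigD2
    ring
  omega

theorem special_needed2 {t : ℕ} (h1 : 1 ≤ t) (h2 : t ≤ bigD2 P W L) :
    need (bigD2 P W L) (mdem2 c W L u) (wtol2 W L lo hi) none t = 1 := by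
  unfold need
  simp only [mdem2, wdem2, wtol2, one_mul, Nat.sub_zero]
  exact Nat.div_eq_of_lt_le (by omega) (by omega)

/-- the tolerances of all models (the additional models have none) -/
def al2 (c W L : ℕ) (lo hi : P → ℕ) : Fin c ⊕ Model P → ℕ :=
  Sum.elim (fun _ => 0) (wtol2 W L lo hi)

include hlo hhi

/-- A sequence respecting all tolerances except possibly that of the special model. -/
theorem exists_seq2 : ∃ S, IsSeq (wdem2 c W L u) S ∧
    ∀ i : Model P, i ≠ none → ∀ k ∈ Icc 1 (total (wdem2 c W L u)),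
      Good (wdem2 c W L u) (al2 c W L lo hi) S (Sum.inr i) k := by
  have hD := one_le_bigD2 (P := P) W L hL hW
  have hT := total_eq2 W L u hL hu hW
  obtain ⟨S, hS1, hS2⟩ := exists_schedule
    (ι := Fin c ⊕ Model P)
    (fun i t => Sum.elim (fun _ => 0) (fun i => if i = none then 0 else
      need (bigD2 P W L) (mdem2 c W L u) (wtol2 W L lo hi) i t) i)
    (fun i t => by
      rcases i with i | i
      · exact le_rfl
      · simp only [Sum.elim_inr]
        split_ifs
        · exact le_rfl
        · exact need_mono _ hD _ _ i t)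
    (bigD2 P W L) (fun t _ => by
      rw [Fintype.sum_sum_type, Fintype.sum_option]
      simp only [Sum.elim_inl, Sum.elim_inr, if_true, reduceCtorEq, if_false, Nat.zero_add,
        Finset.sum_const_zero]
      exact (sum_need2 W L u lo hi hL hu hlo hhi hW t).1) (wdem2 c W L u) hT (fun i => by
      rcases i with i | i
      · exact Nat.zero_le _
      · simp only [Sum.elim_inr]
        split_ifs
        · exact Nat.zero_le _
        · exact need_top _ hD _ _ i)
  refine ⟨S, fun i => ?_, fun i hi k hk => ?_⟩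
  · rw [hT]
    exact hS1 i
  · rw [hT, Finset.mem_Icc] at hk
    have := hS2 k hk.2 (Sum.inr i)
    simp only [Sum.elim_inr] at this
    rw [if_neg hi] at this
    unfold Good
    rw [hT]
    exact need_le _ hD _ _ i k _ this

/-- If the window conditions have no solution then a sequence respecting all tolerances exists. -/
theorem exists_seq_all2 (hno : ¬ ∃ q, Sol L u lo hi q) : ∃ S, IsSeq (wdem2 c W L u) S ∧
    ∀ i : Model P, ∀ k ∈ Icc 1 (total (wdem2 c W L u)),
      Good (wdem2 c W L u) (al2 c W L lo hi) S (Sum.inr i) k := by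
  have hD := one_le_bigD2 (P := P) W L hL hW
  have hT := total_eq2 W L u hL hu hW
  obtain ⟨S, hS1, hS2⟩ := exists_schedule
    (ι := Fin c ⊕ Model P)
    (fun i t => Sum.elim (fun _ => 0)
      (fun i => need (bigD2 P W L) (mdem2 c W L u) (wtol2 W L lo hi) i t) i)
    (fun i t => by
      rcases i with i | i
      · exact le_rfl
      · exact need_mono _ hD _ _ i t)
    (bigD2 P W L) (fun t ht => by
      rw [Fintype.sum_sum_type, Fintype.sum_option]
      simp only [Sum.elim_inl, Sum.elim_inr, Finset.sum_const_zero, Nat.zero_add]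
      obtain ⟨h1, h2⟩ := sum_need2 W L u lo hi hL hu hlo hhi hW t
      rcases Nat.eq_zero_or_pos t with rfl | ht0
      · have h3 : need (bigD2 P W L) (mdem2 c W L u) (wtol2 W L lo hi) none 0 = 0 := by
          unfold need
          simp only [mdem2, wdem2, wtol2]
          exact Nat.div_eq_of_lt (by omega)
        rw [h3]
        omega
      · have h3 := special_needed2 (lo := lo) (hi := hi) W L u hL hu hW ht0 ht.le
        have h4 : ∑ i : Option (P ⊕ P),
            need (bigD2 P W L) (mdem2 c W L u) (wtol2 W L lo hi) (some i) t ≠ t :=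
          fun h => hno (h2 ht0 h)
        rw [h3]
        omega) (wdem2 c W L u) hT (fun i => by
      rcases i with i | i
      · exact Nat.zero_le _
      · exact need_top _ hD _ _ i)
  refine ⟨S, fun i => ?_, fun i k hk => ?_⟩
  · rw [hT]
    exact hS1 i
  · rw [hT, Finset.mem_Icc] at hk
    have := hS2 k hk.2 (Sum.inr i)
    unfold Good
    rw [hT]
    exact need_le _ hD _ _ i k _ this

/-- If the window conditions have a solution then no sequence respecting the tolerances of the
other models starts with the special model. -/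
theorem not_first2 (q : ℕ) (hq : Sol L u lo hi q) (S : ℕ → Fin c ⊕ Model P)
    (hg : ∀ i : Model P, i ≠ none → ∀ k ∈ Icc 1 (total (wdem2 c W L u)),
      Good (wdem2 c W L u) (al2 c W L lo hi) S (Sum.inr i) k) :
    S 1 ≠ Sum.inr none := by
  have hD := one_le_bigD2 (P := P) W L hL hW
  have hT := total_eq2 W L u hL hu hW
  have hW1 := W_pos2 (P := P) W L hL hW
  rw [hT] at hg
  -- a solution between one and `L`
  obtain ⟨q, hq1, hqL, hq⟩ : ∃ q, 1 ≤ q ∧ q ≤ L ∧ Sol L u lo hi q := by
    have key : ∀ a, (∀ j, (u j * a) % L = (u j * q) % L) → Sol L u lo hi a := by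
      intro a ha j
      rw [ha j]
      exact hq j
    rcases Nat.eq_zero_or_pos (q % L) with h0 | h0
    · refine ⟨L, hL, le_rfl, key L (fun j => ?_)⟩
      rw [Nat.mul_mod_left, Nat.mul_mod, h0, Nat.mul_zero, Nat.zero_mod]
    · refine ⟨q % L, h0, (Nat.mod_lt _ hL).le, key _ (fun j => ?_)⟩
      rw [Nat.mul_mod_mod]
  obtain ⟨K, hK⟩ : ∃ K, Fintype.card P = K := ⟨_, rfl⟩
  rw [hK] at hW
  have ht1 : 1 ≤ (K + 1) * q := Nat.mul_pos (by omega) hq1
  have htD : (K + 1) * q ≤ bigD2 P W L := by
    unfold bigD2
    rw [hK]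
    calc (K + 1) * q ≤ (K + 1) * L := Nat.mul_le_mul_left _ hqL
      _ ≤ W * ((K + 1) * L) := Nat.le_mul_of_pos_left _ (by omega)
      _ = (K + 1) * W * L := by ring
  have hk : (K + 1) * q ∈ Icc 1 (bigD2 P W L) := Finset.mem_Icc.2 ⟨ht1, htD⟩
  -- the filler
  have hfill : q ≤ produced S (Sum.inr (some none)) ((K + 1) * q) := by
    have h1 := hg (some none) (by simp) _ hk
    unfold Good at h1
    rw [hT] at h1
    obtain ⟨x, hx⟩ : ∃ x, produced S (Sum.inr (some none)) ((K + 1) * q) = x := ⟨_, rfl⟩
    rw [hx] at h1 ⊢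
    simp only [wdem2, al2, Sum.elim_inr, wtol2, bigD2, hK] at h1
    have e2 : (c + 1) * ((K + 1) * q) < W * L := by
      calc (c + 1) * ((K + 1) * q) ≤ (c + 1) * ((K + 1) * L) :=
            Nat.mul_le_mul_left _ (Nat.mul_le_mul_left _ hqL)
        _ = ((K + 1) * (c + 1)) * L := by ring
        _ < W * L := Nat.mul_lt_mul_of_pos_right hW hL
    have hcW : c + 1 ≤ W * L := by
      have e3 : (c + 1) * 1 ≤ (c + 1) * ((K + 1) * q) := Nat.mul_le_mul_left _ ht1
      omega
    have e1 : (W * L - 1 - c) * ((K + 1) * q) + (c + 1) * ((K + 1) * q)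
        = W * L * ((K + 1) * q) := by
      rw [← Nat.add_mul]
      congr 1
      omega
    have e3 : ((K + 1) * W * L) * q < ((K + 1) * W * L) * (x + 1) := by
      have e4 : ((K + 1) * W * L) * q = W * L * ((K + 1) * q) := by ring
      have e5 : ((K + 1) * W * L) * (x + 1)
          = (K + 1) * W * L * x + K * W * L + W * L := by ring
      rw [e4, e5]
      omega
    have := Nat.lt_of_mul_lt_mul_left e3
    omega
  -- the pairs
  have hpair : ∀ j, q ≤ produced S (Sum.inr (some (some (Sum.inl j)))) ((K + 1) * q)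
      + produced S (Sum.inr (some (some (Sum.inr j)))) ((K + 1) * q) := by
    intro j
    have h1 := hg (some (some (Sum.inl j))) (by simp) _ hk
    have h2 := hg (some (some (Sum.inr j))) (by simp) _ hk
    unfold Good at h1 h2
    rw [hT] at h1 h2
    obtain ⟨x, hx⟩ : ∃ x, produced S (Sum.inr (some (some (Sum.inl j)))) ((K + 1) * q) = x :=
      ⟨_, rfl⟩
    obtain ⟨y, hy⟩ : ∃ y, produced S (Sum.inr (some (some (Sum.inr j)))) ((K + 1) * q) = y :=
      ⟨_, rfl⟩
    rw [hx] at h1 ⊢
    rw [hy] at h2 ⊢
    have hu' := hu j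
    have hhi' := hhi j
    have hq' := hq j
    simp only [wdem2, al2, Sum.elim_inr, wtol2, bigD2, hK] at h1 h2
    rw [hK] at hhi'
    obtain ⟨v, hv⟩ : ∃ v, u j = v := ⟨_, rfl⟩
    obtain ⟨l, hl⟩ : ∃ l, lo j = l := ⟨_, rfl⟩
    obtain ⟨h, hh⟩ : ∃ h, hi j = h := ⟨_, rfl⟩
    rw [hv] at h1 h2 hu' hq'
    rw [hl] at h1 hq'
    rw [hh] at h2 hhi' hq'
    have hRN : 0 < (K + 1) * W := Nat.mul_pos (by omega) (by omega)
    have hLp : 1 ≤ (K + 1) * W * L := Nat.mul_pos hRN hL
    have hmod := Nat.div_add_mod (v * q) L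
    obtain ⟨A, hA⟩ : ∃ A, v * q / L = A := ⟨_, rfl⟩
    obtain ⟨r, hr⟩ : ∃ r, v * q % L = r := ⟨_, rfl⟩
    rw [hA, hr] at hmod
    rw [hr] at hq'
    -- lower model
    have f1 : v * q < L * (x + 1) + l := by
      have e1 : (K + 1) * W * (v * q) < (K + 1) * W * (L * (x + 1) + l) := by
        have e2 : (K + 1) * W * (v * q) = W * v * ((K + 1) * q) := by ring
        have e3 : (K + 1) * W * (L * (x + 1) + l)
            = (K + 1) * W * L * x + (K + 1) * W * L + (K + 1) * W * l := by ring
        rw [e2, e3]
        omega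
      exact Nat.lt_of_mul_lt_mul_left e1
    -- upper model
    have f2 : (L - v) * q + h < L * (y + 1) := by
      have e1 : (K + 1) * W * ((L - v) * q + h) < (K + 1) * W * (L * (y + 1)) := by
        have e2 : (K + 1) * W * ((L - v) * q + h)
            = W * (L - v) * ((K + 1) * q) + (K + 1) * W * h := by ring
        have e3 : (K + 1) * W * (L * (y + 1))
            = (K + 1) * W * L * y + (K + 1) * W * L := by ring
        have e4 : (K + 1) * W * h < (K + 1) * W * L := by
          have : h < L := by
            have : h ≤ (K + 1) * h := Nat.le_mul_of_pos_left _ (by omega)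
            omega
          exact Nat.mul_lt_mul_of_pos_left this hRN
        rw [e2, e3]
        omega
      exact Nat.lt_of_mul_lt_mul_left e1
    have f3 : L * A < L * (x + 1) := by omega
    have f4 : A < x + 1 := Nat.lt_of_mul_lt_mul_left f3
    have f5 : L * q < L * (y + 1 + A) := by
      have e1 : (L - v) * q + v * q = L * q := by
        rw [← Nat.add_mul, Nat.sub_add_cancel hu'.le]
      rw [Nat.mul_add L (y + 1) A]
      omega
    have f6 : q < y + 1 + A := Nat.lt_of_mul_lt_mul_left f5
    omega
  -- the sum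
  have hs := sum_produced S ((K + 1) * q)
  rw [Fintype.sum_sum_type, Fintype.sum_option, Fintype.sum_option, Fintype.sum_sum_type,
    ← Finset.sum_add_distrib] at hs
  have h3 : ∑ _j : P, q ≤ ∑ j, (produced S (Sum.inr (some (some (Sum.inl j)))) ((K + 1) * q)
      + produced S (Sum.inr (some (some (Sum.inr j)))) ((K + 1) * q)) :=
    Finset.sum_le_sum (fun j _ => hpair j)
  rw [Finset.sum_const, smul_eq_mul, Finset.card_univ, hK] at h3
  have e1 : (K + 1) * q = K * q + q := by ring
  have h4 : produced S (Sum.inr none) ((K + 1) * q) = 0 := by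
    have := hs
    omega
  intro hS
  have h5 : produced S (Sum.inr none) 1 = 1 := by
    have := produced_succ S (Sum.inr none) 0
    rw [produced_zero, Nat.zero_add, if_pos hS] at this
    exact this
  have h6 := produced_mono S (Sum.inr none) ht1
  omega

end window

end Pool.Agent.JIT
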