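import Pool.Agent.Lib_MP_033923_lc.Main
import Pool.Agent.Lib_MP_033923_np.Defs2

set_option autoImplicit false
set_option linter.unusedSectionVars false

/-!
# Comparison of costs with additional models
-/

namespace Pool.Agent.JIT

open Finset

variable {c : ℕ} {κ : Type} [Fintype κ] [DecidableEq κ]

/-- the deviation functions: `G j` for the additional models, hinges for the others -/
noncomputable def F2 (G : Fin c → ℝ → ℝ) (D : ℕ) (α H : κ → ℕ) : Fin c ⊕ κ → ℝ → ℝ :=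
  Sum.elim G (fun i => hinge ((α i : ℝ) / (D : ℝ)) (H i))

/-- extension by zero -/
def ex0 (c : ℕ) (α : κ → ℕ) : Fin c ⊕ κ → ℕ := Sum.elim (fun _ => 0) α

variable (d : Fin c ⊕ κ → ℕ) (α H : κ → ℕ) (G : Fin c → ℝ → ℝ) (M : ℕ)

theorem dev2_inr (S : ℕ → Fin c ⊕ κ) (i : κ) (k : ℕ) :
    dev d (F2 G (total d) α H) S (Sum.inr i) k =
      dev d (hinges (total d) (ex0 c α) (ex0 c H)) S (Sum.inr i) k := rfl

theorem dev2_nonneg (hG0 : ∀ j x, 0 ≤ G j x) (S : ℕ → Fin c ⊕ κ) (i : Fin c ⊕ κ) (k : ℕ) :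
    0 ≤ dev d (F2 G (total d) α H) S i k := by
  rcases i with i | i
  · exact hG0 i _
  · rw [dev2_inr]
    exact dev_nonneg d (ex0 c α) (ex0 c H) S (Sum.inr i) k

theorem dev2_inl_le (hG : ∀ j x, G j x ≤ (M : ℝ) * |x|) (S : ℕ → Fin c ⊕ κ) (j : Fin c)
    (k : ℕ) (hk : k ∈ Icc 1 (total d)) :
    dev d (F2 G (total d) α H) S (Sum.inl j) k ≤ (M : ℝ) * total d := by
  refine (hG j _).trans ?_
  exact mul_le_mul_of_nonneg_left (abs_dev_le d S (Sum.inl j) k hk) (Nat.cast_nonneg _)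

theorem dev2_inr_le (hM : 1 ≤ M) (S : ℕ → Fin c ⊕ κ) (i : κ) (k : ℕ)
    (hk : k ∈ Icc 1 (total d)) (hg : Good d (ex0 c α) S (Sum.inr i) k) :
    dev d (F2 G (total d) α H) S (Sum.inr i) k ≤ (M : ℝ) * total d := by
  rw [dev2_inr]
  refine (dev_le_of_good d (ex0 c α) (ex0 c H) S (Sum.inr i) k hk hg).trans ?_
  have h1 : (1 : ℝ) ≤ M := by exact_mod_cast hM
  have h2 : (0 : ℝ) ≤ total d := Nat.cast_nonneg _
  nlinarith

/-- Any cost function between the largest deviation and the sum of all deviations. -/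
def Between2 (Φ : (ℕ → Fin c ⊕ κ) → ℝ) : Prop :=
  ∀ S, (∀ i, ∀ k ∈ Icc 1 (total d), dev d (F2 G (total d) α H) S i k ≤ Φ S) ∧
    Φ S ≤ ∑ i, ∑ k ∈ Icc 1 (total d), dev d (F2 G (total d) α H) S i k

theorem between_total2 (hG0 : ∀ j x, 0 ≤ G j x) :
    Between2 d α H G (totalDeviation d (F2 G (total d) α H)) := by
  intro S
  refine ⟨fun i k hk => ?_, le_rfl⟩
  unfold totalDeviation
  refine le_trans ?_ (Finset.single_le_sum
    (f := fun i => ∑ k ∈ Icc 1 (total d), dev d (F2 G (total d) α H) S i k)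
    (fun j _ => Finset.sum_nonneg (fun l _ => dev2_nonneg d α H G hG0 S j l))
    (Finset.mem_univ i))
  exact Finset.single_le_sum (f := fun k => dev d (F2 G (total d) α H) S i k)
    (fun l _ => dev2_nonneg d α H G hG0 S i l) hk

theorem between_max2 (hG0 : ∀ j x, 0 ≤ G j x) (hne : Nonempty κ) (hD : 1 ≤ total d) :
    Between2 d α H G (maxDeviation d (F2 G (total d) α H)) := by
  intro S
  have hb := between_total2 d α H G hG0 S
  constructor
  · intro i k hk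
    exact le_csSup (finite_devs _ _ _).bddAbove ⟨i, k, hk, rfl⟩
  · refine csSup_le ?_ ?_
    · obtain ⟨i⟩ := hne
      exact ⟨_, Sum.inr i, 1, Finset.mem_Icc.2 ⟨le_rfl, hD⟩, rfl⟩
    · rintro y ⟨i, k, hk, rfl⟩
      exact hb.1 i k hk

/-- if everything is respected, the cost is at most `n * M * D ^ 2` -/
theorem cost2_le_of_good (hM : 1 ≤ M) (hG : ∀ j x, G j x ≤ (M : ℝ) * |x|)
    (Φ : (ℕ → Fin c ⊕ κ) → ℝ) (hΦ : Between2 d α H G Φ) (S : ℕ → Fin c ⊕ κ)
    (hg : ∀ i : κ, ∀ k ∈ Icc 1 (total d), Good d (ex0 c α) S (Sum.inr i) k) :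
    Φ S ≤ ((Fintype.card (Fin c ⊕ κ) * M : ℕ) : ℝ) * (total d : ℝ) ^ 2 := by
  refine (hΦ S).2.trans ?_
  have : ∀ i ∈ (Finset.univ : Finset (Fin c ⊕ κ)),
      ∑ k ∈ Icc 1 (total d), dev d (F2 G (total d) α H) S i k
        ≤ (M : ℝ) * (total d : ℝ) ^ 2 := by
    intro i _
    have h1 : ∑ k ∈ Icc 1 (total d), dev d (F2 G (total d) α H) S i k
        ≤ ∑ k ∈ Icc 1 (total d), (M : ℝ) * (total d : ℝ) := by
      refine Finset.sum_le_sum (fun k hk => ?_)
      rcases i with i | i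
      · exact dev2_inl_le d α H G M hG S i k hk
      · exact dev2_inr_le d α H G M hM S i k hk (hg i k hk)
    refine h1.trans (le_of_eq ?_)
    rw [Finset.sum_const, Nat.card_Icc, nsmul_eq_mul]
    simp
    ring
  refine (Finset.sum_le_sum this).trans (le_of_eq ?_)
  rw [Finset.sum_const, nsmul_eq_mul, Finset.card_univ]
  push_cast
  ring

/-- if everything but the special model is respected, the cost is at most
`n * M * D ^ 2 + D * H_s` -/
theorem cost2_le_of_good' (hM : 1 ≤ M) (hG : ∀ j x, G j x ≤ (M : ℝ) * |x|)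
    (Φ : (ℕ → Fin c ⊕ κ) → ℝ) (hΦ : Between2 d α H G Φ) (s : κ)
    (S : ℕ → Fin c ⊕ κ) (hs : d (Sum.inr s) = 1)
    (hg : ∀ i : κ, i ≠ s → ∀ k ∈ Icc 1 (total d), Good d (ex0 c α) S (Sum.inr i) k) :
    Φ S ≤ ((Fintype.card (Fin c ⊕ κ) * M : ℕ) : ℝ) * (total d : ℝ) ^ 2 + total d * H s := by
  refine (hΦ S).2.trans ?_
  have : ∀ i ∈ (Finset.univ : Finset (Fin c ⊕ κ)),
      ∑ k ∈ Icc 1 (total d), dev d (F2 G (total d) α H) S i k
        ≤ (M : ℝ) * (total d : ℝ) ^ 2 + (if i = Sum.inr s then (total d : ℝ) * H s else 0) := by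
    intro i _
    have h1 : ∑ k ∈ Icc 1 (total d), dev d (F2 G (total d) α H) S i k
        ≤ ∑ k ∈ Icc 1 (total d),
          ((M : ℝ) * (total d : ℝ) + (if i = Sum.inr s then (H s : ℝ) else 0)) := by
      refine Finset.sum_le_sum (fun k hk => ?_)
      rcases i with i | i
      · rw [if_neg (by simp), add_zero]
        exact dev2_inl_le d α H G M hG S i k hk
      · by_cases h : i = s
        · subst h
          rw [if_pos rfl, dev2_inr]
          refine (dev_special_le d (ex0 c α) (ex0 c H) S (Sum.inr i) hs k hk).trans ?_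
          have h1 : (1 : ℝ) ≤ M := by exact_mod_cast hM
          have h2 : (0 : ℝ) ≤ total d := Nat.cast_nonneg _
          have h3 : ((ex0 c H (Sum.inr i) : ℕ) : ℝ) = H i := rfl
          rw [h3]
          nlinarith
        · rw [if_neg (fun hh => h (Sum.inr.inj hh)), add_zero]
          exact dev2_inr_le d α H G M hM S i k hk (hg i h k hk)
    refine h1.trans (le_of_eq ?_)
    rw [Finset.sum_const, Nat.card_Icc, nsmul_eq_mul]
    split_ifs <;> simp <;> ring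
  refine (Finset.sum_le_sum this).trans (le_of_eq ?_)
  rw [Finset.sum_add_distrib, Finset.sum_const, nsmul_eq_mul, Finset.card_univ,
    Finset.sum_ite_eq' Finset.univ (Sum.inr s), if_pos (Finset.mem_univ _)]
  push_cast
  ring

theorem first_of_opt2 (hM : 1 ≤ M) (hG : ∀ j x, G j x ≤ (M : ℝ) * |x|)
    (Φ : (ℕ → Fin c ⊕ κ) → ℝ) (hΦ : Between2 d α H G Φ) (s : κ) (hs : d (Sum.inr s) = 1)
    (hα : α s = 0) (hHs : H s = penS (Fintype.card (Fin c ⊕ κ) * M) (total d))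
    (S' : ℕ → Fin c ⊕ κ)
    (hg : ∀ i : κ, ∀ k ∈ Icc 1 (total d), Good d (ex0 c α) S' (Sum.inr i) k)
    (S : ℕ → Fin c ⊕ κ) (hopt : Φ S ≤ Φ S') : S 1 = Sum.inr s := by
  by_contra hne
  have h1D : 1 ≤ total d := hs ▸ le_total d (Sum.inr s)
  have hD : (0 : ℝ) < total d := by exact_mod_cast h1D
  have h1 := cost2_le_of_good d α H G M hM hG Φ hΦ S' hg
  have hk : 1 ∈ Icc 1 (total d) := Finset.mem_Icc.2 ⟨le_rfl, h1D⟩
  have hp : produced S (Sum.inr s) 1 = 0 := by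
    have := produced_succ S (Sum.inr s) 0
    rw [produced_zero, if_neg (by simpa using hne)] at this
    simpa using this
  have hng : ¬ Good d (ex0 c α) S (Sum.inr s) 1 := by
    unfold Good
    have h3 : ex0 c α (Sum.inr s) = α s := rfl
    rw [hs, hp, h3, hα]
    omega
  have h2 := dev_ge_of_not_good d (ex0 c α) (ex0 c H) S (Sum.inr s) 1 hk hng
  rw [← dev2_inr (G := G)] at h2
  have h3 := (hΦ S).1 (Sum.inr s) 1 hk
  have h4 : ((ex0 c H (Sum.inr s) : ℕ) : ℝ) / (total d : ℝ)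
      = ((Fintype.card (Fin c ⊕ κ) * M : ℕ) : ℝ) * (total d : ℝ) ^ 2 + 1 := by
    have h5 : ex0 c H (Sum.inr s) = H s := rfl
    rw [h5, hHs, penS]
    push_cast
    field_simp
  linarith

theorem good_of_opt2 (hM : 1 ≤ M) (hG : ∀ j x, G j x ≤ (M : ℝ) * |x|)
    (Φ : (ℕ → Fin c ⊕ κ) → ℝ) (hΦ : Between2 d α H G Φ) (s : κ) (hs : d (Sum.inr s) = 1)
    (hHs : H s = penS (Fintype.card (Fin c ⊕ κ) * M) (total d))
    (hHo : ∀ i, i ≠ s → H i = penO (Fintype.card (Fin c ⊕ κ) * M) (total d))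
    (S' : ℕ → Fin c ⊕ κ)
    (hg : ∀ i : κ, i ≠ s → ∀ k ∈ Icc 1 (total d), Good d (ex0 c α) S' (Sum.inr i) k)
    (S : ℕ → Fin c ⊕ κ) (hopt : Φ S ≤ Φ S') :
    ∀ i : κ, i ≠ s → ∀ k ∈ Icc 1 (total d), Good d (ex0 c α) S (Sum.inr i) k := by
  intro i hi k hk
  by_contra hng
  have h1D : 1 ≤ total d := hs ▸ le_total d (Sum.inr s)
  have hD : (0 : ℝ) < total d := by exact_mod_cast h1D
  have h1 := cost2_le_of_good' d α H G M hM hG Φ hΦ s S' hs hg
  have h2 := dev_ge_of_not_good d (ex0 c α) (ex0 c H) S (Sum.inr i) k hk hng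
  rw [← dev2_inr (G := G)] at h2
  have h3 := (hΦ S).1 (Sum.inr i) k hk
  have h4 : ((ex0 c H (Sum.inr i) : ℕ) : ℝ) / (total d : ℝ)
      = ((Fintype.card (Fin c ⊕ κ) * M : ℕ) : ℝ) * (total d : ℝ) ^ 2 + total d * H s + 1 := by
    have h5 : ex0 c H (Sum.inr i) = H i := rfl
    rw [h5, hHo i hi, penO, hHs]
    push_cast
    field_simp
  linarith

end Pool.Agent.JIT
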