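import Pool.Agent.Lib_MP_033923_lc.Main
import Pool.Agent.Lib_MP_033923_lc.Exist
import Pool.Agent.Lib_MP_033923_np.Defs2
import Pool.Agent.Lib_MP_033923_np.Window2b
import Pool.Agent.Lib_MP_033923_np.Window2c

set_option autoImplicit false

/-!
# The first entry of optimal sequences for window systems with additional models
-/

namespace Pool.Agent.JIT

open Finset

section window

variable {P : Type} [Fintype P] [DecidableEq P] {c : ℕ}

variable (W L : ℕ) (u lo hi : P → ℕ) (G : Fin c → ℝ → ℝ) (M : ℕ)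
variable (hL : 1 ≤ L) (hu : ∀ j, u j < L) (hlo : ∀ j, lo j ≤ u j)
  (hhi : ∀ j, (Fintype.card P + 1) * hi j < L)
  (hW : (Fintype.card P + 1) * (c + 1) < W)
  (hM : 1 ≤ M) (hG0 : ∀ j x, 0 ≤ G j x) (hG : ∀ j x, G j x ≤ (M : ℝ) * |x|)

include hL hu hlo hhi hW in
theorem total_wdem2 : total (wdem2 c W L u) = bigD2 P W L := total_eq2 W L u hL hu hW

include hL hu hlo hhi hW in
theorem exists_isSeq2 : ∃ S, IsSeq (wdem2 c W L u) S := by
  obtain ⟨S, hS, -⟩ := exists_seq2 W L u lo hi hL hu hlo hhi hW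
  exact ⟨S, hS⟩

/-- the penalties -/
def pen2 (P : Type) (n D : ℕ) : Model P → ℕ
  | none => penS n D
  | some _ => penO n D

theorem wF2_eq (G : Fin c → ℝ → ℝ) (W L : ℕ) (lo hi : P → ℕ) (n : ℕ) :
    wF2 G W L lo hi (penS n (bigD2 P W L)) (penO n (bigD2 P W L)) =
      F2 G (bigD2 P W L) (wtol2 W L lo hi) (pen2 P n (bigD2 P W L)) := by
  funext i
  rcases i with i | _ | i <;> rfl

include hL hu hlo hhi hW hM hG in
theorem window_main2 (Φ : (ℕ → Fin c ⊕ Model P) → ℝ)
    (hΦ : Between2 (wdem2 c W L u) (wtol2 W L lo hi)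
      (pen2 P ((c + 2 * Fintype.card P + 2) * M) (bigD2 P W L)) G Φ)
    (S : ℕ → Fin c ⊕ Model P) (hopt : ∀ S', IsSeq (wdem2 c W L u) S' → Φ S ≤ Φ S') :
    S 1 = Sum.inr none ↔ ¬ ∃ q, Sol L u lo hi q := by
  have hT := total_eq2 W L u hL hu hW
  have hn : Fintype.card (Fin c ⊕ Model P) = c + 2 * Fintype.card P + 2 := card_model2
  constructor
  · rintro h ⟨q, hq⟩
    obtain ⟨S', hS', hg⟩ := exists_seq2 W L u lo hi hL hu hlo hhi hW
    refine not_first2 W L u lo hi hL hu hlo hhi hW q hq S ?_ h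
    refine good_of_opt2 (wdem2 c W L u) (wtol2 W L lo hi) _ G M hM hG Φ hΦ none rfl ?_ ?_ S' hg S
      (hopt S' hS')
    · rw [hT, hn]
      rfl
    · rintro (_ | i) hi
      · exact absurd rfl hi
      · rw [hT, hn]
        rfl
  · intro hno
    obtain ⟨S', hS', hg⟩ := exists_seq_all2 W L u lo hi hL hu hlo hhi hW hno
    refine first_of_opt2 (wdem2 c W L u) (wtol2 W L lo hi) _ G M hM hG Φ hΦ none rfl rfl ?_ S' hg S
      (hopt S' hS')
    rw [hT, hn]
    rfl

include hL hu hlo hhi hW hM hG0 hG in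
theorem window_total2 (S : ℕ → Fin c ⊕ Model P)
    (hS : IsOptimalTotal (wdem2 c W L u)
      (wF2 G W L lo hi (penS ((c + 2 * Fintype.card P + 2) * M) (bigD2 P W L))
        (penO ((c + 2 * Fintype.card P + 2) * M) (bigD2 P W L))) S) :
    S 1 = Sum.inr none ↔ ¬ ∃ q, Sol L u lo hi q := by
  have hT := total_eq2 W L u hL hu hW
  have hb := between_total2 (wdem2 c W L u) (wtol2 W L lo hi)
    (pen2 P ((c + 2 * Fintype.card P + 2) * M) (bigD2 P W L)) G hG0
  rw [hT] at hb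
  rw [wF2_eq] at hS
  exact window_main2 W L u lo hi G M hL hu hlo hhi hW hM hG _ hb S hS.2

include hL hu hlo hhi hW hM hG0 hG in
theorem window_max2 (S : ℕ → Fin c ⊕ Model P)
    (hS : IsOptimalMax (wdem2 c W L u)
      (wF2 G W L lo hi (penS ((c + 2 * Fintype.card P + 2) * M) (bigD2 P W L))
        (penO ((c + 2 * Fintype.card P + 2) * M) (bigD2 P W L))) S) :
    S 1 = Sum.inr none ↔ ¬ ∃ q, Sol L u lo hi q := by
  have hT := total_eq2 W L u hL hu hW
  have hD := one_le_bigD2 (P := P) W L hL hW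
  have hb := between_max2 (wdem2 c W L u) (wtol2 W L lo hi)
    (pen2 P ((c + 2 * Fintype.card P + 2) * M) (bigD2 P W L)) G hG0 ⟨none⟩ (by rw [hT]; exact hD)
  rw [hT] at hb
  rw [wF2_eq] at hS
  exact window_main2 W L u lo hi G M hL hu hlo hhi hW hM hG _ hb S hS.2

end window

end Pool.Agent.JIT
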