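import Pool.Agent.Lib_MP_033923_np.Fix
import Pool.Agent.Lib_MP_033923_np.Seqs
import Pool.Agent.Lib_MP_033923_np.Transfer
import Pool.Agent.Lib_MP_033923_np.Window2

set_option autoImplicit false

/-!
# The instances of block `N`
-/

namespace Pool.Agent.JIT

open Finset

/-- the demands of the instance of block `N` attached to the incidences `inc` -/
def demF (N : ℕ) (inc : ℕ → ℕ → Bool) : List ℕ :=
  List.replicate (offs N) 1 ++ (1 :: (WN N * LN N N - 1 - offs N) ::
    ((List.range (N + N)).map (fun j => WN N * uN N N inc j) ++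
     (List.range (N + N)).map (fun j => WN N * (LN N N - uN N N inc j))))

/-! ### Numbers -/

theorem CF_pos (N : ℕ) : 0 < CF N := Nat.succ_pos _

theorem MF_pos (N : ℕ) : 1 ≤ MF N := Finset.prod_pos (fun j _ => CF_pos j)

theorem MF_mono {a b : ℕ} (h : a ≤ b) : MF a ≤ MF b := by
  unfold MF
  exact Finset.prod_le_prod_of_subset_of_one_le' (Finset.range_subset_range.2 h)
    (fun j _ _ => CF_pos j)

theorem penS_le_penO (n D : ℕ) : penS n D ≤ penO n D := by
  unfold penO
  refine Nat.mul_le_mul_left _ ?_
  omega

theorem penO_lt (N : ℕ) : 1 + penO (cntF N * MF N) (DF N) ≤ MF (N + 1) := by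
  have hM := MF_pos N
  have e1 : MF (N + 1) = MF N * CF N := by
    unfold MF
    rw [Finset.prod_range_succ]
  rw [e1]
  unfold CF penO penS
  obtain ⟨M, hM'⟩ : ∃ M, MF N = M := ⟨_, rfl⟩
  obtain ⟨D, hD⟩ : ∃ D, DF N = D := ⟨_, rfl⟩
  obtain ⟨n, hn⟩ : ∃ n, cntF N = n := ⟨_, rfl⟩
  rw [hM'] at hM ⊢
  rw [hD, hn]
  obtain ⟨k, rfl⟩ : ∃ k, M = k + 1 := ⟨M - 1, by omega⟩
  have e2 : (k + 1) * (n * D ^ 3 + D ^ 3 * (n * D ^ 2 + 1) + D + 1) =
      (1 + D * (n * (k + 1) * D ^ 2 + D * (D * (n * (k + 1) * D ^ 2 + 1)) + 1)) +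
        k * (D ^ 3 + D + 1) := by ring
  rw [e2]
  exact Nat.le_add_right _ _

theorem penF_lt (N r : ℕ) : 1 + penF N r ≤ MF (N + 1) := by
  refine le_trans ?_ (penO_lt N)
  unfold penF
  split_ifs
  · have := penS_le_penO (cntF N * MF N) (DF N)
    omega
  · exact le_rfl

theorem blk_lt {N j : ℕ} (h : j < offs N) : blk j < N := by
  unfold blk
  rw [Nat.sqrt_lt]
  unfold offs at h
  have : 2 * N ^ 2 = 2 * (N * N) := by ring
  omega

theorem blk_add {N r : ℕ} (h : r < 4 * N + 2) : blk (offs N + r) = N := by
  unfold blk offs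
  have e : (2 * N ^ 2 + r) / 2 = N * N + r / 2 := by
    have : 2 * N ^ 2 = 2 * (N * N) := by ring
    omega
  rw [e]
  exact Nat.sqrt_add_eq N (by omega)

theorem hinge_le {a H : ℝ} (ha : 0 ≤ a) (hH : 0 ≤ H) (x : ℝ) : hinge a H x ≤ (1 + H) * |x| := by
  unfold hinge
  have h1 : max 0 (-x - a) ≤ |x| := max_le (abs_nonneg x) (by
    have := neg_abs_le x
    linarith)
  have h2 := mul_le_mul_of_nonneg_left h1 hH
  linarith

theorem isDevFun_hinge {a H : ℝ} (ha : 0 ≤ a) (hH : 0 ≤ H) : IsDevFun (hinge a H) :=
  ⟨hinge_convex hH, hinge_zero ha, fun x hx => hinge_pos hH x hx⟩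

theorem isDevFun_Fstar (i : ℕ) : IsDevFun (Fstar i) :=
  isDevFun_hinge (by positivity) (Nat.cast_nonneg _)

theorem Fstar_nonneg (i : ℕ) (x : ℝ) : 0 ≤ Fstar i x := hinge_nonneg (Nat.cast_nonneg _) x

theorem Fstar_le {N j : ℕ} (h : j < offs N) (x : ℝ) : Fstar j x ≤ (MF N : ℝ) * |x| := by
  refine (hinge_le (by positivity) (Nat.cast_nonneg _) x).trans ?_
  refine mul_le_mul_of_nonneg_right ?_ (abs_nonneg x)
  have h1 : 1 + penI j ≤ MF N := (penF_lt _ _).trans (MF_mono (blk_lt h))
  exact_mod_cast h1

theorem card_sum2 (N : ℕ) : Fintype.card (Fin N ⊕ Fin N) = N + N := by simp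

theorem DF_eq (N : ℕ) : DF N = bigD2 (Fin N ⊕ Fin N) (WN N) (bigL N N) := by
  unfold DF bigD2
  rw [card_sum2, LN_eq, two_mul]

theorem cnt_eq (N : ℕ) : offs N + 2 * Fintype.card (Fin N ⊕ Fin N) + 2 = cntF N := by
  rw [card_sum2]
  unfold offs cntF
  ring

/-! ### The list of the models -/

/-- the models in the order of the list -/
def mod2 (N : ℕ) : List (Fin (offs N) ⊕ Model (Fin N ⊕ Fin N)) :=
  (List.finRange (offs N)).map Sum.inl ++ (modL N N).map Sum.inr

theorem mod2_nodup (N : ℕ) : (mod2 N).Nodup := by
  unfold mod2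
  rw [List.nodup_append]
  refine ⟨List.Nodup.map Sum.inl_injective (List.nodup_finRange _),
    List.Nodup.map Sum.inr_injective modL_nodup, ?_⟩
  intro a ha b hb hab
  rw [List.mem_map] at ha hb
  obtain ⟨j, -, rfl⟩ := ha
  obtain ⟨j', -, rfl⟩ := hb
  exact absurd hab (by simp)

theorem mem_mod2 (N : ℕ) (x : Fin (offs N) ⊕ Model (Fin N ⊕ Fin N)) : x ∈ mod2 N := by
  unfold mod2
  rcases x with x | x
  · exact List.mem_append_left _ (List.mem_map_of_mem (List.mem_finRange x))
  · exact List.mem_append_right _ (List.mem_map_of_mem (mem_modL x))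

theorem length_modL (m e : ℕ) : (modL m e).length = 2 * (m + e) + 2 := by
  unfold modL
  simp
  ring

theorem demF_eq (N : ℕ) (inc : ℕ → ℕ → Bool) : demF N inc = (mod2 N).map
    (wdem2 (offs N) (WN N) (bigL N N) (cu (incC N N inc))) := by
  unfold demF mod2 modL
  rw [List.map_append, List.map_map, List.map_map]
  congr 1
  · apply List.ext_getElem
    · simp
    · intro i h1 h2
      simp [wdem2]
  · rw [List.map_cons, List.map_cons, List.map_append, List.map_map, List.map_map]
    congr 1
    congr 1
    · simp only [Function.comp_apply, wdem2, LN_eq]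
    · congr 1
      · apply List.ext_getElem
        · simp
        · intro i h1 h2
          simp only [List.getElem_map, List.getElem_range, List.getElem_finRange,
            Function.comp_apply]
          have hi : i < N + N := by simpa using h1
          obtain ⟨j, hj⟩ := (finSumFinEquiv (m := N) (n := N)).surjective ⟨i, hi⟩
          have hj' : ((finSumFinEquiv j : Fin (N + N)) : ℕ) = i := by rw [hj]
          have e1 : (finSumFinEquiv.symm (⟨i, hi⟩ : Fin (N + N))) = j := by
            rw [← hj, Equiv.symm_apply_apply]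
          simp only [wdem2, Fin.cast_mk, e1]
          rw [← uN_eq, hj']
      · apply List.ext_getElem
        · simp
        · intro i h1 h2
          simp only [List.getElem_map, List.getElem_range, List.getElem_finRange,
            Function.comp_apply]
          have hi : i < N + N := by simpa using h1
          obtain ⟨j, hj⟩ := (finSumFinEquiv (m := N) (n := N)).surjective ⟨i, hi⟩
          have hj' : ((finSumFinEquiv j : Fin (N + N)) : ℕ) = i := by rw [hj]
          have e1 : (finSumFinEquiv.symm (⟨i, hi⟩ : Fin (N + N))) = j := by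
            rw [← hj, Equiv.symm_apply_apply]
          simp only [wdem2, Fin.cast_mk, e1, LN_eq]
          rw [← uN_eq, hj']

/-- the deviation functions of the models -/
noncomputable def wFF (N : ℕ) : Fin (offs N) ⊕ Model (Fin N ⊕ Fin N) → ℝ → ℝ :=
  wF2 (fun j : Fin (offs N) => Fstar j) (WN N) (bigL N N) clo chi
    (penS (cntF N * MF N) (DF N)) (penO (cntF N * MF N) (DF N))

theorem Fstar_eq (N k : ℕ) (hk : k < (mod2 N).length) : wFF N ((mod2 N)[k]) = Fstar k := by
  have hlen : (mod2 N).length = offs N + (4 * N + 2) := by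
    unfold mod2
    rw [List.length_append, List.length_map, List.length_map, List.length_finRange, length_modL]
    ring
  rw [hlen] at hk
  by_cases h : k < offs N
  · have e : (mod2 N)[k] = Sum.inl ⟨k, h⟩ := by
      unfold mod2
      rw [List.getElem_append_left (by simpa using h)]
      simp
    rw [e]
    rfl
  · obtain ⟨r, rfl⟩ : ∃ r, k = offs N + r := ⟨k - offs N, by omega⟩
    have hr : r < 4 * N + 2 := by omega
    have hr' : r < (modL N N).length := by
      rw [length_modL]
      omega
    have e : (mod2 N)[offs N + r] = Sum.inr ((modL N N)[r]) := by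
      unfold mod2
      rw [List.getElem_append_right (by simp)]
      simp
    rw [e]
    have hF : Fstar (offs N + r) = hinge ((tolF N r : ℝ) / (DF N : ℝ)) (penF N r : ℝ) := by
      unfold Fstar tolI denI penI
      rw [blk_add hr, Nat.add_sub_cancel_left]
    rw [hF]
    have hd := DF_eq N
    rcases r with _ | _ | r
    · change hinge _ _ = _
      rw [← hd]
      rfl
    · change hinge _ _ = _
      rw [← hd]
      have h1 : wtol2 (WN N) (bigL N N) (clo (m := N) (e := N)) chi (some none) = tolF N 1 := by
        unfold wtol2 tolF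
        rw [if_neg (by omega), if_pos rfl, card_sum2, LN_eq, two_mul]
      rw [h1]
      rfl
    · by_cases h2 : r < N + N
      · obtain ⟨j, hj⟩ := (finSumFinEquiv (m := N) (n := N)).surjective ⟨r, h2⟩
        have hj' : ((finSumFinEquiv j : Fin (N + N)) : ℕ) = r := by rw [hj]
        have e1 : (finSumFinEquiv.symm (⟨r, h2⟩ : Fin (N + N))) = j := by
          rw [← hj, Equiv.symm_apply_apply]
        have e2 : (modL N N)[r + 1 + 1] = some (some (Sum.inl j)) := by
          unfold modL
          rw [List.getElem_cons_succ, List.getElem_cons_succ,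
            List.getElem_append_left (by simpa using h2)]
          simp only [List.getElem_map, List.getElem_finRange, Fin.cast_mk, e1]
        rw [e2]
        change hinge _ _ = _
        rw [← hd]
        have h1 : wtol2 (WN N) (bigL N N) (clo (m := N) (e := N)) chi (some (some (Sum.inl j))) =
            tolF N (r + 1 + 1) := by
          unfold tolF
          rw [if_neg (by omega), if_neg (by omega), if_pos (by omega)]
          simp only [wtol2]
          rw [card_sum2, ← hd, ← loN_eq, hj', ← two_mul]
          rfl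
        rw [h1]
        rfl
      · obtain ⟨q, rfl⟩ : ∃ q, r = N + N + q := ⟨r - (N + N), by omega⟩
        have h3 : q < N + N := by omega
        obtain ⟨j, hj⟩ := (finSumFinEquiv (m := N) (n := N)).surjective ⟨q, h3⟩
        have hj' : ((finSumFinEquiv j : Fin (N + N)) : ℕ) = q := by rw [hj]
        have e1 : (finSumFinEquiv.symm (⟨q, h3⟩ : Fin (N + N))) = j := by
          rw [← hj, Equiv.symm_apply_apply]
        have e2 : (modL N N)[N + N + q + 1 + 1] = some (some (Sum.inr j)) := by
          unfold modL
          rw [List.getElem_cons_succ, List.getElem_cons_succ,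
            List.getElem_append_right (by simp)]
          simp only [List.length_map, List.length_finRange, Nat.add_sub_cancel_left,
            List.getElem_map, List.getElem_finRange, Fin.cast_mk, e1]
        rw [e2]
        change hinge _ _ = _
        rw [← hd]
        have h1 : wtol2 (WN N) (bigL N N) (clo (m := N) (e := N)) chi (some (some (Sum.inr j))) =
            tolF N (N + N + q + 1 + 1) := by
          unfold tolF
          rw [if_neg (by omega), if_neg (by omega), if_neg (by omega)]
          simp only [wtol2]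
          have e3 : N + N + q + 1 + 1 - 2 - 2 * N = q := by omega
          rw [e3, card_sum2, ← hd, ← hiN_eq, hj', ← two_mul]
        rw [h1]
        rfl

/-! ### The main theorem -/

theorem exists_isSeq {n : ℕ} (hn : 0 < n) (d : Fin n → ℕ) : ∃ S, IsSeq d S := by
  have : Nonempty (Fin n) := ⟨⟨0, hn⟩⟩
  obtain ⟨S, h1, -⟩ := exists_schedule (fun (_ : Fin n) _ => 0) (fun _ _ => le_rfl) (total d)
    (fun t _ => by simp) d rfl (fun _ => Nat.zero_le _)
  exact ⟨S, h1⟩

/-- the numbering of the entries of a list as an equivalence -/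
theorem list_equiv {ι β : Type} (L : List ι) (f : ι → β) (hnd : L.Nodup) (hc : ∀ x, x ∈ L) :
    ∃ σ : Fin (L.map f).length ≃ ι, ∀ i, σ i = L[(i : ℕ)]'(lt_of_lt_of_eq i.isLt
      (List.length_map f)) := by
  let g : Fin (L.map f).length → ι := fun i => L.get (i.cast (List.length_map f))
  have hg : Function.Bijective g := by
    constructor
    · intro i j h
      have h1 := List.nodup_iff_injective_get.1 hnd h
      exact Fin.ext (by simpa [Fin.ext_iff] using h1)
    · intro x
      obtain ⟨i, hi⟩ := List.mem_iff_get.1 (hc x)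
      exact ⟨i.cast (List.length_map f).symm, by simpa [g] using hi⟩
  exact ⟨Equiv.ofBijective g hg, fun i => rfl⟩

theorem fix_main (N : ℕ) (inc : ℕ → ℕ → Bool) (hcov : ∀ y, ∃ x, y ∈ incC N N inc x) :
    demF N inc ≠ [] ∧ (∀ x ∈ demF N inc, 0 < x) ∧
    (∀ S : ℕ → Fin (demF N inc).length,
      IsOptimalTotal (demF N inc).get (fun i => Fstar i) S →
        ((S 1 : ℕ) = offs N ↔ ¬ HasExactCover (incC N N inc))) ∧
    (∀ S : ℕ → Fin (demF N inc).length,
      IsOptimalMax (demF N inc).get (fun i => Fstar i) S →
        ((S 1 : ℕ) = offs N ↔ ¬ HasExactCover (incC N N inc))) ∧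
    1 ≤ total (demF N inc).get := by
  set C := incC N N inc with hC
  have hL := bigL_pos (m := N) (e := N)
  have hu := cu_lt C
  have hlo := clo_le C hcov
  have hhi := chi_lt (m := N) (e := N)
  have hW : (Fintype.card (Fin N ⊕ Fin N) + 1) * (offs N + 1) < WN N := by
    rw [card_sum2]
    unfold WN
    rw [two_mul]
    exact Nat.lt_succ_self _
  have hpos : ∀ i, 0 < wdem2 (offs N) (WN N) (bigL N N) (cu C) i := by
    have hW0 : 0 < WN N := by omega
    have hWc : offs N + 1 < WN N := by
      have : offs N + 1 ≤ (Fintype.card (Fin N ⊕ Fin N) + 1) * (offs N + 1) :=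
        Nat.le_mul_of_pos_left _ (by omega)
      omega
    rintro (j | _ | _ | j | j)
    · exact Nat.one_pos
    · exact Nat.one_pos
    · simp only [wdem2]
      have : WN N ≤ WN N * bigL N N := Nat.le_mul_of_pos_right _ hL
      omega
    · simp only [wdem2]
      refine Nat.mul_pos hW0 ?_
      rcases j with x | y
      · exact quot_pos x
      · exact clo_le C hcov (Sum.inr y)
    · simp only [wdem2]
      have := hu j
      exact Nat.mul_pos hW0 (by omega)
  rw [demF_eq]
  obtain ⟨σ, hσ⟩ := list_equiv (mod2 N) (wdem2 (offs N) (WN N) (bigL N N) (cu C)) (mod2_nodup N)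
    (mem_mod2 N)
  rw [← hC]
  have hd : ∀ i, wdem2 (offs N) (WN N) (bigL N N) (cu C) (σ i) =
      ((mod2 N).map (wdem2 (offs N) (WN N) (bigL N N) (cu C))).get i := by
    intro i
    rw [hσ, List.get_eq_getElem, List.getElem_map]
  have hF : ∀ i, wFF N (σ i) = Fstar (i : ℕ) := by
    intro i
    rw [hσ]
    exact Fstar_eq N i _
  have h0 : ∀ i : Fin ((mod2 N).map (wdem2 (offs N) (WN N) (bigL N N) (cu C))).length,
      (i : ℕ) = offs N ↔ σ i = Sum.inr none := by
    have hlt : offs N < ((mod2 N).map (wdem2 (offs N) (WN N) (bigL N N) (cu C))).length := by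
      rw [List.length_map]
      unfold mod2
      rw [List.length_append, List.length_map, List.length_map, List.length_finRange,
        length_modL]
      omega
    have hz : σ ⟨offs N, hlt⟩ = Sum.inr none := by
      rw [hσ]
      unfold mod2
      simp only
      rw [List.getElem_append_right (by simp)]
      simp [modL]
    intro i
    constructor
    · intro h
      rw [← hz]
      congr 1
      exact Fin.ext h
    · intro h
      have := σ.injective (h.trans hz.symm)
      rw [this]
  have hpen : (offs N + 2 * Fintype.card (Fin N ⊕ Fin N) + 2) * MF N = cntF N * MF N := by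
    rw [cnt_eq]
  have hFF : wFF N = wF2 (fun j : Fin (offs N) => Fstar j) (WN N) (bigL N N) clo chi
      (penS ((offs N + 2 * Fintype.card (Fin N ⊕ Fin N) + 2) * MF N)
        (bigD2 (Fin N ⊕ Fin N) (WN N) (bigL N N)))
      (penO ((offs N + 2 * Fintype.card (Fin N ⊕ Fin N) + 2) * MF N)
        (bigD2 (Fin N ⊕ Fin N) (WN N) (bigL N N))) := by
    unfold wFF
    rw [hpen, DF_eq]
  refine ⟨?_, fun x hx => ?_, fun S hS => ?_, fun S hS => ?_, ?_⟩
  · intro h
    have := congrArg List.length h
    rw [List.length_map] at this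
    unfold mod2 at this
    rw [List.length_append, List.length_map, List.length_map, length_modL] at this
    simp at this
  · rw [List.mem_map] at hx
    obtain ⟨i, -, rfl⟩ := hx
    exact hpos i
  · have h1 := isOptimalTotal_equiv σ hd hF S hS
    rw [hFF] at h1
    have h2 := window_total2 (WN N) (bigL N N) (cu C) clo chi _ (MF N) hL hu hlo hhi hW
      (MF_pos N) (fun j x => Fstar_nonneg _ x) (fun j x => Fstar_le j.isLt x) _ h1
    rw [sol_iff C] at h2
    exact (h0 (S 1)).trans h2
  · have h1 := isOptimalMax_equiv σ hd hF S hS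
    rw [hFF] at h1
    have h2 := window_max2 (WN N) (bigL N N) (cu C) clo chi _ (MF N) hL hu hlo hhi hW
      (MF_pos N) (fun j x => Fstar_nonneg _ x) (fun j x => Fstar_le j.isLt x) _ h1
    rw [sol_iff C] at h2
    exact (h0 (S 1)).trans h2
  · rw [← total_equiv σ hd]
    exact (hpos (Sum.inr none)).trans_le (le_total _ _)

end Pool.Agent.JIT
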