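import Pool.Agent.Lib_MP_033923_np.Inst

set_option autoImplicit false

/-!
# Padding of a family of sets to a square format
-/

namespace Pool.Agent.JIT

open Finset

/-- the incidences of the padded family: a new set `m` contains exactly the new elements, and all
other new sets are empty -/
def incPad (m e : ℕ) (inc : ℕ → ℕ → Bool) (x y : ℕ) : Bool :=
  if x < m then (decide (y < e) && inc x y) else (decide (x = m) && decide (e ≤ y))

variable {m e N : ℕ} (inc : ℕ → ℕ → Bool)

theorem mem_incC {m e : ℕ} (inc : ℕ → ℕ → Bool) (x : Fin m) (y : Fin e) :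
    y ∈ incC m e inc x ↔ inc x y = true := by
  unfold incC
  rw [mem_filter]
  exact ⟨fun h => h.2, fun h => ⟨mem_univ _, h⟩⟩

theorem incPad_cover (hm : m < N) (hcov : ∀ y, ∃ x, y ∈ incC m e inc x) :
    ∀ y, ∃ x, y ∈ incC N N (incPad m e inc) x := by
  intro y
  by_cases hy : (y : ℕ) < e
  · obtain ⟨x, hx⟩ := hcov ⟨y, hy⟩
    refine ⟨⟨x, x.isLt.trans hm⟩, ?_⟩
    rw [mem_incC] at hx ⊢
    unfold incPad
    simp only [x.isLt, if_true, hy, decide_true, Bool.true_and]
    exact hx
  · refine ⟨⟨m, hm⟩, ?_⟩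
    rw [mem_incC]
    unfold incPad
    simp only [lt_irrefl, if_false, decide_true, Bool.true_and, decide_eq_true_eq]
    omega

theorem incPad_iff (hm : m < N) (he : e ≤ N) :
    HasExactCover (incC N N (incPad m e inc)) ↔ HasExactCover (incC m e inc) := by
  unfold HasExactCover
  constructor
  · rintro ⟨T, hT⟩
    refine ⟨univ.filter (fun x : Fin m => (⟨x, x.isLt.trans hm⟩ : Fin N) ∈ T), fun y => ?_⟩
    obtain ⟨x, ⟨hx1, hx2⟩, hx3⟩ := hT ⟨y, lt_of_lt_of_le y.isLt he⟩
    rw [mem_incC] at hx2
    unfold incPad at hx2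
    have hye : (y : ℕ) < e := y.isLt
    split_ifs at hx2 with h1
    · simp only [hye, decide_true, Bool.true_and] at hx2
      refine ⟨⟨x, h1⟩, ⟨mem_filter.2 ⟨mem_univ _, hx1⟩, (mem_incC _ _ _).2 hx2⟩, ?_⟩
      rintro z ⟨hz1, hz2⟩
      rw [mem_filter] at hz1
      rw [mem_incC] at hz2
      have := hx3 ⟨z, z.isLt.trans hm⟩ ⟨hz1.2, by
        rw [mem_incC]
        unfold incPad
        simp only [z.isLt, if_true, hye, decide_true, Bool.true_and]
        exact hz2⟩
      apply Fin.ext
      have h2 := congrArg Fin.val this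
      exact h2
    · simp only [Bool.and_eq_true, decide_eq_true_eq] at hx2
      omega
  · rintro ⟨T, hT⟩
    refine ⟨univ.filter (fun x : Fin N => (x : ℕ) = m ∨ ∃ h : (x : ℕ) < m, (⟨x, h⟩ : Fin m) ∈ T),
      fun y => ?_⟩
    by_cases hy : (y : ℕ) < e
    · obtain ⟨x, ⟨hx1, hx2⟩, hx3⟩ := hT ⟨y, hy⟩
      rw [mem_incC] at hx2
      refine ⟨⟨x, x.isLt.trans hm⟩, ⟨mem_filter.2 ⟨mem_univ _, Or.inr ⟨x.isLt, hx1⟩⟩, ?_⟩, ?_⟩
      · rw [mem_incC]
        unfold incPad
        simp only [x.isLt, if_true, hy, decide_true, Bool.true_and]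
        exact hx2
      · rintro z ⟨hz1, hz2⟩
        rw [mem_incC] at hz2
        unfold incPad at hz2
        rw [mem_filter] at hz1
        split_ifs at hz2 with h1
        · simp only [hy, decide_true, Bool.true_and] at hz2
          rcases hz1.2 with h2 | ⟨h2, h3⟩
          · omega
          · have := hx3 ⟨z, h1⟩ ⟨h3, (mem_incC _ _ _).2 hz2⟩
            apply Fin.ext
            have h4 := congrArg Fin.val this
            exact h4
        · simp only [Bool.and_eq_true, decide_eq_true_eq] at hz2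
          omega
    · refine ⟨⟨m, hm⟩, ⟨mem_filter.2 ⟨mem_univ _, Or.inl rfl⟩, ?_⟩, ?_⟩
      · rw [mem_incC]
        unfold incPad
        simp only [lt_irrefl, if_false, decide_true, Bool.true_and, decide_eq_true_eq]
        omega
      · rintro z ⟨hz1, hz2⟩
        rw [mem_incC] at hz2
        unfold incPad at hz2
        split_ifs at hz2 with h1
        · simp only [Bool.and_eq_true, decide_eq_true_eq] at hz2
          omega
        · simp only [Bool.and_eq_true, decide_eq_true_eq] at hz2
          exact Fin.ext hz2.1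

end Pool.Agent.JIT
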