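import Pool.Agent.Lib_MP_22d2c8_uni.Bridge
import Pool.Agent.Lib_MP_033923_np.FixInst
import Pool.Agent.Lib_MP_033923_np.FixEval
import Pool.Agent.Lib_MP_033923_np.Pad

set_option autoImplicit false

/-!
# Hardness for the fixed sequence of deviation functions
-/

namespace Pool.Agent.JIT

open Pool.Agent.PartSep Pool.Agent.PartSep.TM Pool.Agent.PartSep.TM.Rep Pool.Agent.PartSep.CL
  Pool.Agent.Lib_MP_8cd8c6_lc N487b59b3 Finset

set_option synthInstance.maxSize 2000

variable {E F G : Type} [Rep E] [Rep F] [Rep G]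

/-! ### Lists of numbers -/

/-- the code of a list of numbers -/
def codN (l : List Bi) : List Sym := l.flatMap (fun b => del (digs b.v))

theorem fp_codN {l : E → List Bi} (hl : FP l) : FP (fun x => codN (l x)) :=
  FP.flatMapS hl (g := fun y : E × Bi => del (digs y.2.v)) (FP.del (FP.digs FP.snd))

theorem encode_listN (d : List ℕ) : (bitEncode d).map bs = codN (d.map Bi.mk) := by
  rw [bitEncode_list]
  unfold codN
  rw [List.flatMap_map]
  congr 1
  funext a
  rw [encode_nat]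

/-- the demands of an instance of block `N` -/
theorem fp_demF {N : E → ℕ} (hN : FP N) {inc : E → ℕ → ℕ → Bool}
    (hinc : FP (fun y : E × (ℕ × ℕ) => inc y.1 y.2.1 y.2.2)) :
    FP (fun x => (demF (N x) (inc x)).map Bi.mk) := by
  have hN' : FP (fun y : E × ℕ => N y.1) := FP.comp hN FP.fst
  have hinc' : FP (fun y : (E × ℕ) × (ℕ × ℕ) => inc y.1.1 y.2.1 y.2.2) :=
    FP.comp (g := fun y : E × (ℕ × ℕ) => inc y.1 y.2.1 y.2.2)
      (f := fun y : (E × ℕ) × (ℕ × ℕ) => (y.1.1, y.2)) hinc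
      (FP.pair (FP.comp FP.fst FP.fst) FP.snd)
  have hu : FPB (fun y : E × ℕ => uN (N y.1) (N y.1) (inc y.1) y.2) :=
    fp_uN hN' hN' (inc := fun y : E × ℕ => inc y.1) hinc' FP.snd
  have hr : FP (fun x => List.range (N x + N x)) := FP.range (FP.add hN hN)
  have h1 : FP (fun x => (List.range (offs (N x))).map (fun _ => (⟨1⟩ : Bi))) :=
    FP.mapE (FP.range (fp_offs hN)) (g := fun _ : E × ℕ => (⟨1⟩ : Bi)) (FP.const _)
  have h2 : FPB (fun x => WN (N x) * LN (N x) (N x) - 1 - offs (N x)) :=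
    fp_subB (fp_subB (fp_mulB (fpb_WN hN) (fp_LN hN hN)) (fpb_const 1)) (fp_ofNat (fp_offs hN))
  have h3 : FP (fun x => (List.range (N x + N x)).map (fun j =>
      (⟨WN (N x) * uN (N x) (N x) (inc x) j⟩ : Bi))) :=
    FP.mapE hr (g := fun y : E × ℕ => (⟨WN (N y.1) * uN (N y.1) (N y.1) (inc y.1) y.2⟩ : Bi))
      (fp_mulB (fpb_WN hN') hu)
  have h4 : FP (fun x => (List.range (N x + N x)).map (fun j =>
      (⟨WN (N x) * (LN (N x) (N x) - uN (N x) (N x) (inc x) j)⟩ : Bi))) :=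
    FP.mapE hr (g := fun y : E × ℕ =>
      (⟨WN (N y.1) * (LN (N y.1) (N y.1) - uN (N y.1) (N y.1) (inc y.1) y.2)⟩ : Bi))
      (fp_mulB (fpb_WN hN') (fp_subB (fp_LN hN' hN') hu))
  refine (FP.appendE h1 (FP.consE (fpb_const 1) (FP.consE h2 (FP.appendE h3 h4)))).congr
    (fun x => ?_)
  unfold demF
  rw [List.map_append, List.map_cons, List.map_cons, List.map_append, List.map_map,
    List.map_map, List.map_replicate]
  congr 1
  rw [List.map_const', List.length_range]

/-! ### The instance of a formula -/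

/-- the block of the instance -/
def NF (φ : CNF Name) : ℕ := max (mF φ) (eF φ) + 1

/-- the demands -/
def demS (φ : CNF Name) : List ℕ := demF (NF φ) (incPad (mF φ) (eF φ) (incF φ))

theorem demS_main (φ : CNF Name) :
    demS φ ≠ [] ∧ (∀ x ∈ demS φ, 0 < x) ∧
    (∀ S : ℕ → Fin (demS φ).length, IsOptimalTotal (demS φ).get (fun i => Fstar i) S →
      ((S 1 : ℕ) = offs (NF φ) ↔ ¬ φ.Satisfiable)) ∧
    (∀ S : ℕ → Fin (demS φ).length, IsOptimalMax (demS φ).get (fun i => Fstar i) S →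
      ((S 1 : ℕ) = offs (NF φ) ↔ ¬ φ.Satisfiable)) ∧
    1 ≤ total (demS φ).get := by
  have hm : mF φ < NF φ := by
    unfold NF
    exact Nat.lt_succ_of_le (le_max_left _ _)
  have he : eF φ ≤ NF φ := by
    unfold NF
    exact (le_max_right _ _).trans (Nat.le_succ _)
  have hcov : ∀ y, ∃ x, y ∈ incC (mF φ) (eF φ) (incF φ) x := by
    rw [incC_incF]
    exact famC_cover φ
  obtain ⟨h1, h2, h3, h4, h5⟩ := fix_main (NF φ) (incPad (mF φ) (eF φ) (incF φ))
    (incPad_cover (incF φ) hm hcov)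
  have h6 : HasExactCover (incC (NF φ) (NF φ) (incPad (mF φ) (eF φ) (incF φ))) ↔
      φ.Satisfiable := by
    rw [incPad_iff (incF φ) hm he, incC_incF]
    exact famC_iff φ
  exact ⟨h1, h2, fun S hS => (h3 S hS).trans (not_congr h6),
    fun S hS => (h4 S hS).trans (not_congr h6), h5⟩

theorem fp_mF {φ : E → CNF Name} (hφ : FP φ) : FP (fun x => mF (φ x)) :=
  FP.lengthE (fp_setD (FP.lengthE (fp_occs hφ)))

theorem fp_eF {φ : E → CNF Name} (hφ : FP φ) : FP (fun x => eF (φ x)) :=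
  FP.lengthE (fp_elD (FP.lengthE (fp_occs hφ)) (FP.lengthE hφ))

theorem fp_incF {φ : E → CNF Name} (hφ : FP φ) {i j : E → ℕ} (hi : FP i) (hj : FP j) :
    FP (fun x => incF (φ x) (i x) (j x)) := by
  unfold incF
  have hN : FP (fun x => (occs (φ x)).length) := FP.lengthE (fp_occs hφ)
  have hM : FP (fun x => (φ x).length) := FP.lengthE hφ
  exact fp_memD (fp_occs hφ) (FP.getE (fp_setD hN) hi _) (FP.getE (fp_elD hN hM) hj _)

theorem fp_natMax {f g : E → ℕ} (hf : FP f) (hg : FP g) : FP (fun x => max (f x) (g x)) :=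
  (FP.add hf (FP.sub hg hf)).congr (fun x => by omega)

theorem fp_NF {φ : E → CNF Name} (hφ : FP φ) : FP (fun x => NF (φ x)) :=
  FP.addConst (fp_natMax (fp_mF hφ) (fp_eF hφ)) 1

theorem fp_demS {φ : E → CNF Name} (hφ : FP φ) : FP (fun x => (demS (φ x)).map Bi.mk) := by
  unfold demS
  refine fp_demF (fp_NF hφ) (inc := fun x => incPad (mF (φ x)) (eF (φ x)) (incF (φ x))) ?_
  unfold incPad
  have hφ' : FP (fun y : E × (ℕ × ℕ) => φ y.1) := FP.comp hφ FP.fst
  have hx : FP (fun y : E × (ℕ × ℕ) => y.2.1) := FP.comp FP.fst FP.snd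
  have hy : FP (fun y : E × (ℕ × ℕ) => y.2.2) := FP.comp FP.snd FP.snd
  refine (FP.ite (FP.natLt hx (fp_mF hφ')) (FP.and (FP.natLt hy (fp_eF hφ'))
    (fp_incF hφ' hx hy)) (FP.and (FP.natEq hx (fp_mF hφ')) (FP.natLe (fp_eF hφ') hy))).congr
    (fun y => ?_)
  by_cases h : y.2.1 < mF (φ y.1) <;> simp [h]

/-! ### Hardness -/

theorem P_subset_NP' : N68a2faeb.P ⊆ N68a2faeb.NP :=
  Pool.Agent.LowComplexity.closed_NP.P_subset

theorem hard_ofF {build : List ℕ → List Bool} {query : List Bool × ℕ → ℕ}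
    (hp : PolyTimeAlg build query)
    (h : ∀ φ : CNF Name, query (build (demS φ), 1) = offs (NF φ) ↔ ¬ φ.Satisfiable) :
    N68a2faeb.NP ⊆ N68a2faeb.P := by
  intro L hL
  obtain ⟨g, hg, hLg⟩ := cook_levin hL
  obtain ⟨gb, hgb, hb⟩ := FP.ofTM2 hp.1
  obtain ⟨gq, hgq, hq⟩ := FP.ofTM2 hp.2
  have h1 : FP (fun s => gq (del (gb (codN ((demS (g s)).map Bi.mk))) ++ digs 1)) :=
    FP.comp hgq (FP.append (FP.del (FP.comp hgb (fp_codN (fp_demS hg)))) (FP.const _))
  have h2 : FP (fun s => digs (offs (NF (g s)))) := FP.digs (fp_ofNat (fp_offs (fp_NF hg)))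
  refine mem_P_of_fp (g := fun s => if decide (gq (del (gb (codN ((demS (g s)).map Bi.mk))) ++
    digs 1) = digs (offs (NF (g s)))) then [bs false] else [bs true])
    (FP.ite (FP.eqS h1 h2) (FP.const _) (FP.const _)) (fun x => ?_)
  set φ := g ((bitEncode x).map bs) with hφ
  have e1 : gb (codN ((demS φ).map Bi.mk)) = (bitEncode (build (demS φ))).map bs := by
    rw [← encode_listN]
    exact hb (demS φ)
  have e2 : gq (del (gb (codN ((demS φ).map Bi.mk))) ++ digs 1) =
      digs (query (build (demS φ), 1)) := by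
    rw [e1, ← encode_nat 1, ← encode_nat (query _), ← bitEncode_prod (build (demS φ), (1 : ℕ))]
    exact hq (build (demS φ), 1)
  rw [e2]
  have h3 := h φ
  by_cases hs : φ.Satisfiable
  · have hne : query (build (demS φ), 1) ≠ offs (NF φ) := fun h0 => (h3.1 h0) hs
    have hLx : L x = true := (hLg x).2 hs
    have h4 : digs (query (build (demS φ), 1)) ≠ digs (offs (NF φ)) :=
      fun h5 => hne (digs_injective h5)
    rw [hLx]
    simp only [h4, decide_false, Bool.false_eq_true, if_false]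
  · have h0 : query (build (demS φ), 1) = offs (NF φ) := h3.2 hs
    have hLx : L x = false := by
      rw [← Bool.not_eq_true]
      intro h4
      exact hs ((hLg x).1 h4)
    rw [h0, hLx]
    simp only [decide_true, if_true]

theorem hard_totalF {build : List ℕ → List Bool} {query : List Bool × ℕ → ℕ}
    (hp : PolyTimeAlg build query) (h : SolvesTotalSeq Fstar build query) :
    N68a2faeb.P = N68a2faeb.NP := by
  refine Set.Subset.antisymm P_subset_NP' (hard_ofF hp (fun φ => ?_))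
  obtain ⟨h1, h2, h3, -, h4⟩ := demS_main φ
  obtain ⟨S, hS, hk⟩ := h (demS φ) h1 h2
  rw [hk 1 (mem_Icc.2 ⟨le_rfl, h4⟩)]
  exact h3 S hS

theorem hard_maxF {build : List ℕ → List Bool} {query : List Bool × ℕ → ℕ}
    (hp : PolyTimeAlg build query) (h : SolvesMaxSeq Fstar build query) :
    N68a2faeb.P = N68a2faeb.NP := by
  refine Set.Subset.antisymm P_subset_NP' (hard_ofF hp (fun φ => ?_))
  obtain ⟨h1, h2, -, h3, h4⟩ := demS_main φ
  obtain ⟨S, hS, hk⟩ := h (demS φ) h1 h2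
  rw [hk 1 (mem_Icc.2 ⟨le_rfl, h4⟩)]
  exact h3 S hS

/-- The reduction of an arbitrary problem in NP. -/
theorem karpF {L : List Bool → Bool} (hL : L ∈ N68a2faeb.NP) :
    ∃ (f : List Bool → List ℕ) (s : List Bool → ℕ),
      N68a2faeb.IsPolyTime f ∧ N68a2faeb.IsPolyTime s ∧
      ∀ w, f w ≠ [] ∧ (∀ x ∈ f w, 0 < x) ∧
        (∃ S, IsOptimalTotal (f w).get (fun i => Fstar i) S) ∧
        (∃ S, IsOptimalMax (f w).get (fun i => Fstar i) S) ∧
        (∀ S, IsOptimalTotal (f w).get (fun i => Fstar i) S →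
          ((S 1 : ℕ) = s w ↔ L w = false)) ∧
        (∀ S, IsOptimalMax (f w).get (fun i => Fstar i) S →
          ((S 1 : ℕ) = s w ↔ L w = false)) := by
  obtain ⟨g, hg, hLg⟩ := cook_levin hL
  refine ⟨fun w => demS (g ((bitEncode w).map bs)), fun w => offs (NF (g ((bitEncode w).map bs))),
    ?_, ?_, fun w => ?_⟩
  · refine FP.toTM2 (αΓ := Bool) (βΓ := Bool) bs sb bs sb_bs (fp_codN (fp_demS hg))
      (fun w => ?_)
    exact (encode_listN _).symm
  · refine FP.toTM2 (αΓ := Bool) (βΓ := Bool) bs sb bs sb_bs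
      (FP.digs (fp_ofNat (fp_offs (fp_NF hg)))) (fun w => ?_)
    exact (encode_nat _).symm
  · set φ := g ((bitEncode w).map bs) with hφ
    obtain ⟨h1, h2, h3, h4, h5⟩ := demS_main φ
    have hn : 0 < (demS φ).length := List.length_pos_iff.2 h1
    have hL : ¬ φ.Satisfiable ↔ L w = false := by
      rw [← hLg w, Bool.not_eq_true]
    obtain ⟨S0, hS0⟩ := exists_isSeq hn (demS φ).get
    refine ⟨h1, h2, ?_, ?_, fun S hS => (h3 S hS).trans hL, fun S hS => (h4 S hS).trans hL⟩
    · obtain ⟨S, hS1, hS2⟩ := exists_optimal (demS φ).get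
        (totalDeviation (demS φ).get (fun i => Fstar i)) (totalDeviation_congr _ _) ⟨S0, hS0⟩
      exact ⟨S, hS1, hS2⟩
    · obtain ⟨S, hS1, hS2⟩ := exists_optimal (demS φ).get
        (maxDeviation (demS φ).get (fun i => Fstar i)) (maxDeviation_congr _ _) ⟨S0, hS0⟩
      exact ⟨S, hS1, hS2⟩

end Pool.Agent.JIT
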