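import Mathlib

set_option autoImplicit false

/-!
# A single server queue with priority classes
-/

namespace Pool.Agent.JIT

open Finset

/-- the number of jobs of the classes below `π` served in the first `t` slots -/
def served (A : ℕ → ℕ → ℕ) (π : ℕ) : ℕ → ℕ
  | 0 => 0
  | t + 1 => min (A π (t + 1)) (served A π t + 1)

/-- `A π s` is the number of jobs of the classes `0, ..., π - 1` which are available in one of the
slots `1, ..., s`. -/
structure Arrivals (A : ℕ → ℕ → ℕ) : Prop where
  zero : ∀ s, A 0 s = 0
  start : ∀ π, A π 0 = 0
  mono : ∀ π s, A π s ≤ A π (s + 1)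
  le : ∀ π s, A π s ≤ A (π + 1) s
  super : ∀ π s, A (π + 1) s + A π (s + 1) ≤ A (π + 1) (s + 1) + A π s

section queue

variable {A : ℕ → ℕ → ℕ} (hA : Arrivals A)

include hA

omit hA in
theorem served_le' (π t : ℕ) : served A π t ≤ A π t := by
  cases t with
  | zero => exact Nat.zero_le _
  | succ t => exact min_le_left _ _

theorem served_le (π t : ℕ) : served A π t ≤ A π t := by
  have := hA.zero 0
  exact served_le' π t

omit hA in
theorem served_succ_le (π t : ℕ) : served A π (t + 1) ≤ served A π t + 1 := min_le_right _ _

theorem served_mono (π t : ℕ) : served A π t ≤ served A π (t + 1) := by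
  rw [served]
  have h1 := served_le hA π t
  have h2 := hA.mono π t
  exact le_min (by omega) (by omega)

theorem served_le_succ (π t : ℕ) : served A π t ≤ served A (π + 1) t := by
  induction t with
  | zero => exact le_rfl
  | succ t ih =>
    rw [served, served]
    have := hA.le π (t + 1)
    omega

theorem served_diff (π t : ℕ) : served A (π + 1) t + A π t ≤ A (π + 1) t + served A π t := by
  induction t with
  | zero =>
    have h1 := hA.start π
    have h2 := hA.start (π + 1)
    rw [h1, h2]
    exact le_rfl
  | succ t ih =>
    have h1 := hA.super π t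
    have h2 : served A (π + 1) (t + 1) ≤ A (π + 1) (t + 1) := min_le_left _ _
    have h3 : served A (π + 1) (t + 1) ≤ served A (π + 1) t + 1 := min_le_right _ _
    have h4 : served A π (t + 1) = min (A π (t + 1)) (served A π t + 1) := rfl
    omega

/-- if a slot serves the classes below `π` then it serves the classes below `π + 1` -/
theorem served_step (π t : ℕ) (h : served A π (t + 1) = served A π t + 1) :
    served A (π + 1) (t + 1) = served A (π + 1) t + 1 := by
  have h1 := hA.super π t
  have h2 := served_diff hA π t
  have h3 : served A π (t + 1) ≤ A π (t + 1) := min_le_left _ _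
  have h4 : served A (π + 1) (t + 1) = min (A (π + 1) (t + 1)) (served A (π + 1) t + 1) := rfl
  omega

theorem served_step_le {π π' : ℕ} (hπ : π ≤ π') (t : ℕ)
    (h : served A π (t + 1) = served A π t + 1) :
    served A π' (t + 1) = served A π' t + 1 := by
  induction π', hπ using Nat.le_induction with
  | base => exact h
  | succ π' _ ih => exact served_step hA π' t ih

theorem served_zero (t : ℕ) : served A 0 t = 0 := by
  have := served_le hA 0 t
  rw [hA.zero] at this
  omega

/-- the formula for the number of served jobs -/
theorem served_iff (π t v : ℕ) : served A π t ≤ v ↔ ∃ s ≤ t, A π s + (t - s) ≤ v := by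
  constructor
  · intro h
    have key : ∀ t, ∃ s ≤ t, A π s + (t - s) ≤ served A π t := by
      intro t
      induction t with
      | zero => exact ⟨0, le_rfl, by rw [hA.start]; exact Nat.zero_le _⟩
      | succ t ih =>
        obtain ⟨s, hs, hs'⟩ := ih
        rw [served]
        rcases le_total (A π (t + 1)) (served A π t + 1) with h1 | h1
        · exact ⟨t + 1, le_rfl, by rw [min_eq_left h1]; omega⟩
        · exact ⟨s, by omega, by rw [min_eq_right h1]; omega⟩
    obtain ⟨s, hs, hs'⟩ := key t
    exact ⟨s, hs, hs'.trans h⟩
  · rintro ⟨s, hs, h⟩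
    have key : ∀ k, served A π (s + k) ≤ A π s + k := by
      intro k
      induction k with
      | zero => exact served_le hA π s
      | succ k ih =>
        have := served_succ_le (A := A) π (s + k)
        rw [show s + (k + 1) = s + k + 1 from rfl]
        omega
    have := key (t - s)
    rw [Nat.add_sub_cancel' hs] at this
    omega

theorem served_le_time (π t : ℕ) : served A π t ≤ t :=
  (served_iff hA π t t).2 ⟨0, Nat.zero_le _, by rw [hA.start]; omega⟩

/-- if all the classes below `π` are served completely then so are those below `π' ≤ π` -/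
theorem served_full {π π' : ℕ} (hπ : π' ≤ π) (t : ℕ) (h : served A π t = A π t) :
    served A π' t = A π' t := by
  induction π, hπ using Nat.le_induction with
  | base => exact h
  | succ π _ ih =>
    apply ih
    have h1 := served_diff hA π t
    have h2 := served_le hA π t
    omega

/-- a slot serves some class -/
theorem exists_class {M : ℕ} {t : ℕ} (h : served A M (t + 1) = served A M t + 1) :
    ∃ π, π < M ∧ served A (π + 1) t < served A (π + 1) (t + 1) := by
  cases M with
  | zero =>
    rw [served_zero hA, served_zero hA] at h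
    omega
  | succ M => exact ⟨M, Nat.lt_succ_self _, by omega⟩

end queue

open Classical in
/-- the class served in the slot `t + 1` -/
noncomputable def cls (A : ℕ → ℕ → ℕ) (t : ℕ) : ℕ :=
  if h : ∃ π, served A (π + 1) t < served A (π + 1) (t + 1) then Nat.find h else 0

section classes

variable {A : ℕ → ℕ → ℕ} (hA : Arrivals A) {M t : ℕ}
  (h : served A M (t + 1) = served A M t + 1)

include hA h

theorem cls_lt : cls A t < M := by
  classical
  obtain ⟨π, h1, h2⟩ := exists_class hA h
  have hex : ∃ π, served A (π + 1) t < served A (π + 1) (t + 1) := ⟨π, h2⟩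
  unfold cls
  rw [dif_pos hex]
  exact (Nat.find_min' hex h2).trans_lt h1

/-- the slot serves the classes below `π` if and only if its class is below `π` -/
theorem cls_spec (π : ℕ) : served A π (t + 1) = served A π t + (if cls A t < π then 1 else 0) := by
  classical
  obtain ⟨π₀, h1, h2⟩ := exists_class hA h
  have hex : ∃ π, served A (π + 1) t < served A (π + 1) (t + 1) := ⟨π₀, h2⟩
  have hc : cls A t = Nat.find hex := by
    unfold cls
    rw [dif_pos hex]
  split_ifs with h3
  · have h4 : served A (cls A t + 1) t < served A (cls A t + 1) (t + 1) := by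
      rw [hc]
      exact Nat.find_spec hex
    have h5 := served_succ_le (A := A) (cls A t + 1) t
    have h6 : served A (cls A t + 1) (t + 1) = served A (cls A t + 1) t + 1 := by omega
    exact served_step_le hA (π := cls A t + 1) h3 t h6
  · cases π with
    | zero => rw [served_zero hA, served_zero hA]
    | succ π =>
      have h4 : π < Nat.find hex := by rw [← hc]; omega
      have h5 := Nat.find_min hex h4
      have h6 := served_mono hA (π + 1) t
      omega

theorem cls_count (π : ℕ) : served A (π + 1) (t + 1) + served A π t =
    served A (π + 1) t + served A π (t + 1) + (if cls A t = π then 1 else 0) := by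
  rw [cls_spec hA h, cls_spec hA h]
  split_ifs <;> omega

end classes

/-- the number of slots which serve class `π` -/
theorem card_class {A : ℕ → ℕ → ℕ} (hA : Arrivals A) {M D : ℕ}
    (h : ∀ t < D, served A M (t + 1) = served A M t + 1) (π : ℕ) : ∀ t ≤ D,
    ((range t).filter (fun k => cls A k = π)).card + served A π t = served A (π + 1) t := by
  intro t
  induction t with
  | zero => intro _; simp [served]
  | succ t ih =>
    intro ht
    have h1 := ih (by omega)
    have h2 := cls_count hA (h t (by omega)) π
    rw [range_add_one, filter_insert]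
    split_ifs with h3
    · rw [card_insert_of_notMem (by simp)]
      rw [if_pos h3] at h2
      omega
    · rw [if_neg h3] at h2
      omega

/-! ### The queue of a system of windows -/

section windows

variable (n D : ℕ) (Lw Up : ℕ → ℕ → ℕ)

/-- the arrivals: the class `q n + i` consists of the jobs of model `i` with deadline `q + 1` -/
def arr (π s : ℕ) : ℕ :=
  ∑ i ∈ range n, min (Lw i (π / n + if i < π % n then 1 else 0)) (Up i s)

/-- Windows for the numbers of produced copies. -/
structure Windows : Prop where
  pos : 0 < n
  low0 : ∀ i, Lw i 0 = 0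
  low : ∀ i q, Lw i q ≤ Lw i (q + 1)
  up0 : ∀ i, Up i 0 = 0
  up : ∀ i s, Up i s ≤ Up i (s + 1)
  top : ∀ i s, Up i s ≤ Lw i D
  sum : ∑ i ∈ range n, Lw i D = D
  hall : ∀ s t, s ≤ t → t ≤ D → ∑ i ∈ range n, (Lw i t - Up i s) ≤ t - s

variable {n D Lw Up}

theorem arr_succ (hn : 0 < n) (π s : ℕ) :
    arr n Lw Up (π + 1) s + min (Lw (π % n) (π / n)) (Up (π % n) s) =
      arr n Lw Up π s + min (Lw (π % n) (π / n + 1)) (Up (π % n) s) := by
  have hlt : π % n < n := Nat.mod_lt _ hn
  have hmem : π % n ∈ range n := mem_range.2 hlt
  unfold arr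
  rw [← Finset.add_sum_erase _ _ hmem, ← Finset.add_sum_erase (range n)
    (fun i => min (Lw i (π / n + if i < π % n then 1 else 0)) (Up i s)) hmem]
  have hrest : ∑ i ∈ (range n).erase (π % n),
        min (Lw i ((π + 1) / n + if i < (π + 1) % n then 1 else 0)) (Up i s) =
      ∑ i ∈ (range n).erase (π % n),
        min (Lw i (π / n + if i < π % n then 1 else 0)) (Up i s) := by
    refine Finset.sum_congr rfl (fun i hi => ?_)
    rw [mem_erase, mem_range] at hi
    congr 2
    rcases Nat.lt_or_ge (π % n + 1) n with h1 | h1
    · have e1 : (π + 1) / n = π / n := by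
        rw [Nat.add_div hn, Nat.mod_eq_of_lt (show 1 < n by omega), if_neg (by omega),
          Nat.div_eq_of_lt (show 1 < n by omega)]
        ring
      have e2 : (π + 1) % n = π % n + 1 := by
        rw [Nat.add_mod, Nat.mod_eq_of_lt (show 1 < n by omega), Nat.mod_eq_of_lt h1]
      rw [e1, e2]
      congr 1
      split_ifs <;> omega
    · have e0 : π % n + 1 = n := by omega
      have e3 : π + 1 = n * (π / n + 1) := by
        have := Nat.div_add_mod π n
        rw [Nat.mul_add, Nat.mul_one]
        omega
      have e1 : (π + 1) / n = π / n + 1 := by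
        rw [e3, Nat.mul_div_cancel_left _ hn]
      have e2 : (π + 1) % n = 0 := by
        rw [e3, Nat.mul_mod_right]
      rw [e1, e2, if_neg (by omega), if_pos (by omega)]
  rw [hrest]
  have hself : (π + 1) / n + (if π % n < (π + 1) % n then 1 else 0) = π / n + 1 := by
    rcases Nat.lt_or_ge (π % n + 1) n with h1 | h1
    · have e1 : (π + 1) / n = π / n := by
        rw [Nat.add_div hn, Nat.mod_eq_of_lt (show 1 < n by omega), if_neg (by omega),
          Nat.div_eq_of_lt (show 1 < n by omega)]
        ring
      have e2 : (π + 1) % n = π % n + 1 := by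
        rw [Nat.add_mod, Nat.mod_eq_of_lt (show 1 < n by omega), Nat.mod_eq_of_lt h1]
      rw [e1, e2, if_pos (by omega)]
    · have e3 : π + 1 = n * (π / n + 1) := by
        have := Nat.div_add_mod π n
        rw [Nat.mul_add, Nat.mul_one]
        omega
      have e1 : (π + 1) / n = π / n + 1 := by
        rw [e3, Nat.mul_div_cancel_left _ hn]
      have e2 : (π + 1) % n = 0 := by
        rw [e3, Nat.mul_mod_right]
      rw [e1, e2, if_neg (by omega)]
  rw [hself]
  simp only [lt_irrefl, if_false, Nat.add_zero]
  omega

variable (W : Windows n D Lw Up)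

include W

theorem arrivals : Arrivals (arr n Lw Up) := by
  have hn := W.pos
  refine ⟨fun s => ?_, fun π => ?_, fun π s => ?_, fun π s => ?_, fun π s => ?_⟩
  · unfold arr
    refine Finset.sum_eq_zero (fun i _ => ?_)
    rw [Nat.zero_div, Nat.zero_mod, if_neg (by omega), W.low0, Nat.zero_min]
  · unfold arr
    refine Finset.sum_eq_zero (fun i _ => ?_)
    rw [W.up0, Nat.min_zero]
  · unfold arr
    exact Finset.sum_le_sum (fun i _ => min_le_min le_rfl (W.up i s))
  · have h1 := arr_succ (Lw := Lw) (Up := Up) hn π s
    have h2 := W.low (π % n) (π / n)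
    omega
  · have h1 := arr_succ (Lw := Lw) (Up := Up) hn π s
    have h1' := arr_succ (Lw := Lw) (Up := Up) hn π (s + 1)
    have h2 := W.low (π % n) (π / n)
    have h3 := W.up (π % n) s
    omega

theorem arr_mul (q s : ℕ) : arr n Lw Up (n * q) s = ∑ i ∈ range n, min (Lw i q) (Up i s) := by
  unfold arr
  refine Finset.sum_congr rfl (fun i _ => ?_)
  rw [Nat.mul_div_cancel_left _ W.pos, Nat.mul_mod_right, if_neg (by omega), Nat.add_zero]

theorem low_le_top (i : ℕ) {q : ℕ} (hq : q ≤ D) : Lw i q ≤ Lw i D := by
  induction D, hq using Nat.le_induction with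
  | base => exact le_rfl
  | succ D _ ih =>
    exact le_trans (monotone_nat_of_le_succ (W.low i) (by omega)) le_rfl

theorem low_le_up {i t : ℕ} (hi : i < n) (ht : t ≤ D) : Lw i t ≤ Up i t := by
  have h := W.hall t t le_rfl ht
  rw [Nat.sub_self, Nat.le_zero, Finset.sum_eq_zero_iff] at h
  have := h i (mem_range.2 hi)
  omega

/-- every slot is used -/
theorem served_top {t : ℕ} (ht : t ≤ D) : served (arr n Lw Up) (n * D) t = t := by
  apply le_antisymm (served_le_time (arrivals W) _ _)
  by_contra hcon
  push Not at hcon
  obtain ⟨s, hs, h⟩ := (served_iff (arrivals W) (n * D) t (t - 1)).1 (by omega)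
  rw [arr_mul W] at h
  have h1 := W.hall s D (by omega) le_rfl
  have h2 : ∑ i ∈ range n, min (Lw i D) (Up i s) = ∑ i ∈ range n, Up i s :=
    Finset.sum_congr rfl (fun i _ => min_eq_right (W.top i s))
  have h3 : ∑ i ∈ range n, Lw i D ≤ ∑ i ∈ range n, (Lw i D - Up i s) +
      ∑ i ∈ range n, Up i s := by
    rw [← Finset.sum_add_distrib]
    exact Finset.sum_le_sum (fun i _ => by omega)
  rw [W.sum] at h3
  omega

theorem served_busy {t : ℕ} (ht : t < D) : served (arr n Lw Up) (n * D) (t + 1) =
    served (arr n Lw Up) (n * D) t + 1 := by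
  rw [served_top W (by omega), served_top W (by omega)]

/-- all deadlines are met -/
theorem served_deadline {t : ℕ} (ht : t ≤ D) :
    served (arr n Lw Up) (n * t) t = arr n Lw Up (n * t) t := by
  apply le_antisymm (served_le (arrivals W) _ _)
  by_contra hcon
  push Not at hcon
  obtain ⟨s, hs, h⟩ := (served_iff (arrivals W) (n * t) t (arr n Lw Up (n * t) t - 1)).1
    (by omega)
  rw [arr_mul W] at h
  have h1 := W.hall s t hs ht
  have h2 : arr n Lw Up (n * t) t = ∑ i ∈ range n, Lw i t := by
    rw [arr_mul W]
    exact Finset.sum_congr rfl (fun i hi => min_eq_left (low_le_up W (mem_range.1 hi) ht))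
  have h3 : ∑ i ∈ range n, Lw i t ≤ ∑ i ∈ range n, (Lw i t - Up i s) +
      ∑ i ∈ range n, min (Lw i t) (Up i s) := by
    rw [← Finset.sum_add_distrib]
    exact Finset.sum_le_sum (fun i _ => by omega)
  omega

/-- the number of slots of model `i` -/
theorem card_model_eq (i : ℕ) (hi : i < n) {t : ℕ} (ht : t ≤ D) :
    ((range t).filter (fun k => cls (arr n Lw Up) k % n = i)).card =
      ∑ q ∈ range D, (served (arr n Lw Up) (n * q + i + 1) t -
        served (arr n Lw Up) (n * q + i) t) := by
  have hn := W.pos
  have hA := arrivals W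
  have h1 : (range t).filter (fun k => cls (arr n Lw Up) k % n = i) =
      (range D).biUnion (fun q => (range t).filter (fun k => cls (arr n Lw Up) k = n * q + i)) := by
    ext k
    rw [mem_filter, mem_biUnion]
    constructor
    · rintro ⟨hk, hk'⟩
      refine ⟨cls (arr n Lw Up) k / n, ?_, mem_filter.2 ⟨hk, ?_⟩⟩
      · rw [mem_range] at hk ⊢
        have := cls_lt hA (served_busy W (show k < D by omega))
        exact Nat.div_lt_of_lt_mul this
      · rw [← hk']
        exact (Nat.div_add_mod _ n).symm
    · rintro ⟨q, -, hk⟩
      rw [mem_filter] at hk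
      refine ⟨hk.1, ?_⟩
      rw [hk.2, Nat.mul_add_mod, Nat.mod_eq_of_lt hi]
  rw [h1, card_biUnion]
  · refine Finset.sum_congr rfl (fun q _ => ?_)
    have := card_class hA (fun t ht => served_busy W ht) (n * q + i) t ht
    omega
  · intro q _ q' _ hqq
    rw [Function.onFun, Finset.disjoint_left]
    intro k hk hk'
    rw [mem_filter] at hk hk'
    have : n * q = n * q' := by omega
    exact hqq (Nat.eq_of_mul_eq_mul_left hn this)

theorem sum_arr (i : ℕ) (hi : i < n) (t : ℕ) : ∀ m : ℕ,
    ∑ q ∈ range m, (arr n Lw Up (n * q + i + 1) t - arr n Lw Up (n * q + i) t) =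
      min (Lw i m) (Up i t) := by
  have hn := W.pos
  intro m
  induction m with
  | zero => rw [W.low0]; simp
  | succ m ih =>
    rw [Finset.sum_range_succ, ih]
    have h1 := arr_succ (Lw := Lw) (Up := Up) hn (n * m + i) t
    have e1 : (n * m + i) % n = i := by rw [Nat.mul_add_mod, Nat.mod_eq_of_lt hi]
    have e2 : (n * m + i) / n = m := by
      rw [Nat.mul_add_div hn, Nat.div_eq_of_lt hi, Nat.add_zero]
    rw [e1, e2] at h1
    have h2 := W.low i m
    omega

/-- the numbers of produced copies respect the windows -/
theorem window_bounds (i : ℕ) (hi : i < n) {t : ℕ} (ht : t ≤ D) :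
    Lw i t ≤ ((range t).filter (fun k => cls (arr n Lw Up) k % n = i)).card ∧
    ((range t).filter (fun k => cls (arr n Lw Up) k % n = i)).card ≤ Up i t := by
  have hA := arrivals W
  rw [card_model_eq W i hi ht]
  constructor
  · have h1 := sum_arr W i hi t t
    rw [min_eq_left (low_le_up W hi ht)] at h1
    rw [← h1]
    have hsub : range t ⊆ range D := fun q hq => mem_range.2 ((mem_range.1 hq).trans_le ht)
    refine le_trans ?_ (Finset.sum_le_sum_of_subset hsub)
    refine Finset.sum_le_sum (fun q hq => ?_)
    rw [mem_range] at hq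
    have hle : n * q + i + 1 ≤ n * t := by
      calc n * q + i + 1 ≤ n * q + n := by omega
        _ = n * (q + 1) := by ring
        _ ≤ n * t := Nat.mul_le_mul_left _ hq
    have h2 := served_full hA hle t (served_deadline W ht)
    have h3 := served_full hA (show n * q + i ≤ n * t by omega) t (served_deadline W ht)
    rw [h2, h3]
  · calc ∑ q ∈ range D, (served (arr n Lw Up) (n * q + i + 1) t -
        served (arr n Lw Up) (n * q + i) t)
        ≤ ∑ q ∈ range D, (arr n Lw Up (n * q + i + 1) t - arr n Lw Up (n * q + i) t) := by
          refine Finset.sum_le_sum (fun q _ => ?_)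
          have h1 := served_diff hA (n * q + i) t
          have h2 := served_le hA (n * q + i) t
          omega
      _ = min (Lw i D) (Up i t) := sum_arr W i hi t D
      _ ≤ Up i t := min_le_right _ _

end windows

end Pool.Agent.JIT
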