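import Pool.Agent.Lib_MP_033923_lc.Sched
import Pool.Agent.Lib_MP_033923_np.Queue

set_option autoImplicit false

/-!
# Windows for the numbers of produced copies
-/

namespace Pool.Agent.JIT.Gen

open Finset

/-- lists of triples (demand, lag, lead) -/
abbrev WL := List (ℕ × ℕ × ℕ)

/-- the entry of model `i` -/
def ent (I : WL) (i : ℕ) : ℕ × ℕ × ℕ := I[i]?.getD (0, 0, 0)

/-- the total demand -/
def DI (I : WL) : ℕ := ∑ i ∈ range I.length, (ent I i).1

/-- the lower bounds -/
def LI (I : WL) (i q : ℕ) : ℕ :=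
  if q < DI I then (q * (ent I i).1 - (ent I i).2.1 + (DI I - 1)) / DI I else (ent I i).1

/-- the upper bounds -/
def UI (I : WL) (i s : ℕ) : ℕ :=
  if s = 0 then 0 else min (ent I i).1 ((s * (ent I i).1 + (ent I i).2.2) / DI I)

/-- Hall's condition -/
def Hall (I : WL) : Prop :=
  ∀ s t, s ≤ t → t ≤ DI I → ∑ i ∈ range I.length, (LI I i t - UI I i s) ≤ t - s

/-- `x` copies of model `i` among the first `k` positions are allowed -/
def Ok (I : WL) (i k x : ℕ) : Prop :=
  DI I * x ≤ k * (ent I i).1 + (ent I i).2.2 ∧ k * (ent I i).1 ≤ DI I * x + (ent I i).2.1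

section inst

variable {I : WL} (hD : 0 < DI I)

include hD

theorem LI_le (i q : ℕ) : LI I i q ≤ (ent I i).1 := by
  unfold LI
  split_ifs with h
  · rw [← Nat.lt_succ_iff, Nat.div_lt_iff_lt_mul hD]
    have h1 : q * (ent I i).1 ≤ DI I * (ent I i).1 := Nat.mul_le_mul_right _ h.le
    rw [Nat.succ_mul, mul_comm (ent I i).1]
    omega
  · exact le_rfl

theorem LI_iff {i q x : ℕ} (hq : q < DI I) : LI I i q ≤ x ↔
    q * (ent I i).1 ≤ DI I * x + (ent I i).2.1 := by
  unfold LI
  rw [if_pos hq, ← Nat.lt_succ_iff, Nat.div_lt_iff_lt_mul hD, Nat.succ_mul, mul_comm x]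
  omega

/-- the windows of an instance -/
theorem windows (hn : 0 < I.length) (h : Hall I) :
    Windows I.length (DI I) (LI I) (UI I) := by
  refine ⟨hn, fun i => ?_, fun i q => ?_, fun i => ?_, fun i s => ?_, fun i s => ?_, ?_, h⟩
  · unfold LI
    rw [if_pos hD, Nat.zero_mul, Nat.zero_sub, Nat.zero_add]
    exact Nat.div_eq_of_lt (by omega)
  · by_cases h1 : q + 1 < DI I
    · unfold LI
      rw [if_pos (by omega), if_pos h1]
      apply Nat.div_le_div_right
      have : q * (ent I i).1 ≤ (q + 1) * (ent I i).1 := Nat.mul_le_mul_right _ (by omega)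
      omega
    · have h2 : LI I i (q + 1) = (ent I i).1 := by
        unfold LI
        rw [if_neg h1]
      rw [h2]
      exact LI_le hD i q
  · unfold UI
    rw [if_pos rfl]
  · unfold UI
    rw [if_neg (by omega : ¬ s + 1 = 0)]
    split_ifs with h1
    · exact Nat.zero_le _
    · refine min_le_min le_rfl (Nat.div_le_div_right ?_)
      have : s * (ent I i).1 ≤ (s + 1) * (ent I i).1 := Nat.mul_le_mul_right _ (by omega)
      omega
  · have h2 : LI I i (DI I) = (ent I i).1 := by
      unfold LI
      rw [if_neg (lt_irrefl _)]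
    rw [h2]
    unfold UI
    split_ifs with h1
    · exact Nat.zero_le _
    · exact min_le_left _ _
  · change _ = ∑ i ∈ range I.length, (ent I i).1
    refine Finset.sum_congr rfl (fun i _ => ?_)
    unfold LI
    rw [if_neg (lt_irrefl _)]

/-- an allowed sequence gives Hall's condition -/
theorem hall_of {x : ℕ → ℕ → ℕ} (h0 : ∀ i < I.length, x i 0 = 0)
    (hd : ∀ i < I.length, x i (DI I) = (ent I i).1) (hm : ∀ i < I.length, Monotone (x i))
    (hs : ∀ t ≤ DI I, ∑ i ∈ range I.length, x i t = t)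
    (hb : ∀ i < I.length, ∀ k, 1 ≤ k → k ≤ DI I → Ok I i k (x i k)) : Hall I := by
  intro s t hst ht
  have hlow : ∀ i < I.length, LI I i t ≤ x i t := by
    intro i hi
    rcases Nat.lt_or_ge t (DI I) with h1 | h1
    · rcases Nat.eq_zero_or_pos t with rfl | h2
      · rw [LI_iff hD h1, Nat.zero_mul]
        exact Nat.zero_le _
      · rw [LI_iff hD h1]
        exact (hb i hi t h2 h1.le).2
    · have : t = DI I := by omega
      rw [this, hd i hi]
      exact LI_le hD i _
  have hupp : ∀ i < I.length, x i s ≤ UI I i s := by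
    intro i hi
    unfold UI
    split_ifs with h1
    · rw [h1, h0 i hi]
    · refine le_min ?_ ?_
      · rw [← hd i hi]
        exact hm i hi (by omega)
      · rw [Nat.le_div_iff_mul_le hD, mul_comm]
        exact (hb i hi s (by omega) (by omega)).1
  calc ∑ i ∈ range I.length, (LI I i t - UI I i s)
      ≤ ∑ i ∈ range I.length, (x i t - x i s) := by
        refine Finset.sum_le_sum (fun i hi => ?_)
        have h1 := hlow i (mem_range.1 hi)
        have h2 := hupp i (mem_range.1 hi)
        omega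
    _ = t - s := by
        have h1 : ∑ i ∈ range I.length, (x i t - x i s) + ∑ i ∈ range I.length, x i s =
            ∑ i ∈ range I.length, x i t := by
          rw [← Finset.sum_add_distrib]
          refine Finset.sum_congr rfl (fun i hi => ?_)
          have := hm i (mem_range.1 hi) hst
          omega
        rw [hs s (by omega), hs t ht] at h1
        omega

/-- numbers within the bounds are allowed -/
theorem ok_of_bounds {i k x : ℕ} (hk1 : 1 ≤ k) (hk : k ≤ DI I)
    (h1 : LI I i k ≤ x) (h2 : x ≤ UI I i k) : Ok I i k x := by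
  unfold UI at h2
  rw [if_neg (by omega)] at h2
  constructor
  · have := (Nat.le_div_iff_mul_le hD).1 (h2.trans (min_le_right _ _))
    rw [mul_comm]
    exact this
  · rcases Nat.lt_or_ge k (DI I) with h3 | h3
    · exact (LI_iff hD h3).1 h1
    · have hkD : k = DI I := by omega
      have : (ent I i).1 ≤ x := by
        unfold LI at h1
        rwa [if_neg (by omega)] at h1
      rw [hkD]
      exact (Nat.mul_le_mul_left _ this).trans (Nat.le_add_right _ _)

end inst

/-- Hall's condition is monotone -/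
theorem hall_mono {I I' : WL} (hl : I.length = I'.length) (h1 : ∀ i, (ent I i).1 = (ent I' i).1)
    (h2 : ∀ i, (ent I i).2.1 ≤ (ent I' i).2.1) (h3 : ∀ i, (ent I i).2.2 ≤ (ent I' i).2.2)
    (hH : Hall I) : Hall I' := by
  have hD : DI I = DI I' := by
    unfold DI
    rw [hl]
    exact Finset.sum_congr rfl (fun i _ => h1 i)
  intro s t hst ht
  rw [← hD] at ht
  rw [← hl]
  refine le_trans (Finset.sum_le_sum (fun i _ => ?_)) (hH s t hst ht)
  have e1 : LI I' i t ≤ LI I i t := by
    unfold LI
    rw [← hD, ← h1 i]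
    split_ifs
    · apply Nat.div_le_div_right
      have := h2 i
      omega
    · exact le_rfl
  have e2 : UI I i s ≤ UI I' i s := by
    unfold UI
    rw [← hD, ← h1 i]
    split_ifs
    · exact le_rfl
    · refine min_le_min le_rfl (Nat.div_le_div_right ?_)
      have := h3 i
      omega
  omega

/-! ### Sequences -/

section seqs

variable {I : WL} {n : ℕ} (hl : I.length = n) (hD : 0 < DI I)

include hl

theorem total_eq_DI {d : Fin n → ℕ} (hd : ∀ i : Fin n, d i = (ent I i).1) : total d = DI I := by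
  unfold total DI
  rw [hl, Finset.sum_range]
  exact Finset.sum_congr rfl (fun i _ => hd i)

include hD

/-- every allowed sequence gives Hall's condition -/
theorem hall_of_seq {d : Fin n → ℕ} (hd : ∀ i : Fin n, d i = (ent I i).1) {S : ℕ → Fin n}
    (hS : IsSeq d S)
    (h : ∀ i : Fin n, ∀ k, 1 ≤ k → k ≤ DI I → Ok I i k (produced S i k)) : Hall I := by
  have hT := total_eq_DI hl hd
  refine hall_of hD (x := fun i t => if hi : i < n then produced S ⟨i, hi⟩ t else 0)
    (fun i hi => ?_) (fun i hi => ?_) (fun i hi => ?_) (fun t ht => ?_) (fun i hi k hk1 hk => ?_)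
  · rw [hl] at hi
    simp only [hi, dif_pos]
    simp [produced]
  · rw [hl] at hi
    simp only [hi, dif_pos]
    have h1 := hS ⟨i, hi⟩
    rw [hT] at h1
    have h2 := hd ⟨i, hi⟩
    simp only at h2
    rw [← h2]
    exact h1
  · rw [hl] at hi
    intro s t hst
    simp only [hi, dif_pos]
    unfold produced
    exact card_le_card (filter_subset_filter _ (Icc_subset_Icc le_rfl hst))
  · rw [hl, Finset.sum_range]
    have h1 := sum_produced S t
    refine Eq.trans (Finset.sum_congr rfl (fun i _ => ?_)) h1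
    simp only [i.isLt, dif_pos]
  · rw [hl] at hi
    simp only [hi, dif_pos]
    exact h ⟨i, hi⟩ k hk1 hk

omit hl hD in
/-- counting positions of a model -/
theorem produced_eq {n : ℕ} {S : ℕ → Fin n} {c : ℕ → ℕ} {D : ℕ}
    (hS : ∀ k, 1 ≤ k → k ≤ D → (S k : ℕ) = c (k - 1) % n) (i : Fin n) {t : ℕ} (ht : t ≤ D) :
    produced S i t = ((range t).filter (fun k => c k % n = i)).card := by
  unfold produced
  refine Finset.card_bij' (fun k _ => k - 1) (fun k _ => k + 1) ?_ ?_ ?_ ?_
  · intro k hk
    rw [mem_filter, mem_Icc] at hk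
    rw [mem_filter, mem_range]
    refine ⟨by omega, ?_⟩
    rw [← hS k hk.1.1 (by omega), hk.2]
  · intro k hk
    rw [mem_filter, mem_range] at hk
    rw [mem_filter, mem_Icc]
    refine ⟨⟨by omega, by omega⟩, Fin.ext ?_⟩
    rw [hS (k + 1) (by omega) (by omega), Nat.add_sub_cancel, hk.2]
  · intro k hk
    rw [mem_filter, mem_Icc] at hk
    omega
  · intro k _
    omega

/-- the sequence of the queue is allowed -/
theorem queue_ok (hn : 0 < n) {d : Fin n → ℕ} (hd : ∀ i : Fin n, d i = (ent I i).1) (hH : Hall I)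
    {S : ℕ → Fin n} (hS : ∀ k, 1 ≤ k → k ≤ DI I →
      (S k : ℕ) = cls (arr n (LI I) (UI I)) (k - 1) % n) :
    IsSeq d S ∧ ∀ i : Fin n, ∀ k, 1 ≤ k → k ≤ DI I → Ok I i k (produced S i k) := by
  have W := windows hD (by rw [hl]; exact hn) hH
  rw [hl] at W
  have hb : ∀ i : Fin n, ∀ t ≤ DI I,
      LI I i t ≤ produced S i t ∧ produced S i t ≤ UI I i t := by
    intro i t ht
    rw [produced_eq hS i ht]
    exact window_bounds W i i.isLt ht
  refine ⟨fun i => ?_, fun i k hk1 hk => ok_of_bounds hD hk1 hk (hb i k hk).1 (hb i k hk).2⟩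
  rw [total_eq_DI hl hd]
  have h1 := hb i (DI I) le_rfl
  have h2 : LI I i (DI I) = (ent I i).1 := by
    unfold LI
    rw [if_neg (lt_irrefl _)]
  have h3 : UI I i (DI I) ≤ (ent I i).1 := by
    unfold UI
    rw [if_neg (by omega)]
    exact min_le_left _ _
  rw [hd i]
  change produced S i (DI I) = _
  omega

end seqs

/-! ### Real deviations -/

/-- the deviation is at most `β` if and only if the number of copies is allowed -/
theorem le_iff_ok {D d lag lead x k : ℕ} (hD : 0 < D) (hx : x ≤ D) (hk : k ≤ D) (hd : d ≤ D)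
    {f : ℝ → ℝ} {β : ℝ} (h1 : ∀ z ≤ D * D, f (-((z : ℝ) / D)) ≤ β ↔ z ≤ lag)
    (h2 : ∀ z ≤ D * D, f ((z : ℝ) / D) ≤ β ↔ z ≤ lead) :
    f ((x : ℝ) - k * ((d : ℝ) / D)) ≤ β ↔ D * x ≤ k * d + lead ∧ k * d ≤ D * x + lag := by
  have hD' : (0 : ℝ) < D := by exact_mod_cast hD
  have hkd : k * d ≤ D * D := Nat.mul_le_mul hk hd
  have hDx : D * x ≤ D * D := Nat.mul_le_mul_left _ hx
  rcases le_total (k * d) (D * x) with h | h
  · have e : (x : ℝ) - k * ((d : ℝ) / D) = ((D * x - k * d : ℕ) : ℝ) / D := by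
      rw [Nat.cast_sub h]
      push_cast
      field_simp
    rw [e, h2 _ (by omega)]
    omega
  · have e : (x : ℝ) - k * ((d : ℝ) / D) = -(((k * d - D * x : ℕ) : ℝ) / D) := by
      rw [Nat.cast_sub h]
      push_cast
      field_simp
      ring
    rw [e, h1 _ (by omega)]
    omega

/-- every deviation is the value at a multiple of `1 / D` -/
theorem dev_form {n : ℕ} {d : Fin n → ℕ} (hD : 0 < total d) (F : Fin n → ℝ → ℝ) {S : ℕ → Fin n}
    (i : Fin n) {k : ℕ} (hk : k ∈ Icc 1 (total d)) :
    ∃ z ≤ total d * total d, dev d F S i k = F i ((z : ℝ) / total d) ∨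
      dev d F S i k = F i (-((z : ℝ) / total d)) := by
  have hD' : (0 : ℝ) < total d := by exact_mod_cast hD
  rw [mem_Icc] at hk
  have hd : d i ≤ total d := Finset.single_le_sum (f := d) (fun _ _ => Nat.zero_le _) (mem_univ i)
  have hx : produced S i k ≤ total d := (produced_le S i k).trans hk.2
  have hkd : k * d i ≤ total d * total d := Nat.mul_le_mul hk.2 hd
  have hDx : total d * produced S i k ≤ total d * total d := Nat.mul_le_mul_left _ hx
  unfold dev
  rcases le_total (k * d i) (total d * produced S i k) with h | h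
  · refine ⟨total d * produced S i k - k * d i, by omega, Or.inl ?_⟩
    congr 1
    rw [Nat.cast_sub h]
    push_cast
    field_simp
  · refine ⟨k * d i - total d * produced S i k, by omega, Or.inr ?_⟩
    congr 1
    rw [Nat.cast_sub h]
    push_cast
    field_simp
    ring

/-- the maximum deviation is attained -/
theorem maxDev_attained {n : ℕ} (hn : 0 < n) {d : Fin n → ℕ} (hD : 0 < total d)
    (F : Fin n → ℝ → ℝ) (S : ℕ → Fin n) :
    (∃ i, ∃ k ∈ Icc 1 (total d), maxDeviation d F S = dev d F S i k) ∧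
    ∀ i, ∀ k ∈ Icc 1 (total d), dev d F S i k ≤ maxDeviation d F S := by
  have e : {y : ℝ | ∃ i, ∃ k ∈ Icc 1 (total d), y = dev d F S i k} =
      (fun p : Fin n × ℕ => dev d F S p.1 p.2) ''
        ((univ ×ˢ Icc 1 (total d) : Finset (Fin n × ℕ)) : Set _) := by
    ext y
    constructor
    · rintro ⟨i, k, hk, rfl⟩
      exact ⟨(i, k), by simpa using hk, rfl⟩
    · rintro ⟨⟨i, k⟩, hk, rfl⟩
      exact ⟨i, k, by simpa using hk, rfl⟩
  have hfin : {y : ℝ | ∃ i, ∃ k ∈ Icc 1 (total d), y = dev d F S i k}.Finite := by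
    rw [e]
    exact (Finset.finite_toSet _).image _
  have hne : {y : ℝ | ∃ i, ∃ k ∈ Icc 1 (total d), y = dev d F S i k}.Nonempty :=
    ⟨_, ⟨0, hn⟩, 1, mem_Icc.2 ⟨le_rfl, hD⟩, rfl⟩
  unfold maxDeviation
  exact ⟨hne.csSup_mem hfin, fun i k hk => le_csSup hfin.bddAbove ⟨i, k, hk, rfl⟩⟩

end Pool.Agent.JIT.Gen
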