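import Pool.Agent.Lib_MP_033923_np.Search
import Pool.Agent.Lib_MP_033923_np.InstFP
import Pool.Agent.Lib_MP_033923_np.GWin

set_option autoImplicit false

/-!
# With an oracle for NP the sequence of the queue can be computed in polynomial time
-/

namespace Pool.Agent.JIT.Gen

open Pool.Agent.PartSep Pool.Agent.PartSep.TM Pool.Agent.PartSep.TM.Rep Pool.Agent.PartSep.CL
  Pool.Agent.Lib_MP_8cd8c6_lc N487b59b3

set_option synthInstance.maxSize 2000

variable {E F G : Type} [Rep E] [Rep F] [Rep G]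

/-- a list of triples of binary numbers as a list of triples -/
def toI (l : List TB) : WL := l.map ofTB

theorem length_toI (l : List TB) : (toI l).length = l.length := by simp [toI]

theorem ent_toI (l : List TB) (i : ℕ) : ent (toI l) i = ofTB (l[i]?.getD (⟨0⟩, (⟨0⟩, ⟨0⟩))) := by
  unfold ent toI
  rw [List.getElem?_map]
  cases l[i]? <;> rfl

theorem fpb_of {f : E → Bi} (hf : FP f) : FPB (fun x => (f x).v) := hf

section windows

variable {l : E → List TB} (hl : FP l)

include hl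

theorem fp_ent {i : E → ℕ} (hi : FP i) :
    FP (fun x => (l x)[i x]?.getD (⟨0⟩, (⟨0⟩, ⟨0⟩))) := FP.getE hl hi _

theorem fpb_ent1 {i : E → ℕ} (hi : FP i) : FPB (fun x => (ent (toI (l x)) (i x)).1) :=
  (FP.comp FP.fst (fp_ent hl hi)).congr (fun x => by simp only [ent_toI]; rfl)

theorem fpb_ent2 {i : E → ℕ} (hi : FP i) : FPB (fun x => (ent (toI (l x)) (i x)).2.1) :=
  (FP.comp FP.fst (FP.comp FP.snd (fp_ent hl hi))).congr (fun x => by simp only [ent_toI]; rfl)

theorem fpb_ent3 {i : E → ℕ} (hi : FP i) : FPB (fun x => (ent (toI (l x)) (i x)).2.2) :=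
  (FP.comp FP.snd (FP.comp FP.snd (fp_ent hl hi))).congr (fun x => by simp only [ent_toI]; rfl)

theorem fp_len : FP (fun x => (toI (l x)).length) :=
  (FP.lengthE hl).congr (fun _ => (length_toI _).symm)

theorem fpb_DI : FPB (fun x => DI (toI (l x))) := by
  unfold DI
  exact fp_sumRange (fp_len hl) (g := fun y : E × ℕ => (⟨(ent (toI (l y.1)) y.2).1⟩ : Bi))
    (fpb_ent1 (FP.comp hl FP.fst) FP.snd)

theorem fpb_LI {q : E → ℕ} {i : E → ℕ} (hi : FP i) (hq : FPB q) :
    FPB (fun x => LI (toI (l x)) (i x) (q x)) := by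
  unfold LI
  exact fpb_ite (fp_lt hq (fpb_DI hl))
    (fp_divB (fp_addB (fp_subB (fp_mulB hq (fpb_ent1 hl hi)) (fpb_ent2 hl hi))
      (fp_subB (fpb_DI hl) (fpb_const 1))) (fpb_DI hl)) (fpb_ent1 hl hi)

theorem fpb_UI {s : E → ℕ} {i : E → ℕ} (hi : FP i) (hs : FPB s) :
    FPB (fun x => UI (toI (l x)) (i x) (s x)) := by
  unfold UI
  exact fpb_ite (fp_isZero hs) (fpb_const 0) (fp_min (fpb_ent1 hl hi)
    (fp_divB (fp_addB (fp_mulB hs (fpb_ent1 hl hi)) (fpb_ent3 hl hi)) (fpb_DI hl)))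

theorem fpb_arr {π s : E → ℕ} (hπ : FPB π) (hs : FPB s) :
    FPB (fun x => arr (toI (l x)).length (LI (toI (l x))) (UI (toI (l x))) (π x) (s x)) := by
  unfold arr
  have hn : FPB (fun x => (toI (l x)).length) := fp_ofNat (fp_len hl)
  refine fp_sumRange (fp_len hl) (g := fun y : E × ℕ => (⟨min (LI (toI (l y.1)) y.2
    (π y.1 / (toI (l y.1)).length + if y.2 < π y.1 % (toI (l y.1)).length then 1 else 0))
      (UI (toI (l y.1)) y.2 (s y.1))⟩ : Bi)) ?_
  have hl' : FP (fun y : E × ℕ => l y.1) := FP.comp hl FP.fst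
  have hπ' : FPB (fun y : E × ℕ => π y.1) := fpb_comp hπ FP.fst
  have hs' : FPB (fun y : E × ℕ => s y.1) := fpb_comp hs FP.fst
  have hn' : FPB (fun y : E × ℕ => (toI (l y.1)).length) := fpb_comp hn FP.fst
  refine fp_min (fpb_LI hl' FP.snd (fp_addB (fp_divB hπ' hn') ?_)) (fpb_UI hl' FP.snd hs')
  exact fpb_ite (fp_lt (fp_ofNat FP.snd) (fp_mod hπ' hn')) (fpb_const 1) (fpb_const 0)

theorem fpb_hallSum {s t : E → ℕ} (hs : FPB s) (ht : FPB t) :
    FPB (fun x => ∑ i ∈ Finset.range (toI (l x)).length,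
      (LI (toI (l x)) i (t x) - UI (toI (l x)) i (s x))) := by
  have hl' : FP (fun y : E × ℕ => l y.1) := FP.comp hl FP.fst
  exact fp_sumRange (fp_len hl) (g := fun y : E × ℕ => (⟨LI (toI (l y.1)) y.2 (t y.1) -
    UI (toI (l y.1)) y.2 (s y.1)⟩ : Bi))
    (fp_subB (fpb_LI hl' FP.snd (fpb_comp ht FP.fst)) (fpb_UI hl' FP.snd (fpb_comp hs FP.fst)))

end windows

/-! ### The functions of the algorithm -/

/-- windows, a class and a time -/
abbrev X2 := List TB × (Bi × Bi)

/-- the arrivals -/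
def arrX (y : X2) : ℕ :=
  arr (toI y.1).length (LI (toI y.1)) (UI (toI y.1)) y.2.1.v y.2.2.v

theorem fpb_arrX : FPB arrX :=
  fpb_arr FP.fst (fpb_of (FP.comp FP.fst FP.snd)) (fpb_of (FP.comp FP.snd FP.snd))

/-- `A π s + (t - s) ≤ v` -/
def relS (y : (X2 × Bi) × Bi) : Bool :=
  decide (arrX (y.1.1.1, (y.1.1.2.1, y.2)) + (y.1.1.2.2.v - y.2.v) ≤ y.1.2.v)

theorem fp_relS : FP relS := by
  unfold relS
  have h1 : FP (fun y : (X2 × Bi) × Bi => ((y.1.1.1, (y.1.1.2.1, y.2)) : X2)) :=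
    FP.pair (FP.comp FP.fst (FP.comp FP.fst FP.fst))
      (FP.pair (FP.comp FP.fst (FP.comp FP.snd (FP.comp FP.fst FP.fst))) FP.snd)
  exact fp_le (fp_addB (fpb_comp fpb_arrX h1)
    (fp_subB (fpb_of (FP.comp FP.snd (FP.comp FP.snd (FP.comp FP.fst FP.fst)))) (fpb_of FP.snd)))
    (fpb_of (FP.comp FP.snd FP.fst))

open Classical in
/-- the number of served jobs is at most `v` -/
noncomputable def servQ (y : X2 × Bi) : Bool :=
  decide (∃ s ≤ y.1.2.2.v, relS (y, ⟨s⟩) = true)

/-- the number of served jobs -/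
noncomputable def servX (x : X2) : ℕ := least servQ (fun x => x.2.2) x

/-- the slot serves a class up to `π` -/
noncomputable def clsQ (y : (List TB × Bi) × Bi) : Bool :=
  decide (servX (y.1.1, (⟨y.2.v + 1⟩, ⟨y.1.2.v - 1⟩)) <
    servX (y.1.1, (⟨y.2.v + 1⟩, ⟨y.1.2.v⟩)))

/-- the class served in the slot `k` -/
noncomputable def clsX (x : List TB × Bi) : ℕ :=
  least clsQ (fun x => (⟨(toI x.1).length * DI (toI x.1)⟩ : Bi)) x

/-- the model at position `k` -/
noncomputable def modX (x : List TB × Bi) : ℕ := clsX x % (toI x.1).length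

/-- the pair coded by `v` violates Hall's condition -/
def relH (y : List TB × Bi) : Bool :=
  decide (y.2.v / (DI (toI y.1) + 1) ≤ y.2.v % (DI (toI y.1) + 1)) &&
  (decide (y.2.v % (DI (toI y.1) + 1) - y.2.v / (DI (toI y.1) + 1) <
    ∑ i ∈ Finset.range (toI y.1).length,
      (LI (toI y.1) i (y.2.v % (DI (toI y.1) + 1)) -
        UI (toI y.1) i (y.2.v / (DI (toI y.1) + 1)))))

theorem fp_relH : FP relH := by
  unfold relH
  have hl : FP (fun y : List TB × Bi => y.1) := FP.fst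
  have hv : FPB (fun y : List TB × Bi => y.2.v) := fpb_of FP.snd
  have hD1 : FPB (fun y : List TB × Bi => DI (toI y.1) + 1) := fp_addB (fpb_DI hl) (fpb_const 1)
  have hs := fp_divB hv hD1
  have ht : FPB (fun y : List TB × Bi => y.2.v % (DI (toI y.1) + 1)) := fp_mod hv hD1
  exact FP.and (fp_le hs ht) (fp_lt (fp_subB ht hs) (fpb_hallSum hl hs ht))

open Classical in
/-- Hall's condition -/
noncomputable def hallQ (y : List TB) : Bool :=
  !decide (∃ v ≤ (DI (toI y) + 1) * (DI (toI y) + 1), relH (y, ⟨v⟩) = true)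

section complexity

variable (hPNP : N68a2faeb.NP ⊆ N68a2faeb.P)

include hPNP

theorem fp_servQ : FP servQ := by
  unfold servQ
  exact fp_exists hPNP (E := X2 × Bi) (B := fun y => y.1.2.2) fp_relS
    (FP.comp FP.snd (FP.comp FP.snd FP.fst))

theorem fpb_servX : FPB servX := by
  unfold servX
  exact fp_least (fp_servQ hPNP) (FP.comp FP.snd FP.snd)

theorem fp_clsQ : FP clsQ := by
  unfold clsQ
  have h0 : FP (fun y : (List TB × Bi) × Bi => y.1.1) := FP.comp FP.fst FP.fst
  have h1 : FP (fun y : (List TB × Bi) × Bi => (⟨y.2.v + 1⟩ : Bi)) := fp_succ FP.snd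
  have h2 : FP (fun y : (List TB × Bi) × Bi => (⟨y.1.2.v - 1⟩ : Bi)) :=
    fp_pred (fpb_of (FP.comp FP.snd FP.fst))
  have h3 : FP (fun y : (List TB × Bi) × Bi => (⟨y.1.2.v⟩ : Bi)) :=
    fpb_of (FP.comp FP.snd FP.fst)
  exact fp_lt (fpb_comp (fpb_servX hPNP) (FP.pair h0 (FP.pair h1 h2)))
    (fpb_comp (fpb_servX hPNP) (FP.pair h0 (FP.pair h1 h3)))

theorem fpb_clsX : FPB clsX := by
  unfold clsX
  have hl : FP (fun x : List TB × Bi => x.1) := FP.fst
  exact fp_least (fp_clsQ hPNP) (fp_mulB (fp_ofNat (fp_len hl)) (fpb_DI hl))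

theorem fpb_modX : FPB modX := by
  unfold modX
  have hl : FP (fun x : List TB × Bi => x.1) := FP.fst
  exact fp_mod (fpb_clsX hPNP) (fp_ofNat (fp_len hl))

theorem fp_hallQ : FP hallQ := by
  unfold hallQ
  have hD1 : FPB (fun y : List TB => DI (toI y) + 1) := fp_addB (fpb_DI FP.id) (fpb_const 1)
  exact FP.not (fp_exists hPNP (E := List TB)
    (B := fun y => (⟨(DI (toI y) + 1) * (DI (toI y) + 1)⟩ : Bi)) fp_relH (fp_mulB hD1 hD1))

end complexity

/-! ### Correctness -/

theorem hallQ_iff (l : List TB) : hallQ l = true ↔ Hall (toI l) := by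
  unfold hallQ
  rw [Bool.not_eq_true', decide_eq_false_iff_not]
  simp only [relH, Bool.and_eq_true, decide_eq_true_eq]
  have hD1 : 0 < DI (toI l) + 1 := Nat.succ_pos _
  constructor
  · intro h s t hst ht
    by_contra hcon
    push Not at hcon
    refine h ⟨s * (DI (toI l) + 1) + t, ?_, ?_⟩
    · calc s * (DI (toI l) + 1) + t ≤ DI (toI l) * (DI (toI l) + 1) + (DI (toI l) + 1) :=
            Nat.add_le_add (Nat.mul_le_mul_right _ (by omega)) (by omega)
        _ = (DI (toI l) + 1) * (DI (toI l) + 1) := by ring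
    · have e1 : (s * (DI (toI l) + 1) + t) / (DI (toI l) + 1) = s := by
        rw [mul_comm, Nat.mul_add_div hD1, Nat.div_eq_of_lt (by omega), Nat.add_zero]
      have e2 : (s * (DI (toI l) + 1) + t) % (DI (toI l) + 1) = t := by
        rw [mul_comm, Nat.mul_add_mod, Nat.mod_eq_of_lt (by omega)]
      rw [e1, e2]
      exact ⟨hst, hcon⟩
  · rintro h ⟨v, -, h1, h2⟩
    have := h _ _ h1 (Nat.lt_succ_iff.1 (Nat.mod_lt v hD1))
    omega

section correct

variable {l : List TB} (hD : 0 < DI (toI l)) (hn : 0 < (toI l).length) (hH : Hall (toI l))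

include hD hn hH

theorem servX_eq (π t : ℕ) :
    servX (l, (⟨π⟩, ⟨t⟩)) = served (arr (toI l).length (LI (toI l)) (UI (toI l))) π t := by
  have hA := arrivals (windows hD hn hH)
  unfold servX
  refine least_eq (fun w => ?_) (served_le_time hA _ _)
  rw [served_iff hA]
  unfold servQ
  rw [decide_eq_true_eq]
  simp only [relS, decide_eq_true_eq, arrX]

theorem clsX_eq {k : ℕ} (hk1 : 1 ≤ k) (hk : k ≤ DI (toI l)) :
    clsX (l, ⟨k⟩) = cls (arr (toI l).length (LI (toI l)) (UI (toI l))) (k - 1) := by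
  have W := windows hD hn hH
  have hA := arrivals W
  have hbusy := served_busy W (show k - 1 < DI (toI l) by omega)
  have hk' : k - 1 + 1 = k := by omega
  unfold clsX
  refine least_eq (fun w => ?_) ?_
  · unfold clsQ
    rw [decide_eq_true_eq]
    simp only
    rw [servX_eq hD hn hH, servX_eq hD hn hH]
    have h1 := cls_spec hA hbusy (w + 1)
    rw [hk'] at h1
    rw [h1]
    split_ifs with h2
    · constructor
      · intro _; omega
      · intro _; omega
    · constructor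
      · intro h; omega
      · intro h; omega
  · simp only
    exact (cls_lt hA hbusy).le

end correct

/-- the sequence computed from windows which satisfy Hall's condition -/
theorem modX_spec {l : List TB} (hD : 0 < DI (toI l)) {n : ℕ} (hl : l.length = n) (hn : 0 < n)
    (hH : Hall (toI l)) {d : Fin n → ℕ} (hd : ∀ i : Fin n, d i = (ent (toI l) i).1) :
    ∃ S : ℕ → Fin n, (∀ k, modX (l, ⟨k⟩) = S k) ∧ IsSeq d S ∧
      ∀ i : Fin n, ∀ k, 1 ≤ k → k ≤ DI (toI l) → Ok (toI l) i k (produced S i k) := by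
  have hl' : (toI l).length = n := by rw [length_toI, hl]
  have hlt : ∀ k, modX (l, ⟨k⟩) < n := by
    intro k
    unfold modX
    simp only [hl']
    exact Nat.mod_lt _ hn
  refine ⟨fun k => ⟨modX (l, ⟨k⟩), hlt k⟩, fun k => rfl, ?_⟩
  refine queue_ok hl' hD hn hd hH (fun k hk1 hk => ?_)
  have h1 := clsX_eq hD (by rw [hl']; exact hn) hH hk1 hk
  simp only [modX]
  rw [h1, hl']

end Pool.Agent.JIT.Gen
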