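import Pool.Agent.Lib_MP_033923_np.GSpec
import Pool.Agent.Lib_MP_033923_np.RatCode

set_option autoImplicit false

/-!
# If P = NP then the maximum deviation problem has a polynomial time algorithm
-/

namespace Pool.Agent.JIT.Gen

open Pool.Agent.PartSep Pool.Agent.PartSep.TM Pool.Agent.PartSep.TM.Rep Pool.Agent.PartSep.CL
  Pool.Agent.Lib_MP_8cd8c6_lc N487b59b3 Finset

set_option synthInstance.maxSize 2000

variable {E F G : Type} [Rep E] [Rep F] [Rep G]

/-! ### Functions given by codes -/

/-- an entry of an instance -/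
def conv (p : List Bool × ℕ) : List Sym × Bi := (p.1.map bs, ⟨p.2⟩)

/-- parsing of an entry -/
def prsE (w : List Sym) : List Sym × Bi := (unb (undel w).1, ⟨valS (undel w).2⟩)

theorem prsE_code (p : List Bool × ℕ) : prsE ((bitEncode p).map bs) = conv p := by
  unfold prsE conv
  rw [bitEncode_prod, undel_del]
  simp only
  rw [unb_code, encode_nat, valS_digs]

theorem fp_prsE {w : E → List Sym} (hw : FP w) : FP (fun x => prsE (w x)) := by
  have h1 := fp_undel hw
  exact FP.pair (fp_unb (FP.comp FP.fst h1)) (fp_valS (FP.comp FP.snd h1))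

/-- parsing of an instance -/
def prsI (w : List Sym) : X0 := (splitB w).map prsE

theorem prsI_code (I : List (List Bool × ℕ)) : prsI ((bitEncode I).map bs) = I.map conv := by
  unfold prsI
  rw [bitEncode_list]
  have h : I.flatMap (fun a => del ((bitEncode a).map bs)) =
      (I.map (fun a => (bitEncode a).map bs)).flatMap del := by
    rw [List.flatMap_map]
  rw [h, splitB_flatMap, List.map_map]
  congr 1
  funext p
  exact prsE_code p

theorem fp_prsI {w : E → List Sym} (hw : FP w) : FP (fun x => prsI (w x)) :=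
  FP.mapE (FP.splitB hw) (g := fun y : E × List Sym => prsE y.2) (fp_prsE FP.snd)

/-- the data structure -/
noncomputable def buildG (ev : Ev) (I : List (List Bool × ℕ)) : List Bool :=
  (Cod.enc (outX ev (I.map conv))).map sb

/-- the query procedure -/
noncomputable def queryG (p : List Bool × ℕ) : ℕ := modX (Cod.dec (p.1.map bs), ⟨p.2⟩)

theorem poly_buildG (hPNP : N68a2faeb.NP ⊆ N68a2faeb.P) {ev : Ev} (hev : FP ev) :
    N68a2faeb.IsPolyTime (buildG ev) := by
  have h1 : FP (fun s : List Sym => prsI s) := fp_prsI FP.id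
  have h3 : FP (fun s : List Sym => bits (Cod.enc (outX ev (prsI s)))) :=
    fp_bits (FP.comp Cod.fenc (FP.comp (fp_outX hev hPNP) h1))
  refine FP.toTM2 (αΓ := Bool) (βΓ := Bool) bs sb bs sb_bs h3 (fun I => ?_)
  have e1 : prsI (((N487b59b3.toEncoding (α := List (List Bool × ℕ))).encode I).map bs) =
      I.map conv := prsI_code I
  have e2 : ((N487b59b3.toEncoding (α := List Bool)).encode (buildG ev I)).map bs =
      bits ((buildG ev I).map bs) := (bits_map_bs (buildG ev I)).symm
  rw [e1, e2]
  unfold buildG
  rw [Cod.bits]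

theorem poly_queryG (hPNP : N68a2faeb.NP ⊆ N68a2faeb.P) : N68a2faeb.IsPolyTime queryG := by
  have h1 : FP (fun s : List Sym => undel s) := fp_undel FP.id
  have h2 : FP (fun s : List Sym => ((Cod.dec (unb (undel s).1), ⟨valS (undel s).2⟩) :
      List TB × Bi)) :=
    FP.pair (FP.comp Cod.fdec (fp_unb (FP.comp FP.fst h1))) (fp_valS (FP.comp FP.snd h1))
  have h3 : FP (fun s : List Sym => digs (modX (Cod.dec (unb (undel s).1),
      ⟨valS (undel s).2⟩))) := FP.digs (fpb_comp (fpb_modX hPNP) h2)
  refine FP.toTM2 (αΓ := Bool) (βΓ := Bool) bs sb bs sb_bs h3 (fun p => ?_)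
  obtain ⟨u, k⟩ := p
  have e1 : ((N487b59b3.toEncoding (α := List Bool × ℕ)).encode (u, k)).map bs =
      del ((bitEncode u).map bs) ++ digs k := by
    rw [← encode_nat k]
    exact bitEncode_prod (u, k)
  have e2 : ((N487b59b3.toEncoding (α := ℕ)).encode (queryG (u, k))).map bs =
      digs (queryG (u, k)) := encode_nat _
  rw [e1, e2, undel_del]
  simp only
  rw [unb_code, valS_digs]
  rfl

/-- `buildG` and `queryG` solve the maximum deviation problem -/
theorem solves_G {F : List Bool → ℝ → ℝ} (hF : ∀ c, IsDevFun (F c)) {gv : List Sym → List Sym}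
    {val : List Bool × ℚ → ℚ} (hgv : ∀ x, gv ((bitEncode x).map bs) = (bitEncode (val x)).map bs)
    (hval : ∀ c (x : ℚ), F c (x : ℝ) = (val (c, x) : ℝ)) :
    SolvesMaxFam F (buildG (evOf gv)) queryG := by
  intro I hI hpos
  have hn : 0 < I.length := List.length_pos_iff.2 hI
  have e1 : I.map conv = L0 (fun i : Fin I.length => (I.get i).1.map bs)
      (fun i => (I.get i).2) := by
    unfold L0
    apply List.ext_getElem
    · simp
    · intro i h1 h2
      simp only [List.getElem_map, List.getElem_ofFn, List.get_eq_getElem]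
      rfl
  have hD : 0 < total (fun i : Fin I.length => (I.get i).2) :=
    Finset.sum_pos (fun i _ => hpos _ (List.get_mem I i)) ⟨⟨0, hn⟩, mem_univ _⟩
  have hev : ∀ (i : Fin I.length) (s : Bool) (p q : ℕ), 0 < q →
      0 < (evOf gv (((I.get i).1.map bs, s), ((⟨p⟩ : Bi), (⟨q⟩ : Bi)))).2.v ∧
      F (I.get i).1 (sg s ((p : ℝ) / q)) =
        rv (evOf gv (((I.get i).1.map bs, s), ((⟨p⟩ : Bi), (⟨q⟩ : Bi)))) := by
    intro i s p q hq
    rw [evOf_spec hgv _ s p hq]
    refine ⟨Rat.den_pos _, ?_⟩
    have h1 := hval (I.get i).1 (sgQ s ((p : ℚ) / q))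
    have h2 : ((sgQ s ((p : ℚ) / q) : ℚ) : ℝ) = sg s ((p : ℝ) / q) := by
      unfold sgQ sg
      split_ifs <;> push_cast <;> rfl
    rw [h2] at h1
    rw [h1]
    have h3 : (0 : ℝ) ≤ (val ((I.get i).1, sgQ s ((p : ℚ) / q)) : ℝ) := by
      rw [← h1]
      exact devFun_nonneg (hF _) _
    have h4 : (0 : ℚ) ≤ val ((I.get i).1, sgQ s ((p : ℚ) / q)) := by exact_mod_cast h3
    obtain ⟨v, hv⟩ : ∃ v, val ((I.get i).1, sgQ s ((p : ℚ) / q)) = v := ⟨_, rfl⟩
    rw [hv] at h4 ⊢
    unfold rv
    simp only
    have h5 : ((v.num.toNat : ℕ) : ℤ) = v.num := Int.toNat_of_nonneg (Rat.num_nonneg.2 h4)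
    have h6 : ((v.num.toNat : ℕ) : ℝ) = (v.num : ℝ) := by exact_mod_cast h5
    rw [h6]
    exact_mod_cast (Rat.num_div_den v).symm
  obtain ⟨S, hS1, hS2⟩ := outX_spec (ev := evOf gv) (fun i : Fin I.length => (I.get i).1.map bs)
    (fun i => (I.get i).2) (fun i => F (I.get i).1) (fun i => hF _) hev hD hn
  refine ⟨S, hS2, fun k _ => ?_⟩
  rw [← hS1 k]
  unfold queryG buildG
  simp only
  rw [Cod.bits, Cod.dec_enc, e1]

/-- If `NP ⊆ P` then the maximum deviation problem has a polynomial time algorithm for every
family of functions which can be evaluated in polynomial time. -/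
theorem alg_fam (hPNP : N68a2faeb.NP ⊆ N68a2faeb.P) {F : List Bool → ℝ → ℝ}
    (hF : ∀ c, IsDevFun (F c)) (hE : PolyEval F) :
    ∃ (build : List (List Bool × ℕ) → List Bool) (query : List Bool × ℕ → ℕ),
      PolyTimeAlg build query ∧ SolvesMaxFam F build query := by
  obtain ⟨val, hval, hv⟩ := hE
  obtain ⟨gv, hgv, hg⟩ := FP.ofTM2 hval
  exact ⟨buildG (evOf gv), queryG, ⟨poly_buildG hPNP (fp_evOf hgv), poly_queryG hPNP⟩,
    solves_G hF hg hv⟩

/-! ### Fixed functions -/

/-- the entry of model `i` -/
def entS (w : List Sym) (i : ℕ) : List Sym :=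
  del (codeB ((List.range i).flatMap (fun _ => [Sym.i]))) ++ ((splitB w)[i]?.getD [])

/-- the instance for functions given by codes -/
def toFam (w : List Sym) : List Sym :=
  (List.range (splitB w).length).flatMap (fun i => del (entS w i))

theorem fp_toFam {w : E → List Sym} (hw : FP w) : FP (fun x => toFam (w x)) := by
  unfold toFam entS
  have hs := FP.splitB hw
  have h1 : FP (fun y : E × ℕ => (List.range y.2).flatMap (fun _ => [Sym.i])) :=
    FP.flatMapS (FP.range FP.snd) (g := fun _ : (E × ℕ) × ℕ => [Sym.i]) (FP.const _)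
  exact FP.flatMapS (FP.range (FP.lengthE hs)) (g := fun y : E × ℕ =>
    del (del (codeB ((List.range y.2).flatMap (fun _ => [Sym.i]))) ++
      ((splitB (w y.1))[y.2]?.getD [])))
    (FP.del (FP.append (FP.del (fp_codeB h1)) (FP.getE (FP.comp hs FP.fst) FP.snd _)))

/-- the instance of a list of demands -/
def famI (d : List ℕ) : List (List Bool × ℕ) :=
  List.ofFn (fun i : Fin d.length => (List.replicate i true, d.get i))

theorem range_flatMap (i : ℕ) : (List.range i).flatMap (fun _ => [Sym.i]) =
    (List.replicate i true).map bs := by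
  rw [List.map_replicate]
  induction i with
  | zero => rfl
  | succ i ih =>
    rw [List.range_succ, List.flatMap_append, ih, List.replicate_succ']
    rfl

theorem toFam_code (d : List ℕ) : toFam ((bitEncode d).map bs) = (bitEncode (famI d)).map bs := by
  have h1 : splitB ((bitEncode d).map bs) = d.map digs := by
    rw [bitEncode_list]
    have h : d.flatMap (fun a => del ((bitEncode a).map bs)) = (d.map digs).flatMap del := by
      rw [List.flatMap_map]
      congr 1
      funext a
      rw [encode_nat]
    rw [h, splitB_flatMap]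
  rw [bitEncode_list (famI d)]
  unfold toFam famI
  rw [h1, List.length_map]
  rw [List.flatMap_def, List.flatMap_def]
  congr 1
  apply List.ext_getElem
  · simp
  · intro i h2 h3
    have hi : i < d.length := by simpa using h2
    simp only [List.getElem_map, List.getElem_range, List.getElem_ofFn]
    congr 1
    rw [bitEncode_prod]
    simp only
    unfold entS
    rw [range_flatMap, codeB_map, encode_nat, h1]
    congr 1
    rw [List.getElem?_map, List.getElem?_eq_getElem hi]
    rfl

/-- If `NP ⊆ P` then the maximum deviation problem has a polynomial time algorithm for every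
sequence of functions which can be evaluated in polynomial time. -/
theorem alg_seq (hPNP : N68a2faeb.NP ⊆ N68a2faeb.P) {F : ℕ → ℝ → ℝ}
    (hF : ∀ i, IsDevFun (F i)) (hE : PolyEvalSeq F) :
    ∃ (build : List ℕ → List Bool) (query : List Bool × ℕ → ℕ),
      PolyTimeAlg build query ∧ SolvesMaxSeq F build query := by
  obtain ⟨build, query, hp, hs⟩ := alg_fam hPNP (F := fun c => F c.length) (fun c => hF _) hE
  refine ⟨fun d => build (famI d), query, ⟨?_, hp.2⟩, ?_⟩
  · obtain ⟨gb, hgb, hb⟩ := FP.ofTM2 hp.1
    have h1 : FP (fun s : List Sym => gb (toFam s)) := FP.comp hgb (fp_toFam FP.id)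
    refine FP.toTM2 (αΓ := Bool) (βΓ := Bool) bs sb bs sb_bs h1 (fun d => ?_)
    have e1 : toFam (((N487b59b3.toEncoding (α := List ℕ)).encode d).map bs) =
        (bitEncode (famI d)).map bs := toFam_code d
    rw [e1]
    exact hb (famI d)
  · intro d hd hpos
    have hlen : (famI d).length = d.length := by
      unfold famI
      rw [List.length_ofFn]
    have hget : ∀ i : Fin (famI d).length, (famI d).get i =
        (List.replicate i true, d.get (i.cast hlen)) := by
      intro i
      unfold famI
      rw [List.get_ofFn]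
      rfl
    have hI : famI d ≠ [] := by
      intro h
      rw [h] at hlen
      exact hd (List.length_eq_zero_iff.1 hlen.symm)
    obtain ⟨S, hS, hq⟩ := hs (famI d) hI (fun p hp' => by
      obtain ⟨i, rfl⟩ := List.mem_iff_get.1 hp'
      rw [hget]
      exact hpos _ (List.get_mem d _))
    have hdem : (fun i : Fin (famI d).length => ((famI d).get i).2) =
        fun i => d.get (i.cast hlen) := by
      funext i
      rw [hget]
    have hfun : (fun i : Fin (famI d).length => F ((famI d).get i).1.length) =
        fun i : Fin (famI d).length => F (i : ℕ) := by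
      funext i
      rw [hget, List.length_replicate]
    rw [hdem] at hS hq
    rw [hfun] at hS
    clear hdem hfun hget
    -- transport along the cast
    revert S hS hq
    generalize (famI d).length = m at hlen
    subst hlen
    intro S hS hq
    exact ⟨S, hS, hq⟩

end Pool.Agent.JIT.Gen
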