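import Pool.Agent.Lib_MP_033923_np.GAlg
import Pool.Agent.Lib_MP_033923_np.Seqs

set_option autoImplicit false

/-!
# The data structure for the maximum deviation problem, with an evaluator for the deviation functions
-/

namespace Pool.Agent.JIT.Gen

open Pool.Agent.PartSep Pool.Agent.PartSep.TM Pool.Agent.PartSep.TM.Rep Pool.Agent.PartSep.CL
  Pool.Agent.Lib_MP_8cd8c6_lc N487b59b3

set_option synthInstance.maxSize 2000

variable {E F G : Type} [Rep E] [Rep F] [Rep G]

/-! ### Monotonicity of deviation functions -/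

/-- a number with a sign -/
def sg (s : Bool) (x : ℝ) : ℝ := if s then x else -x

theorem sg_mul (s : Bool) (t x : ℝ) : sg s (t * x) = t * sg s x := by
  unfold sg
  split_ifs <;> ring

theorem devFun_nonneg {f : ℝ → ℝ} (hf : IsDevFun f) (x : ℝ) : 0 ≤ f x := by
  by_cases h : x = 0
  · rw [h, hf.2.1]
  · exact (hf.2.2 x h).le

theorem ray_mono {f : ℝ → ℝ} (hf : IsDevFun f) {t : ℝ} (ht0 : 0 ≤ t) (ht1 : t ≤ 1) (x : ℝ) :
    f (t * x) ≤ f x := by
  have h1 := hf.1.2 (Set.mem_univ x) (Set.mem_univ 0) ht0 (sub_nonneg.2 ht1) (by ring)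
  simp only [smul_eq_mul, mul_zero, add_zero, hf.2.1] at h1
  have h2 := devFun_nonneg hf x
  nlinarith

theorem ray_mono_nat {f : ℝ → ℝ} (hf : IsDevFun f) (s : Bool) {a b : ℕ} (T : ℕ) (h : a ≤ b) :
    f (sg s ((a : ℝ) / T)) ≤ f (sg s ((b : ℝ) / T)) := by
  rcases Nat.eq_zero_or_pos b with hb | hb
  · have : a = 0 := by omega
    rw [this, hb]
  · have hb' : (0 : ℝ) < b := by exact_mod_cast hb
    have hab : (a : ℝ) ≤ b := by exact_mod_cast h
    have e : (a : ℝ) / T = (a : ℝ) / b * ((b : ℝ) / T) := by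
      field_simp
    rw [e, sg_mul]
    exact ray_mono hf (by positivity) ((div_le_one hb').2 hab) _

/-! ### Rational numbers as pairs -/

/-- comparison of `a.1 / a.2` and `b.1 / b.2` -/
def rle (a b : Bi × Bi) : Bool := decide (a.1.v * b.2.v ≤ b.1.v * a.2.v)

/-- the value -/
noncomputable def rv (a : Bi × Bi) : ℝ := (a.1.v : ℝ) / a.2.v

theorem rle_iff {a b : Bi × Bi} (ha : 0 < a.2.v) (hb : 0 < b.2.v) :
    rle a b = true ↔ rv a ≤ rv b := by
  unfold rle rv
  have ha' : (0 : ℝ) < a.2.v := by exact_mod_cast ha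
  have hb' : (0 : ℝ) < b.2.v := by exact_mod_cast hb
  rw [decide_eq_true_eq, div_le_div_iff₀ ha' hb']
  exact_mod_cast Iff.rfl

theorem fp_rle {f g : E → Bi × Bi} (hf : FP f) (hg : FP g) : FP (fun x => rle (f x) (g x)) := by
  unfold rle
  exact fp_le (fp_mulB (fpb_of (FP.comp FP.fst hf)) (fpb_of (FP.comp FP.snd hg)))
    (fp_mulB (fpb_of (FP.comp FP.fst hg)) (fpb_of (FP.comp FP.snd hf)))

/-! ### The functions of the algorithm -/

/-- instances: codes and demands -/
abbrev X0 := List (List Sym × Bi)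

/-- the total demand -/
def totL (l : X0) : ℕ := ((l.map Prod.snd).map Bi.v).sum

theorem fpb_totL {l : E → X0} (hl : FP l) : FPB (fun x => totL (l x)) :=
  fp_sum (FP.mapE hl (g := fun y : E × (List Sym × Bi) => y.2.2) (FP.comp FP.snd FP.snd))

/-- evaluators: from the code, the sign and the numbers `p, q` to a fraction -/
abbrev Ev := (List Sym × Bool) × (Bi × Bi) → Bi × Bi

variable (ev : Ev)

def slackQ (y : ((X0 × (Bi × Bi)) × (List Sym × Bool)) × Bi) : Bool :=
  decide (totL y.1.1.1 * totL y.1.1.1 ≤ y.2.v) ||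
    !(rle (ev (y.1.2, (⟨y.2.v + 1⟩, ⟨totL y.1.1.1⟩))) y.1.1.2)

/-- the largest number of steps `1 / D` for which the value is at most the bound -/
def slackX (x : (X0 × (Bi × Bi)) × (List Sym × Bool)) : ℕ :=
  least (slackQ ev) (fun x => (⟨totL x.1.1 * totL x.1.1⟩ : Bi)) x

/-- the windows of a bound -/
def winX (x : X0 × (Bi × Bi)) : List TB :=
  x.1.map (fun p => (p.2, (⟨slackX ev (x, (p.1, false))⟩, ⟨slackX ev (x, (p.1, true))⟩)))

noncomputable def bestQ (y : (X0 × (List Sym × Bool)) × Bi) : Bool :=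
  hallQ (winX ev (y.1.1, ev (y.1.2, (y.2, ⟨totL y.1.1⟩))))

/-- the least feasible number of steps on a ray -/
noncomputable def zX (x : X0 × (List Sym × Bool)) : ℕ :=
  least (bestQ ev) (fun x => (⟨totL x.1 * totL x.1⟩ : Bi)) x

noncomputable def valX (x : X0 × (List Sym × Bool)) : Bi × Bi :=
  ev (x.2, (⟨zX ev x⟩, ⟨totL x.1⟩))

noncomputable def selX (x : X0 × (List Sym × Bool)) : List (Bi × Bi) :=
  if hallQ (winX ev (x.1, valX ev x)) then [valX ev x] else []

/-- the feasible values found -/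
noncomputable def valsX (l : X0) : List (Bi × Bi) :=
  l.flatMap (fun p => selX ev (l, (p.1, false)) ++ selX ev (l, (p.1, true)))

noncomputable def minsX (l : X0) : List (Bi × Bi) :=
  (valsX ev l).flatMap (fun v => if (valsX ev l).all (fun w => rle v w) then [v] else [])

/-- the least of them -/
noncomputable def bestX (l : X0) : Bi × Bi := (minsX ev l)[0]?.getD (⟨0⟩, ⟨1⟩)

/-- the data structure -/
noncomputable def outX (l : X0) : List TB := winX ev (l, bestX ev l)

section complexity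

variable {ev : Ev} (hev : FP ev)

include hev

theorem fp_slackQ : FP (slackQ ev) := by
  unfold slackQ
  have hT : FPB (fun y : ((X0 × (Bi × Bi)) × (List Sym × Bool)) × Bi => totL y.1.1.1) :=
    fpb_totL (FP.comp FP.fst (FP.comp FP.fst FP.fst))
  exact FP.or (fp_le (fp_mulB hT hT) (fpb_of FP.snd))
    (FP.not (fp_rle (FP.comp hev (FP.pair (FP.comp FP.snd FP.fst) (FP.pair (fp_succ FP.snd) hT)))
      (FP.comp FP.snd (FP.comp FP.fst FP.fst))))

theorem fpb_slackX : FPB (slackX ev) := by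
  unfold slackX
  have hT : FPB (fun x : (X0 × (Bi × Bi)) × (List Sym × Bool) => totL x.1.1) :=
    fpb_totL (FP.comp FP.fst FP.fst)
  exact fp_least (fp_slackQ hev) (fp_mulB hT hT)

theorem fp_winX : FP (winX ev) := by
  unfold winX
  have hs := fpb_slackX hev
  exact FP.mapE FP.fst
    (g := fun y : (X0 × (Bi × Bi)) × (List Sym × Bi) => ((y.2.2,
      (⟨slackX ev (y.1, (y.2.1, false))⟩, ⟨slackX ev (y.1, (y.2.1, true))⟩)) : TB))
    (FP.pair (FP.comp FP.snd FP.snd) (FP.pair
      (fpb_comp hs (FP.pair FP.fst (FP.pair (FP.comp FP.fst FP.snd) (FP.const false))))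
      (fpb_comp hs (FP.pair FP.fst (FP.pair (FP.comp FP.fst FP.snd) (FP.const true))))))

variable (hPNP : N68a2faeb.NP ⊆ N68a2faeb.P)

include hPNP

theorem fp_bestQ : FP (bestQ ev) := by
  unfold bestQ
  have hT : FPB (fun y : (X0 × (List Sym × Bool)) × Bi => totL y.1.1) :=
    fpb_totL (FP.comp FP.fst FP.fst)
  exact FP.comp (fp_hallQ hPNP) (FP.comp (fp_winX hev) (FP.pair (FP.comp FP.fst FP.fst)
    (FP.comp hev (FP.pair (FP.comp FP.snd FP.fst) (FP.pair FP.snd hT)))))

theorem fpb_zX : FPB (zX ev) := by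
  unfold zX
  have hT : FPB (fun x : X0 × (List Sym × Bool) => totL x.1) := fpb_totL FP.fst
  exact fp_least (fp_bestQ hev hPNP) (fp_mulB hT hT)

theorem fp_valX : FP (valX ev) := by
  unfold valX
  exact FP.comp hev (FP.pair FP.snd (FP.pair (fpb_zX hev hPNP) (fpb_totL FP.fst)))

theorem fp_selX : FP (selX ev) := by
  unfold selX
  have hv := fp_valX hev hPNP
  exact FP.ite (FP.comp (fp_hallQ hPNP) (FP.comp (fp_winX hev) (FP.pair FP.fst hv)))
    (FP.consE hv (FP.const [])) (FP.const [])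

theorem fp_valsX : FP (valsX ev) := by
  unfold valsX
  have hs := fp_selX hev hPNP
  exact FP.flatMapE FP.id (g := fun y : X0 × (List Sym × Bi) =>
    selX ev (y.1, (y.2.1, false)) ++ selX ev (y.1, (y.2.1, true)))
    (FP.appendE
      (FP.comp hs (FP.pair FP.fst (FP.pair (FP.comp FP.fst FP.snd) (FP.const false))))
      (FP.comp hs (FP.pair FP.fst (FP.pair (FP.comp FP.fst FP.snd) (FP.const true)))))

theorem fp_minsX : FP (minsX ev) := by
  unfold minsX
  have hv := fp_valsX hev hPNP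
  refine FP.flatMapE hv (g := fun y : X0 × (Bi × Bi) =>
    if (valsX ev y.1).all (fun w => rle y.2 w) then [y.2] else []) ?_
  exact FP.ite (fp_allE (FP.comp hv FP.fst) (p := fun z : (X0 × (Bi × Bi)) × (Bi × Bi) =>
    rle z.1.2 z.2) (fp_rle (FP.comp FP.snd FP.fst) FP.snd))
    (FP.consE FP.snd (FP.const [])) (FP.const [])

theorem fp_outX : FP (outX ev) := by
  unfold outX bestX
  exact FP.comp (fp_winX hev) (FP.pair FP.id (FP.getE (fp_minsX hev hPNP) (FP.const 0) _))

end complexity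

end Pool.Agent.JIT.Gen
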