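import Pool.Agent.Lib_MP_033923_np.GOpt

set_option autoImplicit false

/-!
# Correctness of the data structure
-/

namespace Pool.Agent.JIT.Gen

open Finset Pool.Agent.PartSep.TM

section spec

variable {ev : Ev} {n : ℕ} (c : Fin n → List Sym) (d : Fin n → ℕ) (f : Fin n → ℝ → ℝ)

/-- the instance as a list -/
def L0 : X0 := List.ofFn (fun i => (c i, (⟨d i⟩ : Bi)))

theorem totL_L0 : totL (L0 c d) = total d := by
  unfold totL L0 total
  rw [List.map_ofFn, List.map_ofFn, List.sum_ofFn]
  rfl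

theorem winX_L0 (β : Bi × Bi) : winX ev (L0 c d, β) = List.ofFn (fun i => ((⟨d i⟩ : Bi),
    ((⟨slackX ev ((L0 c d, β), (c i, false))⟩ : Bi),
      (⟨slackX ev ((L0 c d, β), (c i, true))⟩ : Bi)))) := by
  conv_lhs => unfold winX
  rw [show (L0 c d, β).1 = List.ofFn (fun i => (c i, (⟨d i⟩ : Bi))) from rfl, List.map_ofFn]
  rfl

theorem length_winX (β : Bi × Bi) : (winX ev (L0 c d, β)).length = n := by
  rw [winX_L0, List.length_ofFn]

theorem ent_winX (β : Bi × Bi) (i : Fin n) : ent (toI (winX ev (L0 c d, β))) i =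
    (d i, slackX ev ((L0 c d, β), (c i, false)), slackX ev ((L0 c d, β), (c i, true))) := by
  rw [ent_toI, winX_L0, List.getElem?_ofFn, dif_pos i.isLt]
  rfl

theorem ent_winX_ge (β : Bi × Bi) {i : ℕ} (hi : n ≤ i) :
    ent (toI (winX ev (L0 c d, β))) i = (0, 0, 0) := by
  rw [ent_toI, winX_L0, List.getElem?_ofFn, dif_neg (by omega)]
  rfl

theorem DI_winX (β : Bi × Bi) : DI (toI (winX ev (L0 c d, β))) = total d :=
  (total_eq_DI (by rw [length_toI, length_winX]) (fun i => by rw [ent_winX])).symm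

variable (hf : ∀ i, IsDevFun (f i))
  (hev : ∀ (i : Fin n) (s : Bool) (p q : ℕ), 0 < q →
    0 < (ev ((c i, s), ((⟨p⟩ : Bi), (⟨q⟩ : Bi)))).2.v ∧
    f i (sg s ((p : ℝ) / q)) = rv (ev ((c i, s), ((⟨p⟩ : Bi), (⟨q⟩ : Bi)))))
  (hD : 0 < total d)

include hf hev hD

theorem slackX_spec (i : Fin n) (s : Bool) {β : Bi × Bi} (hβ : 0 < β.2.v) {z : ℕ}
    (hz : z ≤ total d * total d) : f i (sg s ((z : ℝ) / total d)) ≤ rv β ↔
      z ≤ slackX ev ((L0 c d, β), (c i, s)) := by
  classical
  -- the predicate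
  have hQ : ∀ w, slackQ ev (((L0 c d, β), (c i, s)), ⟨w⟩) = true ↔
      (total d * total d ≤ w ∨ rv β < f i (sg s (((w + 1 : ℕ) : ℝ) / total d))) := by
    intro w
    unfold slackQ
    obtain ⟨h1, h2⟩ := hev i s (w + 1) (total d) hD
    rw [Bool.or_eq_true, decide_eq_true_eq, Bool.not_eq_true', ← Bool.not_eq_true]
    simp only [totL_L0]
    rw [rle_iff h1 hβ, h2, not_le]
  have hmono : ∀ a b, a ≤ b → slackQ ev (((L0 c d, β), (c i, s)), ⟨a⟩) = true →
      slackQ ev (((L0 c d, β), (c i, s)), ⟨b⟩) = true := by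
    intro a b hab h
    rw [hQ] at h ⊢
    rcases h with h | h
    · exact Or.inl (h.trans hab)
    · exact Or.inr (lt_of_lt_of_le h (ray_mono_nat (hf i) s _ (by omega)))
  have hex : ∃ w, slackQ ev (((L0 c d, β), (c i, s)), ⟨w⟩) = true :=
    ⟨total d * total d, (hQ _).2 (Or.inl le_rfl)⟩
  have hfind : Nat.find hex ≤ total d * total d :=
    Nat.find_min' hex ((hQ _).2 (Or.inl le_rfl))
  have e : slackX ev ((L0 c d, β), (c i, s)) = Nat.find hex := by
    unfold slackX
    refine least_eq (fun w => ⟨fun h => Nat.find_min' hex h,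
      fun h => hmono _ _ h (Nat.find_spec hex)⟩) ?_
    simp only [totL_L0]
    exact hfind
  rw [e]
  rcases Nat.eq_zero_or_pos z with rfl | hz0
  · have h0 : f i (sg s (((0 : ℕ) : ℝ) / total d)) = 0 := by
      have : sg s (((0 : ℕ) : ℝ) / total d) = 0 := by
        unfold sg
        simp
      rw [this, (hf i).2.1]
    rw [h0]
    constructor
    · intro _
      exact Nat.zero_le _
    · intro _
      unfold rv
      positivity
  · obtain ⟨w, rfl⟩ : ∃ w, z = w + 1 := ⟨z - 1, by omega⟩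
    have h1 : ¬ (slackQ ev (((L0 c d, β), (c i, s)), ⟨w⟩) = true) ↔ w < Nat.find hex := by
      constructor
      · intro h
        by_contra hcon
        exact h (hmono _ _ (Nat.not_lt.1 hcon) (Nat.find_spec hex))
      · intro h
        exact Nat.find_min hex h
    rw [Nat.succ_le_iff, ← h1, hQ]
    constructor
    · rintro h (h2 | h2)
      · omega
      · exact absurd h (not_le.2 h2)
    · intro h
      by_contra hcon
      exact h (Or.inr (not_le.1 hcon))

/-- the deviation is at most `β` if and only if the number of copies is allowed -/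
theorem dev_le_iff {β : Bi × Bi} (hβ : 0 < β.2.v) (S : ℕ → Fin n) (i : Fin n) {k : ℕ}
    (hk : k ≤ total d) : dev d f S i k ≤ rv β ↔
      Ok (toI (winX ev (L0 c d, β))) i k (produced S i k) := by
  have hdi : d i ≤ total d := Finset.single_le_sum (f := d) (fun _ _ => Nat.zero_le _) (mem_univ i)
  unfold dev Ok
  rw [DI_winX, ent_winX]
  exact le_iff_ok hD ((produced_le S i k).trans hk) hk hdi
    (fun z hz => slackX_spec c d f hf hev hD i false hβ hz)
    (fun z hz => slackX_spec c d f hf hev hD i true hβ hz)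

theorem hall_of_dev {β : Bi × Bi} (hβ : 0 < β.2.v) {S : ℕ → Fin n} (hS : IsSeq d S)
    (h : ∀ i, ∀ k ∈ Icc 1 (total d), dev d f S i k ≤ rv β) :
    hallQ (winX ev (L0 c d, β)) = true := by
  rw [hallQ_iff]
  refine hall_of_seq (by rw [length_toI, length_winX]) (by rw [DI_winX]; exact hD)
    (fun i => by rw [ent_winX]) hS (fun i k hk1 hk => ?_)
  rw [DI_winX] at hk
  exact (dev_le_iff c d f hf hev hD hβ S i hk).1 (h i k (mem_Icc.2 ⟨hk1, hk⟩))

theorem hallQ_mono {β β' : Bi × Bi} (hβ : 0 < β.2.v) (hβ' : 0 < β'.2.v) (h : rv β ≤ rv β')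
    (hH : hallQ (winX ev (L0 c d, β)) = true) : hallQ (winX ev (L0 c d, β')) = true := by
  rw [hallQ_iff] at hH ⊢
  have hs : ∀ (i : Fin n) (s : Bool), slackX ev ((L0 c d, β), (c i, s)) ≤
      slackX ev ((L0 c d, β'), (c i, s)) := by
    intro i s
    rcases le_total (slackX ev ((L0 c d, β), (c i, s))) (total d * total d) with h1 | h1
    · rw [← slackX_spec c d f hf hev hD i s hβ' h1]
      exact ((slackX_spec c d f hf hev hD i s hβ h1).2 le_rfl).trans h
    · have h2 := (slackX_spec c d f hf hev hD i s hβ (le_refl (total d * total d))).2 h1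
      have h3 := (slackX_spec c d f hf hev hD i s hβ' (le_refl (total d * total d))).1 (h2.trans h)
      refine le_trans ?_ h3
      -- the slack is at most `D ^ 2`
      by_contra hcon
      push Not at hcon
      classical
      have hQ : slackQ ev (((L0 c d, β), (c i, s)), ⟨total d * total d⟩) = true := by
        unfold slackQ
        simp only [totL_L0, le_refl, decide_true, Bool.true_or]
      -- recompute
      have hQ2 : ∀ w, slackQ ev (((L0 c d, β), (c i, s)), ⟨w⟩) = true ↔
          (total d * total d ≤ w ∨ rv β < f i (sg s (((w + 1 : ℕ) : ℝ) / total d))) := by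
        intro w
        unfold slackQ
        obtain ⟨h1, h2⟩ := hev i s (w + 1) (total d) hD
        rw [Bool.or_eq_true, decide_eq_true_eq, Bool.not_eq_true', ← Bool.not_eq_true]
        simp only [totL_L0]
        rw [rle_iff h1 hβ, h2, not_le]
      have hex : ∃ w, slackQ ev (((L0 c d, β), (c i, s)), ⟨w⟩) = true := ⟨_, hQ⟩
      have hfind : Nat.find hex ≤ total d * total d := Nat.find_min' hex hQ
      have e : slackX ev ((L0 c d, β), (c i, s)) = Nat.find hex := by
        unfold slackX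
        refine least_eq (fun w => ⟨fun h => Nat.find_min' hex h, fun h => ?_⟩) ?_
        · have h5 := Nat.find_spec hex
          rw [hQ2] at h5 ⊢
          rcases h5 with h5 | h5
          · exact Or.inl (h5.trans h)
          · exact Or.inr (lt_of_lt_of_le h5 (ray_mono_nat (hf i) s _ (by omega)))
        · simp only [totL_L0]
          exact hfind
      omega
  refine hall_mono (by rw [length_toI, length_toI, length_winX, length_winX])
    (fun i => ?_) (fun i => ?_) (fun i => ?_) hH
  · rcases Nat.lt_or_ge i n with hi | hi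
    · rw [ent_winX c d β ⟨i, hi⟩, ent_winX c d β' ⟨i, hi⟩]
    · rw [ent_winX_ge c d β hi, ent_winX_ge c d β' hi]
  · rcases Nat.lt_or_ge i n with hi | hi
    · rw [ent_winX c d β ⟨i, hi⟩, ent_winX c d β' ⟨i, hi⟩]
      exact hs _ _
    · rw [ent_winX_ge c d β hi, ent_winX_ge c d β' hi]
  · rcases Nat.lt_or_ge i n with hi | hi
    · rw [ent_winX c d β ⟨i, hi⟩, ent_winX c d β' ⟨i, hi⟩]
      exact hs _ _
    · rw [ent_winX_ge c d β hi, ent_winX_ge c d β' hi]

/-- for every sequence there is a value in the list which is at most its maximum deviation -/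
theorem exists_val (hn : 0 < n) {S : ℕ → Fin n} (hS : IsSeq d S) :
    ∃ v ∈ valsX ev (L0 c d), rv v ≤ maxDeviation d f S := by
  classical
  obtain ⟨⟨i, k, hk, hG⟩, hle⟩ := maxDev_attained hn hD f S
  obtain ⟨z, s, hz, hzG⟩ : ∃ z s, z ≤ total d * total d ∧
      maxDeviation d f S = f i (sg s ((z : ℝ) / total d)) := by
    obtain ⟨z, hz, h | h⟩ := dev_form hD f (S := S) i hk
    · exact ⟨z, true, hz, by rw [hG, h]; rfl⟩
    · exact ⟨z, false, hz, by rw [hG, h]; rfl⟩
  have hvz : ∀ w : ℕ, 0 < (ev ((c i, s), ((⟨w⟩ : Bi), (⟨total d⟩ : Bi)))).2.v ∧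
      f i (sg s ((w : ℝ) / total d)) = rv (ev ((c i, s), ((⟨w⟩ : Bi), (⟨total d⟩ : Bi)))) :=
    fun w => hev i s w (total d) hD
  have hQ : ∀ w : ℕ, bestQ ev ((L0 c d, (c i, s)), ⟨w⟩) =
      hallQ (winX ev (L0 c d, ev ((c i, s), ((⟨w⟩ : Bi), (⟨total d⟩ : Bi))))) := by
    intro w
    unfold bestQ
    simp only [totL_L0]
  have hmono : ∀ a b, a ≤ b → bestQ ev ((L0 c d, (c i, s)), ⟨a⟩) = true →
      bestQ ev ((L0 c d, (c i, s)), ⟨b⟩) = true := by
    intro a b hab h
    rw [hQ] at h ⊢
    refine hallQ_mono c d f hf hev hD (hvz a).1 (hvz b).1 ?_ h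
    rw [← (hvz a).2, ← (hvz b).2]
    exact ray_mono_nat (hf i) s _ hab
  have hzQ : bestQ ev ((L0 c d, (c i, s)), ⟨z⟩) = true := by
    rw [hQ]
    refine hall_of_dev c d f hf hev hD (hvz z).1 hS (fun j t ht => ?_)
    rw [← (hvz z).2, ← hzG]
    exact hle j t ht
  have hex : ∃ w, bestQ ev ((L0 c d, (c i, s)), ⟨w⟩) = true := ⟨z, hzQ⟩
  have hfind : Nat.find hex ≤ z := Nat.find_min' hex hzQ
  have e : zX ev (L0 c d, (c i, s)) = Nat.find hex := by
    unfold zX
    refine least_eq (fun w => ⟨fun h => Nat.find_min' hex h,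
      fun h => hmono _ _ h (Nat.find_spec hex)⟩) ?_
    simp only [totL_L0]
    exact hfind.trans hz
  have hv : valX ev (L0 c d, (c i, s)) =
      ev ((c i, s), ((⟨Nat.find hex⟩ : Bi), (⟨total d⟩ : Bi))) := by
    unfold valX
    simp only [totL_L0]
    rw [e]
  have hsel : valX ev (L0 c d, (c i, s)) ∈ selX ev (L0 c d, (c i, s)) := by
    unfold selX
    rw [if_pos]
    · exact List.mem_singleton.2 rfl
    · rw [hv, ← hQ]
      exact Nat.find_spec hex
  refine ⟨valX ev (L0 c d, (c i, s)), ?_, ?_⟩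
  · unfold valsX
    rw [List.mem_flatMap]
    refine ⟨(c i, ⟨d i⟩), ?_, ?_⟩
    · unfold L0
      rw [List.mem_ofFn]
      exact ⟨i, rfl⟩
    · rw [List.mem_append]
      cases s
      · exact Or.inl hsel
      · exact Or.inr hsel
  · rw [hv, ← (hvz _).2, hzG]
    exact ray_mono_nat (hf i) s _ hfind

/-- the values in the list are feasible -/
theorem vals_feasible {v : Bi × Bi} (hv : v ∈ valsX ev (L0 c d)) :
    0 < v.2.v ∧ hallQ (winX ev (L0 c d, v)) = true := by
  unfold valsX at hv
  rw [List.mem_flatMap] at hv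
  obtain ⟨p, hp, hv⟩ := hv
  unfold L0 at hp
  rw [List.mem_ofFn] at hp
  obtain ⟨i, rfl⟩ := hp
  have key : ∀ s, v ∈ selX ev (L0 c d, (c i, s)) →
      0 < v.2.v ∧ hallQ (winX ev (L0 c d, v)) = true := by
    intro s h
    unfold selX at h
    split_ifs at h with h1
    · rw [List.mem_singleton] at h
      subst h
      refine ⟨?_, h1⟩
      unfold valX
      simp only [totL_L0]
      exact (hev i s _ _ hD).1
    · exact absurd h (List.not_mem_nil)
  rw [List.mem_append] at hv
  rcases hv with h | h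
  · exact key _ h
  · exact key _ h

/-- the value found is the least one -/
theorem bestX_spec (hn : 0 < n) : bestX ev (L0 c d) ∈ valsX ev (L0 c d) ∧
    ∀ S, IsSeq d S → rv (bestX ev (L0 c d)) ≤ maxDeviation d f S := by
  classical
  -- a sequence exists
  obtain ⟨S0, hS0⟩ : ∃ S, IsSeq d S := by
    haveI : Nonempty (Fin n) := ⟨⟨0, hn⟩⟩
    obtain ⟨S, h1, -⟩ := exists_schedule (fun (_ : Fin n) _ => 0) (fun _ _ => le_rfl) (total d)
      (fun t _ => by simp) d rfl (fun _ => Nat.zero_le _)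
    exact ⟨S, h1⟩
  obtain ⟨v0, hv0, -⟩ := exists_val c d f hf hev hD hn hS0
  obtain ⟨v1, hv1, hmin⟩ := Set.exists_min_image {v | v ∈ valsX ev (L0 c d)} rv
    (List.finite_toSet _) ⟨v0, hv0⟩
  have hmem : ∀ v, v ∈ minsX ev (L0 c d) ↔ v ∈ valsX ev (L0 c d) ∧
      ∀ w ∈ valsX ev (L0 c d), rv v ≤ rv w := by
    intro v
    unfold minsX
    rw [List.mem_flatMap]
    constructor
    · rintro ⟨u, hu, h⟩
      split_ifs at h with h1
      · rw [List.mem_singleton] at h
        subst h
        refine ⟨hu, fun w hw => ?_⟩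
        rw [List.all_eq_true] at h1
        exact (rle_iff (vals_feasible c d f hf hev hD hu).1
          (vals_feasible c d f hf hev hD hw).1).1 (h1 w hw)
      · exact absurd h (List.not_mem_nil)
    · rintro ⟨hv, h⟩
      refine ⟨v, hv, ?_⟩
      rw [if_pos]
      · exact List.mem_singleton.2 rfl
      · rw [List.all_eq_true]
        exact fun w hw => (rle_iff (vals_feasible c d f hf hev hD hv).1
          (vals_feasible c d f hf hev hD hw).1).2 (h w hw)
  have h1 : v1 ∈ minsX ev (L0 c d) := (hmem v1).2 ⟨hv1, hmin⟩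
  have hpos : 0 < (minsX ev (L0 c d)).length := List.length_pos_of_mem h1
  have hb : bestX ev (L0 c d) ∈ minsX ev (L0 c d) := by
    unfold bestX
    rw [List.getElem?_eq_getElem hpos, Option.getD_some]
    exact List.getElem_mem hpos
  obtain ⟨hb1, hb2⟩ := (hmem _).1 hb
  refine ⟨hb1, fun S hS => ?_⟩
  obtain ⟨v, hv, hle⟩ := exists_val c d f hf hev hD hn hS
  exact (hb2 v hv).trans hle

/-- the sequence computed from the data structure is optimal -/
theorem outX_spec (hn : 0 < n) : ∃ S : ℕ → Fin n, (∀ k, modX (outX ev (L0 c d), ⟨k⟩) = S k) ∧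
    IsOptimalMax d f S := by
  obtain ⟨h1, h2⟩ := bestX_spec c d f hf hev hD hn
  obtain ⟨hpos, hH⟩ := vals_feasible c d f hf hev hD h1
  unfold outX
  obtain ⟨S, hS1, hS2, hS3⟩ := modX_spec (l := winX ev (L0 c d, bestX ev (L0 c d)))
    (by rw [DI_winX]; exact hD) (length_winX c d _) hn ((hallQ_iff _).1 hH) (d := d)
    (fun i => by rw [ent_winX])
  refine ⟨S, hS1, hS2, fun S' hS' => ?_⟩
  obtain ⟨⟨i, k, hk, hG⟩, -⟩ := maxDev_attained hn hD f S
  refine le_trans ?_ (h2 S' hS')
  rw [hG]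
  rw [mem_Icc] at hk
  refine (dev_le_iff c d f hf hev hD hpos S i hk.2).2 (hS3 i k hk.1 ?_)
  rw [DI_winX]
  exact hk.2

end spec

end Pool.Agent.JIT.Gen
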