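import Pool.Agent.Lib_MP_033923_np.InstFP

set_option autoImplicit false

/-!
# Greatest common divisors
-/

namespace Pool.Agent.JIT

open Pool.Agent.PartSep Pool.Agent.PartSep.TM Pool.Agent.PartSep.TM.Rep
  Pool.Agent.Lib_MP_8cd8c6_lc N487b59b3

set_option synthInstance.maxSize 2000

variable {E F G : Type} [Rep E] [Rep F] [Rep G]

/-- one step of Euclid's algorithm -/
def gst (s : Bi × Bi) : Bi × Bi := if s.2.v = 0 then s else (s.2, ⟨s.1.v % s.2.v⟩)

/-- `k` steps -/
def giter : ℕ → Bi × Bi → Bi × Bi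
  | 0, s => s
  | k + 1, s => giter k (gst s)

theorem giter_zero (k a : ℕ) : giter k (⟨a⟩, ⟨0⟩) = (⟨a⟩, ⟨0⟩) := by
  induction k with
  | zero => rfl
  | succ k ih =>
    rw [giter]
    have : gst ((⟨a⟩ : Bi), (⟨0⟩ : Bi)) = (⟨a⟩, ⟨0⟩) := by
      unfold gst
      simp
    rw [this, ih]

theorem giter_spec (b : ℕ) : ∀ a k, 2 * Nat.size b ≤ k →
    giter k (⟨a⟩, ⟨b⟩) = (⟨Nat.gcd a b⟩, ⟨0⟩) := by
  induction b using Nat.strong_induction_on with
  | _ b ih =>
    intro a k hk
    rcases Nat.eq_zero_or_pos b with rfl | hb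
    · rw [giter_zero, Nat.gcd_zero_right]
    · have hs : 1 ≤ Nat.size b := Nat.size_pos.2 hb
      obtain ⟨k', rfl⟩ : ∃ k', k = k' + 1 := ⟨k - 1, by omega⟩
      obtain ⟨k', rfl⟩ : ∃ k'', k' = k'' + 1 := ⟨k' - 1, by omega⟩
      have e1 : gst ((⟨a⟩ : Bi), (⟨b⟩ : Bi)) = (⟨b⟩, ⟨a % b⟩) := by
        unfold gst
        rw [if_neg (by simp only; omega)]
      rw [giter, e1]
      have hr : a % b < b := Nat.mod_lt _ hb
      rcases Nat.eq_zero_or_pos (a % b) with h0 | h0
      · rw [h0, giter_zero]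
        have : Nat.gcd a b = b := by
          rw [Nat.gcd_comm, Nat.gcd_rec, h0, Nat.gcd_zero_left]
        rw [this]
      · have e2 : gst ((⟨b⟩ : Bi), (⟨a % b⟩ : Bi)) = (⟨a % b⟩, ⟨b % (a % b)⟩) := by
          unfold gst
          rw [if_neg (by simp only; omega)]
        have hr2 : b % (a % b) < a % b := Nat.mod_lt _ h0
        have hlt : 2 * (b % (a % b)) < b := by
          have h1 := Nat.div_add_mod b (a % b)
          have h2 : 1 ≤ b / (a % b) := (Nat.one_le_div_iff h0).2 hr.le
          have h3 : (a % b) * 1 ≤ (a % b) * (b / (a % b)) := Nat.mul_le_mul_left _ h2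
          omega
        have hsz : Nat.size (b % (a % b)) ≤ Nat.size b - 1 := by
          rw [Nat.size_le]
          have h1 := Nat.lt_size_self b
          have h2 : 2 ^ Nat.size b = 2 * 2 ^ (Nat.size b - 1) := by
            rw [← pow_succ']
            congr 1
            omega
          omega
        rw [giter, e2, ih (b % (a % b)) (by omega) (a % b) k' (by omega)]
        congr 2
        rw [Nat.gcd_comm (a % b), ← Nat.gcd_rec, ← Nat.gcd_rec, Nat.gcd_comm b a]

theorem fp_gst : FP gst := by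
  have h := FP.ite (E := Bi × Bi) (fp_isZero FP.snd) FP.id
    (FP.pair FP.snd (fp_mod FP.fst FP.snd))
  refine h.congr (fun s => ?_)
  unfold gst
  by_cases h0 : s.2.v = 0
  · simp [h0]
  · simp [h0]

theorem fp_gcd {f g : E → ℕ} (hf : FPB f) (hg : FPB g) : FPB (fun x => Nat.gcd (f x) (g x)) := by
  have hK : FP (fun x => 2 * Nat.size (g x)) := FP.mulConst (fp_size hg) 2
  have hmain := FP.foldlE_growth (FP.range hK) (init := fun x => ((⟨f x⟩, ⟨g x⟩) : Bi × Bi))
    (FP.pair hf hg) (step := fun y : E × (Bi × Bi) × ℕ => gst y.2.1)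
    (FP.comp fp_gst (FP.comp FP.fst FP.snd)) 0 (by
      intro x s a _
      rw [Polynomial.eval_zero, Nat.add_zero]
      simp only
      unfold gst
      split_ifs with h
      · exact le_rfl
      · rw [size_pair, size_pair, size_bi, size_bi, size_bi]
        have : Nat.size (s.1.v % s.2.v) ≤ Nat.size s.1.v := Nat.size_le_size (Nat.mod_le _ _)
        simp only
        omega)
  refine (FP.comp FP.fst hmain).congr (fun x => ?_)
  have key : ∀ (k : ℕ) (s : Bi × Bi), List.foldl (fun (s : Bi × Bi) (_ : ℕ) => gst s) s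
      (List.range k) = giter k s := by
    have h1 : ∀ (l : List ℕ) (s : Bi × Bi), List.foldl (fun (s : Bi × Bi) (_ : ℕ) => gst s) s l =
        giter l.length s := by
      intro l
      induction l with
      | nil => intro s; rfl
      | cons a l ih =>
        intro s
        rw [List.foldl_cons, ih, List.length_cons, giter]
    intro k s
    rw [h1, List.length_range]
  have h2 := key (2 * Nat.size (g x)) (⟨f x⟩, ⟨g x⟩)
  rw [giter_spec _ _ _ le_rfl] at h2
  exact congrArg Prod.fst h2

end Pool.Agent.JIT
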