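import Pool.Agent.Lib_MP_22d2c8_uni.Bridge
import Pool.Agent.Lib_MP_033923_np.Transfer
import Pool.Agent.Lib_MP_033923_np.InstFP

set_option autoImplicit false

/-!
# An algorithm for either problem gives P = NP
-/

namespace Pool.Agent.JIT

open Pool.Agent.PartSep Pool.Agent.PartSep.TM Pool.Agent.PartSep.TM.Rep Pool.Agent.PartSep.CL
  Pool.Agent.Lib_MP_8cd8c6_lc N487b59b3 Finset

set_option synthInstance.maxSize 2000

theorem P_subset_NP : N68a2faeb.P ⊆ N68a2faeb.NP :=
  Pool.Agent.LowComplexity.closed_NP.P_subset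

/-- the conclusion about the instance of a formula -/
theorem instF_main (φ : CNF Name) :
    Valid (instF φ) ∧
    (∀ S : ℕ → Fin (instF φ).length, IsOptimalTotal (dem (instF φ)) (devF (instF φ)) S →
        ((S 1 : ℕ) = 0 ↔ ¬ φ.Satisfiable)) ∧
    (∀ S : ℕ → Fin (instF φ).length, IsOptimalMax (dem (instF φ)) (devF (instF φ)) S →
        ((S 1 : ℕ) = 0 ↔ ¬ φ.Satisfiable)) ∧
    1 ≤ total (dem (instF φ)) := by
  have h := inst_main (m := mF φ) (e := eF φ) (incF φ) (by
    rw [incC_incF]
    exact famC_cover φ)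
  rw [incC_incF] at h
  have h2 : HasExactCover (famC φ) ↔ φ.Satisfiable := famC_iff φ
  obtain ⟨h3, h4, h5, h6⟩ := h
  exact ⟨h3, fun S hS => (h4 S hS).trans (not_congr h2),
    fun S hS => (h5 S hS).trans (not_congr h2), h6⟩

theorem hard_of {build : Inst → List Bool} {query : List Bool × ℕ → ℕ}
    (hp : PolyAlg build query)
    (h : ∀ φ : CNF Name, query (build (instF φ), 1) = 0 ↔ ¬ φ.Satisfiable) :
    N68a2faeb.NP ⊆ N68a2faeb.P := by
  intro L hL
  obtain ⟨g, hg, hLg⟩ := cook_levin hL
  obtain ⟨gb, hgb, hb⟩ := FP.ofTM2 hp.1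
  obtain ⟨gq, hgq, hq⟩ := FP.ofTM2 hp.2
  have h1 : FP (fun s => gq (del (gb (codL ((instF (g s)).map toTB))) ++ digs 1)) :=
    FP.comp hgq (FP.append (FP.del (FP.comp hgb (fp_codL (fp_instF hg)))) (FP.const _))
  refine mem_P_of_fp (g := fun s => if (gq (del (gb (codL ((instF (g s)).map toTB))) ++
    digs 1)).isEmpty then [bs false] else [bs true])
    (FP.ite (FP.isEmpty h1) (FP.const _) (FP.const _)) (fun x => ?_)
  set φ := g ((bitEncode x).map bs) with hφ
  have e1 : gb (codL ((instF φ).map toTB)) = (bitEncode (build (instF φ))).map bs := by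
    rw [← encode_inst]
    exact hb (instF φ)
  have e2 : gq (del (gb (codL ((instF φ).map toTB))) ++ digs 1) =
      digs (query (build (instF φ), 1)) := by
    rw [e1, ← encode_nat 1, ← encode_nat (query _), ← bitEncode_prod (build (instF φ), (1 : ℕ))]
    exact hq (build (instF φ), 1)
  rw [e2]
  have h2 := h φ
  by_cases hs : φ.Satisfiable
  · have hne : query (build (instF φ), 1) ≠ 0 := fun h0 => (h2.1 h0) hs
    have hLx : L x = true := (hLg x).2 hs
    have h3 : (digs (query (build (instF φ), 1))).isEmpty = false := by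
      rw [List.isEmpty_eq_false_iff]
      intro h4
      exact hne (digs_injective (h4.trans digs_zero.symm))
    rw [h3, hLx]
    rfl
  · have h0 : query (build (instF φ), 1) = 0 := h2.2 hs
    have hLx : L x = false := by
      rw [← Bool.not_eq_true]
      intro h4
      exact hs ((hLg x).1 h4)
    rw [h0, hLx, digs_zero]
    rfl

theorem hard_total {build : Inst → List Bool} {query : List Bool × ℕ → ℕ}
    (hp : PolyAlg build query) (h : SolvesTotal build query) : N68a2faeb.P = N68a2faeb.NP := by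
  refine Set.Subset.antisymm P_subset_NP (hard_of hp (fun φ => ?_))
  obtain ⟨h1, h2, -, h3⟩ := instF_main φ
  obtain ⟨S, hS, hk⟩ := h (instF φ) h1
  rw [hk 1 (mem_Icc.2 ⟨le_rfl, h3⟩)]
  exact h2 S hS

theorem hard_max {build : Inst → List Bool} {query : List Bool × ℕ → ℕ}
    (hp : PolyAlg build query) (h : SolvesMax build query) : N68a2faeb.P = N68a2faeb.NP := by
  refine Set.Subset.antisymm P_subset_NP (hard_of hp (fun φ => ?_))
  obtain ⟨h1, -, h2, h3⟩ := instF_main φ
  obtain ⟨S, hS, hk⟩ := h (instF φ) h1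
  rw [hk 1 (mem_Icc.2 ⟨le_rfl, h3⟩)]
  exact h2 S hS

end Pool.Agent.JIT
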