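import Pool.Agent.Lib_MP_033923_np.TwoSided

set_option autoImplicit false

/-!
# Arithmetic of the needs of the models of a window system with symmetric tolerances
-/

namespace Pool.Agent.JIT

open Finset

/-- a bound for the number of copies needed in an interval -/
theorem nd_single {D d a t t' : ℕ} (hD : 0 < D) (ht : t ≤ D) (ht' : t' ≤ D) (hv : D ≤ t + t')
    (he : 0 < nd D d a t + nd D d a t' - d) :
    D * (nd D d a t + nd D d a t' - d) ≤ (t + t' - D) * d + 2 * (D - 1 - a) := by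
  have hn := nd_le hD d a t
  have hn' := nd_le hD d a t'
  obtain ⟨x, hx⟩ : ∃ x, nd D d a t = x := ⟨_, rfl⟩
  obtain ⟨x', hx'⟩ : ∃ x', nd D d a t' = x' := ⟨_, rfl⟩
  obtain ⟨v, hv'⟩ : ∃ v, t + t' = D + v := ⟨t + t' - D, by omega⟩
  rw [hx] at hn he
  rw [hx'] at hn' he
  rw [hx, hx', hv', Nat.add_sub_cancel_left]
  have e1 : D * (x + x' - d) + D * d = D * x + D * x' := by
    rw [← Nat.mul_add, ← Nat.mul_add]
    congr 1
    omega
  have e2 : d * t + d * t' = D * d + v * d := by
    rw [← Nat.mul_add, hv']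
    ring
  rcases Nat.lt_or_ge t D with h | h
  · have h1 := nd_bound hD (d := d) (a := a) h (by rw [hx]; omega)
    rw [hx] at h1
    rcases Nat.lt_or_ge t' D with h' | h'
    · have h1' := nd_bound hD (d := d) (a := a) h' (by rw [hx']; omega)
      rw [hx'] at h1'
      omega
    · have ht'D : t' = D := by omega
      have hx'd : x' = d := by
        rw [← hx']
        unfold nd
        rw [if_neg (by omega)]
      rw [ht'D] at e2
      rw [hx'd] at e1 ⊢
      rw [Nat.mul_comm d D] at e2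
      omega
  · have htD : t = D := by omega
    have hxd : x = d := by
      rw [← hx]
      unfold nd
      rw [if_neg (by omega)]
    rw [htD, Nat.mul_comm d D] at e2
    rw [hxd] at e1 ⊢
    rcases Nat.lt_or_ge t' D with h' | h'
    · have h1' := nd_bound hD (d := d) (a := a) h' (by rw [hx']; omega)
      rw [hx'] at h1'
      omega
    · have ht'D : t' = D := by omega
      have hx'd : x' = d := by
        rw [← hx']
        unfold nd
        rw [if_neg (by omega)]
      rw [ht'D, Nat.mul_comm d D] at e2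
      rw [hx'd] at e1 ⊢
      omega

section pair

variable {K W L β u lo hi : ℕ} (hβ : W + 1 = 2 * β) (hβ1 : 1 ≤ β) (hL : 1 ≤ L) (hu : u < L)
  (hlo : lo ≤ u) (hhi : 2 * (K + 1) * hi < u)

include hβ hβ1 hL hu hlo hhi

/-- the needs of a pair in an initial interval -/
theorem pair_one {t : ℕ} (ht : t ≤ (K + 1) * W * L) :
    (K + 1) * (nd ((K + 1) * W * L) (W * u) ((K + 1) * W * L + (K + 1) * W * lo - β) t +
      nd ((K + 1) * W * L) (W * (L - u)) ((K + 1) * W * L - (K + 1) * W * hi - β) t) ≤ t ∧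
    (t < (K + 1) * W * L → ∀ q, 1 ≤ q → t = (K + 1) * q →
      nd ((K + 1) * W * L) (W * u) ((K + 1) * W * L + (K + 1) * W * lo - β) t +
        nd ((K + 1) * W * L) (W * (L - u)) ((K + 1) * W * L - (K + 1) * W * hi - β) t = q →
      lo ≤ (u * q) % L ∧ (u * q) % L ≤ hi) := by
  have hW : 1 ≤ W := by omega
  obtain ⟨D, hDe⟩ : ∃ D, (K + 1) * W * L = D := ⟨_, rfl⟩
  have hD : 0 < D := by
    rw [← hDe]
    exact Nat.mul_pos (Nat.mul_pos (by omega) hW) hL
  have hWD : W * (L * (K + 1)) = D := by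
    rw [← hDe]
    ring
  have hhiD : (K + 1) * W * hi + W ≤ D := by
    rw [← hDe]
    have h1 : (K + 1) * hi + 1 ≤ L := by
      have h3 : (K + 1) * hi ≤ 2 * (K + 1) * hi := Nat.mul_le_mul_right _ (by omega)
      omega
    have h2 := Nat.mul_le_mul_left W h1
    have e1 : W * ((K + 1) * hi + 1) = (K + 1) * W * hi + W := by ring
    have e2 : W * L ≤ (K + 1) * W * L := by
      rw [Nat.mul_assoc]
      exact Nat.le_mul_of_pos_left _ (by omega)
    omega
  rw [hDe] at ht ⊢
  obtain ⟨y1, hy1⟩ : ∃ y, nd D (W * u) (D + (K + 1) * W * lo - β) t = y := ⟨_, rfl⟩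
  obtain ⟨y2, hy2⟩ : ∃ y, nd D (W * (L - u)) (D - (K + 1) * W * hi - β) t = y := ⟨_, rfl⟩
  rw [hy1, hy2]
  rcases Nat.lt_or_ge t D with h | h
  · -- the two key inequalities
    have k1 : (y1 = 0) ∨ (K + 1) * (L * y1 + lo) ≤ u * t := by
      rcases Nat.eq_zero_or_pos y1 with h0 | h0
      · exact Or.inl h0
      · right
        have h1 := nd_bound hD h (by rw [hy1]; exact h0)
        rw [hy1] at h1
        have e1 : W * ((K + 1) * (L * y1 + lo)) < W * (u * t + 1) := by
          have e2 : W * ((K + 1) * (L * y1 + lo)) = D * y1 + (K + 1) * W * lo := by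
            rw [← hWD]
            ring
          have e3 : W * (u * t + 1) = W * u * t + W := by ring
          rw [e2, e3]
          omega
        have := Nat.lt_of_mul_lt_mul_left e1
        omega
    have k2 : (K + 1) * (L * y2) + u * t ≤ L * t + (K + 1) * hi := by
      have e0 : u * t ≤ L * t := Nat.mul_le_mul_right _ hu.le
      rcases Nat.eq_zero_or_pos y2 with h0 | h0
      · rw [h0, Nat.mul_zero, Nat.mul_zero, Nat.zero_add]
        omega
      · have h1 := nd_bound hD h (by rw [hy2]; exact h0)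
        rw [hy2] at h1
        have e1 : W * ((K + 1) * (L * y2)) < W * ((L - u) * t + (K + 1) * hi + 1) := by
          have e2 : W * ((K + 1) * (L * y2)) = D * y2 := by
            rw [← hWD]
            ring
          have e3 : W * ((L - u) * t + (K + 1) * hi + 1)
              = W * (L - u) * t + (K + 1) * W * hi + W := by ring
          rw [e2, e3]
          omega
        have e5 := Nat.lt_of_mul_lt_mul_left e1
        rw [Nat.sub_mul] at e5
        omega
    have hKhi : (K + 1) * hi < L := by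
      have : (K + 1) * hi ≤ 2 * (K + 1) * hi := Nat.mul_le_mul_right _ (by omega)
      omega
    constructor
    · have h4 : L * ((K + 1) * (y1 + y2)) < L * (t + 1) := by
        have e1 : L * ((K + 1) * (y1 + y2)) = (K + 1) * (L * y1) + (K + 1) * (L * y2) := by ring
        rw [e1, Nat.mul_add]
        rcases k1 with k1 | k1
        · rw [k1, Nat.mul_zero, Nat.mul_zero]
          omega
        · rw [Nat.mul_add] at k1
          omega
      have := Nat.lt_of_mul_lt_mul_left h4
      omega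
    · intro _ q hq htq hyq
      have k3 : L * y1 + lo ≤ u * q := by
        rcases k1 with k1 | k1
        · rw [k1, Nat.mul_zero, Nat.zero_add]
          exact hlo.trans (Nat.le_mul_of_pos_right _ hq)
        · rw [htq] at k1
          have e1 : u * ((K + 1) * q) = (K + 1) * (u * q) := by ring
          rw [e1] at k1
          exact Nat.le_of_mul_le_mul_left k1 (by omega)
      have k4 : u * q ≤ L * y1 + hi := by
        rw [htq, ← hyq] at k2
        have e1 : (K + 1) * (u * (y1 + y2)) ≤ (K + 1) * (L * y1 + hi) := by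
          have e2 : u * ((K + 1) * (y1 + y2)) = (K + 1) * (u * (y1 + y2)) := by ring
          have e3 : L * ((K + 1) * (y1 + y2)) = (K + 1) * (L * y1) + (K + 1) * (L * y2) := by
            ring
          rw [e2, e3] at k2
          rw [Nat.mul_add (K + 1) (L * y1) hi]
          omega
        rw [← hyq]
        exact Nat.le_of_mul_le_mul_left e1 (by omega)
      have hhL : hi < L := by
        have : hi ≤ (K + 1) * hi := Nat.le_mul_of_pos_left _ (by omega)
        omega
      have k5 : (u * q) % L = u * q - L * y1 := by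
        have e1 : u * q = (u * q - L * y1) + L * y1 := by omega
        conv_lhs => rw [e1]
        rw [Nat.add_mul_mod_self_left]
        exact Nat.mod_eq_of_lt (by omega)
      rw [k5]
      omega
  · have htD : t = D := by omega
    have e1 : y1 = W * u := by
      rw [← hy1]
      unfold nd
      rw [if_neg (by omega)]
    have e2 : y2 = W * (L - u) := by
      rw [← hy2]
      unfold nd
      rw [if_neg (by omega)]
    constructor
    · rw [e1, e2, htD, ← Nat.mul_add, Nat.add_sub_cancel' hu.le, ← hWD]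
      exact le_of_eq (by ring)
    · intro h3
      omega

/-- the needs of a pair in an interval, both sides -/
theorem pair_two {t t' : ℕ} (ht : t ≤ (K + 1) * W * L) (ht' : t' ≤ (K + 1) * W * L)
    (hv : (K + 1) * W * L < t + t') :
    (K + 1) * ((nd ((K + 1) * W * L) (W * u) ((K + 1) * W * L + (K + 1) * W * lo - β) t +
        nd ((K + 1) * W * L) (W * u) ((K + 1) * W * L + (K + 1) * W * lo - β) t' - W * u) +
      (nd ((K + 1) * W * L) (W * (L - u)) ((K + 1) * W * L - (K + 1) * W * hi - β) t +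
        nd ((K + 1) * W * L) (W * (L - u)) ((K + 1) * W * L - (K + 1) * W * hi - β) t' -
          W * (L - u))) ≤ t + t' - (K + 1) * W * L ∧
    ((K + 1) * ((nd ((K + 1) * W * L) (W * u) ((K + 1) * W * L + (K + 1) * W * lo - β) t +
        nd ((K + 1) * W * L) (W * u) ((K + 1) * W * L + (K + 1) * W * lo - β) t' - W * u) +
      (nd ((K + 1) * W * L) (W * (L - u)) ((K + 1) * W * L - (K + 1) * W * hi - β) t +
        nd ((K + 1) * W * L) (W * (L - u)) ((K + 1) * W * L - (K + 1) * W * hi - β) t' -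
          W * (L - u))) = t + t' - (K + 1) * W * L → t < (K + 1) * W * L →
      ∃ q, t = (K + 1) * q ∧ lo ≤ (u * q) % L ∧ (u * q) % L ≤ hi) := by
  have hW : 1 ≤ W := by omega
  obtain ⟨h1, h1s⟩ := pair_one (K := K) hβ hβ1 hL hu hlo hhi ht
  obtain ⟨h2, -⟩ := pair_one (K := K) hβ hβ1 hL hu hlo hhi ht'
  have hDpos : 0 < (K + 1) * W * L := Nat.mul_pos (Nat.mul_pos (by omega) hW) hL
  have s1 := nd_single (d := W * u) (a := (K + 1) * W * L + (K + 1) * W * lo - β) hDpos ht ht'
    hv.le
  have s2 := nd_single (d := W * (L - u)) (a := (K + 1) * W * L - (K + 1) * W * hi - β) hDpos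
    ht ht' hv.le
  have hhiD : (K + 1) * W * hi + W ≤ (K + 1) * W * L := by
    have h1 : (K + 1) * hi + 1 ≤ L := by
      have h3 : (K + 1) * hi ≤ 2 * (K + 1) * hi := Nat.mul_le_mul_right _ (by omega)
      omega
    have h2 := Nat.mul_le_mul_left W h1
    have e1 : W * ((K + 1) * hi + 1) = (K + 1) * W * hi + W := by ring
    have e2 : W * L ≤ (K + 1) * W * L := by
      rw [Nat.mul_assoc]
      exact Nat.le_mul_of_pos_left _ (by omega)
    omega
  obtain ⟨D, hDe⟩ : ∃ D, (K + 1) * W * L = D := ⟨_, rfl⟩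
  have hWD : W * (L * (K + 1)) = D := by
    rw [← hDe]
    ring
  rw [hDe] at h1 h1s h2 hDpos s1 s2 hhiD hv ht ht' ⊢
  have n1 := nd_le hDpos (W * u) (D + (K + 1) * W * lo - β) t
  have n1' := nd_le hDpos (W * u) (D + (K + 1) * W * lo - β) t'
  have n2 := nd_le hDpos (W * (L - u)) (D - (K + 1) * W * hi - β) t
  have n2' := nd_le hDpos (W * (L - u)) (D - (K + 1) * W * hi - β) t'
  obtain ⟨x1, hx1⟩ : ∃ y, nd D (W * u) (D + (K + 1) * W * lo - β) t = y := ⟨_, rfl⟩
  obtain ⟨x2, hx2⟩ : ∃ y, nd D (W * (L - u)) (D - (K + 1) * W * hi - β) t = y := ⟨_, rfl⟩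
  obtain ⟨x1', hx1'⟩ : ∃ y, nd D (W * u) (D + (K + 1) * W * lo - β) t' = y := ⟨_, rfl⟩
  obtain ⟨x2', hx2'⟩ : ∃ y, nd D (W * (L - u)) (D - (K + 1) * W * hi - β) t' = y := ⟨_, rfl⟩
  rw [hx1] at h1 h1s s1 n1 ⊢
  rw [hx2] at h1 h1s s2 n2 ⊢
  rw [hx1'] at h2 s1 n1' ⊢
  rw [hx2'] at h2 s2 n2' ⊢
  obtain ⟨v, hv'⟩ : ∃ v, t + t' = D + v := ⟨t + t' - D, by omega⟩
  have hv1 : 1 ≤ v := by omega
  have hvs : t + t' - D = v := by omega
  rw [hvs] at s1 s2 ⊢
  -- the lower model alone
  have a1 : 0 < x1 + x1' - W * u → (K + 1) * (x1 + x1' - W * u) < v := by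
    intro h0
    have h3 := s1 h0
    obtain ⟨e, he⟩ : ∃ e, x1 + x1' - W * u = e := ⟨_, rfl⟩
    rw [he] at h3 ⊢
    have h4 : W * (L * ((K + 1) * e)) < W * (v * u + 1) := by
      have e1 : W * (L * ((K + 1) * e)) = D * e := by rw [← hWD]; ring
      have e2 : W * (v * u + 1) = v * (W * u) + W := by ring
      rw [e1, e2]
      omega
    have h5 := Nat.lt_of_mul_lt_mul_left h4
    have h6 : v * u < v * L := Nat.mul_lt_mul_of_pos_left hu hv1
    have h7 : L * ((K + 1) * e) < L * v := by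
      rw [Nat.mul_comm L v]
      omega
    exact Nat.lt_of_mul_lt_mul_left h7
  -- the upper model alone
  have a2 : 0 < x2 + x2' - W * (L - u) → (K + 1) * (x2 + x2' - W * (L - u)) < v := by
    intro h0
    have h3 := s2 h0
    obtain ⟨e, he⟩ : ∃ e, x2 + x2' - W * (L - u) = e := ⟨_, rfl⟩
    rw [he] at h3 ⊢
    have h4 : W * (L * ((K + 1) * e)) < W * (v * (L - u) + 2 * (K + 1) * hi + 1) := by
      have e1 : W * (L * ((K + 1) * e)) = D * e := by rw [← hWD]; ring
      have e2 : W * (v * (L - u) + 2 * (K + 1) * hi + 1) =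
          v * (W * (L - u)) + 2 * ((K + 1) * W * hi) + W := by ring
      rw [e1, e2]
      omega
    have h5 := Nat.lt_of_mul_lt_mul_left h4
    have h6 : u ≤ v * u := Nat.le_mul_of_pos_left _ hv1
    have h7 : v * (L - u) + v * u = v * L := by
      rw [← Nat.mul_add, Nat.sub_add_cancel hu.le]
    have h8 : L * ((K + 1) * e) < L * v := by
      rw [Nat.mul_comm L v]
      omega
    exact Nat.lt_of_mul_lt_mul_left h8
  rcases Nat.eq_zero_or_pos (x1 + x1' - W * u) with z1 | z1
  · rcases Nat.eq_zero_or_pos (x2 + x2' - W * (L - u)) with z2 | z2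
    · simp only [z1, z2, Nat.add_zero, Nat.mul_zero]
      exact ⟨Nat.zero_le _, fun h => by omega⟩
    · simp only [z1, Nat.zero_add]
      have := a2 z2
      exact ⟨this.le, fun h => by omega⟩
  · rcases Nat.eq_zero_or_pos (x2 + x2' - W * (L - u)) with z2 | z2
    · simp only [z2, Nat.add_zero]
      have := a1 z1
      exact ⟨this.le, fun h => by omega⟩
    · have e1 : (K + 1) * ((x1 + x1' - W * u) + (x2 + x2' - W * (L - u))) + D =
          (K + 1) * (x1 + x2) + (K + 1) * (x1' + x2') := by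
        have e2 : D = (K + 1) * (W * u + W * (L - u)) := by
          rw [← Nat.mul_add W, Nat.add_sub_cancel' hu.le, ← hWD]
          ring
        rw [e2, ← Nat.mul_add (K + 1), ← Nat.mul_add (K + 1)]
        congr 1
        omega
      refine ⟨by omega, fun h3 h4 => ?_⟩
      have h5 : (K + 1) * (x1 + x2) = t := by omega
      refine ⟨x1 + x2, h5.symm, ?_⟩
      have h6 : 1 ≤ x1 + x2 := by
        rcases Nat.eq_zero_or_pos (x1 + x2) with h7 | h7
        · rw [h7, Nat.mul_zero] at h5
          omega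
        · exact h7
      exact h1s h4 (x1 + x2) h6 h5.symm rfl

end pair

section filler

variable {K M h Z : ℕ} (hM : h * (4 * Z + 2) ≤ M) (hh : 1 ≤ h)

include hM hh

theorem two_h_le : 2 * h ≤ M := by
  have : h * (4 * Z + 2) = 4 * (h * Z) + 2 * h := by ring
  omega

/-- the needs of the filler in an interval -/
theorem filler_two {t t' : ℕ} (ht : t ≤ (K + 1) * M) (ht' : t' ≤ (K + 1) * M)
    (hv : (K + 1) * M ≤ t + t') :
    (K + 1) * (nd ((K + 1) * M) (M - 2 * h) ((K + 1) * M - h * (2 * Z + 1)) t +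
      nd ((K + 1) * M) (M - 2 * h) ((K + 1) * M - h * (2 * Z + 1)) t' - (M - 2 * h)) ≤
      t + t' - (K + 1) * M := by
  have h2 := two_h_le hM hh
  have hM0 : 0 < M := by omega
  have hDpos : 0 < (K + 1) * M := Nat.mul_pos (by omega) hM0
  have s1 := nd_single (d := M - 2 * h) (a := (K + 1) * M - h * (2 * Z + 1)) hDpos ht ht' hv
  have hD' : M ≤ (K + 1) * M := Nat.le_mul_of_pos_left _ (by omega)
  obtain ⟨D, hDe⟩ : ∃ D, (K + 1) * M = D := ⟨_, rfl⟩
  rw [hDe] at s1 hDpos hv ht ht' hD' ⊢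
  obtain ⟨e, he⟩ : ∃ e, nd D (M - 2 * h) (D - h * (2 * Z + 1)) t +
    nd D (M - 2 * h) (D - h * (2 * Z + 1)) t' - (M - 2 * h) = e := ⟨_, rfl⟩
  rw [he] at s1 ⊢
  rcases Nat.eq_zero_or_pos e with h0 | h0
  · rw [h0, Nat.mul_zero]
    exact Nat.zero_le _
  · have h3 := s1 h0
    obtain ⟨v, hv'⟩ : ∃ v, t + t' - D = v := ⟨_, rfl⟩
    rw [hv'] at h3 ⊢
    have h4 : M * ((K + 1) * e) < M * (v + 1) := by
      have e1 : M * ((K + 1) * e) = D * e := by rw [← hDe]; ring
      have e2 : M * (v + 1) = v * M + M := by ring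
      have e3 : v * (M - 2 * h) ≤ v * M := Nat.mul_le_mul_left _ (Nat.sub_le _ _)
      have e4 : h * (4 * Z + 2) = 2 * (h * (2 * Z + 1)) := by ring
      have e5 : 1 ≤ h * (2 * Z + 1) := Nat.mul_pos hh (by omega)
      rw [e1, e2]
      omega
    have := Nat.lt_of_mul_lt_mul_left h4
    omega

/-- far from the middle the filler needs less -/
theorem filler_far {t : ℕ} (ht : t ≤ (K + 1) * M) (hfar : (K + 1) * M + 2 * Z + 1 ≤ 2 * t)
    (hpos : t < (K + 1) * M →
      0 < nd ((K + 1) * M) (M - 2 * h) ((K + 1) * M - h * (2 * Z + 1)) t) :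
    (K + 1) * (nd ((K + 1) * M) (M - 2 * h) ((K + 1) * M - h * (2 * Z + 1)) t + h) < t := by
  have h2 := two_h_le hM hh
  have hM0 : 0 < M := by omega
  have hDpos : 0 < (K + 1) * M := Nat.mul_pos (by omega) hM0
  have hD' : M ≤ (K + 1) * M := Nat.le_mul_of_pos_left _ (by omega)
  have e4 : h * (4 * Z + 2) = 2 * (h * (2 * Z + 1)) := by ring
  obtain ⟨D, hDe⟩ : ∃ D, (K + 1) * M = D := ⟨_, rfl⟩
  rw [hDe] at hDpos ht hfar hpos hD' ⊢
  rcases Nat.lt_or_ge t D with hlt | hge
  · have h1 := nd_bound hDpos hlt (hpos hlt)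
    obtain ⟨y, hy⟩ : ∃ y, nd D (M - 2 * h) (D - h * (2 * Z + 1)) t = y := ⟨_, rfl⟩
    rw [hy] at h1 ⊢
    have e1 : (M - 2 * h) * t + 2 * h * t = M * t := by
      rw [← Nat.add_mul, Nat.sub_add_cancel h2]
    have e2 : h * (D + 2 * Z + 1) ≤ h * (2 * t) := Nat.mul_le_mul_left _ hfar
    have e3 : h * (D + 2 * Z + 1) = h * D + h * (2 * Z + 1) := by ring
    have e5 : h * (2 * t) = 2 * h * t := by ring
    have h4 : M * ((K + 1) * (y + h)) < M * t := by
      have e6 : M * ((K + 1) * (y + h)) = D * y + h * D := by rw [← hDe]; ring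
      rw [e6]
      omega
    exact Nat.lt_of_mul_lt_mul_left h4
  · have htD : t = D := by omega
    have hy : nd D (M - 2 * h) (D - h * (2 * Z + 1)) t = M - 2 * h := by
      unfold nd
      rw [if_neg (by omega)]
    rw [hy, htD, ← hDe]
    exact Nat.mul_lt_mul_of_pos_left (by omega) (by omega)

theorem filler_far_two {t t' : ℕ} (ht : t ≤ (K + 1) * M) (ht' : t' ≤ (K + 1) * M)
    (hfar : (K + 1) * M + 2 * Z + 1 ≤ 2 * t) (hfar' : (K + 1) * M + 2 * Z + 1 ≤ 2 * t') :
    (K + 1) * (nd ((K + 1) * M) (M - 2 * h) ((K + 1) * M - h * (2 * Z + 1)) t +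
      nd ((K + 1) * M) (M - 2 * h) ((K + 1) * M - h * (2 * Z + 1)) t' - (M - 2 * h)) <
      t + t' - (K + 1) * M := by
  have h2 := two_h_le hM hh
  have hM0 : 0 < M := by omega
  have hDpos : 0 < (K + 1) * M := Nat.mul_pos (by omega) hM0
  have f1 := filler_far (K := K) hM hh ht hfar
  have f2 := filler_far (K := K) hM hh ht' hfar'
  have n1 := nd_le hDpos (M - 2 * h) ((K + 1) * M - h * (2 * Z + 1)) t
  have n2 := nd_le hDpos (M - 2 * h) ((K + 1) * M - h * (2 * Z + 1)) t'
  obtain ⟨D, hDe⟩ : ∃ D, (K + 1) * M = D := ⟨_, rfl⟩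
  rw [hDe] at hDpos ht ht' hfar hfar' f1 f2 n1 n2 ⊢
  obtain ⟨x, hx⟩ : ∃ y, nd D (M - 2 * h) (D - h * (2 * Z + 1)) t = y := ⟨_, rfl⟩
  obtain ⟨x', hx'⟩ : ∃ y, nd D (M - 2 * h) (D - h * (2 * Z + 1)) t' = y := ⟨_, rfl⟩
  rw [hx] at f1 n1 ⊢
  rw [hx'] at f2 n2 ⊢
  rcases Nat.eq_zero_or_pos (x + x' - (M - 2 * h)) with h0 | h0
  · rw [h0, Nat.mul_zero]
    omega
  · have hxpos : t < D → 0 < x := by intro _; omega
    have hxpos' : t' < D → 0 < x' := by intro _; omega
    have g1 := f1 hxpos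
    have g2 := f2 hxpos'
    have e1 : (K + 1) * (x + x' - (M - 2 * h)) + D = (K + 1) * (x + h) + (K + 1) * (x' + h) := by
      rw [← hDe, ← Nat.mul_add (K + 1), ← Nat.mul_add (K + 1)]
      congr 1
      omega
    omega

end filler

end Pool.Agent.JIT
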