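import Pool.Agent.Lib_MP_033923_np.SymMain
import Pool.Agent.Lib_MP_033923_lc.Cost

set_option autoImplicit false

/-!
# The maximum deviation problem with weights for window systems
-/

namespace Pool.Agent.JIT

open Finset

theorem within_iff {D d a x k : ℕ} : Within D d a x k ↔ |(D : ℝ) * x - d * k| ≤ a := by
  unfold Within
  rw [abs_le]
  constructor
  · rintro ⟨h1, h2⟩
    have h3 : (d : ℝ) * k ≤ D * x + a := by exact_mod_cast h1
    have h4 : (D : ℝ) * x ≤ d * k + a := by exact_mod_cast h2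
    constructor <;> linarith
  · rintro ⟨h1, h2⟩
    constructor
    · have : (d : ℝ) * k ≤ D * x + a := by linarith
      exact_mod_cast this
    · have : (D : ℝ) * x ≤ d * k + a := by linarith
      exact_mod_cast this

theorem abs_dev_eq {D d x k : ℕ} (hD : 0 < D) :
    |(x : ℝ) - k * ((d : ℝ) / (D : ℝ))| = |(D : ℝ) * x - d * k| / D := by
  have hD' : (0 : ℝ) < D := by exact_mod_cast hD
  rw [eq_div_iff hD'.ne', ← abs_of_pos hD', ← abs_mul, abs_of_pos hD']
  congr 1
  field_simp

/-- a weighted deviation -/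
theorem wdev_eq {D d x k α : ℕ} (hD : 0 < D) (lam : ℝ) :
    lam * ((D : ℝ) / (α : ℝ)) * |(x : ℝ) - k * ((d : ℝ) / (D : ℝ))| =
      lam * (|(D : ℝ) * x - d * k| / α) := by
  have hD' : (0 : ℝ) < D := by exact_mod_cast hD
  rw [abs_dev_eq hD]
  field_simp

/-- the tolerance `α + δ` from a bound for the weighted deviation -/
theorem within_of_wdev {D d x k α δ a Z : ℕ} (hD : 0 < D) (hα : 0 < α) (ha : 0 < a) {lam : ℝ}
    (hlam : 0 < lam) (hδ : α * Z ≤ δ * a)
    (h : lam * ((D : ℝ) / (α : ℝ)) * |(x : ℝ) - k * ((d : ℝ) / (D : ℝ))| ≤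
      lam * (1 + (Z : ℝ) / a)) : Within D d (α + δ) x k := by
  rw [wdev_eq hD] at h
  have h1 := le_of_mul_le_mul_left h hlam
  have hα' : (0 : ℝ) < α := by exact_mod_cast hα
  have ha' : (0 : ℝ) < a := by exact_mod_cast ha
  rw [div_le_iff₀ hα'] at h1
  rw [within_iff]
  refine h1.trans ?_
  have h2 : (α : ℝ) * Z ≤ δ * a := by exact_mod_cast hδ
  have h3 : (α : ℝ) * Z / a ≤ δ := by
    rw [div_le_iff₀ ha']
    exact h2
  push_cast
  calc (1 + (Z : ℝ) / a) * α = α + α * Z / a := by ring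
    _ ≤ α + δ := by linarith

theorem wdev_le {D d x k α a' : ℕ} (hD : 0 < D) (hα : 0 < α) {lam t : ℝ}
    (hlam : 0 < lam) (ht : (a' : ℝ) ≤ t * α) (h : Within D d a' x k) :
    lam * ((D : ℝ) / (α : ℝ)) * |(x : ℝ) - k * ((d : ℝ) / (D : ℝ))| ≤ lam * t := by
  rw [wdev_eq hD]
  refine mul_le_mul_of_nonneg_left ?_ hlam.le
  have hα' : (0 : ℝ) < α := by exact_mod_cast hα
  rw [div_le_iff₀ hα']
  exact (within_iff.1 h).trans ht

section window

variable {P : Type} [Fintype P] {c : ℕ}

/-- the deviation functions of the weighted problem -/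
noncomputable def mF2 (G : Fin c → ℝ → ℝ) (lam : ℝ) (h Z W L : ℕ) (lo hi : P → ℕ) :
    Fin c ⊕ Model P → ℝ → ℝ
  | Sum.inl j => G j
  | Sum.inr i => fun x => lam * ((bigD2 P W L : ℝ) /
      (stol h Z W L ((bigD2 P W L - 1) / 2) lo hi i : ℝ)) * |x|

variable [DecidableEq P] {h Z W L : ℕ} {u lo hi : P → ℕ}

/-- an upper bound for the largest deviation -/
theorem maxDev_le {G : Fin c → ℝ → ℝ} {lam t : ℝ} (hlam : 0 < lam) (ht : 1 ≤ t)
    (hG : ∀ j x, G j x ≤ lam * |x|) (H : SymPar P c h Z W L u lo hi)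
    {S : ℕ → Fin c ⊕ Model P} (hS : IsSeq (wdem2 c W L u) S) {A : Model P → ℕ}
    (hA : ∀ i, (A i : ℝ) ≤ t * (stol h Z W L ((bigD2 P W L - 1) / 2) lo hi i : ℝ))
    (hpos : ∀ i, 0 < stol h Z W L ((bigD2 P W L - 1) / 2) lo hi i)
    (hw : ∀ i : Model P, ∀ k ∈ Icc 1 (bigD2 P W L), Within (bigD2 P W L)
      (wdem2 c W L u (Sum.inr i)) (A i) (produced S (Sum.inr i) k) k) :
    maxDeviation (wdem2 c W L u) (mF2 G lam h Z W L lo hi) S ≤ lam * t := by
  have hT := H.total
  have hD := H.D_pos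
  refine csSup_le ⟨_, Sum.inr none, 1, mem_Icc.2 ⟨le_rfl, by rw [hT]; exact hD⟩, rfl⟩ ?_
  rintro y ⟨i, k, hk, rfl⟩
  have hk' := hk
  rw [hT] at hk'
  unfold dev
  rw [hT]
  rcases i with j | i
  · change G j _ ≤ _
    refine (hG j _).trans (mul_le_mul_of_nonneg_left ?_ hlam.le)
    refine le_trans ?_ ht
    have hx : produced S (Sum.inl j) k ≤ 1 := by
      have h1 := hS (Sum.inl j)
      have h2 := produced_mono S (Sum.inl j) (mem_Icc.1 hk).2
      have h3 : wdem2 c W L u (Sum.inl j) = 1 := rfl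
      rw [h3] at h1
      exact h2.trans h1.le
    have hd : ((wdem2 c W L u (Sum.inl j) : ℕ) : ℝ) = 1 := by
      simp [wdem2]
    rw [hd, mul_one_div]
    have hD' : (0 : ℝ) < bigD2 P W L := by exact_mod_cast hD
    have h4 : (k : ℝ) / (bigD2 P W L : ℝ) ≤ 1 := by
      rw [div_le_one hD']
      exact_mod_cast (mem_Icc.1 hk').2
    have h5 : (0 : ℝ) ≤ (k : ℝ) / (bigD2 P W L : ℝ) := by positivity
    have h6 : (produced S (Sum.inl j) k : ℝ) ≤ 1 := by exact_mod_cast hx
    have h7 : (0 : ℝ) ≤ produced S (Sum.inl j) k := Nat.cast_nonneg _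
    rw [abs_le]
    constructor <;> linarith
  · change lam * _ * |_| ≤ _
    exact wdev_le hD (hpos i) hlam (hA i) (hw i k hk')

/-- The main theorem for weights. -/
theorem sym_max (H : SymPar P c h Z W L u lo hi) (hZ : 2 * (Fintype.card P + 1) * L ≤ Z)
    (hW8 : 8 * Z + 2 < W + 1) (hh : 2 ≤ h) (G : Fin c → ℝ → ℝ) {lam : ℝ} (hlam : 0 < lam)
    (hG : ∀ j x, G j x ≤ lam * |x|) (S : ℕ → Fin c ⊕ Model P)
    (hS : IsOptimalMax (wdem2 c W L u) (mF2 G lam h Z W L lo hi) S) :
    S ((bigD2 P W L + 1) / 2) = Sum.inr none ↔ ¬ ∃ q, Sol L u lo hi q := by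
  have hT := H.total
  have hD := H.D_pos
  have hDo := H.hDo
  have hWL : W * L ≤ bigD2 P W L := by
    unfold bigD2
    rw [Nat.mul_assoc]
    exact Nat.le_mul_of_pos_left _ (by omega)
  have hM := H.hM
  have hM1 : 2 * (4 * Z + 2) ≤ h * (4 * Z + 2) := Nat.mul_le_mul_right _ hh
  have hM2 : h * (4 * Z + 2) = 2 * (h * (2 * Z + 1)) := by ring
  have hpos : ∀ i : Model P, 0 < stol h Z W L ((bigD2 P W L - 1) / 2) lo hi i := by
    intro i
    have h1 := H.two_ftol (a := (bigD2 P W L - 1) / 2) (by omega) (Sum.inr i)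
    have h2 : ftol (c := c) h Z W L ((bigD2 P W L - 1) / 2) lo hi (Sum.inr i) =
      stol h Z W L ((bigD2 P W L - 1) / 2) lo hi i := rfl
    rw [h2] at h1
    omega
  -- bounds from the largest deviation
  have hdev : ∀ i : Model P, ∀ k ∈ Icc 1 (bigD2 P W L),
      lam * ((bigD2 P W L : ℝ) / (stol h Z W L ((bigD2 P W L - 1) / 2) lo hi i : ℝ)) *
        |(produced S (Sum.inr i) k : ℝ) - k * ((wdem2 c W L u (Sum.inr i) : ℝ) /
          (bigD2 P W L : ℝ))| ≤
      maxDeviation (wdem2 c W L u) (mF2 G lam h Z W L lo hi) S := by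
    intro i k hk
    have h1 : dev (wdem2 c W L u) (mF2 G lam h Z W L lo hi) S (Sum.inr i) k ≤
        maxDeviation (wdem2 c W L u) (mF2 G lam h Z W L lo hi) S :=
      le_csSup (finite_devs _ _ _).bddAbove ⟨Sum.inr i, k, by rw [hT]; exact hk, rfl⟩
    unfold dev at h1
    rw [hT] at h1
    exact h1
  obtain ⟨a, ha⟩ : ∃ a, (bigD2 P W L - 1) / 2 = a := ⟨_, rfl⟩
  have ha0 : 0 < a := by omega
  constructor
  · rintro hmid ⟨q, hq⟩
    obtain ⟨S', hS', hw⟩ := sym_near H
    have hle : maxDeviation (wdem2 c W L u) (mF2 G lam h Z W L lo hi) S' ≤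
        lam * (1 + (Z : ℝ) / a) := by
      refine maxDev_le hlam (by
        have : (0 : ℝ) ≤ (Z : ℝ) / a := by positivity
        linarith) hG H hS' (A := stol h Z W L ((bigD2 P W L - 1) / 2 + Z) lo hi)
        (fun i => ?_) hpos hw
      have ht : (0 : ℝ) ≤ (Z : ℝ) / a := by positivity
      have ha' : (0 : ℝ) < a := by exact_mod_cast ha0
      rcases i with _ | i
      · simp only [stol]
        rw [ha]
        push_cast
        have : (1 + (Z : ℝ) / a) * a = a + Z := by
          field_simp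
        rw [this]
      · have e : stol h Z W L ((bigD2 P W L - 1) / 2 + Z) lo hi (some i) =
            stol h Z W L ((bigD2 P W L - 1) / 2) lo hi (some i) := by
          rcases i with _ | _ | _ <;> rfl
        rw [e]
        have h0 : (0 : ℝ) ≤ (stol h Z W L ((bigD2 P W L - 1) / 2) lo hi (some i) : ℝ) :=
          Nat.cast_nonneg _
        nlinarith
    have hopt := (hS.2 S' hS').trans hle
    have h2a : bigD2 P W L = 2 * a + 1 := by omega
    refine sym_not H hZ (δ := 4 * Z + 1) (ρ := 2 * Z) (by omega)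
      (Nat.mul_le_mul_right _ hh) ⟨q, hq⟩ hS.1 (fun k hk => ?_) (fun i k hk => ?_) hmid
    · have h1 := (hdev (some none) k hk).trans hopt
      have e : stol h Z W L 0 lo hi (some none) =
          stol h Z W L ((bigD2 P W L - 1) / 2) lo hi (some none) := rfl
      rw [e]
      refine within_of_wdev hD (hpos _) ha0 hlam ?_ h1
      simp only [stol]
      have h3 : bigD2 P W L - h * (2 * Z + 1) ≤ 2 * a := by
        have : 1 ≤ h * (2 * Z + 1) := Nat.mul_pos (by omega) (by omega)
        omega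
      calc (bigD2 P W L - h * (2 * Z + 1)) * Z ≤ 2 * a * Z := Nat.mul_le_mul_right _ h3
        _ = 2 * Z * a := by ring
    · have h1 := (hdev (some (some i)) k hk).trans hopt
      have e : stol h Z W L 0 lo hi (some (some i)) =
          stol h Z W L ((bigD2 P W L - 1) / 2) lo hi (some (some i)) := by
        rcases i with _ | _ <;> rfl
      rw [e]
      refine within_of_wdev hD (hpos _) ha0 hlam ?_ h1
      have h3 : stol h Z W L ((bigD2 P W L - 1) / 2) lo hi (some (some i)) ≤ 4 * a + 2 := by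
        rcases i with j | j
        · simp only [stol]
          have h4 : (Fintype.card P + 1) * W * lo j ≤ bigD2 P W L := by
            unfold bigD2
            exact Nat.mul_le_mul_left _ ((H.hlo j).trans (H.hu j).le)
          omega
        · simp only [stol]
          omega
      calc stol h Z W L ((bigD2 P W L - 1) / 2) lo hi (some (some i)) * Z ≤
          (4 * a + 2) * Z := Nat.mul_le_mul_right _ h3
        _ = 4 * Z * a + 2 * Z := by ring
        _ ≤ 4 * Z * a + a := by omega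
        _ = (4 * Z + 1) * a := by ring
  · intro hno
    obtain ⟨S', hS', hw⟩ := sym_all H hno
    have hle : maxDeviation (wdem2 c W L u) (mF2 G lam h Z W L lo hi) S' ≤ lam * 1 :=
      maxDev_le hlam le_rfl hG H hS' (A := stol h Z W L ((bigD2 P W L - 1) / 2) lo hi)
        (fun i => by rw [one_mul]) hpos hw
    have hopt := (hS.2 S' hS').trans hle
    refine special_mid (c := c) (P := P) (by omega) hDo (fun k hk => ?_)
    have h1 := (hdev none k hk).trans hopt
    have h2 := within_of_wdev (Z := 0) (δ := 0) hD (hpos none) ha0 hlam (by simp)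
      (by simpa using h1)
    exact h2

end window

end Pool.Agent.JIT
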