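import Pool.Agent.Lib_MP_033923_np.SymDefs
import Pool.Agent.Lib_MP_033923_np.SymMax

set_option autoImplicit false
set_option linter.unusedSectionVars false

/-!
# The total deviation problem with symmetric functions for window systems
-/

namespace Pool.Agent.JIT

open Finset

theorem hinge2_nonneg {a H : ℝ} (hH : 0 ≤ H) (x : ℝ) : 0 ≤ hinge2 a H x :=
  add_nonneg (abs_nonneg x) (mul_nonneg hH (le_max_left _ _))

theorem hinge2_le {a H : ℝ} (ha : 0 ≤ a) (hH : 0 ≤ H) (x : ℝ) :
    hinge2 a H x ≤ (1 + H) * |x| := by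
  unfold hinge2
  have h1 : max 0 (|x| - a) ≤ |x| := max_le (abs_nonneg x) (by linarith)
  have h2 := mul_le_mul_of_nonneg_left h1 hH
  linarith

theorem hinge2_eq_abs {a H x : ℝ} (h : |x| ≤ a) : hinge2 a H x = |x| := by
  unfold hinge2
  rw [max_eq_left (by linarith), mul_zero, add_zero]

theorem hinge2_ge {a H x : ℝ} (hH : 0 ≤ H) : H * (|x| - a) ≤ hinge2 a H x := by
  unfold hinge2
  have h1 := mul_le_mul_of_nonneg_left (le_max_right 0 (|x| - a)) hH
  have h2 := abs_nonneg x
  linarith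

theorem convexOn_abs : ConvexOn ℝ Set.univ (fun x : ℝ => |x|) := by
  refine ⟨convex_univ, fun x _ y _ s t hs ht _ => ?_⟩
  simp only [smul_eq_mul]
  refine (abs_add_le _ _).trans (le_of_eq ?_)
  rw [abs_mul, abs_mul, abs_of_nonneg hs, abs_of_nonneg ht]

theorem hinge2_convex {a H : ℝ} (hH : 0 ≤ H) : ConvexOn ℝ Set.univ (hinge2 a H) := by
  have h2 : ConvexOn ℝ Set.univ (fun x : ℝ => max 0 (|x| - a)) := by
    have h3 : ConvexOn ℝ Set.univ (fun _ : ℝ => (0 : ℝ)) := convexOn_const _ convex_univ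
    have h4 : ConvexOn ℝ Set.univ (fun x : ℝ => |x| - a) := by
      have h5 := convexOn_abs.add (convexOn_const (-a) convex_univ)
      refine h5.congr (fun x _ => ?_)
      simp [sub_eq_add_neg]
    exact h3.sup h4
  exact convexOn_abs.add (h2.smul hH)

theorem hinge2_zero {a H : ℝ} (ha : 0 ≤ a) : hinge2 a H 0 = 0 := by
  rw [hinge2_eq_abs (by simpa using ha), abs_zero]

theorem hinge2_pos {a H : ℝ} (hH : 0 ≤ H) (x : ℝ) (hx : x ≠ 0) : 0 < hinge2 a H x := by
  unfold hinge2
  have h1 : 0 ≤ H * max 0 (|x| - a) := mul_nonneg hH (le_max_left _ _)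
  have h2 := abs_pos.2 hx
  linarith

section costs

variable {c : ℕ} {κ : Type} [Fintype κ] [DecidableEq κ]

/-- the deviation functions: `G j` for the additional models, symmetric hinges for the others -/
noncomputable def F3 (G : Fin c → ℝ → ℝ) (D : ℕ) (α H : κ → ℕ) : Fin c ⊕ κ → ℝ → ℝ :=
  Sum.elim G (fun i => hinge2 ((α i : ℝ) / (D : ℝ)) (H i))

variable (d : Fin c ⊕ κ → ℕ) (α H : κ → ℕ) (G : Fin c → ℝ → ℝ) (M : ℕ)

/-- the tolerance of model `i` is respected at position `k` -/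
def Good3 (S : ℕ → Fin c ⊕ κ) (i : κ) (k : ℕ) : Prop :=
  Within (total d) (d (Sum.inr i)) (α i) (produced S (Sum.inr i) k) k

theorem dev3_nonneg (hG0 : ∀ j x, 0 ≤ G j x) (S : ℕ → Fin c ⊕ κ) (i : Fin c ⊕ κ) (k : ℕ) :
    0 ≤ dev d (F3 G (total d) α H) S i k := by
  rcases i with i | i
  · exact hG0 i _
  · exact hinge2_nonneg (Nat.cast_nonneg _) _

theorem dev3_inl_le (hG : ∀ j x, G j x ≤ (M : ℝ) * |x|) (S : ℕ → Fin c ⊕ κ) (j : Fin c)
    (k : ℕ) (hk : k ∈ Icc 1 (total d)) :
    dev d (F3 G (total d) α H) S (Sum.inl j) k ≤ (M : ℝ) * total d := by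
  refine (hG j _).trans ?_
  exact mul_le_mul_of_nonneg_left (abs_dev_le d S (Sum.inl j) k hk) (Nat.cast_nonneg _)

theorem dev3_inr_le (hM : 1 ≤ M) (S : ℕ → Fin c ⊕ κ) (i : κ) (k : ℕ)
    (hk : k ∈ Icc 1 (total d)) (hg : Good3 d α S i k) :
    dev d (F3 G (total d) α H) S (Sum.inr i) k ≤ (M : ℝ) * total d := by
  have hD : 0 < total d := by
    rw [mem_Icc] at hk
    omega
  have hD' : (0 : ℝ) < total d := by exact_mod_cast hD
  have h0 := abs_dev_le d S (Sum.inr i) k hk
  change hinge2 _ _ _ ≤ _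
  rw [hinge2_eq_abs]
  · have h1 : (1 : ℝ) ≤ M := by exact_mod_cast hM
    nlinarith
  · rw [abs_dev_eq hD]
    exact div_le_div_of_nonneg_right (within_iff.1 hg) hD'.le

theorem dev3_ge (S : ℕ → Fin c ⊕ κ) (i : κ) (k : ℕ)
    (hk : k ∈ Icc 1 (total d)) (hg : ¬ Good3 d α S i k) :
    (H i : ℝ) / (total d : ℝ) ≤ dev d (F3 G (total d) α H) S (Sum.inr i) k := by
  have hD : 0 < total d := by
    rw [mem_Icc] at hk
    omega
  have hD' : (0 : ℝ) < total d := by exact_mod_cast hD
  change _ ≤ hinge2 _ _ _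
  refine le_trans ?_ (hinge2_ge (Nat.cast_nonneg _))
  rw [div_eq_mul_inv]
  refine mul_le_mul_of_nonneg_left ?_ (Nat.cast_nonneg _)
  rw [abs_dev_eq hD, ← sub_div, ← one_div]
  refine div_le_div_of_nonneg_right ?_ hD'.le
  unfold Good3 Within at hg
  obtain ⟨x, hx⟩ : ∃ x, produced S (Sum.inr i) k = x := ⟨_, rfl⟩
  rw [hx] at hg ⊢
  have h1 : total d * x + α i + 1 ≤ d (Sum.inr i) * k ∨
      d (Sum.inr i) * k + α i + 1 ≤ total d * x := by
    by_contra h
    apply hg
    constructor <;> omega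
  rcases h1 with h1 | h1
  · have h2 : (total d : ℝ) * x + α i + 1 ≤ d (Sum.inr i) * k := by exact_mod_cast h1
    have h3 := neg_le_abs ((total d : ℝ) * x - d (Sum.inr i) * k)
    linarith
  · have h2 : (d (Sum.inr i) : ℝ) * k + α i + 1 ≤ (total d : ℝ) * x := by exact_mod_cast h1
    have h3 := le_abs_self ((total d : ℝ) * x - d (Sum.inr i) * k)
    linarith

/-- the special model -/
theorem dev3_special_le (hM : 1 ≤ M) (S : ℕ → Fin c ⊕ κ) (hS : IsSeq d S) (s : κ)
    (hs : d (Sum.inr s) = 1) (k : ℕ) (hk : k ∈ Icc 1 (total d)) :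
    dev d (F3 G (total d) α H) S (Sum.inr s) k ≤ (M : ℝ) * total d + H s := by
  have hD : 0 < total d := by
    rw [mem_Icc] at hk
    omega
  have hD' : (0 : ℝ) < total d := by exact_mod_cast hD
  have h1 : |(produced S (Sum.inr s) k : ℝ) - k * ((d (Sum.inr s) : ℝ) / (total d : ℝ))| ≤ 1 := by
    have hx : produced S (Sum.inr s) k ≤ 1 := by
      have h1 := hS (Sum.inr s)
      have h2 := produced_mono S (Sum.inr s) (mem_Icc.1 hk).2
      rw [hs] at h1
      exact h2.trans h1.le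
    rw [hs, Nat.cast_one, mul_one_div]
    have h4 : (k : ℝ) / (total d : ℝ) ≤ 1 := by
      rw [div_le_one hD']
      exact_mod_cast (mem_Icc.1 hk).2
    have h5 : (0 : ℝ) ≤ (k : ℝ) / (total d : ℝ) := by positivity
    have h6 : (produced S (Sum.inr s) k : ℝ) ≤ 1 := by exact_mod_cast hx
    have h7 : (0 : ℝ) ≤ produced S (Sum.inr s) k := Nat.cast_nonneg _
    rw [abs_le]
    constructor <;> linarith
  change hinge2 _ _ _ ≤ _
  refine (hinge2_le (by positivity) (Nat.cast_nonneg _) _).trans ?_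
  have h2 : (1 : ℝ) ≤ M := by exact_mod_cast hM
  have h3 : (1 : ℝ) ≤ total d := by exact_mod_cast hD
  have h4 : (0 : ℝ) ≤ (H s : ℝ) := Nat.cast_nonneg _
  have h5 : (1 : ℝ) ≤ M * total d := by nlinarith
  calc (1 + (H s : ℝ)) * _ ≤ (1 + (H s : ℝ)) * 1 :=
        mul_le_mul_of_nonneg_left h1 (by linarith)
    _ ≤ _ := by linarith

theorem total3_ge (hG0 : ∀ j x, 0 ≤ G j x) (S : ℕ → Fin c ⊕ κ) (i : Fin c ⊕ κ) (k : ℕ)
    (hk : k ∈ Icc 1 (total d)) : dev d (F3 G (total d) α H) S i k ≤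
      totalDeviation d (F3 G (total d) α H) S := by
  unfold totalDeviation
  refine le_trans ?_ (Finset.single_le_sum
    (f := fun i => ∑ k ∈ Icc 1 (total d), dev d (F3 G (total d) α H) S i k)
    (fun j _ => Finset.sum_nonneg (fun l _ => dev3_nonneg d α H G hG0 S j l))
    (Finset.mem_univ i))
  exact Finset.single_le_sum (f := fun k => dev d (F3 G (total d) α H) S i k)
    (fun l _ => dev3_nonneg d α H G hG0 S i l) hk

/-- if everything is respected, the cost is at most `n * M * D ^ 2` -/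
theorem cost3_le_of_good (hM : 1 ≤ M) (hG : ∀ j x, G j x ≤ (M : ℝ) * |x|)
    (S : ℕ → Fin c ⊕ κ) (hg : ∀ i : κ, ∀ k ∈ Icc 1 (total d), Good3 d α S i k) :
    totalDeviation d (F3 G (total d) α H) S ≤
      ((Fintype.card (Fin c ⊕ κ) * M : ℕ) : ℝ) * (total d : ℝ) ^ 2 := by
  unfold totalDeviation
  have : ∀ i ∈ (Finset.univ : Finset (Fin c ⊕ κ)),
      ∑ k ∈ Icc 1 (total d), dev d (F3 G (total d) α H) S i k
        ≤ (M : ℝ) * (total d : ℝ) ^ 2 := by
    intro i _
    have h1 : ∑ k ∈ Icc 1 (total d), dev d (F3 G (total d) α H) S i k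
        ≤ ∑ k ∈ Icc 1 (total d), (M : ℝ) * (total d : ℝ) := by
      refine Finset.sum_le_sum (fun k hk => ?_)
      rcases i with i | i
      · exact dev3_inl_le d α H G M hG S i k hk
      · exact dev3_inr_le d α H G M hM S i k hk (hg i k hk)
    refine h1.trans (le_of_eq ?_)
    rw [Finset.sum_const, Nat.card_Icc, nsmul_eq_mul]
    simp
    ring
  refine (Finset.sum_le_sum this).trans (le_of_eq ?_)
  rw [Finset.sum_const, nsmul_eq_mul, Finset.card_univ]
  push_cast
  ring

/-- if everything but the special model is respected, the cost is at most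
`n * M * D ^ 2 + D * H_s` -/
theorem cost3_le_of_good' (hM : 1 ≤ M) (hG : ∀ j x, G j x ≤ (M : ℝ) * |x|) (s : κ)
    (S : ℕ → Fin c ⊕ κ) (hS : IsSeq d S) (hs : d (Sum.inr s) = 1)
    (hg : ∀ i : κ, i ≠ s → ∀ k ∈ Icc 1 (total d), Good3 d α S i k) :
    totalDeviation d (F3 G (total d) α H) S ≤
      ((Fintype.card (Fin c ⊕ κ) * M : ℕ) : ℝ) * (total d : ℝ) ^ 2 + total d * H s := by
  unfold totalDeviation
  have : ∀ i ∈ (Finset.univ : Finset (Fin c ⊕ κ)),
      ∑ k ∈ Icc 1 (total d), dev d (F3 G (total d) α H) S i k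
        ≤ (M : ℝ) * (total d : ℝ) ^ 2 + (if i = Sum.inr s then (total d : ℝ) * H s else 0) := by
    intro i _
    have h1 : ∑ k ∈ Icc 1 (total d), dev d (F3 G (total d) α H) S i k
        ≤ ∑ k ∈ Icc 1 (total d),
          ((M : ℝ) * (total d : ℝ) + (if i = Sum.inr s then (H s : ℝ) else 0)) := by
      refine Finset.sum_le_sum (fun k hk => ?_)
      rcases i with i | i
      · rw [if_neg (by simp), add_zero]
        exact dev3_inl_le d α H G M hG S i k hk
      · by_cases h : i = s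
        · subst h
          rw [if_pos rfl]
          exact dev3_special_le d α H G M hM S hS i hs k hk
        · rw [if_neg (fun hh => h (Sum.inr.inj hh)), add_zero]
          exact dev3_inr_le d α H G M hM S i k hk (hg i h k hk)
    refine h1.trans (le_of_eq ?_)
    rw [Finset.sum_const, Nat.card_Icc, nsmul_eq_mul]
    split_ifs <;> simp <;> ring
  refine (Finset.sum_le_sum this).trans (le_of_eq ?_)
  rw [Finset.sum_add_distrib, Finset.sum_const, nsmul_eq_mul, Finset.card_univ,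
    Finset.sum_ite_eq' Finset.univ (Sum.inr s), if_pos (Finset.mem_univ _)]
  push_cast
  ring

/-- an optimal sequence respects everything if this is possible -/
theorem good3_of_opt_all (hM : 1 ≤ M) (hG0 : ∀ j x, 0 ≤ G j x)
    (hG : ∀ j x, G j x ≤ (M : ℝ) * |x|) (s : κ)
    (hHs : H s = penS (Fintype.card (Fin c ⊕ κ) * M) (total d))
    (S' : ℕ → Fin c ⊕ κ) (hg : ∀ i : κ, ∀ k ∈ Icc 1 (total d), Good3 d α S' i k)
    (S : ℕ → Fin c ⊕ κ) (hopt : totalDeviation d (F3 G (total d) α H) S ≤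
      totalDeviation d (F3 G (total d) α H) S') :
    ∀ k ∈ Icc 1 (total d), Good3 d α S s k := by
  intro k hk
  by_contra hng
  have h1D : 0 < total d := by
    rw [mem_Icc] at hk
    omega
  have hD : (0 : ℝ) < total d := by exact_mod_cast h1D
  have h1 := cost3_le_of_good d α H G M hM hG S' hg
  have h2 := dev3_ge d α H G S s k hk hng
  have h3 := total3_ge d α H G hG0 S (Sum.inr s) k hk
  have h4 : ((H s : ℕ) : ℝ) / (total d : ℝ)
      = ((Fintype.card (Fin c ⊕ κ) * M : ℕ) : ℝ) * (total d : ℝ) ^ 2 + 1 := by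
    rw [hHs, penS]
    push_cast
    field_simp
  linarith

theorem good3_of_opt (hM : 1 ≤ M) (hG0 : ∀ j x, 0 ≤ G j x)
    (hG : ∀ j x, G j x ≤ (M : ℝ) * |x|) (s : κ) (hs : d (Sum.inr s) = 1)
    (hHs : H s = penS (Fintype.card (Fin c ⊕ κ) * M) (total d))
    (hHo : ∀ i, i ≠ s → H i = penO (Fintype.card (Fin c ⊕ κ) * M) (total d))
    (S' : ℕ → Fin c ⊕ κ) (hS' : IsSeq d S')
    (hg : ∀ i : κ, i ≠ s → ∀ k ∈ Icc 1 (total d), Good3 d α S' i k)
    (S : ℕ → Fin c ⊕ κ) (hopt : totalDeviation d (F3 G (total d) α H) S ≤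
      totalDeviation d (F3 G (total d) α H) S') :
    ∀ i : κ, i ≠ s → ∀ k ∈ Icc 1 (total d), Good3 d α S i k := by
  intro i hi k hk
  by_contra hng
  have h1D : 0 < total d := by
    rw [mem_Icc] at hk
    omega
  have hD : (0 : ℝ) < total d := by exact_mod_cast h1D
  have h1 := cost3_le_of_good' d α H G M hM hG s S' hS' hs hg
  have h2 := dev3_ge d α H G S i k hk hng
  have h3 := total3_ge d α H G hG0 S (Sum.inr i) k hk
  have h4 : ((H i : ℕ) : ℝ) / (total d : ℝ)
      = ((Fintype.card (Fin c ⊕ κ) * M : ℕ) : ℝ) * (total d : ℝ) ^ 2 + total d * H s + 1 := by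
    rw [hHo i hi, penO, hHs]
    push_cast
    field_simp
  linarith

end costs

section window

variable {P : Type} [Fintype P] {c : ℕ}

/-- the deviation functions for the total deviation problem -/
noncomputable def sF2 (G : Fin c → ℝ → ℝ) (h Z W L : ℕ) (lo hi : P → ℕ) (Hs Ho : ℕ) :
    Fin c ⊕ Model P → ℝ → ℝ
  | Sum.inl j => G j
  | Sum.inr none => hinge2 ((stol h Z W L ((bigD2 P W L - 1) / 2) lo hi none : ℝ) /
      (bigD2 P W L : ℝ)) Hs
  | Sum.inr (some i) => hinge2 ((stol h Z W L ((bigD2 P W L - 1) / 2) lo hi (some i) : ℝ) /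
      (bigD2 P W L : ℝ)) Ho

theorem sF2_eq (G : Fin c → ℝ → ℝ) (h Z W L : ℕ) (lo hi : P → ℕ) (n : ℕ) :
    sF2 G h Z W L lo hi (penS n (bigD2 P W L)) (penO n (bigD2 P W L)) =
      F3 G (bigD2 P W L) (stol h Z W L ((bigD2 P W L - 1) / 2) lo hi)
        (wpen P n (bigD2 P W L)) := by
  funext i
  rcases i with i | _ | i <;> rfl

variable [DecidableEq P] {h Z W L : ℕ} {u lo hi : P → ℕ}

/-- The main theorem for the total deviation. -/
theorem sym_total (H : SymPar P c h Z W L u lo hi) (hZ : 2 * (Fintype.card P + 1) * L ≤ Z)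
    (G : Fin c → ℝ → ℝ) (M : ℕ) (hM : 1 ≤ M) (hG0 : ∀ j x, 0 ≤ G j x)
    (hG : ∀ j x, G j x ≤ (M : ℝ) * |x|) (S : ℕ → Fin c ⊕ Model P)
    (hS : IsOptimalTotal (wdem2 c W L u)
      (sF2 G h Z W L lo hi (penS ((c + 2 * Fintype.card P + 2) * M) (bigD2 P W L))
        (penO ((c + 2 * Fintype.card P + 2) * M) (bigD2 P W L))) S) :
    S ((bigD2 P W L + 1) / 2) = Sum.inr none ↔ ¬ ∃ q, Sol L u lo hi q := by
  have hT := H.total
  have hD := H.D_pos
  have hDo := H.hDo
  have hn : Fintype.card (Fin c ⊕ Model P) = c + 2 * Fintype.card P + 2 := by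
    rw [Fintype.card_sum, Fintype.card_option, Fintype.card_option, Fintype.card_sum,
      Fintype.card_fin]
    ring
  rw [sF2_eq, ← hn] at hS
  have hF : F3 G (bigD2 P W L) (stol h Z W L ((bigD2 P W L - 1) / 2) lo hi)
      (wpen P (Fintype.card (Fin c ⊕ Model P) * M) (bigD2 P W L)) =
      F3 G (total (wdem2 c W L u)) (stol h Z W L ((bigD2 P W L - 1) / 2) lo hi)
      (wpen P (Fintype.card (Fin c ⊕ Model P) * M) (total (wdem2 c W L u))) := by
    rw [hT]
  rw [hF] at hS
  constructor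
  · rintro hmid ⟨q, hq⟩
    obtain ⟨S', hS', hw⟩ := sym_near H
    have hgood := good3_of_opt (wdem2 c W L u) (stol h Z W L ((bigD2 P W L - 1) / 2) lo hi)
      (wpen P (Fintype.card (Fin c ⊕ Model P) * M) (total (wdem2 c W L u))) G M hM hG0 hG none
      rfl rfl (fun i hi => by
        rcases i with _ | i
        · exact absurd rfl hi
        · rfl) S' hS' (fun i hi k hk => by
        rw [hT] at hk
        have h1 := hw i k hk
        unfold Good3
        rw [hT]
        rcases i with _ | _ | _ | _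
        · exact absurd rfl hi
        · exact h1
        · exact h1
        · exact h1) S (hS.2 S' hS')
    unfold Good3 at hgood
    rw [hT] at hgood
    exact sym_not H hZ (δ := 0) (ρ := 0) (by omega) (Nat.zero_le _) ⟨q, hq⟩ hS.1
      (fun k hk => hgood (some none) (by simp) k hk)
      (fun i k hk => by
        rcases i with i | i
        · exact hgood (some (some (Sum.inl i))) (by simp) k hk
        · exact hgood (some (some (Sum.inr i))) (by simp) k hk) hmid
  · intro hno
    obtain ⟨S', hS', hw⟩ := sym_all H hno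
    have hgood := good3_of_opt_all (wdem2 c W L u) (stol h Z W L ((bigD2 P W L - 1) / 2) lo hi)
      (wpen P (Fintype.card (Fin c ⊕ Model P) * M) (total (wdem2 c W L u))) G M hM hG0 hG none
      rfl S' (fun i k hk => by
        rw [hT] at hk
        have h1 := hw i k hk
        unfold Good3
        rw [hT]
        exact h1) S (hS.2 S' hS')
    unfold Good3 at hgood
    rw [hT] at hgood
    have hWL : W * L ≤ bigD2 P W L := by
      unfold bigD2
      rw [Nat.mul_assoc]
      exact Nat.le_mul_of_pos_left _ (by omega)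
    have hMM := H.hM
    have hM1 : 1 * (4 * Z + 2) ≤ h * (4 * Z + 2) := Nat.mul_le_mul_right _ H.h1
    exact special_mid (c := c) (P := P) (by omega) hDo (fun k hk => hgood k hk)

end window

end Pool.Agent.JIT
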