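import Pool.Agent.Lib_MP_033923_np.Inst

set_option autoImplicit false

/-!
# Two fixed sequences of symmetric deviation functions

The functions are arranged in blocks `N = 0, 1, 2, ...`. Block `N` consists of the `4 N + 2`
functions with the indices `2 N ^ 2 + 1, ..., 2 (N + 1) ^ 2` (the function with index `0` is equal
to the one with index `1`).
-/

namespace Pool.Agent.JIT

open Finset

/-- The piecewise linear function `|x| + H * max (0, |x| - a)`. -/
noncomputable def hinge2 (a H : ℝ) (x : ℝ) : ℝ := |x| + H * max 0 (|x| - a)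

/-- the index of the first function of block `N` -/
def offS (N : ℕ) : ℕ := 2 * N ^ 2 + 1

/-- the number of functions up to block `N` -/
def cntS (N : ℕ) : ℕ := 2 * (N + 1) ^ 2 + 1

/-- a factor in the multipliers of the window conditions of block `N` -/
def RS (N : ℕ) : ℕ := 4 * N + 3

/-- a factor in the moduli of block `N` -/
def QS (N : ℕ) : ℕ := RS N * (2 * N + 2)

/-- the moduli of block `N` -/
def mdS (N x : ℕ) : ℕ := 1 + QS N * ((x + 1) * N.factorial)

/-- the product of the moduli of block `N` -/
def LS (N : ℕ) : ℕ := ∏ x ∈ range N, mdS N x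

/-- half the number of models of demand one in the instances of block `N` -/
def hS (N : ℕ) : ℕ := N ^ 2 + 1

/-- a distance from the middle position -/
def ZS (N : ℕ) : ℕ := 2 * (2 * N + 1) * LS N

/-- the factor in the demands of block `N` -/
def WS (N : ℕ) : ℕ := 24 * (2 * N + 1) * hS N * LS N + 1

/-- the total demand `D` of the instances of block `N` -/
def DS (N : ℕ) : ℕ := (2 * N + 1) * WS N * LS N

/-- the upper ends of the window conditions of block `N` -/
def hiS (N j : ℕ) : ℕ := if j < N then LS N / mdS N j else LS N / QS N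

/-- the tolerance `α` of the function number `r = 0, ..., 4 N + 1` of block `N` -/
def tolS (N r : ℕ) : ℕ :=
  if r = 0 then (DS N - 1) / 2
  else if r = 1 then DS N - hS N * (2 * ZS N + 1)
  else if r < 2 * N + 2 then DS N + (2 * N + 1) * WS N * loN N (r - 2) - (WS N + 1) / 2
  else DS N - (2 * N + 1) * WS N * hiS N (r - 2 - 2 * N) - (WS N + 1) / 2

/-- `1 + H` for all functions of block `N` is at most `CS N` times the bound for earlier blocks -/
def CS (N : ℕ) : ℕ := cntS N * DS N ^ 3 + DS N ^ 3 * (cntS N * DS N ^ 2 + 1) + DS N + 1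

/-- a bound for `1 + H` for the functions of the blocks before `N` -/
def MS (N : ℕ) : ℕ := ∏ j ∈ range N, CS j

/-- the penalty `H` of the function number `r` of block `N` -/
def penSF (N r : ℕ) : ℕ :=
  if r = 0 then penS (cntS N * MS N) (DS N) else penO (cntS N * MS N) (DS N)

/-- the block of index `i` -/
def blkS (i : ℕ) : ℕ := Nat.sqrt ((i - 1) / 2)

/-- the denominator `D` of the function with index `i` -/
def denSI (i : ℕ) : ℕ := DS (blkS i)

/-- the tolerance `α` of the function with index `i` -/
def tolSI (i : ℕ) : ℕ := tolS (blkS i) (i - offS (blkS i))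

/-- the penalty `H` of the function with index `i` -/
def penSI (i : ℕ) : ℕ := penSF (blkS i) (i - offS (blkS i))

/-- the fixed sequence of deviation functions `|x| + H_i max (0, |x| - α_i / D_i)` -/
noncomputable def Sstar (i : ℕ) : ℝ → ℝ := hinge2 ((tolSI i : ℝ) / (denSI i : ℝ)) (penSI i : ℝ)

/-- the weight with index `i`: `3 ^ N D_i / α_i` for the block `N` of `i` -/
def wtS (i : ℕ) : ℚ := (3 : ℚ) ^ blkS i * ((denSI i : ℚ) / (tolSI i : ℚ))

/-- the fixed sequence of deviation functions `w_i |x|` -/
noncomputable def Wstar (i : ℕ) (x : ℝ) : ℝ := (wtS i : ℝ) * |x|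

/-- the multipliers of the window conditions of block `N` -/
def uS (N : ℕ) (inc : ℕ → ℕ → Bool) (j : ℕ) : ℕ :=
  RS N * (if j < N then LS N / mdS N j
    else ∑ x ∈ range N, (inc x (j - N)).toNat * (((x + 1) * N.factorial) * (LS N / mdS N x)))

/-- the demands of the instance of block `N` attached to the incidences `inc` -/
def demN (N : ℕ) (inc : ℕ → ℕ → Bool) : List ℕ :=
  List.replicate (offS N) 1 ++ (1 :: (WS N * LS N - 1 - offS N) ::
    ((List.range (N + N)).map (fun j => WS N * uS N inc j) ++
     (List.range (N + N)).map (fun j => WS N * (LS N - uS N inc j))))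

end Pool.Agent.JIT
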