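import Pool.Agent.Lib_MP_033923_np.SymInst
import Pool.Agent.Lib_MP_033923_np.FixEval

set_option autoImplicit false

/-!
# The symmetric functions are computed in polynomial time
-/

namespace Pool.Agent.JIT

open Pool.Agent.PartSep Pool.Agent.PartSep.TM Pool.Agent.PartSep.TM.Rep Pool.Agent.PartSep.CL
  Pool.Agent.Lib_MP_8cd8c6_lc N487b59b3

set_option synthInstance.maxSize 2000

variable {E F G : Type} [Rep E] [Rep F] [Rep G]

/-! ### The numbers of a block -/

theorem fp_offS {N : E → ℕ} (hN : FP N) : FP (fun x => offS (N x)) := by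
  unfold offS
  exact (FP.add (FP.mul (FP.const 2) (FP.mul hN hN)) (FP.const 1)).congr (fun x => by rw [sq])

theorem fpb_mdS {N j : E → ℕ} (hN : FP N) (hj : FP j) : FPB (fun x => mdS (N x) (j x)) := by
  unfold mdS QS RS
  exact fp_addB (fpb_const 1) (fp_mulB (fp_ofNat (FP.mul
    (FP.add (FP.mul (FP.const 4) hN) (FP.const 3)) (FP.add (FP.mul (FP.const 2) hN) (FP.const 2))))
    (fp_mulB (fp_ofNat (FP.add hj (FP.const 1))) (fp_factorial hN)))

theorem fpb_LS {N : E → ℕ} (hN : FP N) : FPB (fun x => LS (N x)) := by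
  unfold LS
  exact fp_prodRange hN (g := fun y : E × ℕ => (⟨mdS (N y.1) y.2⟩ : Bi))
    (fpb_mdS (FP.comp hN FP.fst) FP.snd)

theorem fpb_hS {N : E → ℕ} (hN : FP N) : FPB (fun x => hS (N x)) := by
  unfold hS
  exact fp_ofNat ((FP.add (FP.mul hN hN) (FP.const 1)).congr (fun x => by rw [sq]))

theorem fpb_WS {N : E → ℕ} (hN : FP N) : FPB (fun x => WS (N x)) := by
  unfold WS
  exact fp_addB (fp_mulB (fp_mulB (fp_mulB (fpb_const 24) (fe_odd hN)) (fpb_hS hN)) (fpb_LS hN))
    (fpb_const 1)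

theorem fpb_ZS {N : E → ℕ} (hN : FP N) : FPB (fun x => ZS (N x)) := by
  unfold ZS
  exact fp_mulB (fp_mulB (fpb_const 2) (fe_odd hN)) (fpb_LS hN)

theorem fpb_DS {N : E → ℕ} (hN : FP N) : FPB (fun x => DS (N x)) := by
  unfold DS
  exact fp_mulB (fp_mulB (fe_odd hN) (fpb_WS hN)) (fpb_LS hN)

theorem fpb_QS {N : E → ℕ} (hN : FP N) : FPB (fun x => QS (N x)) := by
  unfold QS RS
  exact fp_ofNat (FP.mul (FP.add (FP.mul (FP.const 4) hN) (FP.const 3))
    (FP.add (FP.mul (FP.const 2) hN) (FP.const 2)))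

theorem fpb_RS {N : E → ℕ} (hN : FP N) : FPB (fun x => RS (N x)) := by
  unfold RS
  exact fp_ofNat (FP.add (FP.mul (FP.const 4) hN) (FP.const 3))

theorem fpb_hiS {N j : E → ℕ} (hN : FP N) (hj : FP j) : FPB (fun x => hiS (N x) (j x)) := by
  unfold hiS
  exact fpb_ite (FP.natLt hj hN) (fp_divB (fpb_LS hN) (fpb_mdS hN hj))
    (fp_divB (fpb_LS hN) (fpb_QS hN))

theorem fpb_uS {N : E → ℕ} (hN : FP N) {inc : E → ℕ → ℕ → Bool}
    (hinc : FP (fun y : E × (ℕ × ℕ) => inc y.1 y.2.1 y.2.2)) {j : E → ℕ} (hj : FP j) :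
    FPB (fun x => uS (N x) (inc x) (j x)) := by
  unfold uS
  refine fp_mulB (fpb_RS hN) (fpb_ite (FP.natLt hj hN)
    (fp_divB (fpb_LS hN) (fpb_mdS hN hj)) ?_)
  refine fp_sumRange hN (g := fun y : E × ℕ => (⟨(inc y.1 y.2 (j y.1 - N y.1)).toNat *
    (((y.2 + 1) * (N y.1).factorial) * (LS (N y.1) / mdS (N y.1) y.2))⟩ : Bi)) ?_
  have hN' : FP (fun y : E × ℕ => N y.1) := FP.comp hN FP.fst
  have hj' : FP (fun y : E × ℕ => j y.1) := FP.comp hj FP.fst
  refine fp_mulB (fp_natToBool ?_) (fp_mulB (fp_mulB (fp_ofNat (FP.add FP.snd (FP.const 1)))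
    (fp_factorial hN')) (fp_divB (fpb_LS hN') (fpb_mdS hN' FP.snd)))
  exact FP.comp (g := fun y : E × (ℕ × ℕ) => inc y.1 y.2.1 y.2.2)
    (f := fun y : E × ℕ => (y.1, (y.2, j y.1 - N y.1))) hinc
    (FP.pair FP.fst (FP.pair FP.snd (FP.sub hj' hN')))

/-! ### The numbers of a function -/

theorem fpb_tolS {N r : E → ℕ} (hN : FP N) (hr : FP r) : FPB (fun x => tolS (N x) (r x)) := by
  unfold tolS
  have hW := fpb_WS hN
  have hD := fpb_DS hN
  have h2N2 : FP (fun x => 2 * N x + 2) := FP.add (FP.mul (FP.const 2) hN) (FP.const 2)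
  have hr2 : FP (fun x => r x - 2) := FP.sub hr (FP.const 2)
  have hlo : FPB (fun x => loN (N x) (r x - 2)) := by
    unfold loN
    exact fpb_ite (FP.natLt hr2 hN) (fpb_const 0) (fpb_const 1)
  have hj : FP (fun x => r x - 2 - 2 * N x) := FP.sub hr2 (FP.mul (FP.const 2) hN)
  have hW2 : FPB (fun x => (WS (N x) + 1) / 2) :=
    fp_divB (fp_addB hW (fpb_const 1)) (fpb_const 2)
  exact fpb_ite (FP.natEq hr (FP.const 0))
    (fp_divB (fp_subB hD (fpb_const 1)) (fpb_const 2))
    (fpb_ite (FP.natEq hr (FP.const 1))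
      (fp_subB hD (fp_mulB (fpb_hS hN) (fp_addB (fp_mulB (fpb_const 2) (fpb_ZS hN))
        (fpb_const 1))))
      (fpb_ite (FP.natLt hr h2N2)
        (fp_subB (fp_addB hD (fp_mulB (fp_mulB (fe_odd hN) hW) hlo)) hW2)
        (fp_subB (fp_subB hD (fp_mulB (fp_mulB (fe_odd hN) hW) (fpb_hiS hN hj))) hW2)))

theorem fpb_cntS {N : E → ℕ} (hN : FP N) : FPB (fun x => cntS (N x)) := by
  unfold cntS
  have h1 : FP (fun x => N x + 1) := FP.add hN (FP.const 1)
  exact fp_ofNat ((FP.add (FP.mul (FP.const 2) (FP.mul h1 h1)) (FP.const 1)).congr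
    (fun x => by rw [sq]))

theorem fpb_CS {N : E → ℕ} (hN : FP N) : FPB (fun x => CS (N x)) := by
  unfold CS
  have hD := fpb_DS hN
  exact fp_addB (fp_addB (fp_addB (fp_mulB (fpb_cntS hN) (fe_pow3 hD)) (fp_mulB (fe_pow3 hD)
    (fp_addB (fp_mulB (fpb_cntS hN) (fpb_pow2 hD)) (fpb_const 1)))) hD) (fpb_const 1)

theorem fpb_MS {N : E → ℕ} (hN : FP N) : FPB (fun x => MS (N x)) := by
  unfold MS
  exact fp_prodRange hN (g := fun y : E × ℕ => (⟨CS y.2⟩ : Bi)) (fpb_CS FP.snd)

theorem fpb_penSF {N r : E → ℕ} (hN : FP N) (hr : FP r) :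
    FPB (fun x => penSF (N x) (r x)) := by
  unfold penSF
  have hD := fpb_DS hN
  have hn : FPB (fun x => cntS (N x) * MS (N x)) := fp_mulB (fpb_cntS hN) (fpb_MS hN)
  have hS : FPB (fun x => penS (cntS (N x) * MS (N x)) (DS (N x))) := by
    unfold penS
    exact fp_mulB hD (fp_addB (fp_mulB hn (fpb_pow2 hD)) (fpb_const 1))
  have hO : FPB (fun x => penO (cntS (N x) * MS (N x)) (DS (N x))) := by
    unfold penO
    exact fp_mulB hD (fp_addB (fp_addB (fp_mulB hn (fpb_pow2 hD)) (fp_mulB hD hS)) (fpb_const 1))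
  exact fpb_ite (FP.natEq hr (FP.const 0)) hS hO

theorem fp_blkS {i : E → ℕ} (hi : FP i) : FP (fun x => blkS (i x)) :=
  fe_blk (FP.sub hi (FP.const 1))

theorem fp_remS {i : E → ℕ} (hi : FP i) : FP (fun x => i x - offS (blkS (i x))) :=
  FP.sub hi (fp_offS (fp_blkS hi))

theorem fpb_denSI {i : E → ℕ} (hi : FP i) : FPB (fun x => denSI (i x)) := by
  unfold denSI
  exact fpb_DS (fp_blkS hi)

theorem fpb_tolSI {i : E → ℕ} (hi : FP i) : FPB (fun x => tolSI (i x)) := by
  unfold tolSI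
  exact fpb_tolS (fp_blkS hi) (fp_remS hi)

theorem fpb_penSI {i : E → ℕ} (hi : FP i) : FPB (fun x => penSI (i x)) := by
  unfold penSI
  exact fpb_penSF (fp_blkS hi) (fp_remS hi)

theorem fpb_pow3n {N : E → ℕ} (hN : FP N) : FPB (fun x => 3 ^ N x) := by
  have h := fp_prodRange hN (g := fun _ : E × ℕ => (⟨3⟩ : Bi)) (FP.const _)
  refine h.congr (fun x => ?_)
  congr 1
  simp

/-! ### The weights -/

/-- the numerator of the weight -/
def wnum (i : ℕ) : ℕ := 3 ^ blkS i * denSI i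

theorem fpb_wnum {i : E → ℕ} (hi : FP i) : FPB (fun x => wnum (i x)) := by
  unfold wnum
  exact fp_mulB (fpb_pow3n (fp_blkS hi)) (fpb_denSI hi)

theorem wtS_eq (i : ℕ) : wtS i = (wnum i : ℚ) / (tolSI i : ℚ) := by
  unfold wtS wnum
  push_cast
  ring

/-- the code of the weight -/
def weG (w : List Sym) : List Sym :=
  codQ true
    (wnum (unb w).length / Nat.gcd (wnum (unb w).length) (tolSI (unb w).length))
    (tolSI (unb w).length / Nat.gcd (wnum (unb w).length) (tolSI (unb w).length))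

/-- The weights are computed in polynomial time. -/
theorem poly_wtS : N68a2faeb.IsPolyTime (fun c : List Bool => wtS c.length) := by
  have hg : FP weG := by
    have hi : FP (fun w : List Sym => (unb w).length) := FP.length (fp_unb FP.id)
    have hA : FPB (fun w : List Sym => wnum (unb w).length) := fpb_wnum hi
    have hB : FPB (fun w : List Sym => tolSI (unb w).length) := fpb_tolSI hi
    have hgcd := fp_gcd hA hB
    unfold weG
    exact fp_codQ (FP.const true) (fp_divB hA hgcd) (fp_divB hB hgcd)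
  refine FP.toTM2 (αΓ := Bool) (βΓ := Bool) bs sb bs sb_bs hg (fun c => ?_)
  have e1 : ((N487b59b3.toEncoding (α := List Bool)).encode c).map bs =
      (bitEncode c).map bs := rfl
  have e2 : ((N487b59b3.toEncoding (α := ℚ)).encode (wtS c.length)).map bs =
      (bitEncode (sgQ true ((wnum c.length : ℚ) / (tolSI c.length : ℚ)))).map bs := by
    rw [← wtS_eq]
    rfl
  rw [e1, e2, encode_frac true (wnum c.length) (tolSI_pos c.length)]
  unfold weG
  rw [unb_code, List.length_map]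

/-! ### The values -/

/-- an evaluator for values of the form `A (i, num, den) / B (i, den)` -/
theorem polyEval_frac {F : ℕ → ℝ → ℝ} (A : ℕ → ℕ → ℕ → ℕ) (B : ℕ → ℕ → ℕ)
    (hB0 : ∀ i d, 0 < d → 0 < B i d)
    (hF : ∀ i (x : ℚ), F i (x : ℝ) =
      ((A i (x.num.toNat + (-x.num).toNat) x.den : ℕ) : ℝ) / ((B i x.den : ℕ) : ℝ))
    (hA' : ∀ {i a d : List Sym → ℕ}, FP i → FPB a → FPB d → FPB (fun w => A (i w) (a w) (d w)))
    (hB' : ∀ {i d : List Sym → ℕ}, FP i → FPB d → FPB (fun w => B (i w) (d w))) :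
    PolyEvalSeq F := by
  refine ⟨fun y => (A y.1.length (y.2.num.toNat + (-y.2.num).toNat) y.2.den : ℚ) /
    (B y.1.length y.2.den : ℚ), ?_, fun c x => ?_⟩
  · have h1 : FP (fun w : List Sym => undel w) := fp_undel FP.id
    have hi : FP (fun w : List Sym => (unb (undel w).1).length) :=
      FP.length (fp_unb (FP.comp FP.fst h1))
    have h2 : FP (fun w : List Sym => undel (undel w).2) := fp_undel (FP.comp FP.snd h1)
    have h3 : FP (fun w : List Sym => undel (undel (undel w).2).1) :=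
      fp_undel (FP.comp FP.fst h2)
    have hp : FPB (fun w : List Sym => valS (undel (undel (undel w).2).1).1) :=
      fp_valS (FP.comp FP.fst h3)
    have hm : FPB (fun w : List Sym => valS (undel (undel (undel w).2).1).2) :=
      fp_valS (FP.comp FP.snd h3)
    have hd : FPB (fun w : List Sym => valS (undel (undel w).2).2) :=
      fp_valS (FP.comp FP.snd h2)
    have hA := hA' hi (fp_addB hp hm) hd
    have hB := hB' hi hd
    have hg := fp_gcd hA hB
    have hG := fp_codQ (FP.const true) (fp_divB hA hg) (fp_divB hB hg)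
    refine FP.toTM2 (αΓ := Bool) (βΓ := Bool) bs sb bs sb_bs hG (fun y => ?_)
    obtain ⟨c, x⟩ := y
    have e1 : ((N487b59b3.toEncoding (α := List Bool × ℚ)).encode (c, x)).map bs =
        del ((bitEncode c).map bs) ++ (bitEncode x).map bs := bitEncode_prod (c, x)
    have e2 : ∀ q : ℚ, ((N487b59b3.toEncoding (α := ℚ)).encode q).map bs =
        (bitEncode (sgQ true q)).map bs := fun q => rfl
    have e3 := encode_frac true (A c.length (x.num.toNat + (-x.num).toNat) x.den)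
      (hB0 c.length x.den x.den_pos)
    rw [e1, e2]
    simp only
    rw [e3]
    rw [undel_del]
    simp only
    rw [encode_rat, undel_del]
    simp only
    rw [undel_del]
    simp only
    rw [unb_code, List.length_map, valS_digs, valS_digs, valS_digs]
  · change F c.length (x : ℝ) = _
    rw [hF]
    push_cast
    rfl

theorem abs_rat (x : ℚ) : |(x : ℝ)| =
    ((x.num.toNat + (-x.num).toNat : ℕ) : ℝ) / (x.den : ℝ) := by
  have hd : (0 : ℝ) < x.den := by exact_mod_cast x.den_pos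
  have hx : (x : ℝ) = (x.num : ℝ) / (x.den : ℝ) := by
    exact_mod_cast (Rat.num_div_den x).symm
  rw [hx, abs_div, abs_of_pos hd]
  congr 1
  rcases _root_.le_total 0 x.num with h | h
  · obtain ⟨a, ha⟩ : ∃ a : ℕ, x.num = a := ⟨x.num.toNat, (Int.toNat_of_nonneg h).symm⟩
    rw [ha]
    have h2 : (-(a : ℤ)).toNat = 0 := Int.toNat_of_nonpos (by omega)
    rw [h2, Int.toNat_natCast, Nat.add_zero, Int.cast_natCast, abs_of_nonneg (Nat.cast_nonneg _)]
  · obtain ⟨a, ha⟩ : ∃ a : ℕ, x.num = -(a : ℤ) := ⟨(-x.num).toNat, by omega⟩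
    rw [ha]
    have h1 : (-(a : ℤ)).toNat = 0 := Int.toNat_of_nonpos (by omega)
    rw [h1, neg_neg, Int.toNat_natCast, Nat.zero_add, Int.cast_neg, Int.cast_natCast, abs_neg,
      abs_of_nonneg (Nat.cast_nonneg _)]

theorem polyEval_Wstar : PolyEvalSeq Wstar := by
  refine polyEval_frac (fun i a _ => wnum i * a) (fun i d => tolSI i * d)
    (fun i d hd => Nat.mul_pos (tolSI_pos i) hd) (fun i x => ?_)
    (fun hi ha _ => fp_mulB (fpb_wnum hi) ha) (fun hi hd => fp_mulB (fpb_tolSI hi) hd)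
  unfold Wstar
  rw [abs_rat, wtS_eq]
  push_cast
  rw [div_mul_div_comm]

theorem polyEval_Sstar : PolyEvalSeq Sstar := by
  refine polyEval_frac (fun i a d => a * denSI i + penSI i * (a * denSI i - tolSI i * d))
    (fun i d => d * denSI i)
    (fun i d hd => Nat.mul_pos hd (by have := denSI_ge i; omega)) (fun i x => ?_)
    (fun hi ha hd => fp_addB (fp_mulB ha (fpb_denSI hi)) (fp_mulB (fpb_penSI hi)
      (fp_subB (fp_mulB ha (fpb_denSI hi)) (fp_mulB (fpb_tolSI hi) hd))))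
    (fun hi hd => fp_mulB hd (fpb_denSI hi))
  unfold Sstar hinge2
  rw [abs_rat]
  have hD : (0 : ℝ) < denSI i := by
    have := denSI_ge i
    exact_mod_cast (by omega : 0 < denSI i)
  have hd : (0 : ℝ) < x.den := by exact_mod_cast x.den_pos
  obtain ⟨a, ha⟩ : ∃ a, x.num.toNat + (-x.num).toNat = a := ⟨_, rfl⟩
  obtain ⟨D, hDD⟩ : ∃ D, denSI i = D := ⟨_, rfl⟩
  obtain ⟨H, hH⟩ : ∃ H, penSI i = H := ⟨_, rfl⟩
  obtain ⟨t, ht⟩ : ∃ t, tolSI i = t := ⟨_, rfl⟩
  obtain ⟨d, hdd⟩ : ∃ d, x.den = d := ⟨_, rfl⟩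
  rw [hDD] at hD
  rw [hdd] at hd
  rw [ha, hDD, hH, ht, hdd]
  have h5 : (a : ℝ) / (d : ℝ) - (t : ℝ) / (D : ℝ) = ((a : ℝ) * D - t * d) / (d * D) := by
    field_simp
  rw [h5]
  rcases _root_.le_total (a * D) (t * d) with h6 | h6
  · have h7 : (a : ℝ) * D ≤ t * d := by exact_mod_cast h6
    rw [Nat.sub_eq_zero_of_le h6, max_eq_left (div_nonpos_of_nonpos_of_nonneg (by linarith)
      (by positivity))]
    push_cast
    field_simp
    ring
  · have h7 : (t : ℝ) * d ≤ a * D := by exact_mod_cast h6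
    rw [max_eq_right (div_nonneg (by linarith) (by positivity))]
    push_cast
    rw [Nat.cast_sub h6]
    push_cast
    field_simp

end Pool.Agent.JIT
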