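import Pool.Agent.Lib_MP_033923_np.SymInst
import Pool.Agent.Lib_MP_033923_np.SymCost

set_option autoImplicit false

/-!
# The instances of block `N` for the total deviation problem
-/

namespace Pool.Agent.JIT

open Finset

theorem CS_pos (N : ℕ) : 0 < CS N := Nat.succ_pos _

theorem MS_pos (N : ℕ) : 1 ≤ MS N := Finset.prod_pos (fun j _ => CS_pos j)

theorem MS_mono {a b : ℕ} (h : a ≤ b) : MS a ≤ MS b := by
  unfold MS
  exact Finset.prod_le_prod_of_subset_of_one_le' (Finset.range_subset_range.2 h)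
    (fun j _ _ => CS_pos j)

theorem penSF_lt (N r : ℕ) : 1 + penSF N r ≤ MS (N + 1) := by
  have key : 1 + penO (cntS N * MS N) (DS N) ≤ MS (N + 1) := by
    have hM := MS_pos N
    have e1 : MS (N + 1) = MS N * CS N := by
      unfold MS
      rw [Finset.prod_range_succ]
    rw [e1]
    unfold CS penO penS
    obtain ⟨M, hM'⟩ : ∃ M, MS N = M := ⟨_, rfl⟩
    obtain ⟨D, hD⟩ : ∃ D, DS N = D := ⟨_, rfl⟩
    obtain ⟨n, hn⟩ : ∃ n, cntS N = n := ⟨_, rfl⟩
    rw [hM'] at hM ⊢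
    rw [hD, hn]
    obtain ⟨k, rfl⟩ : ∃ k, M = k + 1 := ⟨M - 1, by omega⟩
    have e2 : (k + 1) * (n * D ^ 3 + D ^ 3 * (n * D ^ 2 + 1) + D + 1) =
        (1 + D * (n * (k + 1) * D ^ 2 + D * (D * (n * (k + 1) * D ^ 2 + 1)) + 1)) +
          k * (D ^ 3 + D + 1) := by ring
    rw [e2]
    exact Nat.le_add_right _ _
  refine le_trans ?_ key
  unfold penSF
  split_ifs
  · have := penS_le_penO (cntS N * MS N) (DS N)
    omega
  · exact le_rfl

theorem isDevFun_hinge2 {a H : ℝ} (ha : 0 ≤ a) (hH : 0 ≤ H) : IsDevFun (hinge2 a H) :=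
  ⟨hinge2_convex hH, hinge2_zero ha, fun x hx => hinge2_pos hH x hx⟩

theorem isDevFun_Sstar (i : ℕ) : IsDevFun (Sstar i) :=
  isDevFun_hinge2 (by positivity) (Nat.cast_nonneg _)

theorem Sstar_nonneg (i : ℕ) (x : ℝ) : 0 ≤ Sstar i x := hinge2_nonneg (Nat.cast_nonneg _) x

theorem Sstar_le {N j : ℕ} (hN : 1 ≤ N) (h : j < offS N) (x : ℝ) :
    Sstar j x ≤ (MS N : ℝ) * |x| := by
  refine (hinge2_le (by positivity) (Nat.cast_nonneg _) x).trans ?_
  refine mul_le_mul_of_nonneg_right ?_ (abs_nonneg x)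
  have h1 : 1 + penSI j ≤ MS N := (penSF_lt _ _).trans (MS_mono (blkS_lt hN h))
  exact_mod_cast h1

theorem cntS_eq (N : ℕ) : offS N + 2 * Fintype.card (Fin N ⊕ Fin N) + 2 = cntS N := by
  rw [card_sum2]
  unfold offS cntS
  ring

/-- the deviation functions of the models, total deviation -/
noncomputable def sFS (N : ℕ) : Fin (offS N) ⊕ Model (Fin N ⊕ Fin N) → ℝ → ℝ :=
  sF2 (fun j : Fin (offS N) => Sstar j) (hS N) (ZS N) (WS N) (bigLQ (QS N) N) clo
    (chiQ (QS N)) (penS (cntS N * MS N) (DS N)) (penO (cntS N * MS N) (DS N))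

theorem Sstar_eq (N k : ℕ) (hk : k < (modS N).length) : sFS N ((modS N)[k]) = Sstar k := by
  have hk' := hk
  rw [length_modS] at hk'
  by_cases h : k < offS N
  · have e : (modS N)[k] = Sum.inl ⟨k, h⟩ := by
      unfold modS
      rw [List.getElem_append_left (by simpa using h)]
      simp
    rw [e]
    rfl
  · obtain ⟨r, rfl⟩ : ∃ r, k = offS N + r := ⟨k - offS N, by omega⟩
    have hr : r < 4 * N + 2 := by omega
    obtain ⟨i, h1, h2, h3⟩ := modS_getElem N r hr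
    rw [h1]
    have hF : Sstar (offS N + r) = hinge2 ((tolS N r : ℝ) / (DS N : ℝ)) (penSF N r : ℝ) := by
      unfold Sstar tolSI denSI penSI
      rw [blkS_add hr, Nat.add_sub_cancel_left]
    rw [hF, ← h2]
    rcases i with _ | i
    · have hr0 : r = 0 := h3.1 rfl
      change hinge2 ((stolN N none : ℝ) /
        ((bigD2 (Fin N ⊕ Fin N) (WS N) (bigLQ (QS N) N) : ℕ) : ℝ)) _ = _
      rw [← DS_eq]
      unfold penSF
      rw [if_pos hr0]
    · have hr0 : r ≠ 0 := fun h4 => by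
        have := h3.2 h4
        simp at this
      change hinge2 ((stolN N (some i) : ℝ) /
        ((bigD2 (Fin N ⊕ Fin N) (WS N) (bigLQ (QS N) N) : ℕ) : ℝ)) _ = _
      rw [← DS_eq]
      unfold penSF
      rw [if_neg hr0]

theorem symS_main (N : ℕ) (hN : 1 ≤ N) (inc : ℕ → ℕ → Bool)
    (hcov : ∀ y, ∃ x, y ∈ incC N N inc x) (S : ℕ → Fin (demN N inc).length)
    (hopt : IsOptimalTotal (demN N inc).get (fun i => Sstar i) S) :
    (S ((DS N + 1) / 2) : ℕ) = offS N ↔ ¬ HasExactCover (incC N N inc) := by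
  obtain ⟨σ, hd, hσ, h0⟩ := symEquiv N inc
  have H := symPar N inc hcov
  have hF : ∀ i, sFS N (σ i) = Sstar (i : ℕ) := by
    intro i
    obtain ⟨h, h'⟩ := hσ i
    rw [h']
    exact Sstar_eq N i h
  have h1 := isOptimalTotal_equiv σ hd hF S hopt
  have hFF : sFS N = sF2 (fun j : Fin (offS N) => Sstar j) (hS N) (ZS N) (WS N) (bigLQ (QS N) N)
      clo (chiQ (QS N))
      (penS ((offS N + 2 * Fintype.card (Fin N ⊕ Fin N) + 2) * MS N)
        (bigD2 (Fin N ⊕ Fin N) (WS N) (bigLQ (QS N) N)))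
      (penO ((offS N + 2 * Fintype.card (Fin N ⊕ Fin N) + 2) * MS N)
        (bigD2 (Fin N ⊕ Fin N) (WS N) (bigLQ (QS N) N))) := by
    unfold sFS
    rw [cntS_eq, DS_eq]
  rw [hFF] at h1
  have h2 := sym_total H (by rw [card_sum2, ← two_mul, ← LS_eq]; exact le_rfl) _ (MS N)
    (MS_pos N) (fun j x => Sstar_nonneg _ x) (fun j x => Sstar_le hN j.isLt x) _ h1
  rw [sol_iffS, ← DS_eq] at h2
  exact (h0 _).trans h2

end Pool.Agent.JIT
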