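import Pool.Agent.Lib_MP_033923_np.FixHard
import Pool.Agent.Lib_MP_033923_np.SymEval
import Pool.Agent.Lib_MP_033923_np.SymInst2

set_option autoImplicit false

/-!
# Hardness for the fixed sequences of symmetric deviation functions
-/

namespace Pool.Agent.JIT

open Pool.Agent.PartSep Pool.Agent.PartSep.TM Pool.Agent.PartSep.TM.Rep Pool.Agent.PartSep.CL
  Pool.Agent.Lib_MP_8cd8c6_lc N487b59b3 Finset

set_option synthInstance.maxSize 2000

variable {E F G : Type} [Rep E] [Rep F] [Rep G]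

/-- the demands of an instance of block `N` -/
theorem fp_demN {N : E → ℕ} (hN : FP N) {inc : E → ℕ → ℕ → Bool}
    (hinc : FP (fun y : E × (ℕ × ℕ) => inc y.1 y.2.1 y.2.2)) :
    FP (fun x => (demN (N x) (inc x)).map Bi.mk) := by
  have hN' : FP (fun y : E × ℕ => N y.1) := FP.comp hN FP.fst
  have hinc' : FP (fun y : (E × ℕ) × (ℕ × ℕ) => inc y.1.1 y.2.1 y.2.2) :=
    FP.comp (g := fun y : E × (ℕ × ℕ) => inc y.1 y.2.1 y.2.2)
      (f := fun y : (E × ℕ) × (ℕ × ℕ) => (y.1.1, y.2)) hinc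
      (FP.pair (FP.comp FP.fst FP.fst) FP.snd)
  have hu : FPB (fun y : E × ℕ => uS (N y.1) (inc y.1) y.2) :=
    fpb_uS hN' (inc := fun y : E × ℕ => inc y.1) hinc' FP.snd
  have hr : FP (fun x => List.range (N x + N x)) := FP.range (FP.add hN hN)
  have h1 : FP (fun x => (List.range (offS (N x))).map (fun _ => (⟨1⟩ : Bi))) :=
    FP.mapE (FP.range (fp_offS hN)) (g := fun _ : E × ℕ => (⟨1⟩ : Bi)) (FP.const _)
  have h2 : FPB (fun x => WS (N x) * LS (N x) - 1 - offS (N x)) :=
    fp_subB (fp_subB (fp_mulB (fpb_WS hN) (fpb_LS hN)) (fpb_const 1)) (fp_ofNat (fp_offS hN))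
  have h3 : FP (fun x => (List.range (N x + N x)).map (fun j =>
      (⟨WS (N x) * uS (N x) (inc x) j⟩ : Bi))) :=
    FP.mapE hr (g := fun y : E × ℕ => (⟨WS (N y.1) * uS (N y.1) (inc y.1) y.2⟩ : Bi))
      (fp_mulB (fpb_WS hN') hu)
  have h4 : FP (fun x => (List.range (N x + N x)).map (fun j =>
      (⟨WS (N x) * (LS (N x) - uS (N x) (inc x) j)⟩ : Bi))) :=
    FP.mapE hr (g := fun y : E × ℕ =>
      (⟨WS (N y.1) * (LS (N y.1) - uS (N y.1) (inc y.1) y.2)⟩ : Bi))
      (fp_mulB (fpb_WS hN') (fp_subB (fpb_LS hN') hu))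
  refine (FP.appendE h1 (FP.consE (fpb_const 1) (FP.consE h2 (FP.appendE h3 h4)))).congr
    (fun x => ?_)
  unfold demN
  rw [List.map_append, List.map_cons, List.map_cons, List.map_append, List.map_map,
    List.map_map, List.map_replicate]
  congr 1
  rw [List.map_const', List.length_range]

/-! ### The instance of a formula -/

/-- the demands -/
def demM (φ : CNF Name) : List ℕ := demN (NF φ) (incPad (mF φ) (eF φ) (incF φ))

/-- the middle position -/
def posM (φ : CNF Name) : ℕ := (DS (NF φ) + 1) / 2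

theorem demM_cover (φ : CNF Name) :
    (∀ y, ∃ x, y ∈ incC (NF φ) (NF φ) (incPad (mF φ) (eF φ) (incF φ)) x) ∧
    (HasExactCover (incC (NF φ) (NF φ) (incPad (mF φ) (eF φ) (incF φ))) ↔ φ.Satisfiable) := by
  have hm : mF φ < NF φ := by
    unfold NF
    exact Nat.lt_succ_of_le (le_max_left _ _)
  have he : eF φ ≤ NF φ := by
    unfold NF
    exact (le_max_right _ _).trans (Nat.le_succ _)
  have hcov : ∀ y, ∃ x, y ∈ incC (mF φ) (eF φ) (incF φ) x := by
    rw [incC_incF]
    exact famC_cover φ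
  refine ⟨incPad_cover (incF φ) hm hcov, ?_⟩
  rw [incPad_iff (incF φ) hm he, incC_incF]
  exact famC_iff φ

theorem demM_basic (φ : CNF Name) : demM φ ≠ [] ∧ (∀ x ∈ demM φ, 0 < x) ∧
    posM φ ∈ Icc 1 (total (demM φ).get) := by
  obtain ⟨h1, h2, h3⟩ := demN_basic (NF φ) (incPad (mF φ) (eF φ) (incF φ)) (demM_cover φ).1
  refine ⟨h1, h2, ?_⟩
  unfold demM
  rw [h3, mem_Icc]
  unfold posM
  have := DS_ge (NF φ)
  omega

theorem demM_max (φ : CNF Name) (S : ℕ → Fin (demM φ).length)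
    (h : IsOptimalMax (demM φ).get (fun i => Wstar i) S) :
    (S (posM φ) : ℕ) = offS (NF φ) ↔ ¬ φ.Satisfiable :=
  (symW_main (NF φ) (Nat.succ_pos _) _ (demM_cover φ).1 S h).trans
    (not_congr (demM_cover φ).2)

theorem demM_total (φ : CNF Name) (S : ℕ → Fin (demM φ).length)
    (h : IsOptimalTotal (demM φ).get (fun i => Sstar i) S) :
    (S (posM φ) : ℕ) = offS (NF φ) ↔ ¬ φ.Satisfiable :=
  (symS_main (NF φ) (Nat.succ_pos _) _ (demM_cover φ).1 S h).trans
    (not_congr (demM_cover φ).2)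

theorem fp_demM {φ : E → CNF Name} (hφ : FP φ) : FP (fun x => (demM (φ x)).map Bi.mk) := by
  unfold demM
  refine fp_demN (fp_NF hφ) (inc := fun x => incPad (mF (φ x)) (eF (φ x)) (incF (φ x))) ?_
  unfold incPad
  have hφ' : FP (fun y : E × (ℕ × ℕ) => φ y.1) := FP.comp hφ FP.fst
  have hx : FP (fun y : E × (ℕ × ℕ) => y.2.1) := FP.comp FP.fst FP.snd
  have hy : FP (fun y : E × (ℕ × ℕ) => y.2.2) := FP.comp FP.snd FP.snd
  refine (FP.ite (FP.natLt hx (fp_mF hφ')) (FP.and (FP.natLt hy (fp_eF hφ'))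
    (fp_incF hφ' hx hy)) (FP.and (FP.natEq hx (fp_mF hφ')) (FP.natLe (fp_eF hφ') hy))).congr
    (fun y => ?_)
  by_cases h : y.2.1 < mF (φ y.1) <;> simp [h]

theorem fp_posM {φ : E → CNF Name} (hφ : FP φ) : FPB (fun x => posM (φ x)) := by
  unfold posM
  exact fp_divB (fp_addB (fpb_DS (fp_NF hφ)) (fpb_const 1)) (fpb_const 2)

/-! ### Hardness -/

theorem hard_ofM {build : List ℕ → List Bool} {query : List Bool × ℕ → ℕ}
    (hp : PolyTimeAlg build query)
    (h : ∀ φ : CNF Name, query (build (demM φ), posM φ) = offS (NF φ) ↔ ¬ φ.Satisfiable) :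
    N68a2faeb.NP ⊆ N68a2faeb.P := by
  intro L hL
  obtain ⟨g, hg, hLg⟩ := cook_levin hL
  obtain ⟨gb, hgb, hb⟩ := FP.ofTM2 hp.1
  obtain ⟨gq, hgq, hq⟩ := FP.ofTM2 hp.2
  have h1 : FP (fun s => gq (del (gb (codN ((demM (g s)).map Bi.mk))) ++ digs (posM (g s)))) :=
    FP.comp hgq (FP.append (FP.del (FP.comp hgb (fp_codN (fp_demM hg)))) (FP.digs (fp_posM hg)))
  have h2 : FP (fun s => digs (offS (NF (g s)))) := FP.digs (fp_ofNat (fp_offS (fp_NF hg)))
  refine mem_P_of_fp (g := fun s => if decide (gq (del (gb (codN ((demM (g s)).map Bi.mk))) ++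
    digs (posM (g s))) = digs (offS (NF (g s)))) then [bs false] else [bs true])
    (FP.ite (FP.eqS h1 h2) (FP.const _) (FP.const _)) (fun x => ?_)
  set φ := g ((bitEncode x).map bs) with hφ
  have e1 : gb (codN ((demM φ).map Bi.mk)) = (bitEncode (build (demM φ))).map bs := by
    rw [← encode_listN]
    exact hb (demM φ)
  have e2 : gq (del (gb (codN ((demM φ).map Bi.mk))) ++ digs (posM φ)) =
      digs (query (build (demM φ), posM φ)) := by
    rw [e1, ← encode_nat (posM φ), ← encode_nat (query _),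
      ← bitEncode_prod (build (demM φ), posM φ)]
    exact hq (build (demM φ), posM φ)
  rw [e2]
  have h3 := h φ
  by_cases hs : φ.Satisfiable
  · have hne : query (build (demM φ), posM φ) ≠ offS (NF φ) := fun h0 => (h3.1 h0) hs
    have hLx : L x = true := (hLg x).2 hs
    have h4 : digs (query (build (demM φ), posM φ)) ≠ digs (offS (NF φ)) :=
      fun h5 => hne (digs_injective h5)
    rw [hLx]
    simp only [h4, decide_false, Bool.false_eq_true, if_false]
  · have h0 : query (build (demM φ), posM φ) = offS (NF φ) := h3.2 hs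
    have hLx : L x = false := by
      rw [← Bool.not_eq_true]
      intro h4
      exact hs ((hLg x).1 h4)
    rw [h0, hLx]
    simp only [decide_true, if_true]

theorem hard_maxW {build : List ℕ → List Bool} {query : List Bool × ℕ → ℕ}
    (hp : PolyTimeAlg build query) (h : SolvesMaxSeq Wstar build query) :
    N68a2faeb.P = N68a2faeb.NP := by
  refine Set.Subset.antisymm P_subset_NP' (hard_ofM hp (fun φ => ?_))
  obtain ⟨h1, h2, h4⟩ := demM_basic φ
  obtain ⟨S, hS, hk⟩ := h (demM φ) h1 h2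
  rw [hk (posM φ) h4]
  exact demM_max φ S hS

theorem hard_totalS {build : List ℕ → List Bool} {query : List Bool × ℕ → ℕ}
    (hp : PolyTimeAlg build query) (h : SolvesTotalSeq Sstar build query) :
    N68a2faeb.P = N68a2faeb.NP := by
  refine Set.Subset.antisymm P_subset_NP' (hard_ofM hp (fun φ => ?_))
  obtain ⟨h1, h2, h4⟩ := demM_basic φ
  obtain ⟨S, hS, hk⟩ := h (demM φ) h1 h2
  rw [hk (posM φ) h4]
  exact demM_total φ S hS

/-- The reduction of an arbitrary problem in NP. -/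
theorem karpM {L : List Bool → Bool} (hL : L ∈ N68a2faeb.NP) :
    ∃ (f : List Bool → List ℕ) (p s : List Bool → ℕ),
      N68a2faeb.IsPolyTime f ∧ N68a2faeb.IsPolyTime p ∧ N68a2faeb.IsPolyTime s ∧
      ∀ w, f w ≠ [] ∧ (∀ x ∈ f w, 0 < x) ∧ p w ∈ Icc 1 (total (f w).get) ∧
        (∃ S, IsOptimalMax (f w).get (fun i => Wstar i) S) ∧
        (∀ S, IsOptimalMax (f w).get (fun i => Wstar i) S →
          ((S (p w) : ℕ) = s w ↔ L w = false)) ∧
        (∃ S, IsOptimalTotal (f w).get (fun i => Sstar i) S) ∧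
        (∀ S, IsOptimalTotal (f w).get (fun i => Sstar i) S →
          ((S (p w) : ℕ) = s w ↔ L w = false)) := by
  obtain ⟨g, hg, hLg⟩ := cook_levin hL
  refine ⟨fun w => demM (g ((bitEncode w).map bs)), fun w => posM (g ((bitEncode w).map bs)),
    fun w => offS (NF (g ((bitEncode w).map bs))), ?_, ?_, ?_, fun w => ?_⟩
  · refine FP.toTM2 (αΓ := Bool) (βΓ := Bool) bs sb bs sb_bs (fp_codN (fp_demM hg))
      (fun w => ?_)
    exact (encode_listN _).symm
  · refine FP.toTM2 (αΓ := Bool) (βΓ := Bool) bs sb bs sb_bs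
      (FP.digs (fp_posM hg)) (fun w => ?_)
    exact (encode_nat _).symm
  · refine FP.toTM2 (αΓ := Bool) (βΓ := Bool) bs sb bs sb_bs
      (FP.digs (fp_ofNat (fp_offS (fp_NF hg)))) (fun w => ?_)
    exact (encode_nat _).symm
  · set φ := g ((bitEncode w).map bs) with hφ
    obtain ⟨h1, h2, h3⟩ := demM_basic φ
    have hn : 0 < (demM φ).length := List.length_pos_iff.2 h1
    have hL : ¬ φ.Satisfiable ↔ L w = false := by
      rw [← hLg w, Bool.not_eq_true]
    obtain ⟨S0, hS0⟩ := exists_isSeq hn (demM φ).get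
    refine ⟨h1, h2, h3, ?_, fun S hS => (demM_max φ S hS).trans hL, ?_,
      fun S hS => (demM_total φ S hS).trans hL⟩
    · obtain ⟨S, hS1, hS2⟩ := exists_optimal (demM φ).get
        (maxDeviation (demM φ).get (fun i => Wstar i)) (maxDeviation_congr _ _) ⟨S0, hS0⟩
      exact ⟨S, hS1, hS2⟩
    · obtain ⟨S, hS1, hS2⟩ := exists_optimal (demM φ).get
        (totalDeviation (demM φ).get (fun i => Sstar i)) (totalDeviation_congr _ _) ⟨S0, hS0⟩
      exact ⟨S, hS1, hS2⟩

end Pool.Agent.JIT
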