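import Pool.Agent.Lib_MP_033923_np.SymDefs
import Pool.Agent.Lib_MP_033923_np.Seqs
import Pool.Agent.Lib_MP_033923_np.Transfer
import Pool.Agent.Lib_MP_033923_np.CoverQ
import Pool.Agent.Lib_MP_033923_np.FixInst
import Pool.Agent.Lib_MP_033923_np.SymMax
import Pool.Agent.Lib_MP_033923_np.Pad

set_option autoImplicit false

/-!
# The instances of block `N` for the symmetric functions
-/

namespace Pool.Agent.JIT

open Finset

/-! ### Numbers -/

theorem LS_eq (N : ℕ) : LS N = bigLQ (QS N) N := by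
  unfold LS bigLQ
  rw [Finset.prod_range]
  rfl

theorem mdS_eq {N : ℕ} (x : Fin N) : mdS N x = modQ (QS N) N x := rfl

theorem uS_eq (N : ℕ) (inc : ℕ → ℕ → Bool) (j : Fin N ⊕ Fin N) :
    uS N inc (finSumFinEquiv j) = RS N * cuQ (QS N) (incC N N inc) j := by
  unfold uS
  congr 1
  rcases j with x | y
  · simp only [finSumFinEquiv_apply_left, Fin.val_castAdd, x.isLt, if_true, cuQ, LS_eq,
      mdS_eq]
  · simp only [finSumFinEquiv_apply_right, Fin.val_natAdd, cuQ]
    rw [if_neg (by omega), Finset.sum_range, Finset.sum_filter]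
    refine Finset.sum_congr rfl (fun x _ => ?_)
    simp only [incC, mem_filter, mem_univ, true_and, Nat.add_sub_cancel_left, LS_eq, mdS_eq]
    cases h : inc x y with
    | true => simp [mult]
    | false => simp

theorem hiS_eq {N : ℕ} (j : Fin N ⊕ Fin N) : hiS N (finSumFinEquiv j) = chiQ (QS N) j := by
  rcases j with x | y
  · simp [hiS, chiQ, LS_eq, mdS_eq]
  · simp [hiS, chiQ, LS_eq]

theorem DS_eq (N : ℕ) : DS N = bigD2 (Fin N ⊕ Fin N) (WS N) (bigLQ (QS N) N) := by
  unfold DS bigD2
  rw [card_sum2, LS_eq, two_mul]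

theorem WS_odd (N : ℕ) : WS N % 2 = 1 := by
  unfold WS
  have : 24 * (2 * N + 1) * hS N * LS N + 1 = 2 * (12 * (2 * N + 1) * hS N * LS N) + 1 := by ring
  omega

theorem LS_odd (N : ℕ) : LS N % 2 = 1 := by
  rw [LS_eq]
  refine Nat.odd_iff.1 (bigLQ_odd (QS N) ?_)
  refine ⟨RS N * (N + 1), ?_⟩
  unfold QS
  ring

theorem LS_pos (N : ℕ) : 1 ≤ LS N := by
  rw [LS_eq]
  exact bigLQ_pos _

theorem DS_odd (N : ℕ) : DS N % 2 = 1 := by
  unfold DS
  have h1 : Odd (2 * N + 1) := ⟨N, rfl⟩
  have h2 : Odd (WS N) := Nat.odd_iff.2 (WS_odd N)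
  have h3 : Odd (LS N) := Nat.odd_iff.2 (LS_odd N)
  exact Nat.odd_iff.1 ((h1.mul h2).mul h3)

/-- the multipliers of the window conditions -/
def cuS (N : ℕ) (inc : ℕ → ℕ → Bool) (j : Fin N ⊕ Fin N) : ℕ :=
  RS N * cuQ (QS N) (incC N N inc) j

theorem sol_iffS (N : ℕ) (inc : ℕ → ℕ → Bool) :
    (∃ q, Sol (bigLQ (QS N) N) (cuS N inc) clo (chiQ (QS N)) q) ↔
      HasExactCover (incC N N inc) := by
  have hQ : N + N + 2 ≤ QS N := by
    unfold QS RS
    have : 1 * (2 * N + 2) ≤ (4 * N + 3) * (2 * N + 2) := Nat.mul_le_mul_right _ (by omega)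
    omega
  rw [← sol_iffQ (QS N) (incC N N inc) hQ]
  exact sol_scale _ _ _ (bigLQ_pos _) (coprime_bigLQ (QS N) ⟨2 * N + 2, rfl⟩)

theorem symPar (N : ℕ) (inc : ℕ → ℕ → Bool) (hcov : ∀ y, ∃ x, y ∈ incC N N inc x) :
    SymPar (Fin N ⊕ Fin N) (offS N) (hS N) (ZS N) (WS N) (bigLQ (QS N) N) (cuS N inc) clo
      (chiQ (QS N)) := by
  have hR : 2 * (N + N + 1) < RS N := by
    unfold RS
    omega
  have hQ : QS N = RS N * (N + N + 2) := by
    unfold QS
    rw [two_mul]
  have hL := LS_pos N
  have hLe := LS_eq N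
  have hd := DS_eq N
  have hc1 : offS N + 1 = 2 * hS N := by
    unfold offS hS
    ring
  have hh1 : 1 ≤ hS N := Nat.succ_pos _
  refine ⟨bigLQ_pos _, fun j => scale_lt (incC N N inc) hR hQ j,
    fun j => clo_leQ (incC N N inc) hR hQ hcov j, fun j => ?_, ?_, WS_odd N, hc1, ?_, ?_⟩
  · rw [card_sum2]
    exact chi_scale (incC N N inc) hR hQ hcov j
  · rw [card_sum2, hc1]
    unfold WS
    have h1 : (N + N + 1) * (2 * hS N) = 2 * ((2 * N + 1) * hS N) := by ring
    have h2 : 24 * (2 * N + 1) * hS N * LS N = 24 * ((2 * N + 1) * hS N * LS N) := by ring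
    have h3 : (2 * N + 1) * hS N ≤ (2 * N + 1) * hS N * LS N := Nat.le_mul_of_pos_right _ hL
    omega
  · rw [← hLe]
    have h0 : WS N ≤ WS N * LS N := Nat.le_mul_of_pos_right _ hL
    refine le_trans ?_ h0
    unfold WS ZS
    have h1 : hS N * (4 * (2 * (2 * N + 1) * LS N) + 2) =
        8 * ((2 * N + 1) * hS N * LS N) + 2 * hS N := by ring
    have h2 : 24 * (2 * N + 1) * hS N * LS N = 24 * ((2 * N + 1) * hS N * LS N) := by ring
    have h3 : hS N ≤ (2 * N + 1) * hS N * LS N := by
      calc hS N = 1 * hS N * 1 := by ring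
        _ ≤ (2 * N + 1) * hS N * LS N :=
          Nat.mul_le_mul (Nat.mul_le_mul_right _ (by omega)) hL
    omega
  · rw [← hd]
    exact DS_odd N

/-! ### The list of the models -/

/-- the models in the order of the list -/
def modS (N : ℕ) : List (Fin (offS N) ⊕ Model (Fin N ⊕ Fin N)) :=
  (List.finRange (offS N)).map Sum.inl ++ (modL N N).map Sum.inr

theorem modS_nodup (N : ℕ) : (modS N).Nodup := by
  unfold modS
  rw [List.nodup_append]
  refine ⟨List.Nodup.map Sum.inl_injective (List.nodup_finRange _),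
    List.Nodup.map Sum.inr_injective modL_nodup, ?_⟩
  intro a ha b hb hab
  rw [List.mem_map] at ha hb
  obtain ⟨j, -, rfl⟩ := ha
  obtain ⟨j', -, rfl⟩ := hb
  exact absurd hab (by simp)

theorem mem_modS (N : ℕ) (x : Fin (offS N) ⊕ Model (Fin N ⊕ Fin N)) : x ∈ modS N := by
  unfold modS
  rcases x with x | x
  · exact List.mem_append_left _ (List.mem_map_of_mem (List.mem_finRange x))
  · exact List.mem_append_right _ (List.mem_map_of_mem (mem_modL x))

theorem length_modS (N : ℕ) : (modS N).length = offS N + (4 * N + 2) := by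
  unfold modS
  rw [List.length_append, List.length_map, List.length_map, List.length_finRange, length_modL]
  ring

theorem demN_eq (N : ℕ) (inc : ℕ → ℕ → Bool) : demN N inc = (modS N).map
    (wdem2 (offS N) (WS N) (bigLQ (QS N) N) (cuS N inc)) := by
  unfold demN modS modL
  rw [List.map_append, List.map_map, List.map_map]
  congr 1
  · apply List.ext_getElem
    · simp
    · intro i h1 h2
      simp [wdem2]
  · rw [List.map_cons, List.map_cons, List.map_append, List.map_map, List.map_map]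
    congr 1
    congr 1
    · simp only [Function.comp_apply, wdem2, LS_eq]
    · congr 1
      · apply List.ext_getElem
        · simp
        · intro i h1 h2
          simp only [List.getElem_map, List.getElem_range, List.getElem_finRange,
            Function.comp_apply]
          have hi : i < N + N := by simpa using h1
          obtain ⟨j, hj⟩ := (finSumFinEquiv (m := N) (n := N)).surjective ⟨i, hi⟩
          have hj' : ((finSumFinEquiv j : Fin (N + N)) : ℕ) = i := by rw [hj]
          have e1 : (finSumFinEquiv.symm (⟨i, hi⟩ : Fin (N + N))) = j := by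
            rw [← hj, Equiv.symm_apply_apply]
          simp only [wdem2, Fin.cast_mk, e1, cuS]
          rw [← uS_eq, hj']
      · apply List.ext_getElem
        · simp
        · intro i h1 h2
          simp only [List.getElem_map, List.getElem_range, List.getElem_finRange,
            Function.comp_apply]
          have hi : i < N + N := by simpa using h1
          obtain ⟨j, hj⟩ := (finSumFinEquiv (m := N) (n := N)).surjective ⟨i, hi⟩
          have hj' : ((finSumFinEquiv j : Fin (N + N)) : ℕ) = i := by rw [hj]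
          have e1 : (finSumFinEquiv.symm (⟨i, hi⟩ : Fin (N + N))) = j := by
            rw [← hj, Equiv.symm_apply_apply]
          simp only [wdem2, Fin.cast_mk, e1, LS_eq, cuS]
          rw [← uS_eq, hj']

/-- the tolerances of the models -/
def stolN (N : ℕ) (i : Model (Fin N ⊕ Fin N)) : ℕ :=
  stol (hS N) (ZS N) (WS N) (bigLQ (QS N) N)
    ((bigD2 (Fin N ⊕ Fin N) (WS N) (bigLQ (QS N) N) - 1) / 2) clo (chiQ (QS N)) i

theorem modS_getElem (N r : ℕ) (hr : r < 4 * N + 2) :
    ∃ i : Model (Fin N ⊕ Fin N), (modS N)[offS N + r]'(by rw [length_modS]; omega) = Sum.inr i ∧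
      stolN N i = tolS N r ∧ (i = none ↔ r = 0) := by
  have hr' : r < (modL N N).length := by
    rw [length_modL]
    omega
  refine ⟨(modL N N)[r], ?_, ?_⟩
  · unfold modS
    rw [List.getElem_append_right (by simp)]
    simp
  have hd := DS_eq N
  unfold stolN
  rcases r with _ | _ | r
  · refine ⟨?_, by simp [modL]⟩
    rw [← hd]
    rfl
  · refine ⟨?_, by simp [modL]⟩
    have e : (modL N N)[0 + 1] = some none := rfl
    rw [e]
    simp only [stol]
    rw [← hd]
    rfl
  · by_cases h2 : r < N + N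
    · obtain ⟨j, hj⟩ := (finSumFinEquiv (m := N) (n := N)).surjective ⟨r, h2⟩
      have hj' : ((finSumFinEquiv j : Fin (N + N)) : ℕ) = r := by rw [hj]
      have e1 : (finSumFinEquiv.symm (⟨r, h2⟩ : Fin (N + N))) = j := by
        rw [← hj, Equiv.symm_apply_apply]
      have e2 : (modL N N)[r + 1 + 1] = some (some (Sum.inl j)) := by
        unfold modL
        rw [List.getElem_cons_succ, List.getElem_cons_succ,
          List.getElem_append_left (by simpa using h2)]
        simp only [List.getElem_map, List.getElem_finRange, Fin.cast_mk, e1]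
      rw [e2]
      refine ⟨?_, by simp⟩
      unfold tolS
      rw [if_neg (by omega), if_neg (by omega), if_pos (by omega)]
      simp only [stol]
      rw [card_sum2, ← hd, ← loN_eq, hj', ← two_mul]
      rfl
    · obtain ⟨q, rfl⟩ : ∃ q, r = N + N + q := ⟨r - (N + N), by omega⟩
      have h3 : q < N + N := by omega
      obtain ⟨j, hj⟩ := (finSumFinEquiv (m := N) (n := N)).surjective ⟨q, h3⟩
      have hj' : ((finSumFinEquiv j : Fin (N + N)) : ℕ) = q := by rw [hj]
      have e1 : (finSumFinEquiv.symm (⟨q, h3⟩ : Fin (N + N))) = j := by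
        rw [← hj, Equiv.symm_apply_apply]
      have e2 : (modL N N)[N + N + q + 1 + 1] = some (some (Sum.inr j)) := by
        unfold modL
        rw [List.getElem_cons_succ, List.getElem_cons_succ,
          List.getElem_append_right (by simp)]
        simp only [List.length_map, List.length_finRange, Nat.add_sub_cancel_left,
          List.getElem_map, List.getElem_finRange, Fin.cast_mk, e1]
      rw [e2]
      refine ⟨?_, by simp⟩
      unfold tolS
      rw [if_neg (by omega), if_neg (by omega), if_neg (by omega)]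
      simp only [stol]
      have e3 : N + N + q + 1 + 1 - 2 - 2 * N = q := by omega
      rw [e3, card_sum2, ← hd, ← hiS_eq, hj', ← two_mul]

/-! ### The numbers of the models -/

theorem blkS_lt {N j : ℕ} (hN : 1 ≤ N) (h : j < offS N) : blkS j < N := by
  unfold blkS
  rw [Nat.sqrt_lt]
  unfold offS at h
  have h1 : 2 * N ^ 2 = 2 * (N * N) := by ring
  have h2 : 1 ≤ N * N := Nat.mul_pos hN hN
  omega

theorem blkS_add {N r : ℕ} (h : r < 4 * N + 2) : blkS (offS N + r) = N := by
  unfold blkS offS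
  have e : (2 * N ^ 2 + 1 + r - 1) / 2 = N * N + r / 2 := by
    have : 2 * N ^ 2 = 2 * (N * N) := by ring
    omega
  rw [e]
  exact Nat.sqrt_add_eq N (by omega)

theorem remS_lt (i : ℕ) : i - offS (blkS i) < 4 * blkS i + 2 := by
  have h1 := Nat.lt_succ_sqrt ((i - 1) / 2)
  unfold offS
  change (i - 1) / 2 < (blkS i + 1) * (blkS i + 1) at h1
  have h2 : (blkS i + 1) * (blkS i + 1) = blkS i ^ 2 + 2 * blkS i + 1 := by ring
  omega

/-- the system with all incidences -/
theorem symPar_all (N : ℕ) :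
    SymPar (Fin N ⊕ Fin N) (offS N) (hS N) (ZS N) (WS N) (bigLQ (QS N) N)
      (cuS N (fun _ _ => true)) clo (chiQ (QS N)) :=
  symPar N _ (fun y => ⟨y, by
    rw [mem_incC]⟩)

theorem tolS_two (N r : ℕ) (hr : r < 4 * N + 2) : DS N ≤ 2 * tolS N r + 1 := by
  obtain ⟨i, -, h2, -⟩ := modS_getElem N r hr
  rw [← h2, DS_eq]
  have hDo := DS_odd N
  rw [DS_eq] at hDo
  exact (symPar_all N).two_ftol (by omega) (Sum.inr i)

theorem DS_ge (N : ℕ) : 25 ≤ DS N := by
  have h1 : 24 * (2 * N + 1) * hS N * LS N = 24 * ((2 * N + 1) * hS N * LS N) := by ring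
  have h2 : 1 ≤ (2 * N + 1) * hS N * LS N :=
    Nat.mul_pos (Nat.mul_pos (by omega) (Nat.succ_pos _)) (LS_pos N)
  have h3 : 25 ≤ WS N := by
    unfold WS
    omega
  unfold DS
  calc 25 ≤ 1 * WS N * 1 := by omega
    _ ≤ (2 * N + 1) * WS N * LS N := Nat.mul_le_mul (Nat.mul_le_mul_right _ (by omega)) (LS_pos N)

theorem denSI_ge (i : ℕ) : 25 ≤ denSI i := DS_ge _

theorem tolSI_two (i : ℕ) : denSI i ≤ 2 * tolSI i + 1 := tolS_two _ _ (remS_lt i)

theorem tolSI_pos (i : ℕ) : 0 < tolSI i := by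
  have h1 := denSI_ge i
  have h2 := tolSI_two i
  omega

theorem wtS_pos (i : ℕ) : 0 < wtS i := by
  unfold wtS
  have h1 : (0 : ℚ) < denSI i := by exact_mod_cast (by have := denSI_ge i; omega : 0 < denSI i)
  have h2 : (0 : ℚ) < tolSI i := by exact_mod_cast tolSI_pos i
  positivity

theorem wtS_le (i : ℕ) : wtS i ≤ (3 : ℚ) ^ (blkS i + 1) := by
  unfold wtS
  rw [pow_succ]
  refine mul_le_mul_of_nonneg_left ?_ (by positivity)
  have h2 : (0 : ℚ) < tolSI i := by exact_mod_cast tolSI_pos i
  rw [div_le_iff₀ h2]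
  have h3 := denSI_ge i
  have h4 := tolSI_two i
  exact_mod_cast (by omega : denSI i ≤ 3 * tolSI i)

theorem Wstar_le {N j : ℕ} (hN : 1 ≤ N) (h : j < offS N) (x : ℝ) :
    Wstar j x ≤ (3 : ℝ) ^ N * |x| := by
  unfold Wstar
  refine mul_le_mul_of_nonneg_right ?_ (abs_nonneg x)
  have h1 := wtS_le j
  have h2 : (3 : ℚ) ^ (blkS j + 1) ≤ (3 : ℚ) ^ N :=
    pow_le_pow_right₀ (by norm_num) (blkS_lt hN h)
  exact_mod_cast h1.trans h2

theorem isDevFun_abs {w : ℝ} (hw : 0 < w) : IsDevFun (fun x => w * |x|) := by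
  refine ⟨?_, by simp, fun x hx => mul_pos hw (abs_pos.2 hx)⟩
  have h1 : ConvexOn ℝ Set.univ (fun x : ℝ => |x|) := by
    refine ⟨convex_univ, fun x _ y _ s t hs ht _ => ?_⟩
    simp only [smul_eq_mul]
    refine (abs_add_le _ _).trans (le_of_eq ?_)
    rw [abs_mul, abs_mul, abs_of_nonneg hs, abs_of_nonneg ht]
  exact h1.smul hw.le

theorem isDevFun_Wstar (i : ℕ) : IsDevFun (Wstar i) :=
  isDevFun_abs (by exact_mod_cast wtS_pos i)

/-- the deviation functions of the models, weighted problem -/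
noncomputable def wFS (N : ℕ) : Fin (offS N) ⊕ Model (Fin N ⊕ Fin N) → ℝ → ℝ :=
  mF2 (fun j : Fin (offS N) => Wstar j) ((3 : ℝ) ^ N) (hS N) (ZS N) (WS N) (bigLQ (QS N) N) clo
    (chiQ (QS N))

theorem Wstar_eq (N k : ℕ) (hk : k < (modS N).length) : wFS N ((modS N)[k]) = Wstar k := by
  have hk' := hk
  rw [length_modS] at hk'
  by_cases h : k < offS N
  · have e : (modS N)[k] = Sum.inl ⟨k, h⟩ := by
      unfold modS
      rw [List.getElem_append_left (by simpa using h)]
      simp
    rw [e]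
    rfl
  · obtain ⟨r, rfl⟩ : ∃ r, k = offS N + r := ⟨k - offS N, by omega⟩
    have hr : r < 4 * N + 2 := by omega
    obtain ⟨i, h1, h2, -⟩ := modS_getElem N r hr
    rw [h1]
    funext x
    change (3 : ℝ) ^ N * (((bigD2 (Fin N ⊕ Fin N) (WS N) (bigLQ (QS N) N) : ℕ) : ℝ) /
      (stolN N i : ℝ)) * |x| = Wstar (offS N + r) x
    rw [h2, ← DS_eq]
    unfold Wstar wtS tolSI denSI
    rw [blkS_add hr, Nat.add_sub_cancel_left]
    push_cast
    rfl

/-- the demands are positive -/
theorem demS_pos (N : ℕ) (inc : ℕ → ℕ → Bool) (hcov : ∀ y, ∃ x, y ∈ incC N N inc x) :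
    ∀ i, 0 < wdem2 (offS N) (WS N) (bigLQ (QS N) N) (cuS N inc) i := by
  have H := symPar N inc hcov
  have hL := H.hL
  have hW := H.hW
  have hW0 : 0 < WS N := by omega
  have hWc : offS N + 1 < WS N := by
    have : offS N + 1 ≤ (Fintype.card (Fin N ⊕ Fin N) + 1) * (offS N + 1) :=
      Nat.le_mul_of_pos_left _ (by omega)
    omega
  rintro (j | _ | _ | j | j)
  · exact Nat.one_pos
  · exact Nat.one_pos
  · simp only [wdem2]
    have : WS N ≤ WS N * bigLQ (QS N) N := Nat.le_mul_of_pos_right _ hL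
    omega
  · simp only [wdem2]
    refine Nat.mul_pos hW0 ?_
    have := H.hhi j
    omega
  · simp only [wdem2]
    have := H.hu j
    exact Nat.mul_pos hW0 (by omega)

/-- the equivalence of the numbers of the list with the models -/
theorem symEquiv (N : ℕ) (inc : ℕ → ℕ → Bool) :
    ∃ σ : Fin (demN N inc).length ≃ Fin (offS N) ⊕ Model (Fin N ⊕ Fin N),
      (∀ i, wdem2 (offS N) (WS N) (bigLQ (QS N) N) (cuS N inc) (σ i) = (demN N inc).get i) ∧
      (∀ i : Fin (demN N inc).length, ∃ h : (i : ℕ) < (modS N).length, σ i = (modS N)[(i : ℕ)]) ∧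
      (∀ i : Fin (demN N inc).length, (i : ℕ) = offS N ↔ σ i = Sum.inr none) := by
  rw [demN_eq]
  obtain ⟨σ, hσ⟩ := list_equiv (modS N) (wdem2 (offS N) (WS N) (bigLQ (QS N) N) (cuS N inc))
    (modS_nodup N) (mem_modS N)
  refine ⟨σ, fun i => ?_, fun i => ⟨lt_of_lt_of_eq i.isLt (List.length_map _), hσ i⟩, ?_⟩
  · rw [hσ, List.get_eq_getElem, List.getElem_map]
  · have hlt : offS N < ((modS N).map (wdem2 (offS N) (WS N) (bigLQ (QS N) N)
        (cuS N inc))).length := by
      rw [List.length_map, length_modS]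
      omega
    have hz : σ ⟨offS N, hlt⟩ = Sum.inr none := by
      rw [hσ]
      unfold modS
      simp only
      rw [List.getElem_append_right (by simp)]
      simp [modL]
    intro i
    constructor
    · intro h
      rw [← hz]
      congr 1
      exact Fin.ext h
    · intro h
      have := σ.injective (h.trans hz.symm)
      rw [this]

theorem demN_basic (N : ℕ) (inc : ℕ → ℕ → Bool) (hcov : ∀ y, ∃ x, y ∈ incC N N inc x) :
    demN N inc ≠ [] ∧ (∀ x ∈ demN N inc, 0 < x) ∧ total (demN N inc).get = DS N := by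
  obtain ⟨σ, hd, -, -⟩ := symEquiv N inc
  refine ⟨?_, fun x hx => ?_, ?_⟩
  · rw [demN_eq]
    intro h
    have := congrArg List.length h
    rw [List.length_map, length_modS, List.length_nil] at this
    omega
  · rw [demN_eq, List.mem_map] at hx
    obtain ⟨i, -, rfl⟩ := hx
    exact demS_pos N inc hcov i
  · rw [← total_equiv σ hd, (symPar N inc hcov).total, DS_eq]

theorem symW_main (N : ℕ) (hN : 1 ≤ N) (inc : ℕ → ℕ → Bool)
    (hcov : ∀ y, ∃ x, y ∈ incC N N inc x) (S : ℕ → Fin (demN N inc).length)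
    (hopt : IsOptimalMax (demN N inc).get (fun i => Wstar i) S) :
    (S ((DS N + 1) / 2) : ℕ) = offS N ↔ ¬ HasExactCover (incC N N inc) := by
  obtain ⟨σ, hd, hσ, h0⟩ := symEquiv N inc
  have H := symPar N inc hcov
  have hF : ∀ i, wFS N (σ i) = Wstar (i : ℕ) := by
    intro i
    obtain ⟨h, h'⟩ := hσ i
    rw [h']
    exact Wstar_eq N i h
  have h1 := isOptimalMax_equiv σ hd hF S hopt
  have hL := LS_pos N
  have hh : 2 ≤ hS N := by
    unfold hS
    have : 1 ≤ N ^ 2 := Nat.pow_pos hN
    omega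
  have hh1 : 1 ≤ hS N := by omega
  have h2 := sym_max H (by rw [card_sum2, ← two_mul, ← LS_eq]; exact le_rfl) (by
      unfold WS ZS
      have e1 : 24 * (2 * N + 1) * hS N * LS N = 24 * ((2 * N + 1) * hS N * LS N) := by ring
      have e2 : 8 * (2 * (2 * N + 1) * LS N) = 16 * ((2 * N + 1) * LS N) := by ring
      have e3 : (2 * N + 1) * LS N ≤ (2 * N + 1) * hS N * LS N :=
        Nat.mul_le_mul_right _ (Nat.le_mul_of_pos_right _ hh1)
      have e4 : 1 ≤ (2 * N + 1) * LS N := Nat.mul_pos (by omega) hL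
      omega) hh _ (by positivity) (fun j x => Wstar_le hN j.isLt x) _ h1
  rw [sol_iffS, ← DS_eq] at h2
  exact (h0 _).trans h2

end Pool.Agent.JIT
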