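import Pool.Agent.Lib_MP_033923_np.SymWin

set_option autoImplicit false

/-!
# The middle position in sequences for window systems with symmetric tolerances
-/

namespace Pool.Agent.JIT

open Finset

variable {P : Type} [Fintype P]

/-- `x` copies among the first `k` positions respect the tolerance `a` on both sides -/
def Within (D d a x k : ℕ) : Prop := d * k ≤ D * x + a ∧ D * x ≤ d * k + a

theorem Within.mono {D d a b x k : ℕ} (h : Within D d a x k) (hab : a ≤ b) : Within D d b x k :=
  ⟨h.1.trans (by omega), h.2.trans (by omega)⟩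

section window

variable {c h Z W L : ℕ} {u lo hi : P → ℕ} (H : SymPar P c h Z W L u lo hi)

include H

/-- If the window conditions have no solution then all tolerances can be respected. -/
theorem sym_all [DecidableEq P] (hno : ¬ ∃ q, Sol L u lo hi q) :
    ∃ S, IsSeq (wdem2 c W L u) S ∧ ∀ i : Model P, ∀ k ∈ Icc 1 (bigD2 P W L),
      Within (bigD2 P W L) (wdem2 c W L u (Sum.inr i))
        (stol h Z W L ((bigD2 P W L - 1) / 2) lo hi i) (produced S (Sum.inr i) k) k := by
  have hD := H.D_pos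
  have hDo := H.hDo
  refine exists_sym H (by omega) (by omega) (fun t t' h1 h2 ht ht' hlt => ?_)
  have hv : bigD2 P W L < t + t' := by omega
  obtain ⟨o1, o2, -⟩ := oth_sum H ((bigD2 P W L - 1) / 2) ht ht' hv
  obtain ⟨-, o2', -⟩ := oth_sum H ((bigD2 P W L - 1) / 2) ht' ht (by omega)
  refine lt_of_le_of_ne o1 (fun heq => ?_)
  rcases hlt with hlt | hlt
  · exact hno (o2 heq hlt)
  · refine hno (o2' ?_ hlt)
    rw [Nat.add_comm t' t, ← heq]
    refine Finset.sum_congr rfl (fun i _ => ?_)
    unfold ex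
    rw [Nat.add_comm]

/-- The special model can always be placed at a distance of at most `Z` from the middle. -/
theorem sym_near [DecidableEq P] : ∃ S, IsSeq (wdem2 c W L u) S ∧ ∀ i : Model P,
    ∀ k ∈ Icc 1 (bigD2 P W L), Within (bigD2 P W L) (wdem2 c W L u (Sum.inr i))
        (stol h Z W L ((bigD2 P W L - 1) / 2 + Z) lo hi i) (produced S (Sum.inr i) k) k := by
  have hD := H.D_pos
  have hDo := H.hDo
  have hh := H.h1
  have hZD : 2 * Z + 1 ≤ bigD2 P W L := by
    have hWL : W * L ≤ bigD2 P W L := by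
      unfold bigD2
      rw [Nat.mul_assoc]
      exact Nat.le_mul_of_pos_left _ (by omega)
    have h1 : 1 * (4 * Z + 2) ≤ h * (4 * Z + 2) := Nat.mul_le_mul_right _ hh
    have := H.hM
    omega
  refine exists_sym H (by omega) (by omega) (fun t t' h1 h2 ht ht' hlt => ?_)
  have hv : bigD2 P W L < t + t' := by omega
  obtain ⟨-, -, o3⟩ := oth_sum H ((bigD2 P W L - 1) / 2 + Z) ht ht' hv
  exact o3 (by omega) (by omega)

omit H in
/-- A special model which respects the tolerance `(D - 1) / 2` is in the middle. -/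
theorem special_mid {D : ℕ} (hD : 3 ≤ D) (hDo : D % 2 = 1) {S : ℕ → Fin c ⊕ Model P}
    [DecidableEq P]
    (hw : ∀ k ∈ Icc 1 D, Within D 1 ((D - 1) / 2) (produced S (Sum.inr none) k) k) :
    S ((D + 1) / 2) = Sum.inr none := by
  have h1 := hw ((D - 1) / 2) (mem_Icc.2 ⟨by omega, by omega⟩)
  have h2 := hw ((D + 1) / 2) (mem_Icc.2 ⟨by omega, by omega⟩)
  have e : (D + 1) / 2 = (D - 1) / 2 + 1 := by omega
  have h3 := produced_succ S (Sum.inr none) ((D - 1) / 2)
  rw [← e] at h3
  by_contra hne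
  rw [if_neg hne, Nat.add_zero] at h3
  rw [h3] at h2
  obtain ⟨x, hx⟩ : ∃ x, produced S (Sum.inr none) ((D - 1) / 2) = x := ⟨_, rfl⟩
  rw [hx] at h1 h2
  unfold Within at h1 h2
  rcases Nat.eq_zero_or_pos x with h4 | h4
  · rw [h4] at h2
    omega
  · have h5 : D * 1 ≤ D * x := Nat.mul_le_mul_left _ h4
    omega

/-! ### Tight positions -/

omit H in
/-- a pair at a solution -/
theorem pair_tight {K W L β u lo hi q t δ y1 y2 D : ℕ} (hDe : (K + 1) * W * L = D)
    (hu : u < L) (hW : 1 ≤ W)
    (hhiD : (K + 1) * W * hi + β ≤ D) (hδ : δ < β) (hβD : β ≤ D)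
    (ht : t = (K + 1) * q) (hq1 : lo ≤ (u * q) % L) (hq2 : (u * q) % L ≤ hi)
    (h1 : W * u * t ≤ D * y1 + (D + (K + 1) * W * lo - β + δ))
    (h2 : W * (L - u) * t ≤ D * y2 + (D - (K + 1) * W * hi - β + δ)) : q ≤ y1 + y2 := by
  have hmod := Nat.div_add_mod (u * q) L
  obtain ⟨A, hA⟩ : ∃ A, u * q / L = A := ⟨_, rfl⟩
  obtain ⟨r, hr⟩ : ∃ r, u * q % L = r := ⟨_, rfl⟩
  rw [hA, hr] at hmod
  rw [hr] at hq1 hq2
  have hWK : 0 < W * (K + 1) := Nat.mul_pos hW (by omega)
  -- lower model
  have f1 : u * q < L * (y1 + 1) + lo := by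
    have e1 : W * (K + 1) * (u * q) < W * (K + 1) * (L * (y1 + 1) + lo) := by
      have e2 : W * (K + 1) * (u * q) = W * u * t := by rw [ht]; ring
      have e3 : W * (K + 1) * (L * (y1 + 1) + lo) = D * y1 + D + (K + 1) * W * lo := by
        rw [← hDe]
        ring
      rw [e2, e3]
      omega
    exact Nat.lt_of_mul_lt_mul_left e1
  -- upper model
  have f2 : (L - u) * q + hi < L * (y2 + 1) := by
    have e1 : W * (K + 1) * ((L - u) * q + hi) < W * (K + 1) * (L * (y2 + 1)) := by
      have e2 : W * (K + 1) * ((L - u) * q + hi) = W * (L - u) * t + (K + 1) * W * hi := by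
        rw [ht]
        ring
      have e3 : W * (K + 1) * (L * (y2 + 1)) = D * y2 + D := by
        rw [← hDe]
        ring
      rw [e2, e3]
      omega
    exact Nat.lt_of_mul_lt_mul_left e1
  have f3 : L * A < L * (y1 + 1) := by omega
  have f4 : A < y1 + 1 := Nat.lt_of_mul_lt_mul_left f3
  have f5 : L * q < L * (y2 + 1 + A) := by
    have e1 : (L - u) * q + u * q = L * q := by
      rw [← Nat.add_mul, Nat.sub_add_cancel hu.le]
    rw [Nat.mul_add L (y2 + 1) A]
    omega
  have f6 : q < y2 + 1 + A := Nat.lt_of_mul_lt_mul_left f5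
  omega

omit H in
/-- the filler near the middle -/
theorem filler_tight {K M h Z q t ρ y D : ℕ} (hDe : (K + 1) * M = D) (hM : 2 * h ≤ M)
    (hhD : h * (2 * Z + 1) ≤ D) (ht : t = (K + 1) * q) (hmid : 2 * t + 1 ≤ D + Z)
    (hρ : ρ ≤ h * Z) (hh : 1 ≤ h)
    (h1 : (M - 2 * h) * t ≤ D * y + (D - h * (2 * Z + 1) + ρ)) : q ≤ y + h := by
  have e1 : (M - 2 * h) * t + h * (2 * t) = D * q := by
    have e2 : (M - 2 * h) * t + 2 * h * t = M * t := by
      rw [← Nat.add_mul, Nat.sub_add_cancel hM]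
    have e3 : h * (2 * t) = 2 * h * t := by ring
    have e4 : M * t = D * q := by rw [ht, ← hDe]; ring
    rw [e3, e2, e4]
  have e5 : h * (2 * t + 1) ≤ h * (D + Z) := Nat.mul_le_mul_left _ hmid
  have e6 : h * (2 * t + 1) = h * (2 * t) + h := by ring
  have e7 : h * (D + Z) = h * D + h * Z := by ring
  have e8 : h * (2 * Z + 1) = 2 * (h * Z) + h := by ring
  have e9 : D * q < D * (y + h + 1) := by
    have e10 : D * (y + h + 1) = D * y + h * D + D := by ring
    rw [e10]
    omega
  have := Nat.lt_of_mul_lt_mul_left e9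
  omega

/-- If the window conditions have a solution and the models other than the special one nearly
respect their tolerances then the special model is not in the middle. -/
theorem sym_not [DecidableEq P] (hZ : 2 * (Fintype.card P + 1) * L ≤ Z) {δ ρ : ℕ}
    (hδ : 2 * δ < W + 1) (hρ : ρ ≤ h * Z) (hsol : ∃ q, Sol L u lo hi q)
    {S : ℕ → Fin c ⊕ Model P} (hS : IsSeq (wdem2 c W L u) S)
    (hf : ∀ k ∈ Icc 1 (bigD2 P W L), Within (bigD2 P W L) (wdem2 c W L u (Sum.inr (some none)))
        (stol h Z W L 0 lo hi (some none) + ρ) (produced S (Sum.inr (some none)) k) k)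
    (hp : ∀ i : P ⊕ P, ∀ k ∈ Icc 1 (bigD2 P W L),
      Within (bigD2 P W L) (wdem2 c W L u (Sum.inr (some (some i))))
        (stol h Z W L 0 lo hi (some (some i)) + δ)
        (produced S (Sum.inr (some (some i))) k) k) :
    S ((bigD2 P W L + 1) / 2) ≠ Sum.inr none := by
  have hD := H.D_pos
  have hT := H.total
  have hDo := H.hDo
  have hh := H.h1
  have hWo := H.hWo
  obtain ⟨q0, hq0⟩ := hsol
  obtain ⟨D, hDe⟩ : ∃ D, bigD2 P W L = D := ⟨_, rfl⟩
  obtain ⟨K, hK⟩ : ∃ K, Fintype.card P = K := ⟨_, rfl⟩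
  have hDe' : (K + 1) * W * L = D := by rw [← hDe, ← hK]; rfl
  have hDe'' : (K + 1) * (W * L) = D := by rw [← hDe']; ring
  have hWL : W * L ≤ D := by
    rw [← hDe'']
    exact Nat.le_mul_of_pos_left _ (by omega)
  have hW1 : 1 ≤ W := by omega
  have hM := H.hM
  have hM4 : h * (4 * Z + 2) = 2 * (h * (2 * Z + 1)) := by ring
  have hM2 : h * (4 * Z + 2) = 4 * (h * Z) + 2 * h := by ring
  have hZh : Z ≤ h * Z := Nat.le_mul_of_pos_left _ hh
  rw [hK] at hZ
  rw [hDe] at hD hT hDo hf hp ⊢
  -- the position `t`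
  have hL := H.hL
  obtain ⟨n0, hn0⟩ : ∃ n0, ((D + 1) / 2 + K) / (K + 1) = n0 := ⟨_, rfl⟩
  have hn1 : (D + 1) / 2 ≤ (K + 1) * n0 := by
    have h1 := Nat.div_add_mod ((D + 1) / 2 + K) (K + 1)
    have h2 := Nat.mod_lt ((D + 1) / 2 + K) (show 0 < K + 1 by omega)
    rw [hn0] at h1
    omega
  have hn2 : (K + 1) * n0 ≤ (D + 1) / 2 + K := by
    rw [← hn0]
    exact Nat.mul_div_le _ _
  obtain ⟨q, hq⟩ : ∃ q, n0 + (q0 + (L - 1) * n0) % L = q := ⟨_, rfl⟩
  have hqmod : q ≡ q0 [MOD L] := by
    rw [← hq]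
    have h1 : n0 + (q0 + (L - 1) * n0) % L ≡ n0 + (q0 + (L - 1) * n0) [MOD L] :=
      Nat.ModEq.add_left _ (Nat.mod_modEq _ _)
    refine h1.trans ?_
    have h2 : n0 + (q0 + (L - 1) * n0) = q0 + L * n0 := by
      obtain ⟨l, rfl⟩ : ∃ l, L = l + 1 := ⟨L - 1, by omega⟩
      rw [Nat.add_sub_cancel]
      ring
    rw [h2]
    exact (Nat.modEq_iff_dvd' (Nat.le_add_right _ _)).2 ⟨n0, by omega⟩ |>.symm
  have hqr : (q0 + (L - 1) * n0) % L < L := Nat.mod_lt _ hL
  obtain ⟨t, ht⟩ : ∃ t, (K + 1) * q = t := ⟨_, rfl⟩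
  have ht1 : (D + 1) / 2 ≤ t := by
    have : (K + 1) * n0 ≤ (K + 1) * q := Nat.mul_le_mul_left _ (by omega)
    omega
  have ht2 : t + 1 ≤ (D + 1) / 2 + (K + 1) * L := by
    have h1 : (K + 1) * (q + 1) ≤ (K + 1) * (n0 + L) := Nat.mul_le_mul_left _ (by omega)
    have h2 : (K + 1) * (q + 1) = (K + 1) * q + (K + 1) := by ring
    have h3 : (K + 1) * (n0 + L) = (K + 1) * n0 + (K + 1) * L := by ring
    omega
  have hZ2 : 2 * ((K + 1) * L) ≤ Z := by
    have : 2 * (K + 1) * L = 2 * ((K + 1) * L) := by ring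
    omega
  have hmid : 2 * t + 1 ≤ D + Z := by omega
  have htD : t < D := by omega
  -- the position `s`
  obtain ⟨s, hs⟩ : ∃ s, D - t = s := ⟨_, rfl⟩
  have hs1 : 1 ≤ s := by omega
  have hsm : s + 1 ≤ (D + 1) / 2 := by omega
  have htI : t ∈ Icc 1 D := mem_Icc.2 ⟨by omega, by omega⟩
  have hsI : s ∈ Icc 1 D := mem_Icc.2 ⟨hs1, by omega⟩
  have hsol : ∀ j, lo j ≤ (u j * q) % L ∧ (u j * q) % L ≤ hi j := by
    intro j
    have h1 : u j * q % L = u j * q0 % L := hqmod.mul_left (u j)
    rw [h1]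
    exact hq0 j
  -- reflection
  have hrefl : ∀ (i : Fin c ⊕ Model P) (a : ℕ),
      Within D (wdem2 c W L u i) a (produced S i s) s →
      wdem2 c W L u i * t ≤ D * (wdem2 c W L u i - produced S i s) + a := by
    intro i a hw
    have h1 : produced S i s ≤ wdem2 c W L u i := by
      have h2 := hS i
      rw [hT] at h2
      rw [← h2]
      exact produced_mono S i (show s ≤ D by omega)
    obtain ⟨d, hd⟩ : ∃ d, wdem2 c W L u i = d := ⟨_, rfl⟩
    obtain ⟨x, hx⟩ : ∃ x, produced S i s = x := ⟨_, rfl⟩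
    rw [hd, hx] at hw
    rw [hd, hx] at h1
    rw [hd, hx]
    have h3 := hw.2
    have e1 : D * (d - x) + D * x = D * d := by rw [← Nat.mul_add, Nat.sub_add_cancel h1]
    have e2 : d * t + d * s = D * d := by
      rw [← Nat.mul_add, Nat.mul_comm D d]
      congr 1
      omega
    omega
  -- bounds for the pairs
  have hpair : ∀ j, q ≤ produced S (Sum.inr (some (some (Sum.inl j)))) t +
        produced S (Sum.inr (some (some (Sum.inr j)))) t ∧
      q ≤ (W * u j - produced S (Sum.inr (some (some (Sum.inl j)))) s) +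
        (W * (L - u j) - produced S (Sum.inr (some (some (Sum.inr j)))) s) := by
    intro j
    have hhi := H.hhi j
    have hu := H.hu j
    rw [hK] at hhi
    have hhiD : (K + 1) * W * hi j + (W + 1) / 2 ≤ D := by
      have h3 : W * (2 * (K + 1) * hi j + 2) ≤ W * L := Nat.mul_le_mul_left _ (by omega)
      have e1 : W * (2 * (K + 1) * hi j + 2) = 2 * ((K + 1) * W * hi j) + 2 * W := by ring
      omega
    have hWD : (W + 1) / 2 ≤ D := by
      have : W ≤ W * L := Nat.le_mul_of_pos_right _ hL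
      omega
    have key := fun y1 y2 => pair_tight (K := K) (W := W) (L := L) (β := (W + 1) / 2)
      (u := u j) (lo := lo j) (hi := hi j) (q := q) (t := t) (δ := δ) (y1 := y1) (y2 := y2)
      (D := D) hDe' hu hW1 hhiD (by omega) hWD ht.symm (hsol j).1 (hsol j).2
    have a1 := (hp (Sum.inl j) t htI).1
    have a2 := (hp (Sum.inr j) t htI).1
    have b1 := hrefl _ _ (hp (Sum.inl j) s hsI)
    have b2 := hrefl _ _ (hp (Sum.inr j) s hsI)
    simp only [wdem2, stol, hDe, hK] at a1 a2 b1 b2
    exact ⟨key _ _ a1 a2, key _ _ b1 b2⟩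
  -- bounds for the filler
  have hfill : q ≤ produced S (Sum.inr (some none)) t + h ∧
      q ≤ (W * L - 2 * h - produced S (Sum.inr (some none)) s) + h := by
    have e1 : W * L - 1 - c = W * L - 2 * h := by
      have := H.hc
      omega
    have key := fun y => filler_tight (K := K) (M := W * L) (h := h) (Z := Z) (q := q) (t := t)
      (ρ := ρ) (y := y) (D := D) hDe'' (by omega) (by omega) ht.symm hmid hρ hh
    have a1 := (hf t htI).1
    have b1 := hrefl _ _ (hf s hsI)
    simp only [wdem2, stol, hDe, e1] at a1 b1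
    exact ⟨key _ a1, key _ b1⟩
  -- sums
  have hst := sum_produced S t
  have hss := sum_produced S s
  rw [Fintype.sum_sum_type, Fintype.sum_option, Fintype.sum_option, Fintype.sum_sum_type,
    ← Finset.sum_add_distrib] at hst hss
  have s1 : K * q ≤ ∑ j, (produced S (Sum.inr (some (some (Sum.inl j)))) t +
      produced S (Sum.inr (some (some (Sum.inr j)))) t) := by
    rw [← hK, ← smul_eq_mul, ← Finset.card_univ, ← Finset.sum_const]
    exact Finset.sum_le_sum (fun j _ => (hpair j).1)
  have s2 : K * q ≤ ∑ j, ((W * u j - produced S (Sum.inr (some (some (Sum.inl j)))) s) +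
        (W * (L - u j) - produced S (Sum.inr (some (some (Sum.inr j)))) s)) := by
    rw [← hK, ← smul_eq_mul, ← Finset.card_univ, ← Finset.sum_const]
    exact Finset.sum_le_sum (fun j _ => (hpair j).2)
  have hle : ∀ i, produced S i s ≤ wdem2 c W L u i := by
    intro i
    have h2 := hS i
    rw [hT] at h2
    rw [← h2]
    exact produced_mono S i (show s ≤ D by omega)
  have s3 : ∑ j, ((W * u j - produced S (Sum.inr (some (some (Sum.inl j)))) s) +
        (W * (L - u j) - produced S (Sum.inr (some (some (Sum.inr j)))) s)) +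
      ∑ j, (produced S (Sum.inr (some (some (Sum.inl j)))) s +
      produced S (Sum.inr (some (some (Sum.inr j)))) s) = K * (W * L) := by
    rw [← Finset.sum_add_distrib, ← hK, ← smul_eq_mul, ← Finset.card_univ, ← Finset.sum_const]
    refine Finset.sum_congr rfl (fun j _ => ?_)
    have h1 := hle (Sum.inr (some (some (Sum.inl j))))
    have h2 := hle (Sum.inr (some (some (Sum.inr j))))
    simp only [wdem2] at h1 h2
    have h3 : W * u j + W * (L - u j) = W * L := by
      rw [← Nat.mul_add, Nat.add_sub_cancel' (H.hu j).le]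
    omega
  have h4 := hle (Sum.inr (some none))
  have e1 : W * L - 1 - c = W * L - 2 * h := by
    have := H.hc
    omega
  simp only [wdem2, e1] at h4
  -- the other models
  have m1 : ∀ i, produced S i s ≤ produced S i t := fun i => produced_mono S i (by omega)
  have m2 : ∑ j : Fin c, produced S (Sum.inl j) s ≤ ∑ j : Fin c, produced S (Sum.inl j) t :=
    Finset.sum_le_sum (fun j _ => m1 _)
  have m3 := m1 (Sum.inr none)
  have e2 : (K + 1) * q = K * q + q := by ring
  have e3 : D = K * (W * L) + W * L := by rw [← hDe'']; ring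
  intro hmidS
  have g1 : produced S (Sum.inr none) s + 1 ≤ produced S (Sum.inr none) t := by
    have e : (D + 1) / 2 = ((D + 1) / 2 - 1) + 1 := by omega
    have h1 := produced_succ S (Sum.inr none) ((D + 1) / 2 - 1)
    rw [← e, if_pos hmidS] at h1
    have h2 := produced_mono S (Sum.inr none) (show s ≤ (D + 1) / 2 - 1 by omega)
    have h3 := produced_mono S (Sum.inr none) ht1
    omega
  omega

end window

end Pool.Agent.JIT
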