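import Pool.Agent.Lib_MP_033923_np.SymHard

set_option autoImplicit false

/-!
# The parameters of the fixed sequences are computed in polynomial time
-/

namespace Pool.Agent.JIT

open Pool.Agent.PartSep Pool.Agent.PartSep.TM Pool.Agent.PartSep.TM.Rep Pool.Agent.PartSep.CL
  Pool.Agent.Lib_MP_8cd8c6_lc N487b59b3

set_option synthInstance.maxSize 2000

theorem poly_ratio (A B : ℕ → ℕ) (hB : ∀ i, 0 < B i)
    (hA' : ∀ {i : List Sym → ℕ}, FP i → FPB (fun w => A (i w)))
    (hB' : ∀ {i : List Sym → ℕ}, FP i → FPB (fun w => B (i w))) :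
    N68a2faeb.IsPolyTime (fun c : List Bool => (A c.length : ℚ) / (B c.length : ℚ)) := by
  have hi : FP (fun w : List Sym => (unb w).length) := FP.length (fp_unb FP.id)
  have hA := hA' hi
  have hB0 := hB' hi
  have hgcd := fp_gcd hA hB0
  refine FP.toTM2 (αΓ := Bool) (βΓ := Bool) bs sb bs sb_bs
    (fp_codQ (FP.const true) (fp_divB hA hgcd) (fp_divB hB0 hgcd)) (fun c => ?_)
  have e1 : ((N487b59b3.toEncoding (α := List Bool)).encode c).map bs =
      (bitEncode c).map bs := rfl
  have e2 : ((N487b59b3.toEncoding (α := ℚ)).encode ((A c.length : ℚ) / (B c.length : ℚ))).map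
      bs = (bitEncode (sgQ true ((A c.length : ℚ) / (B c.length : ℚ)))).map bs := rfl
  rw [e1, e2, encode_frac true (A c.length) (hB c.length)]
  rw [unb_code, List.length_map]

theorem poly_nat (A : ℕ → ℕ) (hA' : ∀ {i : List Sym → ℕ}, FP i → FPB (fun w => A (i w))) :
    N68a2faeb.IsPolyTime (fun c : List Bool => A c.length) := by
  have hi : FP (fun w : List Sym => (unb w).length) := FP.length (fp_unb FP.id)
  refine FP.toTM2 (αΓ := Bool) (βΓ := Bool) bs sb bs sb_bs (FP.digs (hA' hi)) (fun c => ?_)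
  have e1 : ((N487b59b3.toEncoding (α := List Bool)).encode c).map bs =
      (bitEncode c).map bs := rfl
  rw [e1]
  simp only
  rw [unb_code, List.length_map]
  exact (encode_nat _).symm

/-- the tolerances -/
def aS (i : ℕ) : ℚ := (tolSI i : ℚ) / (denSI i : ℚ)

theorem aS_pos (i : ℕ) : 0 < aS i := by
  unfold aS
  have h1 : (0 : ℚ) < denSI i := by exact_mod_cast (by have := denSI_ge i; omega : 0 < denSI i)
  have h2 : (0 : ℚ) < tolSI i := by exact_mod_cast tolSI_pos i
  positivity

theorem poly_aS : N68a2faeb.IsPolyTime (fun c : List Bool => aS c.length) :=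
  poly_ratio tolSI denSI (fun i => by have := denSI_ge i; omega) (fun hi => fpb_tolSI hi)
    (fun hi => fpb_denSI hi)

theorem poly_penSI : N68a2faeb.IsPolyTime (fun c : List Bool => penSI c.length) :=
  poly_nat penSI (fun hi => fpb_penSI hi)

theorem Sstar_form (i : ℕ) (x : ℝ) :
    Sstar i x = |x| + (penSI i : ℝ) * max 0 (|x| - ((aS i : ℚ) : ℝ)) := by
  unfold Sstar hinge2 aS
  push_cast
  rfl

end Pool.Agent.JIT
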