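import Pool.Agent.Lib_MP_033923_np.Window2b
import Pool.Agent.Lib_MP_033923_np.SymArith

set_option autoImplicit false

/-!
# Window systems with symmetric tolerances
-/

namespace Pool.Agent.JIT

open Finset

variable {P : Type} [Fintype P]

omit [Fintype P] in
/-- the number needed of the special model -/
theorem nd_one {D a t : ℕ} (ha : a < D) (ht : t ≤ D) :
    nd D 1 a t = if a < t then 1 else 0 := by
  unfold nd
  rw [one_mul]
  split_ifs with h1 h2 h2
  · exact Nat.div_eq_of_lt_le (by omega) (by omega)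
  · exact Nat.div_eq_of_lt (by omega)
  · rfl
  · omega

omit [Fintype P] in
theorem nd_free {D t : ℕ} (hD : 0 < D) : nd D 1 D t = if t < D then 0 else 1 := by
  unfold nd
  rw [one_mul]
  split_ifs with h1
  · exact Nat.div_eq_of_lt (by omega)
  · rfl

omit [Fintype P] in
/-- an empty interval needs nothing -/
theorem nd_empty {D d a t t' : ℕ} (hD : 0 < D) (ha : D ≤ 2 * a + 1) (h : t + t' = D) :
    nd D d a t + nd D d a t' ≤ d := by
  have n1 := nd_le hD d a t
  have n2 := nd_le hD d a t'
  have z : nd D d a 0 = 0 := by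
    unfold nd
    rw [if_pos hD, Nat.mul_zero, Nat.zero_sub, Nat.zero_add]
    exact Nat.div_eq_of_lt (by omega)
  rcases Nat.eq_zero_or_pos t with h0 | h0
  · rw [h0, z]
    omega
  rcases Nat.eq_zero_or_pos t' with h0' | h0'
  · rw [h0', z]
    omega
  rcases Nat.eq_zero_or_pos (nd D d a t) with h1 | h1
  · omega
  rcases Nat.eq_zero_or_pos (nd D d a t') with h1' | h1'
  · omega
  have b1 := nd_bound hD (by omega) h1
  have b2 := nd_bound hD (by omega) h1'
  have e1 : d * t + d * t' = D * d := by
    rw [← Nat.mul_add, h, Nat.mul_comm]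
  have e2 : D * (nd D d a t + nd D d a t') < D * (d + 1) := by
    rw [Nat.mul_add, Nat.mul_add]
    omega
  have := Nat.lt_of_mul_lt_mul_left e2
  omega

/-- The tolerances on both sides, multiplied by `D`; the special model has the tolerance `a`. -/
def stol (h Z W L a : ℕ) (lo hi : P → ℕ) : Model P → ℕ
  | none => a
  | some none => bigD2 P W L - h * (2 * Z + 1)
  | some (some (Sum.inl j)) => bigD2 P W L + (Fintype.card P + 1) * W * lo j - (W + 1) / 2
  | some (some (Sum.inr j)) => bigD2 P W L - (Fintype.card P + 1) * W * hi j - (W + 1) / 2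

/-- with the additional models, whose tolerance is `D` -/
def ftol {c : ℕ} (h Z W L a : ℕ) (lo hi : P → ℕ) : Fin c ⊕ Model P → ℕ
  | Sum.inl _ => bigD2 P W L
  | Sum.inr i => stol h Z W L a lo hi i

/-- The conditions on the parameters. -/
structure SymPar (P : Type) [Fintype P] (c h Z W L : ℕ) (u lo hi : P → ℕ) : Prop where
  hL : 1 ≤ L
  hu : ∀ j, u j < L
  hlo : ∀ j, lo j ≤ u j
  hhi : ∀ j, 2 * (Fintype.card P + 1) * hi j < u j
  hW : (Fintype.card P + 1) * (c + 1) < W
  hWo : W % 2 = 1
  hc : c + 1 = 2 * h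
  hM : h * (4 * Z + 2) ≤ W * L
  hDo : bigD2 P W L % 2 = 1

section window

variable {c h Z W L : ℕ} {u lo hi : P → ℕ} (H : SymPar P c h Z W L u lo hi)

include H

theorem SymPar.h1 : 1 ≤ h := by
  have := H.hc
  omega

theorem SymPar.total [DecidableEq P] : total (wdem2 c W L u) = bigD2 P W L :=
  total_eq2 W L u H.hL H.hu H.hW

theorem SymPar.D_pos : 0 < bigD2 P W L := one_le_bigD2 W L H.hL H.hW

theorem SymPar.two_ftol {a : ℕ} (ha2 : bigD2 P W L ≤ 2 * a + 1) (i : Fin c ⊕ Model P) :
    bigD2 P W L ≤ 2 * ftol h Z W L a lo hi i + 1 := by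
  have hD := H.D_pos
  have hWL : W * L ≤ bigD2 P W L := by
    unfold bigD2
    rw [Nat.mul_assoc]
    exact Nat.le_mul_of_pos_left _ (by omega)
  have hWL0 : W ≤ W * L := Nat.le_mul_of_pos_right _ H.hL
  rcases i with i | _ | _ | j | j
  · simp only [ftol]
    omega
  · simp only [ftol, stol]
    exact ha2
  · simp only [ftol, stol]
    have e4 : h * (4 * Z + 2) = 2 * (h * (2 * Z + 1)) := by ring
    have := H.hM
    omega
  · simp only [ftol, stol]
    omega
  · simp only [ftol, stol]
    have h1 := H.hhi j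
    have h2 := H.hu j
    have h3 : W * (2 * (Fintype.card P + 1) * hi j + 2) ≤ W * L :=
      Nat.mul_le_mul_left _ (by omega)
    have e1 : W * (2 * (Fintype.card P + 1) * hi j + 2) =
        2 * ((Fintype.card P + 1) * W * hi j) + 2 * W := by ring
    omega

/-- the number of copies of model `i` needed in an interval -/
def ex (c h Z W L a : ℕ) (u lo hi : P → ℕ) (t t' : ℕ) (i : Fin c ⊕ Model P) : ℕ :=
  nd (bigD2 P W L) (wdem2 c W L u i) (ftol h Z W L a lo hi i) t +
    nd (bigD2 P W L) (wdem2 c W L u i) (ftol h Z W L a lo hi i) t' - wdem2 c W L u i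

/-- the copies needed of the models other than the special one -/
theorem oth_sum (a : ℕ) {t t' : ℕ} (ht : t ≤ bigD2 P W L) (ht' : t' ≤ bigD2 P W L)
    (hv : bigD2 P W L < t + t') :
    ∑ i : Option (P ⊕ P), ex c h Z W L a u lo hi t t' (Sum.inr (some i)) ≤
      t + t' - bigD2 P W L ∧
    (∑ i : Option (P ⊕ P), ex c h Z W L a u lo hi t t' (Sum.inr (some i)) =
      t + t' - bigD2 P W L → t < bigD2 P W L → ∃ q, Sol L u lo hi q) ∧
    (bigD2 P W L + 2 * Z + 1 ≤ 2 * t → bigD2 P W L + 2 * Z + 1 ≤ 2 * t' →
      ∑ i : Option (P ⊕ P), ex c h Z W L a u lo hi t t' (Sum.inr (some i)) <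
        t + t' - bigD2 P W L) := by
  have hβ : W + 1 = 2 * ((W + 1) / 2) := by
    have := H.hWo
    omega
  have hβ1 : 1 ≤ (W + 1) / 2 := by omega
  have hpair := fun j => pair_two (K := Fintype.card P) hβ hβ1 H.hL (H.hu j) (H.hlo j) (H.hhi j)
    ht ht' hv
  have e0 : bigD2 P W L = (Fintype.card P + 1) * (W * L) := by
    unfold bigD2
    rw [Nat.mul_assoc]
  have hfill := filler_two (K := Fintype.card P) H.hM H.h1 (t := t) (t' := t')
    (by rw [← e0]; exact ht) (by rw [← e0]; exact ht') (by rw [← e0]; exact hv.le)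
  have hfar := filler_far_two (K := Fintype.card P) H.hM H.h1 (t := t) (t' := t')
    (by rw [← e0]; exact ht) (by rw [← e0]; exact ht')
  rw [← e0] at hfill hfar
  -- the sum
  set v := t + t' - bigD2 P W L with hvd
  have efill : ex c h Z W L a u lo hi t t' (Sum.inr (some none)) =
      nd (bigD2 P W L) (W * L - 2 * h) (bigD2 P W L - h * (2 * Z + 1)) t +
        nd (bigD2 P W L) (W * L - 2 * h) (bigD2 P W L - h * (2 * Z + 1)) t' -
          (W * L - 2 * h) := by
    have e1 : W * L - 1 - c = W * L - 2 * h := by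
      have := H.hc
      omega
    unfold ex
    simp only [wdem2, ftol, stol, e1]
  rw [← efill] at hfill hfar
  rw [Fintype.sum_option, Fintype.sum_sum_type, ← Finset.sum_add_distrib]
  have hp1 : ∀ j, (Fintype.card P + 1) *
      (ex c h Z W L a u lo hi t t' (Sum.inr (some (some (Sum.inl j)))) +
        ex c h Z W L a u lo hi t t' (Sum.inr (some (some (Sum.inr j))))) ≤ v :=
    fun j => (hpair j).1
  obtain ⟨f, hf⟩ : ∃ f, ex c h Z W L a u lo hi t t' (Sum.inr (some none)) = f := ⟨_, rfl⟩
  obtain ⟨w, hw⟩ : ∃ w : P → ℕ, w = fun j =>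
    (ex c h Z W L a u lo hi t t' (Sum.inr (some (some (Sum.inl j)))) +
        ex c h Z W L a u lo hi t t' (Sum.inr (some (some (Sum.inr j))))) := ⟨_, rfl⟩
  have hp1' : ∀ j, (Fintype.card P + 1) * w j ≤ v := by
    intro j
    rw [hw]
    exact hp1 j
  have hsum : (Fintype.card P + 1) * ∑ j, w j ≤ Fintype.card P * v := by
    rw [Finset.mul_sum]
    refine (Finset.sum_le_sum (fun j _ => hp1' j)).trans (le_of_eq ?_)
    rw [Finset.sum_const, smul_eq_mul, Finset.card_univ]
  have hgoal : ∑ j : P, (ex c h Z W L a u lo hi t t' (Sum.inr (some (some (Sum.inl j)))) +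
      ex c h Z W L a u lo hi t t' (Sum.inr (some (some (Sum.inr j))))) = ∑ j, w j := by
    rw [hw]
  rw [hgoal, hf]
  rw [hf] at hfill hfar
  have e1 : (Fintype.card P + 1) * v = Fintype.card P * v + v := by ring
  have hK : 0 < Fintype.card P + 1 := Nat.succ_pos _
  refine ⟨?_, fun heq htD => ?_, fun h1 h2 => ?_⟩
  · have e2 : (Fintype.card P + 1) * (f + ∑ j, w j) ≤ (Fintype.card P + 1) * v := by
      rw [e1, Nat.mul_add]
      omega
    exact Nat.le_of_mul_le_mul_left e2 hK
  · have e2 : (Fintype.card P + 1) * f + (Fintype.card P + 1) * ∑ j, w j =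
        (Fintype.card P + 1) * v := by rw [← Nat.mul_add, heq]
    have e4 : (Fintype.card P + 1) * ∑ j, w j = Fintype.card P * v := by omega
    have e5 : ∀ j, (Fintype.card P + 1) * w j = v := by
      intro j
      have h1 : ∑ j, (Fintype.card P + 1) * w j = ∑ _j : P, v := by
        rw [← Finset.mul_sum, e4, Finset.sum_const, smul_eq_mul, Finset.card_univ]
      exact (Finset.sum_eq_sum_iff_of_le (fun j _ => hp1' j)).1 h1 j (Finset.mem_univ j)
    refine ⟨t / (Fintype.card P + 1), fun j => ?_⟩
    obtain ⟨q, hq, h3, h4⟩ := (hpair j).2 (by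
      have := e5 j
      rw [hw] at this
      exact this) htD
    have h5 : t / (Fintype.card P + 1) = q := by
      rw [hq]
      exact Nat.mul_div_cancel_left q hK
    rw [h5]
    exact ⟨h3, h4⟩
  · have h3 := hfar h1 h2
    have e2 : (Fintype.card P + 1) * (f + ∑ j, w j) < (Fintype.card P + 1) * v := by
      rw [e1, Nat.mul_add]
      omega
    exact Nat.lt_of_mul_lt_mul_left e2

/-- Sequences with prescribed tolerances exist if the models other than the special one leave a
slot in all intervals which need the special model. -/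
theorem exists_sym [DecidableEq P] {a : ℕ} (ha : a < bigD2 P W L) (ha2 : bigD2 P W L ≤ 2 * a + 1)
    (key : ∀ t t', a < t → a < t' → t ≤ bigD2 P W L → t' ≤ bigD2 P W L →
      (t < bigD2 P W L ∨ t' < bigD2 P W L) →
      ∑ i : Option (P ⊕ P), ex c h Z W L a u lo hi t t' (Sum.inr (some i)) <
        t + t' - bigD2 P W L) :
    ∃ S, IsSeq (wdem2 c W L u) S ∧ ∀ i : Model P, ∀ k ∈ Icc 1 (bigD2 P W L),
      wdem2 c W L u (Sum.inr i) * k ≤ bigD2 P W L * produced S (Sum.inr i) k +
        stol h Z W L a lo hi i ∧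
      bigD2 P W L * produced S (Sum.inr i) k ≤ wdem2 c W L u (Sum.inr i) * k +
        stol h Z W L a lo hi i := by
  have hT := H.total
  have hD := H.D_pos
  obtain ⟨S, h1, h2⟩ := exists_two_sided (wdem2 c W L u) (ftol h Z W L a lo hi)
    (by rw [hT]; exact hD) (fun t t' ht ht' hv => by
    rw [hT] at ht ht' hv ⊢
    change ∑ i, ex c h Z W L a u lo hi t t' i ≤ _
    rcases Nat.eq_or_lt_of_le hv with hv0 | hv0
    · -- empty interval
      rw [Finset.sum_eq_zero (fun i _ => ?_)]
      · exact Nat.zero_le _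
      · exact Nat.sub_eq_zero_of_le (nd_empty hD (H.two_ftol ha2 i) (by omega))
    · rw [Fintype.sum_sum_type, Fintype.sum_option]
      have efree : ∀ j : Fin c, ex c h Z W L a u lo hi t t' (Sum.inl j) =
          if t < bigD2 P W L ∨ t' < bigD2 P W L then 0 else 1 := by
        intro j
        unfold ex
        simp only [wdem2, ftol]
        rw [nd_free hD, nd_free hD]
        split_ifs <;> omega
      have espec : ex c h Z W L a u lo hi t t' (Sum.inr none) =
          if a < t ∧ a < t' then 1 else 0 := by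
        unfold ex
        simp only [wdem2, ftol, stol]
        rw [nd_one ha ht, nd_one ha ht']
        split_ifs <;> omega
      obtain ⟨o1, -, -⟩ := oth_sum H a ht ht' hv0
      by_cases hlt : t < bigD2 P W L ∨ t' < bigD2 P W L
      · rw [Finset.sum_eq_zero (fun j _ => by rw [efree j, if_pos hlt]), Nat.zero_add, espec]
        split_ifs with hs
        · have := key t t' hs.1 hs.2 ht ht' hlt
          omega
        · rw [Nat.zero_add]
          exact o1
      · -- the whole interval
        have e1 : t = bigD2 P W L := by omega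
        have e2 : t' = bigD2 P W L := by omega
        have e3 : ∀ i, ex c h Z W L a u lo hi t t' i = wdem2 c W L u i := by
          intro i
          unfold ex nd
          rw [if_neg (by omega), if_neg (by omega)]
          omega
        have e4 : ∑ i, wdem2 c W L u i = bigD2 P W L := hT
        rw [Fintype.sum_sum_type, Fintype.sum_option] at e4
        simp only [e3]
        rw [e4]
        omega)
  rw [hT] at h2
  exact ⟨S, h1, fun i k hk => h2 (Sum.inr i) k hk⟩

end window

end Pool.Agent.JIT
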