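import Pool.Agent.Lib_MP_033923_lc.Exist
import Pool.Agent.Lib_MP_033923_np.GWin
import Pool.Agent.Lib_MP_033923_np.Transfer

set_option autoImplicit false

/-!
# Sequences with prescribed tolerances on both sides
-/

namespace Pool.Agent.JIT

open Finset

/-- the number of copies needed in the first `t` positions -/
def nd (D d a t : ℕ) : ℕ := if t < D then (d * t - a + (D - 1)) / D else d

section nd

variable {D : ℕ} (hD : 0 < D)

include hD

theorem nd_le (d a t : ℕ) : nd D d a t ≤ d := by
  unfold nd
  split_ifs with h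
  · rw [← Nat.lt_succ_iff, Nat.div_lt_iff_lt_mul hD]
    have h1 : d * t ≤ d * D := Nat.mul_le_mul_left _ h.le
    rw [Nat.succ_mul]
    omega
  · exact le_rfl

/-- an upper bound for the number of copies needed -/
theorem nd_bound {d a t : ℕ} (ht : t < D) (h : 0 < nd D d a t) :
    D * nd D d a t + a ≤ d * t + (D - 1) := by
  unfold nd at h ⊢
  rw [if_pos ht] at h ⊢
  have h1 := Nat.mul_div_le (d * t - a + (D - 1)) D
  have h2 : a < d * t := by
    by_contra hcon
    rw [Nat.sub_eq_zero_of_le (Nat.not_lt.1 hcon), Nat.zero_add,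
      Nat.div_eq_of_lt (by omega)] at h
    exact absurd h (lt_irrefl _)
  omega

theorem nd_pos_iff {d a t : ℕ} (ht : t < D) : 0 < nd D d a t ↔ a < d * t := by
  unfold nd
  rw [if_pos ht]
  constructor
  · intro h
    by_contra hcon
    rw [Nat.sub_eq_zero_of_le (Nat.not_lt.1 hcon), Nat.zero_add,
      Nat.div_eq_of_lt (by omega)] at h
    exact absurd h (lt_irrefl _)
  · intro h
    rw [Nat.div_pos_iff]
    omega

/-- the upper bound of the windows is the reflected lower bound -/
theorem reflect (d a : ℕ) {s : ℕ} (hs : s ≤ D) :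
    (if s = 0 then 0 else min d ((s * d + a) / D)) + nd D d a (D - s) = d := by
  unfold nd
  split_ifs with h1 h2 h2
  · omega
  · rw [Nat.zero_add]
  · -- the general case
    have e1 : d * (D - s) = d * D - s * d := by
      rw [Nat.mul_sub, Nat.mul_comm s d]
    rw [e1]
    have hsd : s * d ≤ d * D := by
      rw [Nat.mul_comm d D]
      exact Nat.mul_le_mul_right _ hs
    rcases Nat.le_total d ((s * d + a) / D) with h3 | h3
    · rw [min_eq_left h3]
      have h4 := (Nat.le_div_iff_mul_le hD).1 h3
      rw [Nat.sub_eq_zero_of_le (by omega), Nat.zero_add, Nat.div_eq_of_lt (by omega),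
        Nat.add_zero]
    · rw [min_eq_right h3]
      obtain ⟨q, hq⟩ : ∃ q, (s * d + a) / D = q := ⟨_, rfl⟩
      rw [hq] at h3 ⊢
      have h5 := Nat.div_add_mod (s * d + a) D
      have h6 := Nat.mod_lt (s * d + a) hD
      rw [hq] at h5
      have h7 : (d * D - s * d - a + (D - 1)) / D = d - q := by
        apply Nat.div_eq_of_lt_le
        · rw [Nat.sub_mul]
          have h8 : q * D ≤ d * D := Nat.mul_le_mul_right _ h3
          rw [Nat.mul_comm D q] at h5
          omega
        · rw [Nat.succ_mul, Nat.sub_mul]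
          have h8 : q * D ≤ d * D := Nat.mul_le_mul_right _ h3
          rw [Nat.mul_comm D q] at h5
          omega
      rw [h7]
      omega
  · omega

end nd

/-- Sequences which respect the tolerances `α i` on both sides exist if in every interval there is
room for the copies needed. -/
theorem exists_two_sided {ι : Type} [Fintype ι] [DecidableEq ι] (d α : ι → ℕ)
    (hD : 0 < total d)
    (hall : ∀ t t', t ≤ total d → t' ≤ total d → total d ≤ t + t' →
      ∑ i, (nd (total d) (d i) (α i) t + nd (total d) (d i) (α i) t' - d i) ≤ t + t' - total d) :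
    ∃ S, IsSeq d S ∧ ∀ i, ∀ k ∈ Icc 1 (total d),
      d i * k ≤ total d * produced S i k + α i ∧ total d * produced S i k ≤ d i * k + α i := by
  classical
  obtain ⟨n, hn⟩ : ∃ n, Fintype.card ι = n := ⟨_, rfl⟩
  let e : Fin n ≃ ι := (Fintype.equivFinOfCardEq hn).symm
  have hn0 : 0 < n := by
    rw [← hn, Fintype.card_pos_iff]
    by_contra hcon
    rw [not_nonempty_iff] at hcon
    unfold total at hD
    rw [Finset.univ_eq_empty, Finset.sum_empty] at hD
    exact lt_irrefl _ hD
  let I : Gen.WL := List.ofFn (fun j : Fin n => (d (e j), α (e j), α (e j)))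
  have hlen : I.length = n := by simp [I]
  have hent : ∀ j : Fin n, Gen.ent I j = (d (e j), α (e j), α (e j)) := by
    intro j
    simp only [Gen.ent, I, List.getElem?_ofFn, j.isLt, dif_pos, Option.getD_some, Fin.eta]
  have hT : total (fun j => d (e j)) = total d := (total_equiv e (fun _ => rfl)).symm
  have hDI : Gen.DI I = total d := by
    rw [← hT]
    exact (Gen.total_eq_DI hlen (fun j => by rw [hent])).symm
  have hHall : Gen.Hall I := by
    intro s t hst ht
    rw [hDI] at ht
    have h1 := hall t (total d - s) ht (Nat.sub_le _ _) (by omega)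
    have h2 : t + (total d - s) - total d = t - s := by omega
    rw [h2] at h1
    refine le_trans (le_of_eq ?_) h1
    rw [hlen, Finset.sum_range, ← Equiv.sum_comp e]
    refine Finset.sum_congr rfl (fun j _ => ?_)
    have e1 : Gen.LI I j t = nd (total d) (d (e j)) (α (e j)) t := by
      unfold Gen.LI nd
      rw [hent, hDI]
      simp only
      rw [Nat.mul_comm t]
    have e2 : Gen.UI I j s + nd (total d) (d (e j)) (α (e j)) (total d - s) = d (e j) := by
      have := reflect hD (d (e j)) (α (e j)) (s := s) (by omega)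
      unfold Gen.UI
      rw [hent, hDI]
      exact this
    rw [e1]
    have e3 := nd_le hD (d (e j)) (α (e j)) (total d - s)
    omega
  have hS : ∃ S : ℕ → Fin n, ∀ k, 1 ≤ k → k ≤ Gen.DI I →
      (S k : ℕ) = cls (arr n (Gen.LI I) (Gen.UI I)) (k - 1) % n :=
    ⟨fun k => ⟨cls (arr n (Gen.LI I) (Gen.UI I)) (k - 1) % n, Nat.mod_lt _ hn0⟩,
      fun _ _ _ => rfl⟩
  obtain ⟨S, hS⟩ := hS
  obtain ⟨h1, h2⟩ := Gen.queue_ok hlen (by rw [hDI]; exact hD) hn0 (d := fun j => d (e j))
    (fun j => by rw [hent]) hHall hS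
  refine ⟨fun k => e (S k), (isSeq_equiv e (fun _ => rfl) S).2 h1, fun i k hk => ?_⟩
  rw [mem_Icc] at hk
  obtain ⟨j, rfl⟩ := e.surjective i
  rw [produced_equiv]
  have h3 := h2 j k hk.1 (by rw [hDI]; exact hk.2)
  unfold Gen.Ok at h3
  rw [hent, hDI] at h3
  simp only at h3
  rw [Nat.mul_comm (d (e j)) k]
  exact ⟨h3.2, h3.1⟩

end Pool.Agent.JIT
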