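import Pool.Agent.Lib_MP_033923_np.Problem
import Pool.Agent.Lib_MP_033923_np.Queue

set_option autoImplicit false

/-!
# The windows of an instance of the maximum deviation problem
-/

namespace Pool.Agent.JIT

open Finset

/-- the entry of model `i` -/
def ent (I : Inst) (i : ℕ) : ℕ × ℕ × ℕ := I[i]?.getD (0, 0, 0)

/-- the total demand -/
def DI (I : Inst) : ℕ := ∑ i ∈ range I.length, (ent I i).1

/-- how far model `i` may be behind (in units of `1 / D`) when the deviation is at most `b / D` -/
def lag (t H b : ℕ) : ℕ := if b ≤ t then b else t + (b - t) / (1 + H)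

/-- the lower bounds -/
def LI (I : Inst) (b i q : ℕ) : ℕ :=
  if q < DI I then (q * (ent I i).1 - lag (ent I i).2.1 (ent I i).2.2 b + (DI I - 1)) / DI I
  else (ent I i).1

/-- the upper bounds -/
def UI (I : Inst) (b i s : ℕ) : ℕ :=
  if s = 0 then 0 else min (ent I i).1 ((s * (ent I i).1 + b) / DI I)

/-- Hall's condition -/
def Hall (I : Inst) (b : ℕ) : Prop :=
  ∀ s t, s ≤ t → t ≤ DI I → ∑ i ∈ range I.length, (LI I b i t - UI I b i s) ≤ t - s

theorem ent_eq (I : Inst) (i : Fin I.length) : ent I i = I.get i := by
  unfold ent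
  rw [List.getElem?_eq_getElem i.isLt]
  rfl

theorem total_dem (I : Inst) : total (dem I) = DI I := by
  unfold total DI
  rw [Finset.sum_range]
  refine Finset.sum_congr rfl (fun i _ => ?_)
  rw [ent_eq]
  rfl

theorem lag_iff (t H b l : ℕ) : l + H * (l - t) ≤ b ↔ l ≤ lag t H b := by
  unfold lag
  split_ifs with h
  · constructor
    · intro h1
      omega
    · intro h1
      rw [Nat.sub_eq_zero_of_le (h1.trans h)]
      omega
  · rcases le_total l t with h1 | h1
    · rw [Nat.sub_eq_zero_of_le h1]
      constructor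
      · intro _
        exact h1.trans (Nat.le_add_right _ _)
      · intro _
        omega
    · have e : l + H * (l - t) = t + (l - t) * (1 + H) := by
        obtain ⟨c, rfl⟩ := Nat.exists_eq_add_of_le h1
        rw [Nat.add_sub_cancel_left]
        ring
      rw [e]
      have h2 : (l - t) ≤ (b - t) / (1 + H) ↔ (l - t) * (1 + H) ≤ b - t :=
        Nat.le_div_iff_mul_le (by omega)
      constructor
      · intro h3
        have := h2.2 (by omega)
        omega
      · intro h3
        have := h2.1 (by omega)
        omega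

/-- the deviation as a multiple of `1 / D` -/
def devN (D d t H x k : ℕ) : ℕ :=
  if k * d ≤ D * x then D * x - k * d else (k * d - D * x) + H * (k * d - D * x - t)

theorem devN_le (D d t H x k b : ℕ) :
    devN D d t H x k ≤ b ↔ D * x ≤ k * d + b ∧ k * d ≤ D * x + lag t H b := by
  unfold devN
  split_ifs with h
  · constructor
    · intro h1
      exact ⟨by omega, by omega⟩
    · rintro ⟨h1, -⟩
      omega
  · rw [lag_iff]
    constructor
    · intro h1
      exact ⟨by omega, by omega⟩
    · rintro ⟨-, h1⟩
      omega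

theorem hinge_eq (D d t H x k : ℕ) (hD : 0 < D) :
    hinge ((t : ℝ) / D) H ((x : ℝ) - k * ((d : ℝ) / D)) = (devN D d t H x k : ℝ) / D := by
  have hD' : (0 : ℝ) < D := by exact_mod_cast hD
  have e1 : (x : ℝ) - k * ((d : ℝ) / D) = (D * x - k * d) / D := by
    field_simp
  rw [e1]
  unfold hinge devN
  split_ifs with h
  · have h1 : (k * d : ℝ) ≤ D * x := by exact_mod_cast h
    rw [Nat.cast_sub h]
    push_cast
    rw [abs_of_nonneg (div_nonneg (by linarith) hD'.le), max_eq_left]
    · ring
    · have : 0 ≤ (t : ℝ) / D := by positivity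
      have : 0 ≤ ((D : ℝ) * x - k * d) / D := div_nonneg (by linarith) hD'.le
      linarith
  · have h1 : (D * x : ℝ) < k * d := by
      have : D * x < k * d := by omega
      exact_mod_cast this
    rw [abs_of_neg (div_neg_of_neg_of_pos (by linarith) hD')]
    have e2 : (((k * d - D * x : ℕ) : ℝ)) = k * d - D * x := by
      rw [Nat.cast_sub (by omega)]
      push_cast
      ring
    rcases le_total (k * d - D * x) t with h2 | h2
    · rw [Nat.sub_eq_zero_of_le h2, max_eq_left]
      · push_cast
        rw [e2]
        ring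
      · have h3 : ((k * d - D * x : ℕ) : ℝ) ≤ t := by exact_mod_cast h2
        rw [e2] at h3
        have : (-((D : ℝ) * x - k * d)) / D ≤ t / D := by
          apply div_le_div_of_nonneg_right _ hD'.le
          linarith
        rw [neg_div] at this
        linarith
    · rw [max_eq_right]
      · push_cast
        rw [Nat.cast_sub h2, e2]
        field_simp
        ring
      · have h3 : (t : ℝ) ≤ ((k * d - D * x : ℕ) : ℝ) := by exact_mod_cast h2
        rw [e2] at h3
        have : (t : ℝ) / D ≤ (-((D : ℝ) * x - k * d)) / D := by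
          apply div_le_div_of_nonneg_right _ hD'.le
          linarith
        rw [neg_div] at this
        linarith

section inst

variable {I : Inst} (hD : 0 < DI I)

include hD

theorem LI_le (b i q : ℕ) : LI I b i q ≤ (ent I i).1 := by
  unfold LI
  split_ifs with h
  · rw [← Nat.lt_succ_iff, Nat.div_lt_iff_lt_mul hD]
    have h1 : q * (ent I i).1 ≤ DI I * (ent I i).1 := Nat.mul_le_mul_right _ h.le
    rw [Nat.succ_mul, mul_comm (ent I i).1]
    omega
  · exact le_rfl

theorem LI_iff {b i q x : ℕ} (hq : q < DI I) : LI I b i q ≤ x ↔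
    q * (ent I i).1 ≤ DI I * x + lag (ent I i).2.1 (ent I i).2.2 b := by
  unfold LI
  rw [if_pos hq, ← Nat.lt_succ_iff, Nat.div_lt_iff_lt_mul hD, Nat.succ_mul, mul_comm x]
  omega

/-- the windows of an instance -/
theorem windows {b : ℕ} (hn : 0 < I.length) (h : Hall I b) :
    Windows I.length (DI I) (LI I b) (UI I b) := by
  refine ⟨hn, fun i => ?_, fun i q => ?_, fun i => ?_, fun i s => ?_, fun i s => ?_, ?_, h⟩
  · unfold LI
    rw [if_pos hD, Nat.zero_mul, Nat.zero_sub, Nat.zero_add]
    exact Nat.div_eq_of_lt (by omega)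
  · by_cases h1 : q + 1 < DI I
    · unfold LI
      rw [if_pos (by omega), if_pos h1]
      apply Nat.div_le_div_right
      have : q * (ent I i).1 ≤ (q + 1) * (ent I i).1 := Nat.mul_le_mul_right _ (by omega)
      omega
    · have h2 : LI I b i (q + 1) = (ent I i).1 := by
        unfold LI
        rw [if_neg h1]
      rw [h2]
      exact LI_le hD b i q
  · unfold UI
    rw [if_pos rfl]
  · unfold UI
    rw [if_neg (by omega : ¬ s + 1 = 0)]
    split_ifs with h1
    · exact Nat.zero_le _
    · refine min_le_min le_rfl (Nat.div_le_div_right ?_)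
      have : s * (ent I i).1 ≤ (s + 1) * (ent I i).1 := Nat.mul_le_mul_right _ (by omega)
      omega
  · have h2 : LI I b i (DI I) = (ent I i).1 := by
      unfold LI
      rw [if_neg (lt_irrefl _)]
    rw [h2]
    unfold UI
    split_ifs with h1
    · exact Nat.zero_le _
    · exact min_le_left _ _
  · change _ = ∑ i ∈ range I.length, (ent I i).1
    refine Finset.sum_congr rfl (fun i _ => ?_)
    unfold LI
    rw [if_neg (lt_irrefl _)]

/-- a sequence with small deviations satisfies Hall's condition -/
theorem hall_of {b : ℕ} {x : ℕ → ℕ → ℕ} (h0 : ∀ i < I.length, x i 0 = 0)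
    (hd : ∀ i < I.length, x i (DI I) = (ent I i).1) (hm : ∀ i < I.length, Monotone (x i))
    (hs : ∀ t ≤ DI I, ∑ i ∈ range I.length, x i t = t)
    (hb : ∀ i < I.length, ∀ k, 1 ≤ k → k ≤ DI I →
      devN (DI I) (ent I i).1 (ent I i).2.1 (ent I i).2.2 (x i k) k ≤ b) : Hall I b := by
  intro s t hst ht
  have hlow : ∀ i < I.length, LI I b i t ≤ x i t := by
    intro i hi
    rcases Nat.lt_or_ge t (DI I) with h1 | h1
    · rcases Nat.eq_zero_or_pos t with rfl | h2
      · rw [LI_iff hD h1, Nat.zero_mul]
        exact Nat.zero_le _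
      · rw [LI_iff hD h1]
        exact ((devN_le _ _ _ _ _ _ _).1 (hb i hi t h2 h1.le)).2
    · have : t = DI I := by omega
      rw [this, hd i hi]
      exact LI_le hD b i _
  have hupp : ∀ i < I.length, x i s ≤ UI I b i s := by
    intro i hi
    unfold UI
    split_ifs with h1
    · rw [h1, h0 i hi]
    · refine le_min ?_ ?_
      · rw [← hd i hi]
        exact hm i hi (by omega)
      · rw [Nat.le_div_iff_mul_le hD, mul_comm]
        exact ((devN_le _ _ _ _ _ _ _).1 (hb i hi s (by omega) (by omega))).1
  calc ∑ i ∈ range I.length, (LI I b i t - UI I b i s)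
      ≤ ∑ i ∈ range I.length, (x i t - x i s) := by
        refine Finset.sum_le_sum (fun i hi => ?_)
        have h1 := hlow i (mem_range.1 hi)
        have h2 := hupp i (mem_range.1 hi)
        omega
    _ = t - s := by
        have h1 : ∑ i ∈ range I.length, (x i t - x i s) + ∑ i ∈ range I.length, x i s =
            ∑ i ∈ range I.length, x i t := by
          rw [← Finset.sum_add_distrib]
          refine Finset.sum_congr rfl (fun i hi => ?_)
          have := hm i (mem_range.1 hi) hst
          omega
        rw [hs s (by omega), hs t ht] at h1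
        omega

/-- the sequence of the queue has small deviations -/
theorem devN_le_of_bounds {b i k x : ℕ} (hk1 : 1 ≤ k) (hk : k ≤ DI I)
    (h1 : LI I b i k ≤ x) (h2 : x ≤ UI I b i k) :
    devN (DI I) (ent I i).1 (ent I i).2.1 (ent I i).2.2 x k ≤ b := by
  rw [devN_le]
  unfold UI at h2
  rw [if_neg (by omega)] at h2
  constructor
  · have := (Nat.le_div_iff_mul_le hD).1 (h2.trans (min_le_right _ _))
    rw [mul_comm]
    exact this
  · rcases Nat.lt_or_ge k (DI I) with h3 | h3
    · exact (LI_iff hD h3).1 h1
    · have hkD : k = DI I := by omega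
      have : (ent I i).1 ≤ x := by
        unfold LI at h1
        rwa [if_neg (by omega)] at h1
      rw [hkD]
      exact (Nat.mul_le_mul_left _ this).trans (Nat.le_add_right _ _)

end inst

/-- Hall's condition is monotone -/
theorem lag_mono (t H : ℕ) {b b' : ℕ} (h : b ≤ b') : lag t H b ≤ lag t H b' := by
  rw [← lag_iff]
  exact ((lag_iff t H b (lag t H b)).2 le_rfl).trans h

theorem hall_mono {I : Inst} {b b' : ℕ} (h : b ≤ b') (hH : Hall I b) : Hall I b' := by
  intro s t hst ht
  refine le_trans (Finset.sum_le_sum (fun i _ => ?_)) (hH s t hst ht)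
  have h1 : LI I b' i t ≤ LI I b i t := by
    unfold LI
    split_ifs
    · apply Nat.div_le_div_right
      have := lag_mono (ent I i).2.1 (ent I i).2.2 h
      omega
    · exact le_rfl
  have h2 : UI I b i s ≤ UI I b' i s := by
    unfold UI
    split_ifs
    · exact le_rfl
    · refine min_le_min le_rfl (Nat.div_le_div_right (by omega))
  omega

/-- a bound for which Hall's condition holds -/
def topB (I : Inst) : ℕ :=
  ∑ i ∈ range I.length, ((1 + (ent I i).2.2) * (DI I * DI I) + (ent I i).2.1)

theorem ent_le_DI {I : Inst} {i : ℕ} (hi : i < I.length) : (ent I i).1 ≤ DI I :=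
  Finset.single_le_sum (f := fun i => (ent I i).1) (fun _ _ => Nat.zero_le _) (mem_range.2 hi)

theorem hall_top {I : Inst} (hD : 0 < DI I) : Hall I (topB I) := by
  intro s t hst ht
  have key : ∀ i < I.length, (1 + (ent I i).2.2) * (DI I * DI I) + (ent I i).2.1 ≤ topB I :=
    fun i hi => Finset.single_le_sum
      (f := fun i => (1 + (ent I i).2.2) * (DI I * DI I) + (ent I i).2.1)
      (fun _ _ => Nat.zero_le _) (mem_range.2 hi)
  have hDD : ∀ i < I.length, DI I * DI I ≤ topB I := by
    intro i hi
    have h1 := key i hi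
    have h2 : DI I * DI I ≤ (1 + (ent I i).2.2) * (DI I * DI I) :=
      Nat.le_mul_of_pos_left _ (by omega)
    omega
  have hlow : ∀ i < I.length, t < DI I → LI I (topB I) i t = 0 := by
    intro i hi h1
    rw [← Nat.le_zero, LI_iff hD h1, Nat.mul_zero, Nat.zero_add]
    have h2 : t * (ent I i).1 ≤ DI I * DI I := Nat.mul_le_mul h1.le (ent_le_DI hi)
    refine h2.trans ?_
    rw [← lag_iff]
    have h3 : (ent I i).2.2 * (DI I * DI I - (ent I i).2.1) ≤ (ent I i).2.2 * (DI I * DI I) :=
      Nat.mul_le_mul_left _ (Nat.sub_le _ _)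
    have h4 := key i hi
    have h5 : (1 + (ent I i).2.2) * (DI I * DI I) = DI I * DI I +
      (ent I i).2.2 * (DI I * DI I) := by ring
    omega
  have hupp : ∀ i < I.length, 0 < s → UI I (topB I) i s = (ent I i).1 := by
    intro i hi h1
    unfold UI
    rw [if_neg (by omega)]
    apply min_eq_left
    rw [Nat.le_div_iff_mul_le hD]
    have h2 : (ent I i).1 * DI I ≤ DI I * DI I := Nat.mul_le_mul_right _ (ent_le_DI hi)
    have h3 := hDD i hi
    omega
  rcases Nat.lt_or_ge t (DI I) with h1 | h1
  · rw [Finset.sum_eq_zero (fun i hi => by rw [hlow i (mem_range.1 hi) h1, Nat.zero_sub])]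
    exact Nat.zero_le _
  · have htD : t = DI I := by omega
    rcases Nat.eq_zero_or_pos s with rfl | h2
    · calc ∑ i ∈ range I.length, (LI I (topB I) i t - UI I (topB I) i 0)
          ≤ ∑ i ∈ range I.length, (ent I i).1 :=
            Finset.sum_le_sum (fun i _ => (Nat.sub_le _ _).trans (LI_le hD _ _ _))
        _ = DI I := rfl
        _ = t - 0 := by omega
    · rw [Finset.sum_eq_zero (fun i hi => by
        rw [hupp i (mem_range.1 hi) h2]
        exact Nat.sub_eq_zero_of_le (LI_le hD _ _ _))]
      exact Nat.zero_le _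

end Pool.Agent.JIT
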