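import Pool.Agent.Lib_MP_033923_lc.Main
import Pool.Agent.Lib_MP_033923_np.Defs2

set_option autoImplicit false
set_option linter.unusedSectionVars false

/-!
# The needs of the models of window systems with additional models
-/

namespace Pool.Agent.JIT

open Finset

variable {P : Type} [Fintype P]

section window

variable {c : ℕ} (W L : ℕ) (u lo hi : P → ℕ)

variable (hL : 1 ≤ L) (hu : ∀ j, u j < L) (hlo : ∀ j, lo j ≤ u j)
  (hhi : ∀ j, (Fintype.card P + 1) * hi j < L)
  (hW : (Fintype.card P + 1) * (c + 1) < W)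

/-- the demands of the models of the window system -/
def mdem2 (c W L : ℕ) (u : P → ℕ) (i : Model P) : ℕ := wdem2 c W L u (Sum.inr i)

include hL hW

theorem W_pos2 : 1 ≤ W := by omega

theorem c_lt_W2 : c + 1 < W := by
  have : 1 * (c + 1) ≤ (Fintype.card P + 1) * (c + 1) := Nat.mul_le_mul_right _ (by omega)
  omega

theorem one_le_bigD2 : 1 ≤ bigD2 P W L := by
  have := W_pos2 (P := P) W L hL hW
  unfold bigD2
  exact Nat.mul_pos (Nat.mul_pos (by omega) (by omega)) hL

theorem filler_need2 (t : ℕ) :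
    (Fintype.card P + 1) * need (bigD2 P W L) (mdem2 c W L u) (wtol2 W L lo hi) (some none) t ≤ t := by
  have hD := one_le_bigD2 (P := P) W L hL hW
  rcases need_cases (bigD2 P W L) hD (mdem2 c W L u) (wtol2 W L lo hi) (some none) t with h | ⟨h1, h2⟩
  · rw [h, Nat.mul_zero]
    exact Nat.zero_le _
  · set y := need (bigD2 P W L) (mdem2 c W L u) (wtol2 W L lo hi) (some none) t with hy
    clear_value y
    simp only [mdem2, wdem2, wtol2] at h1 h2
    set K := Fintype.card P with hK
    clear_value K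
    have hRL : 1 ≤ W * L := Nat.mul_pos (by omega) hL
    have hDe : bigD2 P W L = K * (W * L) + W * L := by
      unfold bigD2
      rw [← hK]
      ring
    rw [hDe] at h2 hD
    obtain ⟨M, hM⟩ : ∃ M, W * L = M := ⟨_, rfl⟩
    have e1 : K * W * L = K * M := by rw [← hM]; ring
    rw [e1] at h2
    rw [hM] at h2 hRL hD
    have h3 : (M - 1 - c) * t ≤ M * t := Nat.mul_le_mul_right _ (by omega)
    have h4 : M * ((K + 1) * y) < M * (t + 1) := by
      have e2 : M * ((K + 1) * y) = (K * M + M) * y := by ring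
      rw [e2, Nat.mul_add]
      omega
    have := Nat.lt_of_mul_lt_mul_left h4
    omega

include hu hlo hhi

theorem pair_need2 (j : P) (t : ℕ) :
    (Fintype.card P + 1) *
      (need (bigD2 P W L) (mdem2 c W L u) (wtol2 W L lo hi) (some (some (Sum.inl j))) t +
       need (bigD2 P W L) (mdem2 c W L u) (wtol2 W L lo hi) (some (some (Sum.inr j))) t) ≤ t ∧
    ∀ q, 1 ≤ q → t = (Fintype.card P + 1) * q →
      need (bigD2 P W L) (mdem2 c W L u) (wtol2 W L lo hi) (some (some (Sum.inl j))) t +
       need (bigD2 P W L) (mdem2 c W L u) (wtol2 W L lo hi) (some (some (Sum.inr j))) t = q →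
      lo j ≤ (u j * q) % L ∧ (u j * q) % L ≤ hi j := by
  have hD := one_le_bigD2 (P := P) W L hL hW
  have c1 := need_cases (bigD2 P W L) hD (mdem2 c W L u) (wtol2 W L lo hi) (some (some (Sum.inl j))) t
  have c2 := need_cases (bigD2 P W L) hD (mdem2 c W L u) (wtol2 W L lo hi) (some (some (Sum.inr j))) t
  obtain ⟨y1, hy1⟩ : ∃ y, need (bigD2 P W L) (mdem2 c W L u) (wtol2 W L lo hi) (some (some (Sum.inl j))) t = y :=
    ⟨_, rfl⟩
  obtain ⟨y2, hy2⟩ : ∃ y, need (bigD2 P W L) (mdem2 c W L u) (wtol2 W L lo hi) (some (some (Sum.inr j))) t = y :=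
    ⟨_, rfl⟩
  rw [hy1] at c1 ⊢
  rw [hy2] at c2 ⊢
  simp only [mdem2, wdem2, wtol2] at c1 c2
  have hu' := hu j
  have hlo' := hlo j
  have hhi' := hhi j
  have hDe : bigD2 P W L = (Fintype.card P + 1) * W * L := rfl
  obtain ⟨K, hK⟩ : ∃ K, Fintype.card P = K := ⟨_, rfl⟩
  obtain ⟨v, hv⟩ : ∃ v, u j = v := ⟨_, rfl⟩
  obtain ⟨l, hl⟩ : ∃ l, lo j = l := ⟨_, rfl⟩
  obtain ⟨h, hh⟩ : ∃ h, hi j = h := ⟨_, rfl⟩
  obtain ⟨D, hDD⟩ : ∃ D, bigD2 P W L = D := ⟨_, rfl⟩
  rw [hDD] at hD c1 c2 hDe
  rw [hK] at c1 c2 hDe hhi' ⊢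
  rw [hv] at c1 c2 hu' hlo' ⊢
  rw [hl] at c1 hlo' ⊢
  rw [hh] at c2 hhi' ⊢
  clear hy1 hy2 hK hv hl hh hDD
  -- the two key inequalities
  have k1 : (y1 = 0) ∨ (K + 1) * (L * y1 + l) ≤ v * t := by
    rcases c1 with c1 | ⟨c1, c1'⟩
    · exact Or.inl c1
    · right
      have e1 : W * ((K + 1) * (L * y1 + l)) ≤ W * (v * t) := by
        have e2 : W * ((K + 1) * (L * y1 + l)) = D * y1 + (K + 1) * W * l := by
          rw [hDe]; ring
        have e3 : W * (v * t) = W * v * t := by ring
        rw [e2, e3]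
        omega
      exact Nat.le_of_mul_le_mul_left e1 (by omega)
  have k2 : (K + 1) * (L * y2) + v * t ≤ L * t + (K + 1) * h := by
    have e0 : v * t ≤ L * t := Nat.mul_le_mul_right _ hu'.le
    rcases c2 with c2 | ⟨c2, c2'⟩
    · rw [c2, Nat.mul_zero, Nat.mul_zero, Nat.zero_add]
      omega
    · have e1 : W * ((K + 1) * (L * y2)) ≤ W * ((L - v) * t + (K + 1) * h) := by
        have e2 : W * ((K + 1) * (L * y2)) = D * y2 := by
          rw [hDe]; ring
        have e3 : W * ((L - v) * t + (K + 1) * h)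
            = W * (L - v) * t + (K + 1) * W * h := by ring
        have e4 : (K + 1) * W * h < D := by
          rw [hDe]
          have : h < L := by
            have : h ≤ (K + 1) * h := Nat.le_mul_of_pos_left _ (by omega)
            omega
          exact Nat.mul_lt_mul_of_pos_left this (Nat.mul_pos (by omega) (by omega))
        rw [e2, e3]
        omega
      have e5 := Nat.le_of_mul_le_mul_left e1 (by omega)
      rw [Nat.sub_mul] at e5
      omega
  constructor
  · have h4 : L * ((K + 1) * (y1 + y2)) < L * (t + 1) := by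
      have e1 : L * ((K + 1) * (y1 + y2)) = (K + 1) * (L * y1) + (K + 1) * (L * y2) := by ring
      rw [e1, Nat.mul_add]
      rcases k1 with k1 | k1
      · rw [k1, Nat.mul_zero, Nat.mul_zero]
        omega
      · rw [Nat.mul_add] at k1
        omega
    have := Nat.lt_of_mul_lt_mul_left h4
    omega
  · intro q hq ht hyq
    have k3 : L * y1 + l ≤ v * q := by
      rcases k1 with k1 | k1
      · rw [k1, Nat.mul_zero, Nat.zero_add]
        exact hlo'.trans (Nat.le_mul_of_pos_right _ hq)
      · rw [ht] at k1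
        have e1 : v * ((K + 1) * q) = (K + 1) * (v * q) := by ring
        rw [e1] at k1
        exact Nat.le_of_mul_le_mul_left k1 (by omega)
    have k4 : v * q ≤ L * y1 + h := by
      rw [ht, ← hyq] at k2
      have e1 : (K + 1) * (v * (y1 + y2)) ≤ (K + 1) * (L * y1 + h) := by
        have e2 : v * ((K + 1) * (y1 + y2)) = (K + 1) * (v * (y1 + y2)) := by ring
        have e3 : L * ((K + 1) * (y1 + y2)) = (K + 1) * (L * y1) + (K + 1) * (L * y2) := by ring
        rw [e2, e3] at k2
        rw [Nat.mul_add (K + 1) (L * y1) h]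
        omega
      rw [← hyq]
      exact Nat.le_of_mul_le_mul_left e1 (by omega)
    have hhL : h < L := by
      have : h ≤ (K + 1) * h := Nat.le_mul_of_pos_left _ (by omega)
      omega
    have k5 : (v * q) % L = v * q - L * y1 := by
      have e1 : v * q = (v * q - L * y1) + L * y1 := by omega
      conv_lhs => rw [e1]
      rw [Nat.add_mul_mod_self_left]
      exact Nat.mod_eq_of_lt (by omega)
    rw [k5]
    omega

/-- The sum of the needs of all models but the special one. -/
theorem sum_need2 (t : ℕ) :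
    ∑ i : Option (P ⊕ P), need (bigD2 P W L) (mdem2 c W L u) (wtol2 W L lo hi) (some i) t ≤ t ∧
    (1 ≤ t → ∑ i : Option (P ⊕ P), need (bigD2 P W L) (mdem2 c W L u) (wtol2 W L lo hi) (some i) t = t →
      ∃ q, Sol L u lo hi q) := by
  have hf := filler_need2 W L u lo hi hL hW t
  have hp := fun j => pair_need2 W L u lo hi hL hu hlo hhi hW j t
  rw [Fintype.sum_option, Fintype.sum_sum_type, ← Finset.sum_add_distrib]
  set y0 := need (bigD2 P W L) (mdem2 c W L u) (wtol2 W L lo hi) (some none) t with hy0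
  clear_value y0
  set w : P → ℕ := fun j =>
      need (bigD2 P W L) (mdem2 c W L u) (wtol2 W L lo hi) (some (some (Sum.inl j))) t +
       need (bigD2 P W L) (mdem2 c W L u) (wtol2 W L lo hi) (some (some (Sum.inr j))) t with hw
  have hp1 : ∀ j, (Fintype.card P + 1) * w j ≤ t := fun j => (hp j).1
  have hsum : ∑ j, (Fintype.card P + 1) * w j ≤ Fintype.card P * t := by
    refine (Finset.sum_le_sum (fun j _ => hp1 j)).trans (le_of_eq ?_)
    rw [Finset.sum_const, smul_eq_mul, Finset.card_univ]
  rw [← Finset.mul_sum] at hsum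
  have hle : y0 + ∑ j, w j ≤ t := by
    have e1 : (Fintype.card P + 1) * t = Fintype.card P * t + t := by ring
    have e2 : (Fintype.card P + 1) * (y0 + ∑ j, w j) ≤ (Fintype.card P + 1) * t := by
      rw [e1, Nat.mul_add]
      omega
    exact Nat.le_of_mul_le_mul_left e2 (by omega)
  refine ⟨hle, fun ht heq => ?_⟩
  have e1 : (Fintype.card P + 1) * t = Fintype.card P * t + t := by ring
  have e2 : (Fintype.card P + 1) * y0 + (Fintype.card P + 1) * ∑ j, w j
      = (Fintype.card P + 1) * t := by rw [← Nat.mul_add, heq]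
  have e3 : (Fintype.card P + 1) * y0 = t := by omega
  have e4 : (Fintype.card P + 1) * ∑ j, w j = Fintype.card P * t := by omega
  have e5 : ∀ j, (Fintype.card P + 1) * w j = t := by
    intro j
    have h1 : ∑ j, (Fintype.card P + 1) * w j = ∑ _j : P, t := by
      rw [← Finset.mul_sum, e4, Finset.sum_const, smul_eq_mul, Finset.card_univ]
    exact (Finset.sum_eq_sum_iff_of_le (fun j _ => hp1 j)).1 h1 j (Finset.mem_univ j)
  have hq : 1 ≤ y0 := by
    rcases Nat.eq_zero_or_pos y0 with h | h
    · rw [h, Nat.mul_zero] at e3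
      omega
    · exact h
  refine ⟨y0, fun j => (hp j).2 y0 hq e3.symm ?_⟩
  have : (Fintype.card P + 1) * w j = (Fintype.card P + 1) * y0 := by rw [e5 j, e3]
  exact Nat.eq_of_mul_eq_mul_left (by omega) this

end window

end Pool.Agent.JIT
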